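import Pool.Agent.Lib.MP_9e8926_ag_U.CalA

/-!
# The ideals `I_e` and the `F`-pure threshold
-/

set_option autoImplicit false

noncomputable section

namespace FU

open IsLocalRing

variable {p : ℕ} [Fact p.Prime] {R K : Type*} [CommRing R] [IsDomain R] [IsLocalRing R]
  [Field K] [Algebra R K] [IsFractionRing R K] {r : ℕ} {P : Fin r → Ideal R} {c : Fin r → ℚ}

/-- Scale: `φ (d a) = u` for some `u ∈ R` (`IsCart.map_R`), `u ∉ 𝔪` is a unit of the local ring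
`R`; replace `a` by ` (u⁻¹) ^ (p ^ e) * a`. -/
theorem exists_cart_one (hS : SFR p K (maximalIdeal R) P c ⊤ 0) {d : R} (hd : d ≠ 0) :
    ∃ e : ℕ, 1 ≤ e ∧ ∃ φ : K →+ K, IsCart p P c e φ ∧ ∃ a : R, φ (algebraMap R K (d * a)) = 1 := by
  obtain ⟨e, he, φ, hφ, a, -, hne⟩ := hS d hd
  obtain ⟨u, hu⟩ := hφ.map_R (d * a)
  have hu1 : IsUnit u := by
    by_contra hcon
    exact hne u ((mem_maximalIdeal u).2 hcon) hu.symm
  obtain ⟨v, hv⟩ := hu1.exists_left_inv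
  refine ⟨e, he, φ, hφ, v ^ p ^ e * a, ?_⟩
  have h1 : algebraMap R K (d * (v ^ p ^ e * a)) =
      algebraMap R K v ^ p ^ e * algebraMap R K (d * a) := by
    simp only [map_mul, map_pow]
    ring
  rw [h1, hφ.1, ← hu, ← map_mul, hv, map_one]

/-- Take `φ` and `a` of `exists_cart_one` for `d = 1`; `ψ₀ x = φ (a x)` has `ψ₀ 1 = 1`; iterate
(`IsCart.comp`; for `k = 0` take the identity, see `Ie_zero_le`). -/
theorem exists_split (hS : SFR p K (maximalIdeal R) P c ⊤ 0) :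
    ∃ e0 : ℕ, 1 ≤ e0 ∧ ∀ k : ℕ, ∃ ψ : K →+ K, IsCart p P c (k * e0) ψ ∧ ψ 1 = 1 := by
  obtain ⟨e, he, φ, hφ, a, ha⟩ := exists_cart_one hS one_ne_zero
  have h1 : (φ.comp (AddMonoidHom.mulLeft (algebraMap R K a))) 1 = 1 := by
    rw [one_mul] at ha
    simp [ha]
  refine ⟨e, he, fun k => ?_⟩
  induction k with
  | zero =>
    refine ⟨AddMonoidHom.id K, ⟨fun a x => by simp, fun x hx => ?_⟩, rfl⟩
    have h2 := hx 1 (by simp [Dq, Ideal.top_pow])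
    simpa using h2
  | succ k ih =>
    obtain ⟨ψ, hψ, hψ1⟩ := ih
    refine ⟨ψ.comp (φ.comp (AddMonoidHom.mulLeft (algebraMap R K a))), ?_, ?_⟩
    · rw [Nat.succ_mul]
      exact hψ.comp (hφ.mulLeft a)
    · rw [AddMonoidHom.comp_apply, h1, hψ1]

/-- Proof. Let `SFR … I t` with `t ≥ 2 C0` and take `d = 1`: `e ≥ 1`, `φ`,
`a ∈ I ^ ⌈t (q - 1)⌉ ⊆ 𝔪 ^ (C0 q)` since `2 C0 (q - 1) ≥ C0 q` for `q ≥ 2`; so `a ∈ I_e` by
`maxPow_le_Ie`, a contradiction. -/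
theorem bddAbove_fpt {C0 : ℕ} (hC : 1 ≤ C0) (g : Fin C0 → R)
    (hg : Ideal.span (Set.range g) = maximalIdeal R) {I : Ideal R} (hI : I ≤ maximalIdeal R) :
    ∀ t ∈ {t : ℝ | 0 ≤ t ∧ SFR p K (maximalIdeal R) P c I t}, t ≤ 2 * C0 := by
  rintro t ⟨-, ht⟩
  by_contra hcon
  rw [not_le] at hcon
  obtain ⟨e, he, φ, hφ, a, ha, hne⟩ := ht 1 one_ne_zero
  have hp : 2 ≤ p := (Fact.out : p.Prime).two_le
  have hq : 2 ≤ p ^ e := hp.trans (Nat.le_self_pow (by omega) p)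
  have h1 : C0 * p ^ e ≤ ⌈t * ((p ^ e : ℕ) - 1 : ℝ)⌉₊ := by
    have h2 : ((C0 * p ^ e : ℕ) : ℝ) ≤ t * ((p ^ e : ℕ) - 1 : ℝ) := by
      have h3 : (2 : ℝ) ≤ ((p ^ e : ℕ) : ℝ) := by exact_mod_cast hq
      have h4 : (1 : ℝ) ≤ C0 := by exact_mod_cast hC
      rw [Nat.cast_mul]
      nlinarith
    exact_mod_cast h2.trans (Nat.le_ceil _)
  have h2 : a ∈ Ie p K (maximalIdeal R) P c e :=
    maxPow_le_Ie hC g hg e (Ideal.pow_le_pow_right h1 (Ideal.pow_right_mono hI _ ha))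
  obtain ⟨b, hb, h3⟩ := h2 φ hφ
  exact hne b hb (by rw [one_mul, h3])

theorem fpt_nonneg (I : Ideal R) : 0 ≤ fpt p K (maximalIdeal R) P c I := by
  exact Real.sSup_nonneg fun t ht => ht.1

/-- Proof. Choose `t` with `fpt I < t < c0`; since the set in the definition of `fpt` is bounded
(`bddAbove_fpt`) and `0 ≤ fpt I < t`, `SFR … I t` fails: there is `d ≠ 0` such that for all `e' ≥
1`,
all `φ` of level `e'` and all `a ∈ I ^ ⌈t (p ^ e' - 1)⌉` we have `φ (d a) ∈ 𝔪`.  Let `a' ∈ I ^ i`,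
`φ` of level `e` and suppose `φ a' ∉ 𝔪`.  Since `φ a' ∈ R` (`IsCart.map_R`) it is a unit.  Take `ψ`
of level `e'' ≥ 1` and `b` with `ψ (d b) = 1` (`exists_cart_one`).  Then
`φ (ψ (d (b a' ^ q''))) = φ (a' ψ (d b)) = φ a' ∉ 𝔪`, but `b a' ^ q'' ∈ I ^ (i q'')` and
`i q'' ≥ c0 q q'' ≥ t (q q'' - 1)`, so `b a' ^ q'' ∈ I ^ ⌈t (q q'' - 1)⌉`, a contradiction to the
choice of `d` for the level `e + e'' ≥ 1` (`IsCart.comp`). -/
theorem pow_le_Ie_of_fpt_lt (hS : SFR p K (maximalIdeal R) P c ⊤ 0) {C0 : ℕ} (hC : 1 ≤ C0)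
    (g : Fin C0 → R) (hg : Ideal.span (Set.range g) = maximalIdeal R) {I : Ideal R}
    (hI : I ≤ maximalIdeal R) {c0 : ℝ} (h : fpt p K (maximalIdeal R) P c I < c0) (e i : ℕ)
    (hi : c0 * (p : ℝ) ^ e ≤ i) : I ^ i ≤ Ie p K (maximalIdeal R) P c e := by
  obtain ⟨t, ht1, ht2⟩ := exists_between h
  have ht0 : 0 ≤ t := (fpt_nonneg I).trans ht1.le
  have hn : ¬ SFR p K (maximalIdeal R) P c I t := by
    intro hs
    have h1 : t ≤ fpt p K (maximalIdeal R) P c I :=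
      le_csSup ⟨2 * C0, bddAbove_fpt hC g hg hI⟩ ⟨ht0, hs⟩
    exact absurd ht1 (not_lt.2 h1)
  unfold SFR at hn
  push Not at hn
  obtain ⟨d, hd, hn⟩ := hn
  intro a' ha' φ hφ
  obtain ⟨u, hu⟩ := hφ.map_R a'
  refine ⟨u, ?_, hu.symm⟩
  obtain ⟨e2, he2, ψ, hψ, b, hb⟩ := exists_cart_one hS hd
  have h1 : b * a' ^ p ^ e2 ∈ I ^ ⌈t * ((p ^ (e + e2) : ℕ) - 1 : ℝ)⌉₊ := by
    have h2 : a' ^ p ^ e2 ∈ I ^ (i * p ^ e2) := by
      rw [pow_mul]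
      exact Ideal.pow_mem_pow ha' _
    refine Ideal.pow_le_pow_right ?_ (Ideal.mul_mem_left _ b h2)
    rw [Nat.ceil_le]
    push_cast
    have h3 : t * (p : ℝ) ^ e ≤ i :=
      (mul_le_mul_of_nonneg_right ht2.le (by positivity)).trans hi
    have h4 : t * (p : ℝ) ^ e * (p : ℝ) ^ e2 ≤ i * (p : ℝ) ^ e2 :=
      mul_le_mul_of_nonneg_right h3 (by positivity)
    rw [pow_add]
    nlinarith
  obtain ⟨b', hb', h2⟩ := hn (e + e2) (by omega) (φ.comp ψ) (hφ.comp hψ) _ h1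
  have h3 : algebraMap R K (d * (b * a' ^ p ^ e2)) =
      algebraMap R K a' ^ p ^ e2 * algebraMap R K (d * b) := by
    simp only [map_mul, map_pow]
    ring
  rw [AddMonoidHom.comp_apply, h3, hψ.1, hb, mul_one, ← hu] at h2
  rw [IsFractionRing.injective R K h2]
  exact hb'

/-- Proof. Suppose `SFR … I t` with `t > σ`.  Choose `k ≥ t` and `d ≠ 0` in `I ^ k` (`R` is a domain
and `I ≠ ⊥`).  There are `e ≥ 1`, `φ` of level `e` and `a ∈ I ^ ⌈t (q - 1)⌉` with `φ (d a) ∉ 𝔪`.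
But
`d a ∈ I ^ (⌈t (q - 1)⌉ + k)` and `⌈t (q - 1)⌉ + k ≥ t q ≥ σ q`, so `d a ∈ I_e`, a contradiction.
So
all elements of the set in the definition of `fpt` are at most `σ` (`Real.sSup_le`). -/
theorem fpt_le_of_pow_le {I : Ideal R} (hI : I ≠ ⊥) {σ : ℝ} (hσ : 0 ≤ σ)
    (h : ∀ e i : ℕ, σ * (p : ℝ) ^ e ≤ i → I ^ i ≤ Ie p K (maximalIdeal R) P c e) :
    fpt p K (maximalIdeal R) P c I ≤ σ := by
  refine Real.sSup_le ?_ hσ
  rintro t ⟨ht0, ht⟩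
  by_contra hcon
  rw [not_le] at hcon
  obtain ⟨k, hk⟩ := exists_nat_ge t
  obtain ⟨x, hx, hx0⟩ := Submodule.exists_mem_ne_zero_of_ne_bot hI
  obtain ⟨e, he, φ, hφ, a, ha, hne⟩ := ht (x ^ k) (pow_ne_zero _ hx0)
  have h1 : x ^ k * a ∈ I ^ (k + ⌈t * ((p ^ e : ℕ) - 1 : ℝ)⌉₊) := by
    rw [pow_add]
    exact Ideal.mul_mem_mul (Ideal.pow_mem_pow hx k) ha
  have h2 : σ * (p : ℝ) ^ e ≤ ((k + ⌈t * ((p ^ e : ℕ) - 1 : ℝ)⌉₊ : ℕ) : ℝ) := by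
    have h3 := Nat.le_ceil (t * ((p ^ e : ℕ) - 1 : ℝ))
    have h4 : σ * (p : ℝ) ^ e ≤ t * (p : ℝ) ^ e :=
      mul_le_mul_of_nonneg_right hcon.le (by positivity)
    push_cast at h3 ⊢
    nlinarith
  obtain ⟨b, hb, h3⟩ := h e _ h2 h1 φ hφ
  exact hne b hb h3

/-- From `fpt_le_of_pow_le`. -/
theorem fpt_le_of_Prp {I : Ideal R} (hI : I ≠ ⊥) {S : ℝ} (hS : 0 ≤ S) {M : ℕ} (hM : 1 ≤ M)
    (h : Prp p K (maximalIdeal R) P c S M I) : fpt p K (maximalIdeal R) P c I ≤ S / M := by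
  have hM0 : (0 : ℝ) < M := by exact_mod_cast hM
  refine fpt_le_of_pow_le hI (div_nonneg hS hM0.le) fun e i hi => h e i ?_
  rw [div_mul_eq_mul_div, div_le_iff₀ hM0] at hi
  rw [mul_comm (M : ℝ)]
  exact hi

/-- Otherwise `⊤ = b ^ i ≤ I_0 ≤ 𝔪` for `i` large. -/
theorem le_max_of_Prp {I : Ideal R} {S : ℝ} {M : ℕ} (hM : 1 ≤ M)
    (h : Prp p K (maximalIdeal R) P c S M I) : I ≤ maximalIdeal R := by
  by_contra hcon
  have hI : I = ⊤ := by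
    by_contra h1
    exact hcon (le_maximalIdeal h1)
  obtain ⟨i, hi⟩ := exists_nat_ge (max S 0)
  have h1 := h 0 i (by
    have h2 : S ≤ i := (le_max_left _ _).trans hi
    have h3 : (0 : ℝ) ≤ i := Nat.cast_nonneg _
    have h4 : (1 : ℝ) ≤ M := by exact_mod_cast hM
    rw [pow_zero, mul_one]
    nlinarith)
  rw [hI, Ideal.top_pow] at h1
  exact (maximalIdeal.isMaximal R).ne_top (top_le_iff.1 (h1.trans Ie_zero_le))

end FU
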