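import Pool.Agent.Lib.MP_9e8926_ag_U.Stmt

/-!
# The local ring `Oc k J`
-/

set_option autoImplicit false

noncomputable section

namespace FU

open MvPolynomial

section

variable {N : ℕ} {k : Type*} [Field k] (J : Ideal (MvPolynomial (Fin N) k))

private instance twoSided (K : Ideal (Oc k J)) : K.IsTwoSided := by
  exact @Ideal.instIsTwoSided (Oc k J) _ K

/-- The ideal of the origin is the kernel of the constant coefficient. -/
theorem mem_mX {k : Type*} [CommRing k] (f : MvPolynomial (Fin N) k) :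
    f ∈ mX N k ↔ constantCoeff f = 0 := by
  have h := mem_pow_idealOfVars_iff' (σ := Fin N) 1 f
  rw [pow_one] at h
  refine Iff.trans h ⟨fun h1 => h1 0 (by simp), fun h1 x hx => ?_⟩
  have h2 : x = 0 := by
    rw [Nat.lt_one_iff, Finsupp.degree_eq_zero_iff] at hx
    exact hx
  rw [h2]
  exact h1

/-- A polynomial with non-zero constant coefficient is a unit in `Oc k J`. -/
theorem isUnit_toO (f : MvPolynomial (Fin N) k) (hf : constantCoeff f ≠ 0) :
    IsUnit (toO k J f) := by
  exact IsLocalization.map_units (Oc k J) (⟨Ideal.Quotient.mk J f, f, isUnit_iff_ne_zero.2 hf, rfl⟩ :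
    nv k J)

/-- Every element of `Oc k J` is a fraction. -/
theorem exists_toO (a : Oc k J) : ∃ f u : MvPolynomial (Fin N) k, constantCoeff u = 1 ∧
    a * toO k J u = toO k J f := by
  obtain ⟨⟨x, s, u0, hu0, rfl⟩, h⟩ := IsLocalization.surj (nv k J) a
  obtain ⟨f0, rfl⟩ := Ideal.Quotient.mk_surjective x
  have h0 : constantCoeff u0 ≠ 0 := IsUnit.ne_zero hu0
  have h1 : a * toO k J u0 = toO k J f0 := h
  refine ⟨C (constantCoeff u0)⁻¹ * f0, C (constantCoeff u0)⁻¹ * u0, ?_, ?_⟩
  · rw [map_mul, constantCoeff_C, inv_mul_cancel₀ h0]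
  · rw [map_mul, map_mul, ← h1]
    ring

/-- The kernel of the map to the local ring. -/
theorem toO_eq_zero (f : MvPolynomial (Fin N) k) :
    toO k J f = 0 ↔ ∃ u : MvPolynomial (Fin N) k, constantCoeff u = 1 ∧ u * f ∈ J := by
  have h : toO k J f = 0 ↔ ∃ m : nv k J, (m : MvPolynomial (Fin N) k ⧸ J) *
      Ideal.Quotient.mk J f = 0 := IsLocalization.map_eq_zero_iff (nv k J) (Oc k J) _
  rw [h]
  constructor
  · rintro ⟨⟨s, u0, hu0, rfl⟩, h1⟩
    have h0 : constantCoeff u0 ≠ 0 := IsUnit.ne_zero hu0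
    have h2 : u0 * f ∈ J := by
      rw [← Ideal.Quotient.eq_zero_iff_mem, map_mul]
      exact h1
    refine ⟨C (constantCoeff u0)⁻¹ * u0, ?_, ?_⟩
    · rw [map_mul, constantCoeff_C, inv_mul_cancel₀ h0]
    · rw [mul_assoc]
      exact J.mul_mem_left _ h2
  · rintro ⟨u, hu, h1⟩
    refine ⟨⟨Ideal.Quotient.mk J u, u, ?_, rfl⟩, ?_⟩
    · show IsUnit (constantCoeff u)
      rw [hu]
      exact isUnit_one
    · show Ideal.Quotient.mk J u * Ideal.Quotient.mk J f = 0
      rw [← map_mul]
      exact Ideal.Quotient.eq_zero_iff_mem.2 h1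

instance isNoetherianRing_Oc : IsNoetherianRing (Oc k J) := by
  exact IsLocalization.isNoetherianRing (nv k J) (Oc k J) inferInstance

/-- The map `k → Oc k J` is `toO ∘ C`. -/
theorem algebraMap_Oc (a : k) : algebraMap k (Oc k J) a = toO k J (C a) := by
  rw [IsScalarTower.algebraMap_apply k (MvPolynomial (Fin N) k ⧸ J) (Oc k J)]
  rfl

private theorem mem_map_toO (I : Ideal (MvPolynomial (Fin N) k)) (a : Oc k J) :
    a ∈ I.map (toO k J) ↔ ∃ f ∈ I, ∃ u : MvPolynomial (Fin N) k, constantCoeff u = 1 ∧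
      a * toO k J u = toO k J f := by
  constructor
  · intro h
    refine Submodule.span_induction (p := fun a _ => ∃ f ∈ I, ∃ u : MvPolynomial (Fin N) k,
      constantCoeff u = 1 ∧ a * toO k J u = toO k J f) ?_ ?_ ?_ ?_ h
    · rintro _ ⟨f, hf, rfl⟩
      exact ⟨f, hf, 1, by simp, by simp⟩
    · exact ⟨0, I.zero_mem, 1, by simp, by simp⟩
    · rintro a b - - ⟨f, hf, u, hu, h1⟩ ⟨g, hg, v, hv, h2⟩
      refine ⟨v * f + u * g, I.add_mem (I.mul_mem_left _ hf) (I.mul_mem_left _ hg), u * v,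
        by rw [map_mul, hu, hv, one_mul], ?_⟩
      rw [map_add, map_mul, map_mul, map_mul, ← h1, ← h2]
      ring
    · rintro a b - ⟨f, hf, u, hu, h1⟩
      obtain ⟨g, w, hw, h2⟩ := exists_toO J a
      refine ⟨g * f, I.mul_mem_left _ hf, w * u, by rw [map_mul, hu, hw, one_mul], ?_⟩
      rw [map_mul, map_mul, ← h1, ← h2, smul_eq_mul]
      ring
  · rintro ⟨f, hf, u, hu, h1⟩
    have h2 : IsUnit (toO k J u) := isUnit_toO J u (by rw [hu]; exact one_ne_zero)
    obtain ⟨v, hv⟩ := h2.exists_right_inv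
    have h3 : a = v * toO k J f := by
      rw [← h1]
      linear_combination (-a) * hv
    rw [h3]
    exact Ideal.mul_mem_left _ _ (Ideal.mem_map_of_mem _ hf)

private theorem exists_inv (u : MvPolynomial (Fin N) k) (hu : constantCoeff u = 1) (M : ℕ) :
    ∃ s, u * s + (1 - u) ^ M = 1 ∧ (1 - u) ^ M ∈ mX N k ^ M := by
  have h1 : u ∣ 1 - (1 - u) ^ M := by
    have h2 := sub_dvd_pow_sub_pow (1 : MvPolynomial (Fin N) k) (1 - u) M
    rwa [sub_sub_cancel, one_pow] at h2
  obtain ⟨s, hs⟩ := h1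
  refine ⟨s, by rw [← hs]; ring, Ideal.pow_mem_pow ?_ _⟩
  rw [mem_mX, map_sub, hu, map_one, sub_self]

/-- `Oc k J` is a local ring with maximal ideal `mO k J` if the origin is in `V(J)`.

PROOF: the elements which are not in `mO` are units: if `a * toO u = toO f`, `constantCoeff u = 1`,
and `constantCoeff f ≠ 0` then `a` is a unit; if `constantCoeff f = 0` then `a ∈ mO`.  And
`mO ≠ ⊤`: otherwise `1 * toO u = toO f` with `f ∈ (x)`, `constantCoeff u = 1`, so
`v (u - f) ∈ J ⊆ (x)`, `constantCoeff v = 1`: a contradiction. -/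
theorem isLocalRing_Oc (hJ : J ≤ mX N k) :
    mO k J ≠ ⊤ ∧ ∀ a : Oc k J, a ∉ mO k J → IsUnit a := by
  constructor
  · intro h
    have h1 : (1 : Oc k J) ∈ mO k J := by
      rw [h]
      exact Submodule.mem_top
    obtain ⟨f, hf, u, hu, h2⟩ := (mem_map_toO J _ _).1 h1
    rw [one_mul] at h2
    have h3 : toO k J (u - f) = 0 := by rw [map_sub, h2, sub_self]
    obtain ⟨v, hv, h4⟩ := (toO_eq_zero J _).1 h3
    have h5 := (mem_mX _).1 (hJ h4)
    rw [mem_mX] at hf
    rw [map_mul, map_sub, hv, hu, hf, sub_zero, one_mul] at h5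
    exact one_ne_zero h5
  · intro a ha
    obtain ⟨f, u, hu, h1⟩ := exists_toO J a
    have hf : constantCoeff f ≠ 0 := fun h2 =>
      ha ((mem_map_toO J _ _).2 ⟨f, (mem_mX f).2 h2, u, hu, h1⟩)
    have h2 := isUnit_toO J f hf
    rw [← h1] at h2
    exact isUnit_of_mul_isUnit_left h2

/-- The residue field of `Oc k J` is `k`. -/
theorem residue_Oc (a : Oc k J) : ∃ c : k, a - algebraMap k (Oc k J) c ∈ mO k J := by
  obtain ⟨f, u, hu, h1⟩ := exists_toO J a
  refine ⟨constantCoeff f, (mem_map_toO J _ _).2 ⟨f - C (constantCoeff f) * u, ?_, u, hu, ?_⟩⟩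
  · rw [mem_mX, map_sub, map_mul, hu, constantCoeff_C, mul_one, sub_self]
  · rw [algebraMap_Oc, map_sub, map_mul, ← h1]
    ring

/-- Every ideal of `Oc k J` comes from the polynomial ring. -/
theorem map_comap_toO (K : Ideal (Oc k J)) : (K.comap (toO k J)).map (toO k J) = K := by
  refine le_antisymm Ideal.map_comap_le fun a ha => ?_
  obtain ⟨f, u, hu, h1⟩ := exists_toO J a
  refine (mem_map_toO J _ _).2 ⟨f, ?_, u, hu, h1⟩
  rw [Ideal.mem_comap, ← h1]
  exact K.mul_mem_right _ ha

/-- The contraction of the extension of an ideal which contains a power of `(x)`.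

PROOF: `⊇` clear.  `⊆`: `toO f = ∑ toO (g_i) a_i` with `g_i ∈ I`; clear denominators:
`u f ∈ I + J`, `constantCoeff u = 1`.  As `(1 - u)^M ∈ (x)^M ⊆ I`, `u` is a unit modulo `I`. -/
theorem comap_map_toO (I : Ideal (MvPolynomial (Fin N) k)) (M : ℕ) (hM : mX N k ^ M ≤ I) :
    (I.map (toO k J)).comap (toO k J) = J ⊔ I := by
  refine le_antisymm (fun f hf => ?_) (sup_le (fun f hf => ?_) Ideal.le_comap_map)
  · obtain ⟨g, hg, u, hu, h1⟩ := (mem_map_toO J _ _).1 (Ideal.mem_comap.1 hf)
    have h2 : toO k J (f * u - g) = 0 := by rw [map_sub, map_mul, h1, sub_self]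
    obtain ⟨v, hv, h3⟩ := (toO_eq_zero J _).1 h2
    obtain ⟨s, hs, hs'⟩ := exists_inv (v * u) (by rw [map_mul, hv, hu, one_mul]) M
    have h4 : f = s * (v * (f * u - g)) + (s * v * g + f * (1 - v * u) ^ M) := by
      linear_combination (-f) * hs
    rw [h4]
    exact Submodule.add_mem_sup (J.mul_mem_left _ h3)
      (I.add_mem (I.mul_mem_left _ hg) (I.mul_mem_left _ (hM hs')))
  · rw [Ideal.mem_comap]
    have h1 : toO k J f = 0 := (toO_eq_zero J f).2 ⟨1, by simp, by simpa using hf⟩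
    rw [h1]
    exact Submodule.zero_mem _

private theorem map_mX_pow (M : ℕ) : Ideal.map (toO k J) (mX N k ^ M) = mO k J ^ M := by
  exact Ideal.map_pow (toO k J) (mX N k) M

/-- `toO` as a homomorphism of algebras -/
private def toOA : MvPolynomial (Fin N) k →ₐ[k] Oc k J :=
  { toO k J with commutes' := fun a => (algebraMap_Oc J a).symm }

private theorem toOA_apply (f : MvPolynomial (Fin N) k) : toOA J f = toO k J f := rfl

private theorem surj_aux (K : Ideal (Oc k J)) (M : ℕ) (hM : mO k J ^ M ≤ K) :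
    Function.Surjective ((Ideal.Quotient.mkₐ k K).comp (toOA J)) := by
  intro b
  obtain ⟨a, rfl⟩ := Ideal.Quotient.mk_surjective b
  obtain ⟨f, u, hu, h1⟩ := exists_toO J a
  obtain ⟨s, hs, hs'⟩ := exists_inv u hu M
  refine ⟨f * s, ?_⟩
  rw [AlgHom.comp_apply, toOA_apply, Ideal.Quotient.mkₐ_eq_mk, Ideal.Quotient.eq]
  have h2 : toO k J (f * s) - a = -(a * toO k J ((1 - u) ^ M)) := by
    have h3 := congrArg (toO k J) hs
    rw [map_add, map_mul, map_one] at h3
    rw [map_mul, ← h1]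
    linear_combination a * h3
  rw [h2]
  refine K.neg_mem (K.mul_mem_left _ (hM ?_))
  have h3 := Ideal.mem_map_of_mem (toO k J) hs'
  rwa [map_mX_pow] at h3

/-- The dimension of a quotient of the local ring.

PROOF: by `comap_map_toO` and surjectivity of `k[x] → Oc/I Oc` (`a * toO u = toO f`, `u` is a unit
modulo `I` as above) the map `k[x]/(J ⊔ I) → Oc/I Oc` is a `k`-linear isomorphism. -/
theorem finrank_Oc (I : Ideal (MvPolynomial (Fin N) k)) (M : ℕ) (hM : mX N k ^ M ≤ I) :
    Module.finrank k (Oc k J ⧸ I.map (toO k J)) =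
      Module.finrank k (MvPolynomial (Fin N) k ⧸ (J ⊔ I)) := by
  have hM' : mO k J ^ M ≤ I.map (toO k J) := by
    have h := Ideal.map_mono (f := toO k J) hM
    rw [map_mX_pow] at h
    exact h
  have h1 := surj_aux J (I.map (toO k J)) M hM'
  have h2 : RingHom.ker ((Ideal.Quotient.mkₐ k (I.map (toO k J))).comp (toOA J)) = J ⊔ I := by
    rw [← comap_map_toO J I M hM]
    ext f
    rw [RingHom.mem_ker, AlgHom.comp_apply, toOA_apply, Ideal.Quotient.mkₐ_eq_mk,
      Ideal.Quotient.eq_zero_iff_mem, Ideal.mem_comap]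
  rw [← h2]
  exact (Ideal.quotientKerAlgEquivOfSurjective h1).toLinearEquiv.finrank_eq.symm

/-- The quotients of the local ring by primary ideals are finite dimensional. -/
theorem finite_Oc (K : Ideal (Oc k J)) (M : ℕ) (hM : mO k J ^ M ≤ K) :
    Module.Finite k (Oc k J ⧸ K) := by
  have h1 := surj_aux J K M hM
  refine ⟨?_⟩
  have h2 : (⊤ : Submodule k (Oc k J ⧸ K)) = Submodule.span k
      ((fun d : Fin N →₀ ℕ => (Ideal.Quotient.mkₐ k K).comp (toOA J) (monomial d 1)) ''
        {d | d.degree ≤ M}) := by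
    refine le_antisymm (fun b _ => ?_) le_top
    obtain ⟨f, rfl⟩ := h1 b
    rw [f.as_sum, map_sum]
    refine Submodule.sum_mem _ fun d _ => ?_
    have h3 : (monomial d (coeff d f) : MvPolynomial (Fin N) k) =
        coeff d f • monomial d 1 := by
      rw [smul_monomial, smul_eq_mul, mul_one]
    rw [h3, map_smul]
    refine Submodule.smul_mem _ _ ?_
    by_cases hd : d.degree ≤ M
    · exact Submodule.subset_span ⟨d, hd, rfl⟩
    · have h4 : (monomial d 1 : MvPolynomial (Fin N) k) ∈ mX N k ^ M :=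
        (monomial_mem_pow_idealOfVars_iff M d one_ne_zero).2 (not_le.1 hd).le
      have h5 : (Ideal.Quotient.mkₐ k K).comp (toOA J) (monomial d 1) = 0 := by
        rw [AlgHom.comp_apply, toOA_apply, Ideal.Quotient.mkₐ_eq_mk,
          Ideal.Quotient.eq_zero_iff_mem]
        refine hM ?_
        have h6 := Ideal.mem_map_of_mem (toO k J) h4
        rwa [map_mX_pow] at h6
      rw [h5]
      exact Submodule.zero_mem _
  rw [h2]
  exact Submodule.fg_span ((Finsupp.finite_of_degree_le M).image _)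

end

end FU
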