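import Pool.Agent.Lib.MP_9e8926_ag_U.HI

/-!
# Taylor maps by Hensel, and the data `Dat` (interface; proofs in the modules `H*`, helper36)
-/

set_option autoImplicit false

noncomputable section

namespace FU

open MvPolynomial

/-- Taylor maps by Hensel's lemma.

PROOF.  Work in `T = A[x]/J`; write `y, z, f = F(y)` for the classes and `g = G'(y, z)`, so
`f = g δ`, `f` is not a zero divisor.  Fix `i`; `τ : A[Y] → T⟦X⟧`, `Y_l ↦ y_l + δ_{il} f^3 X`; it is
congruent to the evaluation at `y` modulo `f^3 X`.  Let `Gτ` be the image of `G` in `T⟦X⟧[W]`; then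
`Gτ(z) = f^3 X a`, `Gτ'(z) = g + f^3 X b`, and
`Gτ(z + g X f Z) = f^3 X a + (g + f^3 X b) g X f Z + g^2 X^2 f^2 Z^2 Q(Z)`, which is `g^2 f X` times
`δ^2 a + (1 + X δ f^2 b) Z + X f Z^2 Q(Z)` (`f^2 = g^2 δ^2`).  The equation
`Z = - δ^2 a - X (δ f^2 b Z + f Z^2 Q(Z))` has a solution in `T⟦X⟧` (fixed point of a contraction of
the `X`-adic topology).  So `W₀ = z + g f X Z` is a root of `Gτ`.  `Θ : A[Y][W] → T⟦X⟧`,
`W ↦ W₀`, kills `G`, and, because of `hind` and division by `G`, also every `β` with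
`β(y,z) = 0`; `Θ(β) - β(y,z) ∈ f X T⟦X⟧`, `Θ(F) = f U` with `U` a unit.  For `t ∈ T` choose `β`
with `f t = β(y,z)`; then `Θ(β) = f U ψ(t)` for a unique `ψ(t) ∈ T⟦X⟧`, with constant
coefficient `t`; `ψ` is a ring homomorphism because `f U` is not a zero divisor.  Finally lift
`ψ(x_k)` to power series with coefficients in `A[x]`. -/
theorem exists_HDat {N r : ℕ} {A : Type} [CommRing A] {J : Ideal (MvPolynomial (Fin N) A)}
    {P : Fin r → Ideal (MvPolynomial (Fin N) A)} {n D : ℕ} (d : EDat J P n D)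
    (hind : ∀ β : Polynomial (MvPolynomial (Fin n) A), β.degree < d.G.degree →
      ev d.y d.z β ∈ J → β = 0)
    (hnzd : ∀ t, aeval d.y d.F * t ∈ J → t ∈ J) :
    ∃ e : HDat J P n D, e.toEDat = d :=
  exists_HDat' d hind hnzd

/-- The uniform data at a closed point.

PROOF.  `O = Oc κ J`, `K` its field of fractions, `f = F(y) ∈ O`, `f ≠ 0`.
Generators of the maximal ideal: the `N` coordinates.  `J := f^3`, `b := f^2` (`f ∈ 𝔪`, `f ∈ P_j`).
Taylor maps: `ψ_i` induces `O → O⟦X⟧` (elements with non-zero constant coefficient go to units),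
`K → K⟦X⟧`; compose with `PowerSeries.rescale (f^3)⁻¹`.
`basis`: the set `𝒦 = {∑_α y^α u_α^q}` is a subfield of `K` (`1/v = v^(q-1)/v^q`), contains
`κ = κ^q`, `y_i`; `z` is a root of `G` with `G'(z) ≠ 0` so separable over `𝒦`, and `z^q ∈ 𝒦`, so
`z ∈ 𝒦`; `f t ∈ κ[y,z]` for `t ∈ κ[x]`, so `K = 𝒦`.
`E1`: `O/(f^5, 𝔪^L)` is a quotient of `κ[x]/(J, f^5, (x)^L)`, which is spanned over
`κ[Y]/(F^5, (Y)^L)` by the `D` elements `h_v`; and `dim κ[Y]/(F^5, (Y)^L) ≤ 5 w L^(n-1)`: with `o`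
the order of `F^5` at the origin (`o ≤ 5w`) multiplication by `F^5` embeds `κ[Y]/(Y)^(L-o)` in
`κ[Y]/(Y)^L`, so the dimension is at most the number of monomials of degree in `[L-o, L)`.
`E0`: the number of monomials of degree `< L` is at most `L^n`. -/
theorem HDat.dat {N r : ℕ} {κ : Type} [Field κ] [Finite κ] (p : ℕ) [Fact p.Prime] [CharP κ p]
    {J : Ideal (MvPolynomial (Fin N) κ)} {P : Fin r → Ideal (MvPolynomial (Fin N) κ)} {n D : ℕ}
    (d : HDat J P n D) (hn : 1 ≤ n) (w : ℕ) (hw : d.F.totalDegree ≤ w) (hF : d.F ≠ 0)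
    [IsDomain (Oc κ J)] (hf : toO κ J (aeval d.y d.F) ≠ 0) :
    Nonempty (Dat p κ (FractionRing (Oc κ J)) (mO κ J) (fun j => (P j).map (toO κ J)) n N
      ((D : ℝ) * (5 * w))) :=
  HDat.dat' p d hn w hw hF hf

end FU
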