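import Pool.Agent.Lib.MP_9e8926_ag_U.ADown
import Pool.Agent.Lib.MP_9e8926_ag_U.ALoc

/-!
# The Hilbert-Samuel functions of the reductions of an ideal
-/

set_option autoImplicit false

noncomputable section

namespace FU

open MvPolynomial Filter Topology

private theorem mpw {R S : Type*} [CommRing R] [CommRing S] (f : R →+* S) (I : Ideal R) (j : ℕ) :
    Ideal.map f (I ^ j) = Ideal.map f I ^ j := Ideal.map_pow f I j

private theorem pwm {S : Type*} [CommRing S] {I K : Ideal S} {M : ℕ} (h : I ^ M ≤ K) (j : ℕ) :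
    I ^ (M * j) ≤ K ^ j := by
  rw [pow_mul]
  exact Ideal.pow_right_mono h j

private instance twoSided {N : ℕ} {k : Type*} [Field k] (J : Ideal (MvPolynomial (Fin N) k))
    (K : Ideal (Oc k J)) : K.IsTwoSided := by
  exact @Ideal.instIsTwoSided (Oc k J) _ K

private theorem map_mX_pow {N : ℕ} {k : Type*} [Field k] (J : Ideal (MvPolynomial (Fin N) k))
    (M : ℕ) : Ideal.map (toO k J) (mX N k ^ M) = mO k J ^ M := by
  exact Ideal.map_pow (toO k J) (mX N k) M

private theorem lej {S : Type*} [CommRing S] {I C : Ideal S} (M : ℕ) (h : I ^ M ≤ C) :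
    I ^ (M + 1) ≤ C :=
  (Ideal.pow_le_pow_right (Nat.le_succ M)).trans h

private theorem fcong {N : ℕ} {k : Type} [Field k] {J J' I I' : Ideal (MvPolynomial (Fin N) k)}
    (hJ : J' = J) (hI : I' = I) (j : ℕ) :
    Module.finrank k (Oc k J' ⧸ I'.map (toO k J') ^ j) =
      Module.finrank k (Oc k J ⧸ I.map (toO k J) ^ j) := by
  subst hJ hI
  rfl

private theorem fcong2 {k S : Type*} [Field k] [CommRing S] [Algebra k S] {K K' : Ideal S}
    (h : K' = K) (j : ℕ) : Module.finrank k (S ⧸ K' ^ j) = Module.finrank k (S ⧸ K ^ j) := by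
  rw [h]

private theorem fle {k S : Type*} [Field k] [CommRing S] [Algebra k S] {K K' : Ideal S}
    (h : K' ≤ K) [Module.Finite k (S ⧸ K')] :
    Module.finrank k (S ⧸ K) ≤ Module.finrank k (S ⧸ K') :=
  LinearMap.finrank_le_finrank_of_surjective (f := (Ideal.Quotient.factorₐ k h).toLinearMap)
    (Ideal.Quotient.factor_surjective h)

/-- The Hilbert-Samuel functions of the specializations agree outside of `s = 0`, and they are
eventually polynomial.

PROOF: `I` is finitely generated (`A[x]` is noetherian), `I = (f_1, …, f_b)`; take `s`, `D` from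
`gr_bas`, and `H j = Nat.card {α // α ∈ D ∧ degr α < j}` (`count_poly` with `M`).  For
`φ : A → k`, `φ s ≠ 0`: `(I.map _) ^ j = (I ^ j).map _` (`Ideal.map_pow`), `(x)^(M j) ⊆ (bc φ I)^j`,
so `finrank_Oc` gives the dimension of `k[x]/(bc φ J ⊔ (bc φ I)^j)`,
`bc φ (J ⊔ I^j) = bc φ J ⊔ (bc φ I)^j`, and `IsBas.finrank`. -/
theorem hilb_const {N : ℕ} {A : Type} [CommRing A] [IsDomain A] [IsNoetherianRing A]
    (J I : Ideal (MvPolynomial (Fin N) A)) (M : ℕ) (hM : mX N A ^ M ≤ I) :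
    ∃ s : A, s ≠ 0 ∧ ∃ H : ℕ → ℕ,
      (∃ P : Polynomial ℚ, ∀ᶠ j : ℕ in atTop, (H j : ℚ) = P.eval (j : ℚ)) ∧
      ∀ (k : Type) [Field k] (φ : A →+* k), φ s ≠ 0 → ∀ j : ℕ,
        Module.finrank k (Oc k (bc φ J) ⧸ (bc φ I).map (toO k (bc φ J)) ^ j) = H j := by
  obtain ⟨b, f, hf⟩ := Submodule.fg_iff_exists_fin_generating_family.1
    (IsNoetherian.noetherian I)
  have hf' : Ideal.span (Set.range f) = I := hf
  obtain ⟨s, hs, D, hD, hDM, hbas⟩ := gr_bas J f
  obtain ⟨hfin, P, hP⟩ := count_poly D hD M (hDM M (by rw [hf']; exact hM))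
  refine ⟨s, hs, fun j => Nat.card {α : (Fin N ⊕ Fin b) →₀ ℕ // α ∈ D ∧ degr α < j}, ⟨P, hP⟩,
    fun k _ φ hφ j => ?_⟩
  have h1 := hbas j k φ (isUnit_iff_ne_zero.2 hφ)
  have hfj := hfin j
  have h2 := h1.finrank.2
  rw [hf', Ideal.map_sup, Ideal.map_pow] at h2
  have h3 : mX N k ^ M ≤ bc φ I := by
    have h4 := Ideal.map_mono (f := MvPolynomial.map φ) hM
    rw [Ideal.map_pow] at h4
    have h5 : Ideal.map (MvPolynomial.map φ) (mX N A) = mX N k := by
      unfold mX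
      rw [Ideal.map_span, ← Set.range_comp]
      congr 1
      congr 1
      funext i
      simp
    rwa [h5] at h4
  have h6 : mX N k ^ (M * j) ≤ bc φ I ^ j := by
    rw [pow_mul]
    exact Ideal.pow_right_mono h3 j
  have h7 := finrank_Oc (bc φ J) (bc φ I ^ j) (M * j) h6
  have h8 : Ideal.map (toO k (bc φ J)) (bc φ I ^ j) = Ideal.map (toO k (bc φ J)) (bc φ I) ^ j :=
    mpw (S := Oc k (bc φ J)) _ _ _
  rw [h8] at h7
  exact h7.trans h2

/-- The multiplicities of the specializations agree outside of `s = 0`. -/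
theorem mult_const {N : ℕ} {A : Type} [CommRing A] [IsDomain A] [IsNoetherianRing A]
    (J I : Ideal (MvPolynomial (Fin N) A)) (M : ℕ) (hM : mX N A ^ M ≤ I) (n : ℕ) :
    ∃ s : A, s ≠ 0 ∧ ∃ e : ℝ, ∀ (k : Type) [Field k] (φ : A →+* k), φ s ≠ 0 →
      multAt n k (bc φ J) (bc φ I) = e := by
  obtain ⟨s, hs, H, -, hH⟩ := hilb_const J I M hM
  refine ⟨s, hs, limsup (fun j : ℕ => (n.factorial : ℝ) * (H j : ℝ) / (j : ℝ) ^ n) atTop,
    fun k _ φ hφ => ?_⟩
  unfold multAt emult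
  simp only [hH k φ hφ]

/-- The Hilbert-Samuel limit exists.

PROOF: `C = C'.map toO` with `C' = C.comap toO`, `(x)^M ⊆ C'`.  Apply `hilb_const` with `A = k`,
`φ = RingHom.id k` (`MvPolynomial.map_id`, `Ideal.map_id`; every `s ≠ 0` is fine), and
`lim_of_poly`: `finrank (O/C^j) ≤ finrank (O/𝔪^(M j)) ≤ B (M j)^n` (`finite_Oc`). -/
theorem hlim_Oc {N : ℕ} (k : Type) [Field k] (J : Ideal (MvPolynomial (Fin N) k)) (n : ℕ) (B : ℝ)
    (hB : ∀ L : ℕ, 1 ≤ L → (Module.finrank k (Oc k J ⧸ mO k J ^ L) : ℝ) ≤ B * (L : ℝ) ^ n)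
    (C : Ideal (Oc k J)) (hC : IsPrim (R := Oc k J) (mO k J) C) :
    ∃ L : ℝ, Tendsto (fun j : ℕ => (n.factorial : ℝ) *
      (Module.finrank k (Oc k J ⧸ C ^ j) : ℝ) / (j : ℝ) ^ n) atTop (𝓝 L) := by
  obtain ⟨hC1, M, hM⟩ := hC
  have hM1 : mO k J ^ (M + 1) ≤ C := lej (S := Oc k J) M hM
  have hC2 : mX N k ^ (M + 1) ≤ C.comap (toO k J) := by
    rw [← Ideal.map_le_iff_le_comap, map_mX_pow]
    exact hM1
  obtain ⟨s, hs, H, ⟨P, hP⟩, hH⟩ := hilb_const (A := k) J (C.comap (toO k J)) (M + 1) hC2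
  have hbid : ∀ K : Ideal (MvPolynomial (Fin N) k), bc (RingHom.id k) K = K := by
    intro K
    have h1 : MvPolynomial.map (σ := Fin N) (RingHom.id k) = RingHom.id _ := by
      ext <;> simp
    rw [bc, h1, Ideal.map_id]
  have hH2 : ∀ j : ℕ, Module.finrank k (Oc k J ⧸ C ^ j) = H j := by
    intro j
    rw [← hH k (RingHom.id k) hs j, fcong (hbid J) (hbid _) j]
    exact (fcong2 (S := Oc k J) (map_comap_toO J C) j).symm
  simp only [hH2]
  refine lim_of_poly H n P hP (B * ((M : ℝ) + 1) ^ n) ?_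
  filter_upwards [eventually_ge_atTop 1] with j hj
  have h2 : mO k J ^ ((M + 1) * j) ≤ C ^ j := pwm (S := Oc k J) hM1 j
  have h3 := hB ((M + 1) * j) (Nat.mul_pos (Nat.succ_pos M) hj)
  have h4 := finite_Oc J (mO k J ^ ((M + 1) * j)) ((M + 1) * j) le_rfl
  have h5 := fle (k := k) (S := Oc k J) h2
  rw [hH2] at h5
  refine (Nat.cast_le.2 h5).trans (h3.trans (le_of_eq ?_))
  push_cast
  rw [mul_pow, mul_assoc]

end FU
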