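import Pool.Agent.Lib.MP_9e8926_ag_U.CalB

/-!
# The filtration `∑ 𝔞^u 𝔪^v`, `u / c0 + v / Kk ≥ m`
-/

set_option autoImplicit false

noncomputable section

namespace FU

open IsLocalRing

variable {p : ℕ} [Fact p.Prime] {R K : Type*} [CommRing R] [IsDomain R] [IsLocalRing R]
  [Field K] [Algebra R K] [IsFractionRing R K] {r : ℕ} {P : Fin r → Ideal R} {c : Fin r → ℚ}

/-- The sum of the ideals `I ^ u * J ^ v` with `u / c0 + v / Kk ≥ x`. -/
def filt {R : Type*} [CommRing R] (I J : Ideal R) (c0 Kk x : ℝ) : Ideal R :=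
  ⨆ (u : ℕ) (v : ℕ) (_ : x ≤ u / c0 + v / Kk), I ^ u * J ^ v

theorem filt_mul {R : Type*} [CommRing R] (I J : Ideal R) (c0 Kk x x' : ℝ) :
    filt I J c0 Kk x * filt I J c0 Kk x' ≤ filt I J c0 Kk (x + x') := by
  unfold filt
  simp only [Ideal.iSup_mul, Ideal.mul_iSup]
  refine iSup_le fun u => iSup_le fun v => iSup_le fun h => ?_
  refine iSup_le fun u' => iSup_le fun v' => iSup_le fun h' => ?_
  refine le_trans (le_of_eq ?_) (le_iSup_of_le (u + u') (le_iSup_of_le (v + v')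
    (le_iSup_of_le ?_ le_rfl)))
  · rw [pow_add, pow_add]
    ring
  · push_cast
    rw [add_div, add_div]
    linarith

theorem filt_pow {R : Type*} [CommRing R] (I J : Ideal R) (c0 Kk x : ℝ) (i : ℕ) :
    filt I J c0 Kk x ^ i ≤ filt I J c0 Kk (i * x) := by
  induction i with
  | zero =>
    rw [pow_zero]
    unfold filt
    refine le_iSup_of_le 0 (le_iSup_of_le 0 (le_iSup_of_le (by simp) (by simp)))
  | succ i ih =>
    rw [pow_succ]
    refine (Ideal.mul_mono_left ih).trans ((filt_mul I J c0 Kk _ _).trans (le_of_eq ?_))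
    congr 1
    push_cast
    ring

theorem filt_anti {R : Type*} [CommRing R] (I J : Ideal R) (c0 Kk : ℝ) {x x' : ℝ} (h : x ≤ x') :
    filt I J c0 Kk x' ≤ filt I J c0 Kk x := by
  unfold filt
  exact iSup_le fun u => iSup_le fun v => iSup_le fun h' =>
    le_iSup_of_le u (le_iSup_of_le v (le_iSup_of_le (h.trans h') le_rfl))

theorem pow_le_filt_right {R : Type*} [CommRing R] (I J : Ideal R) (c0 : ℝ) {Kk : ℕ}
    (hK : 1 ≤ Kk) (m : ℕ) : J ^ (Kk * m) ≤ filt I J c0 Kk m := by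
  unfold filt
  refine le_iSup_of_le 0 (le_iSup_of_le (Kk * m) (le_iSup_of_le ?_ (by simp)))
  have h1 : (0 : ℝ) < Kk := by exact_mod_cast hK
  push_cast
  rw [zero_div, zero_add, mul_div_cancel_left₀ _ h1.ne']

theorem pow_le_filt_left {R : Type*} [CommRing R] (I J : Ideal R) {c0 : ℝ} (hc : 0 < c0) (Kk : ℝ)
    (x : ℝ) : I ^ ⌈c0 * x⌉₊ ≤ filt I J c0 Kk x := by
  unfold filt
  refine le_iSup_of_le ⌈c0 * x⌉₊ (le_iSup_of_le 0 (le_iSup_of_le ?_ (by simp)))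
  rw [Nat.cast_zero, zero_div, add_zero, le_div_iff₀ hc, mul_comm]
  exact Nat.le_ceil _

/-- Proof. A generator is in `I ^ u * 𝔪 ^ v` with `u / c0 + v / Kk ≥ (1 + C0 / Kk) q`.  If
`v ≥ C0 q`, use `maxPow_le_Ie`.  Otherwise `v / Kk < C0 q / Kk`, so `u / c0 > q` and
`pow_le_Ie_of_fpt_lt` applies. -/
theorem filt_le_Ie (hS : SFR p K (maximalIdeal R) P c ⊤ 0) {C0 : ℕ} (hC : 1 ≤ C0)
    (g : Fin C0 → R) (hg : Ideal.span (Set.range g) = maximalIdeal R) {I : Ideal R}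
    (hI : I ≤ maximalIdeal R) {c0 : ℝ} (h : fpt p K (maximalIdeal R) P c I < c0) {Kk : ℕ}
    (hK : 1 ≤ Kk) (e : ℕ) {x : ℝ} (hx : (1 + (C0 : ℝ) / Kk) * (p : ℝ) ^ e ≤ x) :
    filt I (maximalIdeal R) c0 Kk x ≤ Ie p K (maximalIdeal R) P c e := by
  have hc0 : 0 < c0 := (fpt_nonneg I).trans_lt h
  have hK0 : (0 : ℝ) < Kk := by exact_mod_cast hK
  unfold filt
  refine iSup_le fun u => iSup_le fun v => iSup_le fun h' => ?_
  by_cases hv : C0 * p ^ e ≤ v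
  · exact Ideal.mul_le_right.trans ((Ideal.pow_le_pow_right hv).trans (maxPow_le_Ie hC g hg e))
  · refine Ideal.mul_le_left.trans (pow_le_Ie_of_fpt_lt hS hC g hg hI h e u ?_)
    have h1 : (v : ℝ) ≤ (C0 : ℝ) * (p : ℝ) ^ e := by exact_mod_cast (not_le.1 hv).le
    have h2 : (v : ℝ) / Kk ≤ (C0 : ℝ) * (p : ℝ) ^ e / Kk := div_le_div_of_nonneg_right h1 hK0.le
    have h3 : (1 + (C0 : ℝ) / Kk) * (p : ℝ) ^ e = (p : ℝ) ^ e + (C0 : ℝ) * (p : ℝ) ^ e / Kk := by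
      ring
    have h4 : (p : ℝ) ^ e ≤ u / c0 := by linarith
    rw [le_div_iff₀ hc0] at h4
    linarith

/-- From `filt_pow` and `filt_le_Ie`. -/
theorem filt_Prp (hS : SFR p K (maximalIdeal R) P c ⊤ 0) {C0 : ℕ} (hC : 1 ≤ C0)
    (g : Fin C0 → R) (hg : Ideal.span (Set.range g) = maximalIdeal R) {I : Ideal R}
    (hI : I ≤ maximalIdeal R) {c0 : ℝ} (h : fpt p K (maximalIdeal R) P c I < c0) {Kk : ℕ}
    (hK : 1 ≤ Kk) (m : ℕ) : Prp p K (maximalIdeal R) P c (1 + (C0 : ℝ) / Kk) m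
      (filt I (maximalIdeal R) c0 Kk m) := by
  intro e i hi
  refine (filt_pow I (maximalIdeal R) c0 Kk m i).trans (filt_le_Ie hS hC g hg hI h hK e ?_)
  rw [mul_comm (i : ℝ)]
  exact hi

end FU
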