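import Pool.Agent.Lib.MP_9e8926_ag_U.ThmG
import Pool.Agent.Lib.MP_9e8926_ag_U.Filt

/-!
# Theorem 1: the Frobenius volume is attained up to a uniform error by ideals of bounded level
-/

set_option autoImplicit false

noncomputable section

namespace FU

open IsLocalRing Finset Filter

variable {p : ℕ} [Fact p.Prime] {κ R K : Type*} [Field κ] [Finite κ] [CommRing R] [IsDomain R]
  [IsLocalRing R] [Field K] [CharP K p] [CharP R p] [Algebra κ R] [Algebra R K]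
  [IsFractionRing R K] {r : ℕ} {P : Fin r → Ideal R} {c : Fin r → ℚ} {n C0 : ℕ} {E : ℝ}

private theorem thm1_fin (d : Dat p κ K (maximalIdeal R) P n C0 E) {I : Ideal R}
    (hI : IsPrim (maximalIdeal R) I) (N : ℕ) : Module.Finite κ (R ⧸ I ^ N) := by
  obtain ⟨-, L, hL⟩ := hI
  have h1 : maximalIdeal R ^ (L * N) ≤ I ^ N := by
    rw [pow_mul]
    exact Ideal.pow_right_mono hL N
  have := d.fin (L * N)
  exact Module.Finite.of_surjective (Ideal.Quotient.factorₐ κ h1).toLinearMap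
    (Ideal.Quotient.factor_surjective h1)

private theorem thm1_ev (d : Dat p κ K (maximalIdeal R) P n C0 E) {I : Ideal R}
    (hI : IsPrim (maximalIdeal R) I) {L : ℝ} (hL : Tendsto (fun N : ℕ =>
      (n.factorial : ℝ) * (Module.finrank κ (R ⧸ I ^ N) : ℝ) / (N : ℝ) ^ n) atTop (nhds L))
    {ε c0 v : ℝ} (hε : 0 < ε) (hc0 : 0 < c0) (hv : (L + ε) * c0 ^ n < v) (Kk : ℕ) :
    ∀ᶠ m : ℕ in atTop, (Module.finrank κ (R ⧸ filt I (maximalIdeal R) c0 Kk m) : ℝ) ≤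
      v / n.factorial * (m : ℝ) ^ n := by
  have h1 : Tendsto (fun m : ℕ => ⌈c0 * (m : ℝ)⌉₊) atTop atTop :=
    tendsto_nat_ceil_atTop.comp (Tendsto.const_mul_atTop hc0 tendsto_natCast_atTop_atTop)
  have h2 : Tendsto (fun m : ℕ => (⌈c0 * (m : ℝ)⌉₊ : ℝ) / (m : ℝ)) atTop (nhds c0) :=
    (tendsto_nat_ceil_mul_div_atTop hc0.le).comp tendsto_natCast_atTop_atTop
  have h3 : Tendsto (fun m : ℕ => (L + ε) * ((⌈c0 * (m : ℝ)⌉₊ : ℝ) / (m : ℝ)) ^ n) atTop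
      (nhds ((L + ε) * c0 ^ n)) := (h2.pow n).const_mul _
  have h4 := h3.eventually_lt_const hv
  have h5 := hL.eventually_lt_const (lt_add_of_pos_right L hε)
  have h6 := h1.eventually h5
  filter_upwards [h4, h6, h1.eventually_gt_atTop 0, eventually_gt_atTop 0] with m m4 m6 m7 m8
  have := thm1_fin d hI ⌈c0 * (m : ℝ)⌉₊
  have h7 := finrank_quot_anti (κ := κ) (pow_le_filt_left I (maximalIdeal R) hc0 Kk (m : ℝ))
  have h8 : (Module.finrank κ (R ⧸ filt I (maximalIdeal R) c0 Kk m) : ℝ) ≤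
      (Module.finrank κ (R ⧸ I ^ ⌈c0 * (m : ℝ)⌉₊) : ℝ) := by exact_mod_cast h7
  have hn : (0 : ℝ) < n.factorial := by exact_mod_cast n.factorial_pos
  have h9 : (0 : ℝ) < (⌈c0 * (m : ℝ)⌉₊ : ℝ) ^ n := pow_pos (by exact_mod_cast m7) n
  have h10 : (0 : ℝ) < (m : ℝ) ^ n := pow_pos (by exact_mod_cast m8) n
  rw [div_lt_iff₀ h9] at m6
  rw [div_pow, mul_div_assoc', div_lt_iff₀ h10] at m4
  rw [div_mul_eq_mul_div, le_div_iff₀ hn]
  nlinarith [mul_le_mul_of_nonneg_right h8 hn.le]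

private theorem thm1_ne (d : Dat p κ K (maximalIdeal R) P n C0 E) {C : Ideal R} {N : ℕ}
    (h : maximalIdeal R ^ N ≤ C) : C ≠ ⊥ := by
  intro hC
  have h1 : d.b ∈ maximalIdeal R := Ideal.pow_le_self two_ne_zero d.b_mem
  have h2 : d.b ^ N ∈ C := h (Ideal.pow_mem_pow h1 N)
  rw [hC, Ideal.mem_bot] at h2
  exact pow_ne_zero N d.b_ne h2

/-- Proof. Let `I` be `𝔪`-primary with `emult I * fpt I ^ n < v` (`exists_lt_of_csInf_lt`; the set
is
non-empty, it contains the value of `𝔪`).  By continuity there are `c0 > fpt I ≥ 0` and `ε > 0` with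
` (emult I + ε) c0 ^ n < v`.  Put `z m = filt I 𝔪 c0 Kk m`, `S = 1 + C0 / Kk` (`pow_le_filt_right`,
`filt_Prp`) and `B = v / n!`.  Since `I ^ ⌈c0 m⌉₊ ≤ z m` (`pow_le_filt_left`) and
`n! finrank (R ⧸ I ^ N) / N ^ n → emult I` (`hlim`, `emult_eq_of_tendsto`), for all large `m`
`n! finrank (R ⧸ z m) ≤ (emult I + ε) ⌈c0 m⌉₊ ^ n ≤ v m ^ n` (`⌈c0 m⌉₊ / m → c0`); so `hB` of `thmG`
holds.  (Finite dimensionality of `R ⧸ I ^ N`: it is a quotient of some `R ⧸ 𝔪 ^ L`.)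
`C` of `thmG` has `fpt C ≤ S / M` (`fpt_le_of_Prp`; `C ≠ ⊥` since `𝔪 ^ (Kk M) ≤ C` and `R` is a
domain
which is not a field: if `𝔪 = ⊥`, then the Taylor maps with `n ≥ 1` and `y_i`, `b ∈ 𝔪 ^ 2`,
`b ≠ 0` are contradictory), and
`emult C * fpt C ^ n ≤ n! (B M ^ n + n E (Kk M + C0) ^ (n - 1)) (S / M) ^ n
  ≤ S ^ n (v + E n n! (Kk + C0) ^ (n - 1) / M)`, since `Kk M + C0 ≤ (Kk + C0) M`.
(`E ≥ 0` by `Dat.E1`.) -/
theorem Dat.thm1 (hn : 1 ≤ n) (hC : 1 ≤ C0) (d : Dat p κ K (maximalIdeal R) P n C0 E)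
    (hS : SFR p K (maximalIdeal R) P c ⊤ 0)
    (hlim : ∀ C : Ideal R, IsPrim (maximalIdeal R) C → ∃ L : ℝ, Tendsto (fun N : ℕ =>
      (n.factorial : ℝ) * (Module.finrank κ (R ⧸ C ^ N) : ℝ) / (N : ℝ) ^ n) atTop (nhds L))
    (Kk M : ℕ) (hK : 1 ≤ Kk) (hM : 1 ≤ M) (v : ℝ)
    (hv : FvolR κ n p K (maximalIdeal R) P c < v) :
    ∃ C : Ideal R, maximalIdeal R ^ (Kk * M) ≤ C ∧ C ≤ maximalIdeal R ∧
      emult κ n C * fpt p K (maximalIdeal R) P c C ^ n ≤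
        (1 + (C0 : ℝ) / Kk) ^ n *
          (v + E * n * (n.factorial : ℝ) * ((Kk : ℝ) + C0) ^ (n - 1) / M) := by
  unfold FvolR at hv
  have hne : Set.Nonempty {v : ℝ | ∃ I : Ideal R, IsPrim (maximalIdeal R) I ∧
      v = emult κ n I * fpt p K (maximalIdeal R) P c I ^ n} :=
    ⟨_, maximalIdeal R, ⟨le_rfl, 1, (pow_one _).le⟩, rfl⟩
  obtain ⟨_, ⟨I, hI, rfl⟩, hw⟩ := exists_lt_of_csInf_lt hne hv
  obtain ⟨L, hL⟩ := hlim I hI
  rw [emult_eq_of_tendsto hL] at hw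
  have hf0 : 0 ≤ fpt p K (maximalIdeal R) P c I := fpt_nonneg I
  have hL0 : 0 ≤ L := ge_of_tendsto' hL fun N => by positivity
  obtain ⟨ε, hε, hεv⟩ : ∃ ε : ℝ, 0 < ε ∧
      (L + ε) * (fpt p K (maximalIdeal R) P c I + ε) ^ n < v := by
    have h1 : Tendsto (fun ε : ℝ => (L + ε) * (fpt p K (maximalIdeal R) P c I + ε) ^ n)
        (nhdsWithin 0 (Set.Ioi 0))
        (nhds ((L + 0) * (fpt p K (maximalIdeal R) P c I + 0) ^ n)) := by
      refine Tendsto.mono_left (Continuous.tendsto ?_ 0) nhdsWithin_le_nhds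
      fun_prop
    rw [add_zero, add_zero] at h1
    have h2 := (h1.eventually_lt_const hw).and self_mem_nhdsWithin
    obtain ⟨ε, h3, h4⟩ := h2.exists
    exact ⟨ε, h4, h3⟩
  obtain ⟨c0, hc0⟩ : ∃ c0 : ℝ, c0 = fpt p K (maximalIdeal R) P c I + ε := ⟨_, rfl⟩
  rw [← hc0] at hεv
  have hc0f : fpt p K (maximalIdeal R) P c I < c0 := by
    rw [hc0]
    exact lt_add_of_pos_right _ hε
  have hc0p : 0 < c0 := hf0.trans_lt hc0f
  have hK0 : (0 : ℝ) < Kk := by exact_mod_cast hK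
  have hM0 : (0 : ℝ) < M := by exact_mod_cast hM
  have hv0 : 0 ≤ v := le_trans (by positivity) hw.le
  have hE0 : 0 ≤ E := by
    have h1 := d.E1 1 le_rfl
    rw [Nat.cast_one, one_pow, mul_one] at h1
    exact (Nat.cast_nonneg _).trans h1
  have hS0 : (0 : ℝ) ≤ 1 + (C0 : ℝ) / Kk := by positivity
  have hev := thm1_ev d hI hL hε hc0p hεv Kk
  obtain ⟨C, h1, h2, h3, h4⟩ := d.thmG (κ := κ) hn hC hS hlim Kk M hM (1 + (C0 : ℝ) / Kk)
    (fun m => filt I (maximalIdeal R) c0 Kk m)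
    (fun m => pow_le_filt_right I (maximalIdeal R) c0 hK m)
    (fun m => filt_Prp hS hC d.g d.span_g hI.1 hc0f hK m) (v / n.factorial)
    (fun e0 he0 => by
      refine Eventually.frequently ?_
      have h5 : Tendsto (fun k : ℕ => M * p ^ (k * e0)) atTop atTop := by
        have h6 : Tendsto (fun k : ℕ => p ^ (k * e0)) atTop atTop :=
          (tendsto_pow_atTop_atTop_of_one_lt (Fact.out : p.Prime).one_lt).comp
            (tendsto_id.atTop_mul_const' he0)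
        exact h6.const_mul_atTop' hM
      filter_upwards [h5.eventually hev] with k hk
      have h7 : ((M * p ^ (k * e0) : ℕ) : ℝ) = (M : ℝ) * (p : ℝ) ^ (k * e0) := by
        rw [Nat.cast_mul, Nat.cast_pow]
      rw [← h7]
      exact hk)
  refine ⟨C, h1, h2, ?_⟩
  have h5 : fpt p K (maximalIdeal R) P c C ≤ (1 + (C0 : ℝ) / Kk) / M :=
    fpt_le_of_Prp (thm1_ne d h1) hS0 hM h3
  have h6 : 0 ≤ fpt p K (maximalIdeal R) P c C := fpt_nonneg C
  have hfac : (0 : ℝ) < n.factorial := by exact_mod_cast n.factorial_pos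
  have h7 : (0 : ℝ) ≤ (n.factorial : ℝ) *
      (v / n.factorial * (M : ℝ) ^ n + n * E * ((Kk : ℝ) * M + C0) ^ (n - 1)) := by positivity
  refine (mul_le_mul_of_nonneg_right h4 (pow_nonneg h6 n)).trans ?_
  refine (mul_le_mul_of_nonneg_left (pow_le_pow_left₀ h6 h5 n) h7).trans ?_
  have h8 : ((Kk : ℝ) * M + C0) ^ (n - 1) ≤ (((Kk : ℝ) + C0) * M) ^ (n - 1) := by
    refine pow_le_pow_left₀ (by positivity) ?_ _
    have h9 : (1 : ℝ) ≤ M := by exact_mod_cast hM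
    have h10 : (0 : ℝ) ≤ C0 := Nat.cast_nonneg _
    nlinarith
  have h9 : (n.factorial : ℝ) *
      (v / n.factorial * (M : ℝ) ^ n + n * E * ((Kk : ℝ) * M + C0) ^ (n - 1)) *
      ((1 + (C0 : ℝ) / Kk) / M) ^ n = (1 + (C0 : ℝ) / Kk) ^ n *
      (v + E * n * (n.factorial : ℝ) * (((Kk : ℝ) * M + C0) ^ (n - 1) / (M : ℝ) ^ n)) := by
    rw [div_pow]
    field_simp
  rw [h9]
  refine mul_le_mul_of_nonneg_left (add_le_add_right ?_ v) (pow_nonneg hS0 n)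
  rw [mul_div_assoc]
  refine mul_le_mul_of_nonneg_left ?_ (by positivity)
  obtain ⟨m, rfl⟩ : ∃ m, n = m + 1 := ⟨n - 1, by omega⟩
  rw [Nat.add_sub_cancel] at h8 ⊢
  rw [div_le_div_iff₀ (by positivity) hM0]
  rw [mul_pow] at h8
  calc ((Kk : ℝ) * M + C0) ^ m * M ≤ ((Kk : ℝ) + C0) ^ m * (M : ℝ) ^ m * M :=
        mul_le_mul_of_nonneg_right h8 hM0.le
    _ = ((Kk : ℝ) + C0) ^ m * (M : ℝ) ^ (m + 1) := by ring

end FU
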