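import Pool.Agent.Lib.MP_9e8926_ag_U.ASfr
import Pool.Agent.Lib.MP_9e8926_ag_U.AH
import Pool.Agent.Lib.MP_9e8926_ag_U.AMul
import Pool.Agent.Lib.MP_9e8926_ag_U.Thm1

/-!
# Theorem 1 at a closed point
-/

set_option autoImplicit false

noncomputable section

namespace FU

open MvPolynomial IsLocalRing

/-- The denominator is not zero in the local ring. -/
theorem toO_F_ne {N r n D : ℕ} {κ : Type} [Field κ] {J : Ideal (MvPolynomial (Fin N) κ)}
    (hJ : J ≤ mX N κ) {P : Fin r → Ideal (MvPolynomial (Fin N) κ)} (d : HDat J P n D)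
    (hnz : ∀ t, aeval d.y d.F * t ∈ J → t ∈ J) : toO κ J (aeval d.y d.F) ≠ 0 := by
  intro h
  obtain ⟨u, hu, h1⟩ := (toO_eq_zero J _).1 h
  rw [mul_comm] at h1
  have h2 := (mem_mX u).1 (hJ (hnz u h1))
  rw [hu] at h2
  exact one_ne_zero h2

/-- Theorem 1 at a closed point. -/
theorem thm1_pt {N r n D w : ℕ} (hn : 1 ≤ n) (hN : 1 ≤ N) {κ : Type} [Field κ] [Finite κ]
    {J : Ideal (MvPolynomial (Fin N) κ)} (hJ : J ≤ mX N κ)
    {P : Fin r → Ideal (MvPolynomial (Fin N) κ)} (c : Fin r → ℚ) (d : HDat J P n D)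
    (hF : d.F ≠ 0) (hw : d.F.totalDegree ≤ w) (hnz : ∀ t, aeval d.y d.F * t ∈ J → t ∈ J)
    (hS : SFR (ringChar κ) (FractionRing (Oc κ J)) (mO κ J) (fun j => (P j).map (toO κ J)) c ⊤ 0)
    (Kk M : ℕ) (hK : 1 ≤ Kk) (hM : 1 ≤ M) (v : ℝ) (hv : Fvol n κ J P c < v) :
    ∃ C : Ideal (Oc κ J), mO κ J ^ (Kk * M) ≤ C ∧ C ≤ mO κ J ∧
      emult κ n (R := Oc κ J) C * fpt (R := Oc κ J) (ringChar κ) (FractionRing (Oc κ J))
        (mO κ J) (fun j => (P j).map (toO κ J)) c C ^ n ≤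
        (1 + (N : ℝ) / Kk) ^ n *
          (v + (D : ℝ) * (5 * w) * n * (n.factorial : ℝ) * ((Kk : ℝ) + N) ^ (n - 1) / M) := by
  have hlr : IsLocalRing (Oc κ J) := isLocal_Oc hJ
  have hmax := maximal_Oc hJ
  have hp : Fact (ringChar κ).Prime := ⟨CharP.char_is_prime κ (ringChar κ)⟩
  have hdom : IsDomain (Oc κ J) :=
    hS.isDomain hp.out.pos (isLocalRing_Oc J hJ).2
  have h1 : CharP (Oc κ J) (ringChar κ) := charP_Oc (ringChar κ) hJ
  have h2 : CharP (FractionRing (Oc κ J)) (ringChar κ) := charP_frac (ringChar κ) hJ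
  obtain ⟨d'⟩ := d.dat (ringChar κ) hn w hw hF (toO_F_ne hJ d hnz)
  obtain ⟨B, hB⟩ := d'.E0
  have hlim := hlim_Oc κ J n B hB
  rw [← hmax] at d' hlim hS ⊢
  unfold Fvol at hv
  rw [← hmax] at hv
  exact d'.thm1 hn hN hS hlim Kk M hK hM v hv

end FU
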