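import Pool.Agent.Lib.MP_9e8926_ag_U.Defs

/-!
# Lengths
-/

set_option autoImplicit false

noncomputable section

namespace FU

open Filter

variable {κ R : Type*} [Field κ] [CommRing R] [Algebra κ R]

/-- The projection of the quotients as a linear map over `κ`. -/
private def lenProj {C b : Ideal R} (h : C ≤ b) : (R ⧸ C) →ₗ[κ] (R ⧸ b) :=
  (Ideal.Quotient.factorₐ κ h).toLinearMap

private theorem lenProj_surj {C b : Ideal R} (h : C ≤ b) :
    Function.Surjective (lenProj (κ := κ) h) := Ideal.Quotient.factor_surjective h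

/-- Multiplication by `g` from `R ⧸ J` to `R ⧸ C`. -/
private def lenMul {J C : Ideal R} (g : R) (h : ∀ z ∈ J, g * z ∈ C) : (R ⧸ J) →ₗ[κ] (R ⧸ C) :=
  (Submodule.mapQ J C (LinearMap.mulLeft R g) fun z hz => h z hz).restrictScalars κ

private theorem len_key {C D J : Ideal R} [Module.Finite κ (R ⧸ C)] [Module.Finite κ (R ⧸ J)]
    (g : R) (hCD : C ≤ D) (hD : D ≤ Ideal.span {g} ⊔ C) (h : ∀ z ∈ J, g * z ∈ C) :
    Module.finrank κ (R ⧸ C) ≤ Module.finrank κ (R ⧸ D) + Module.finrank κ (R ⧸ J) := by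
  have h1 := (lenProj (κ := κ) hCD).finrank_range_add_finrank_ker
  rw [LinearMap.range_eq_top.2 (lenProj_surj hCD), finrank_top] at h1
  have h2 : LinearMap.ker (lenProj (κ := κ) hCD) ≤ LinearMap.range (lenMul (κ := κ) g h) := by
    intro z hz
    obtain ⟨y, rfl⟩ := Ideal.Quotient.mk_surjective z
    have h3 : y ∈ D := Ideal.Quotient.eq_zero_iff_mem.1 hz
    obtain ⟨a, ha, c, hc, rfl⟩ := Submodule.mem_sup.1 (hD h3)
    obtain ⟨r, rfl⟩ := Ideal.mem_span_singleton'.1 ha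
    refine ⟨Ideal.Quotient.mk J r, ?_⟩
    change Ideal.Quotient.mk C (g * r) = Ideal.Quotient.mk C (r * g + c)
    rw [map_add, Ideal.Quotient.eq_zero_iff_mem.2 hc, add_zero, mul_comm]
  have h4 := Submodule.finrank_mono h2
  have h5 := (lenMul (κ := κ) g h).finrank_range_le
  omega

theorem finrank_quot_anti {C b : Ideal R} [Module.Finite κ (R ⧸ C)] (h : C ≤ b) :
    Module.finrank κ (R ⧸ b) ≤ Module.finrank κ (R ⧸ C) := by
  have h1 := (lenProj (κ := κ) h).finrank_range_le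
  rw [LinearMap.range_eq_top.2 (lenProj_surj h), finrank_top] at h1
  exact h1

/-- `R ⧸ (span {h ^ (m + 1)} ⊔ C) → R ⧸ (span {h ^ m} ⊔ C)` has kernel a quotient of
`R ⧸ (span {h} ⊔ C)` (multiplication by `h ^ m`). -/
theorem finrank_quot_pow {C : Ideal R} [Module.Finite κ (R ⧸ C)] (h : R) (m : ℕ) :
    Module.finrank κ (R ⧸ (Ideal.span {h ^ m} ⊔ C)) ≤
      m * Module.finrank κ (R ⧸ (Ideal.span {h} ⊔ C)) := by
  have hfin : ∀ b : Ideal R, C ≤ b → Module.Finite κ (R ⧸ b) := fun b hb =>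
    Module.Finite.of_surjective (lenProj (κ := κ) hb) (lenProj_surj hb)
  induction m with
  | zero =>
    have h1 : Ideal.span {h ^ 0} ⊔ C = (⊤ : Ideal R) := by
      rw [pow_zero, Ideal.span_singleton_one, top_sup_eq]
    have h2 : Subsingleton (R ⧸ (Ideal.span {h ^ 0} ⊔ C)) := by
      rw [h1]
      exact Ideal.Quotient.subsingleton_iff.2 rfl
    rw [Module.finrank_zero_of_subsingleton]
    exact Nat.zero_le _
  | succ m ih =>
    have i1 := hfin (Ideal.span {h ^ (m + 1)} ⊔ C) le_sup_right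
    have i2 := hfin (Ideal.span {h} ⊔ C) le_sup_right
    have h1 : Ideal.span {h ^ (m + 1)} ⊔ C ≤ Ideal.span {h ^ m} ⊔ C := by
      refine sup_le_sup_right ?_ C
      rw [Ideal.span_singleton_le_span_singleton]
      exact pow_dvd_pow h (Nat.le_succ m)
    have h2 : Ideal.span {h ^ m} ⊔ C ≤ Ideal.span {h ^ m} ⊔ (Ideal.span {h ^ (m + 1)} ⊔ C) :=
      sup_le_sup_left le_sup_right _
    have h3 : ∀ z ∈ Ideal.span {h} ⊔ C, h ^ m * z ∈ Ideal.span {h ^ (m + 1)} ⊔ C := by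
      intro z hz
      obtain ⟨a, ha, c, hc, rfl⟩ := Submodule.mem_sup.1 hz
      obtain ⟨r, rfl⟩ := Ideal.mem_span_singleton'.1 ha
      rw [mul_add]
      refine Submodule.add_mem_sup ?_ (C.mul_mem_left _ hc)
      exact Ideal.mem_span_singleton'.2 ⟨r, by ring⟩
    have h4 := len_key (κ := κ) (h ^ m) h1 h2 h3
    rw [add_mul, one_mul]
    omega

/-- The kernel of `R ⧸ C → R ⧸ (span {h ^ m} ⊔ C)` is the image of the multiplication by `h ^ m`
from `R ⧸ b` to `R ⧸ C`. -/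
theorem finrank_quot_le {C b : Ideal R} [Module.Finite κ (R ⧸ C)] [Module.Finite κ (R ⧸ b)] (h : R)
    (m : ℕ) (hm : ∀ z ∈ b, h ^ m * z ∈ C) :
    Module.finrank κ (R ⧸ C) ≤
      Module.finrank κ (R ⧸ b) + m * Module.finrank κ (R ⧸ (Ideal.span {h} ⊔ C)) := by
  have h1 := len_key (κ := κ) (D := Ideal.span {h ^ m} ⊔ C) (h ^ m) le_sup_right le_rfl hm
  have h2 := finrank_quot_pow (κ := κ) (C := C) h m
  omega

/-- The limit superior is the limit. -/
theorem emult_eq_of_tendsto {n : ℕ} {C : Ideal R} {L : ℝ}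
    (hL : Tendsto (fun N : ℕ => (n.factorial : ℝ) * (Module.finrank κ (R ⧸ C ^ N) : ℝ) /
      (N : ℝ) ^ n) atTop (nhds L)) : emult κ n C = L :=
  hL.limsup_eq

theorem emult_le_of_frequently {n : ℕ} {C : Ideal R} {L : ℝ}
    (hL : Tendsto (fun N : ℕ => (n.factorial : ℝ) * (Module.finrank κ (R ⧸ C ^ N) : ℝ) /
      (N : ℝ) ^ n) atTop (nhds L)) {f : ℕ → ℕ} (hf : Tendsto f atTop atTop) {B : ℝ}
    (h : ∃ᶠ k in atTop, (n.factorial : ℝ) * (Module.finrank κ (R ⧸ C ^ f k) : ℝ) ≤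
      B * (f k : ℝ) ^ n) : emult κ n C ≤ B := by
  rw [emult_eq_of_tendsto hL]
  refine le_of_tendsto_of_frequently (hL.comp hf) ?_
  refine (h.and_eventually (hf.eventually_ge_atTop 1)).mono ?_
  rintro k ⟨h1, h2⟩
  have h3 : (0 : ℝ) < (f k : ℝ) ^ n := pow_pos (Nat.cast_pos.2 h2) n
  change (n.factorial : ℝ) * (Module.finrank κ (R ⧸ C ^ f k) : ℝ) / (f k : ℝ) ^ n ≤ B
  rw [div_le_iff₀ h3]
  exact h1

end FU
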