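import Pool.Agent.Lib.MP_9e8926_ag_U.Stmt

/-!
# Bases of quotients of polynomial rings and base change
-/

set_option autoImplicit false

noncomputable section

namespace FU

open MvPolynomial

/-- The images of the `m i` form a basis of `k[x]/J` over `k`. -/
def IsBas {σ ι k : Type*} [CommRing k] (J : Ideal (MvPolynomial σ k))
    (m : ι → MvPolynomial σ k) : Prop :=
  (∀ f : MvPolynomial σ k, ∃ a : ι →₀ k, f - a.sum (fun i c => C c * m i) ∈ J) ∧
  ∀ a : ι →₀ k, a.sum (fun i c => C c * m i) ∈ J → a = 0

private theorem abas_comb {σ ι k : Type*} [CommRing k] (m : ι → MvPolynomial σ k)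
    (a : ι →₀ k) : a.sum (fun i c => C c * m i) = Finsupp.linearCombination k m a := by
  rw [Finsupp.linearCombination_apply]
  refine Finsupp.sum_congr fun i _ => ?_
  rw [MvPolynomial.smul_eq_C_mul]

private theorem abas_mk {σ ι k : Type*} [CommRing k] (J : Ideal (MvPolynomial σ k))
    (m : ι → MvPolynomial σ k) (a : ι →₀ k) :
    Finsupp.linearCombination k (fun i => Ideal.Quotient.mk J (m i)) a =
      Ideal.Quotient.mk J (a.sum (fun i c => C c * m i)) := by
  rw [abas_comb]
  exact (Finsupp.apply_linearCombination k (Ideal.Quotient.mkₐ k J).toLinearMap m a).symm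

private theorem abas_inj {σ ι k : Type*} [CommRing k] {J : Ideal (MvPolynomial σ k)}
    {m : ι → MvPolynomial σ k} (h : ∀ a : ι →₀ k, a.sum (fun i c => C c * m i) ∈ J → a = 0) :
    LinearIndependent k (fun i => Ideal.Quotient.mk J (m i)) := by
  rw [linearIndependent_iff]
  intro l hl
  refine h l ?_
  rw [abas_mk] at hl
  exact Ideal.Quotient.eq_zero_iff_mem.1 hl

private theorem abas_indep {σ ι A B : Type*} [CommRing A] [CommRing B]
    {J : Ideal (MvPolynomial σ A)} {m : ι → MvPolynomial σ A}
    (ρ : MvPolynomial σ A →ₗ[A] (ι →₀ A)) (h0 : ∀ f ∈ J, ρ f = 0)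
    (h1 : ∀ i, ρ (m i) = Finsupp.single i 1) (φ : A →+* B) :
    ∀ a : ι →₀ B, a.sum (fun i c => C c * MvPolynomial.map φ (m i)) ∈
      J.map (MvPolynomial.map φ) → a = 0 := by
  classical
  have key : ∃ ρB : MvPolynomial σ B →ₗ[B] (ι →₀ B), ∀ α : σ →₀ ℕ,
      ρB (monomial α 1) = Finsupp.mapRange φ (map_zero φ) (ρ (monomial α 1)) := by
    refine ⟨(basisMonomials σ B).constr B
      (fun α => Finsupp.mapRange φ (map_zero φ) (ρ (monomial α 1))), fun α => ?_⟩
    have h2 := (basisMonomials σ B).constr_basis B
      (fun α => Finsupp.mapRange φ (map_zero φ) (ρ (monomial α 1))) α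
    rwa [coe_basisMonomials] at h2
  obtain ⟨ρB, hρ⟩ := key
  have hmono : ∀ (α : σ →₀ ℕ) (b : B), (monomial α b : MvPolynomial σ B) = b • monomial α 1 := by
    intro α b
    rw [smul_monomial, smul_eq_mul, mul_one]
  have hmap : ∀ f : MvPolynomial σ A,
      ρB (MvPolynomial.map φ f) = Finsupp.mapRange φ (map_zero φ) (ρ f) := by
    intro f
    induction f using MvPolynomial.induction_on' with
    | monomial u a =>
      rw [map_monomial, hmono u (φ a), map_smul, hρ]
      have h3 : (monomial u a : MvPolynomial σ A) = a • monomial u 1 := by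
        rw [smul_monomial, smul_eq_mul, mul_one]
      rw [h3, map_smul]
      ext i
      simp only [Finsupp.smul_apply, Finsupp.mapRange_apply, smul_eq_mul, map_mul]
    | add p q hp hq =>
      rw [map_add, map_add, map_add, hp, hq]
      ext i
      simp only [Finsupp.add_apply, Finsupp.mapRange_apply, map_add]
  have hmul : ∀ (g : MvPolynomial σ B) (f : MvPolynomial σ A), f ∈ J →
      ρB (g * MvPolynomial.map φ f) = 0 := by
    intro g f hf
    induction g using MvPolynomial.induction_on' with
    | monomial u b =>
      have h4 : (monomial u b : MvPolynomial σ B) * MvPolynomial.map φ f =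
          b • MvPolynomial.map φ (monomial u 1 * f) := by
        rw [map_mul, map_monomial, map_one, hmono u b, smul_mul_assoc]
      rw [h4, map_smul, hmap, h0 _ (J.mul_mem_left _ hf), Finsupp.mapRange_zero, smul_zero]
    | add p q hp hq =>
      rw [add_mul, map_add, hp, hq, add_zero]
  have hvan : ∀ x ∈ J.map (MvPolynomial.map φ), ∀ g : MvPolynomial σ B, ρB (g * x) = 0 := by
    intro x hx
    rw [Ideal.map] at hx
    induction hx using Submodule.span_induction with
    | mem x hx =>
      obtain ⟨f, hf, rfl⟩ := hx
      exact fun g => hmul g f hf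
    | zero => intro g; rw [mul_zero, map_zero]
    | add x y _ _ hx hy => intro g; rw [mul_add, map_add, hx, hy, add_zero]
    | smul c x _ hx => intro g; rw [smul_eq_mul, ← mul_assoc]; exact hx _
  intro a ha
  have h5 := hvan _ ha 1
  rw [one_mul, Finsupp.sum, map_sum] at h5
  have h6 : ∀ i ∈ a.support, ρB (C (a i) * MvPolynomial.map φ (m i)) =
      Finsupp.single i (a i) := by
    intro i _
    rw [← MvPolynomial.smul_eq_C_mul, map_smul, hmap, h1, Finsupp.mapRange_single, map_one,
      Finsupp.smul_single, smul_eq_mul, mul_one]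
  rw [Finset.sum_congr rfl h6] at h5
  have h7 : a.sum Finsupp.single = a := Finsupp.sum_single a
  rw [← h7]
  exact h5

/-- The rank of the quotient.

PROOF: the family `Ideal.Quotient.mk J ∘ m` is linearly independent over `k` (a `k`-linear
combination of it is the class of `a.sum fun i c => C c * m i`) and spans, so it is a basis
(`Module.Basis.mk`); use `Module.finrank_eq_nat_card_basis` and `Module.Finite.of_basis`. -/
theorem IsBas.finrank {σ ι k : Type*} [CommRing k] [Nontrivial k] {J : Ideal (MvPolynomial σ k)}
    {m : ι → MvPolynomial σ k} (h : IsBas J m) [Finite ι] :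
    Module.Finite k (MvPolynomial σ k ⧸ J) ∧
      Module.finrank k (MvPolynomial σ k ⧸ J) = Nat.card ι := by
  have hli := abas_inj h.2
  have hsp : ⊤ ≤ Submodule.span k (Set.range (fun i => Ideal.Quotient.mk J (m i))) := by
    intro x _
    obtain ⟨f, rfl⟩ := Ideal.Quotient.mk_surjective x
    obtain ⟨a, ha⟩ := h.1 f
    have h1 : Ideal.Quotient.mk J f =
        Finsupp.linearCombination k (fun i => Ideal.Quotient.mk J (m i)) a := by
      rw [abas_mk]
      exact Ideal.Quotient.eq.2 ha
    rw [h1]
    exact Finsupp.mem_span_range_iff_exists_finsupp.2 ⟨a, rfl⟩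
  let b := Module.Basis.mk hli hsp
  exact ⟨Module.Finite.of_basis b, Module.finrank_eq_nat_card_basis b⟩

/-- Base change of bases.

PROOF.  Spanning over `B`: the set of `g ∈ B[x]` which are congruent to a combination is a
`B`-submodule (contains `C b * g`), and it contains the image of every `f ∈ A[x]` (apply
`MvPolynomial.map φ` to the relation over `A`), in particular all monomials.
Independence over `B`: by the hypothesis there is an `A`-linear map `ρ : A[x] → (ι →₀ A)` with
`ρ = 0` on `J` and `ρ (m i) = single i 1` (choose for `f` the unique `a` with `f - ∑ a_i m_i ∈ J`).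
Let `ρB : B[x] → (ι →₀ B)` be the `B`-linear map (`MvPolynomial.basisMonomials.constr`) with
`ρB (x^α) = mapRange φ (ρ (x^α))`.  Then `ρB (map φ f) = mapRange φ (ρ f)` for all `f ∈ A[x]`
(additive in `f`, check it on `monomial α a = C a * x^α`).  `ρB` vanishes on `J.map (map φ)`: this
ideal is the `B`-span of the `map φ f`, `f ∈ J` (for `f ∈ J` and a monomial, `x^α f ∈ J` and
`monomial α b * map φ f = C b * map φ (x^α f)`).  And `ρB (∑ C a_i * map φ (m i)) = a`. -/
theorem IsBas.map {σ ι A B : Type*} [CommRing A] [CommRing B] {J : Ideal (MvPolynomial σ A)}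
    {m : ι → MvPolynomial σ A} (h : IsBas J m) (φ : A →+* B) :
    IsBas (J.map (MvPolynomial.map φ)) (fun i => MvPolynomial.map φ (m i)) := by
  classical
  constructor
  · intro f
    induction f using MvPolynomial.induction_on' with
    | monomial u b =>
      obtain ⟨a, ha⟩ := h.1 (monomial u 1)
      refine ⟨b • Finsupp.mapRange φ (map_zero φ) a, ?_⟩
      have h1 := Ideal.mem_map_of_mem (MvPolynomial.map φ) ha
      have h2 := (J.map (MvPolynomial.map φ)).mul_mem_left (C b) h1
      have h3 : C b * MvPolynomial.map φ (monomial u 1 - a.sum fun i c => C c * m i) =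
          (monomial u b : MvPolynomial σ B) -
            (b • Finsupp.mapRange φ (map_zero φ) a).sum
              (fun i c => C c * MvPolynomial.map φ (m i)) := by
        rw [map_sub, map_monomial, map_one, mul_sub, C_mul_monomial, mul_one]
        congr 1
        rw [Finsupp.sum_smul_index (fun i => by rw [map_zero, zero_mul]),
          Finsupp.sum_mapRange_index (fun i => by rw [mul_zero, map_zero, zero_mul]),
          Finsupp.sum, Finsupp.sum, map_sum, Finset.mul_sum]
        refine Finset.sum_congr rfl fun i _ => ?_
        rw [map_mul, map_C, map_mul, mul_assoc]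
      rw [h3] at h2
      exact h2
    | add p q hp hq =>
      obtain ⟨a, ha⟩ := hp
      obtain ⟨b, hb⟩ := hq
      refine ⟨a + b, ?_⟩
      have h1 : (a + b).sum (fun i c => C c * MvPolynomial.map φ (m i)) =
          a.sum (fun i c => C c * MvPolynomial.map φ (m i)) +
            b.sum (fun i c => C c * MvPolynomial.map φ (m i)) :=
        Finsupp.sum_add_index' (fun i => by rw [map_zero, zero_mul])
          (fun i c d => by rw [map_add, add_mul])
      rw [h1, add_sub_add_comm]
      exact Ideal.add_mem _ ha hb
  · have hb : Function.Bijective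
        (Finsupp.linearCombination A (fun i => Ideal.Quotient.mk J (m i))) := by
      refine ⟨abas_inj h.2, fun x => ?_⟩
      obtain ⟨f, rfl⟩ := Ideal.Quotient.mk_surjective x
      obtain ⟨a, ha⟩ := h.1 f
      refine ⟨a, ?_⟩
      rw [abas_mk]
      exact (Ideal.Quotient.eq.2 ha).symm
    let e := LinearEquiv.ofBijective _ hb
    refine abas_indep (e.symm.toLinearMap ∘ₗ (Ideal.Quotient.mkₐ A J).toLinearMap) ?_ ?_ φ
    · intro f hf
      have h1 : Ideal.Quotient.mkₐ A J f = 0 := Ideal.Quotient.eq_zero_iff_mem.2 hf
      change e.symm (Ideal.Quotient.mkₐ A J f) = 0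
      rw [h1, map_zero]
    · intro i
      change e.symm (Ideal.Quotient.mk J (m i)) = _
      rw [LinearEquiv.symm_apply_eq]
      change _ = Finsupp.linearCombination A (fun i => Ideal.Quotient.mk J (m i)) _
      rw [Finsupp.linearCombination_single, one_smul]

/-- Over a field every independent family extends to a basis, so independence is preserved by
base change to a bigger ring.

PROOF: the classes of the `m i` are linearly independent in the vector space `L[x]/J`; extend to a
basis (`Module.Basis.sumExtend` or `LinearIndependent.extend`), lift the new basis elements to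
polynomials; this gives `IsBas J (Sum.elim m m')` for some `m'`.  Now apply `IsBas.map` and embed
`ι →₀ B` in `ι ⊕ ι' →₀ B`. -/
theorem indep_map {σ ι L B : Type*} [Field L] [CommRing B] {J : Ideal (MvPolynomial σ L)}
    {m : ι → MvPolynomial σ L}
    (h : ∀ a : ι →₀ L, a.sum (fun i c => C c * m i) ∈ J → a = 0) (φ : L →+* B) :
    ∀ a : ι →₀ B, a.sum (fun i c => C c * MvPolynomial.map φ (m i)) ∈
      J.map (MvPolynomial.map φ) → a = 0 := by
  obtain ⟨r, hr⟩ := LinearMap.exists_leftInverse_of_injective
    (Finsupp.linearCombination L (fun i => Ideal.Quotient.mk J (m i)))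
    (LinearMap.ker_eq_bot.2 (abas_inj h))
  refine abas_indep (r ∘ₗ (Ideal.Quotient.mkₐ L J).toLinearMap) ?_ ?_ φ
  · intro f hf
    have h1 : Ideal.Quotient.mkₐ L J f = 0 := Ideal.Quotient.eq_zero_iff_mem.2 hf
    change r (Ideal.Quotient.mkₐ L J f) = 0
    rw [h1, map_zero]
  · intro i
    have h2 := LinearMap.congr_fun hr (Finsupp.single i 1)
    rw [LinearMap.comp_apply, Finsupp.linearCombination_single, one_smul] at h2
    exact h2

end FU
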