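import Mathlib

/-!
# Embeddings of finitely generated domains in the complex numbers
-/

set_option autoImplicit false

noncomputable section

namespace FU

private theorem ACEmb_aux {A K : Type} [CommRing A] [IsDomain A] [Countable A] [Field K]
    [Countable K] [Algebra A K] [FaithfulSMul A K] [Algebra A ℂ] [FaithfulSMul A ℂ] :
    Nonempty (K →ₐ[A] ℂ) := by
  obtain ⟨s, v, hv⟩ := exists_isTranscendenceBasis' A K
  obtain ⟨t, w, hw⟩ := exists_isTranscendenceBasis' A ℂ
  have h1 : Cardinal.mk ℂ = Cardinal.mk t :=
    IsAlgClosed.cardinal_eq_cardinal_transcendence_basis_of_aleph0_lt' w hw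
      Cardinal.mk_le_aleph0 (by rw [Cardinal.mk_complex]; exact Cardinal.aleph0_lt_continuum)
  have hs : Cardinal.mk s ≤ Cardinal.aleph0 := by
    have : Countable s := hv.1.injective.countable
    exact Cardinal.mk_le_aleph0
  have hst : Cardinal.mk s ≤ Cardinal.mk t := by
    rw [← h1, Cardinal.mk_complex]
    exact hs.trans Cardinal.aleph0_lt_continuum.le
  obtain ⟨e⟩ := hst
  let ψ₀ : Algebra.adjoin A (Set.range v) →ₐ[A] ℂ :=
    (MvPolynomial.aeval (w ∘ e)).comp hv.1.aevalEquiv.symm.toAlgHom
  have hwe : AlgebraicIndependent A (w ∘ e) := hw.1.comp e e.injective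
  have hwe' : Function.Injective (MvPolynomial.aeval (R := A) (w ∘ e)) := hwe
  have hψ₀ : Function.Injective ψ₀ := hwe'.comp hv.1.aevalEquiv.symm.injective
  let : Algebra (Algebra.adjoin A (Set.range v)) ℂ := ψ₀.toRingHom.toAlgebra
  have : FaithfulSMul (Algebra.adjoin A (Set.range v)) ℂ :=
    (faithfulSMul_iff_algebraMap_injective _ _).2 hψ₀
  have : IsScalarTower A (Algebra.adjoin A (Set.range v)) ℂ :=
    IsScalarTower.of_algebraMap_eq fun a => (ψ₀.commutes a).symm
  have := hv.isAlgebraic
  exact ⟨(IsAlgClosed.lift : K →ₐ[Algebra.adjoin A (Set.range v)] ℂ).restrictScalars A⟩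

/-- Embeddings of finitely generated domains in `ℂ`.

PROOF.  `K₀ = FractionRing A ⊆ K₁ = FractionRing B`, `K₁` is a finitely generated field extension;
`ι` extends to `K₀ → ℂ`, with countable image, so `ℂ` has infinite (uncountable) transcendence
degree over `K₀` (the algebraic closure of a countable field is countable:
`Algebra.IsAlgebraic.cardinalMk_le_max`, `Cardinal.mk_complex`, or
`Algebra.trdeg`/`IsTranscendenceBasis` cardinality).  Choose a finite transcendence basis of
`K₁ / K₀`, map it to algebraically independent elements of `ℂ`, and extend to the algebraic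
extension (`IsAlgClosed.lift`). -/
theorem exists_emb {A B : Type} [CommRing A] [IsDomain A] [Algebra.FiniteType ℤ A] [CommRing B]
    [IsDomain B] [Algebra.FiniteType ℤ B] (φ : A →+* B) (hφ : Function.Injective φ)
    (ι : A →+* ℂ) (hι : Function.Injective ι) :
    ∃ ψ : B →+* ℂ, Function.Injective ψ ∧ ψ.comp φ = ι := by
  have hcount : ∀ (R : Type) [CommRing R] [Algebra.FiniteType ℤ R], Countable R := by
    intro R _ _
    obtain ⟨n, f, hf⟩ := Algebra.FiniteType.iff_quotient_mvPolynomial''.1
      (inferInstance : Algebra.FiniteType ℤ R)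
    have : Countable (MvPolynomial (Fin n) ℤ) := by
      rw [← Cardinal.mk_le_aleph0_iff]
      exact (MvPolynomial.cardinalMk_le_max (σ := Fin n) (R := ℤ)).trans (by simp)
    exact hf.countable
  have := hcount A
  have := hcount B
  have : Countable (FractionRing B) := by
    refine Function.Surjective.countable (f := fun p : B × nonZeroDivisors B =>
      IsLocalization.mk' (FractionRing B) p.1 p.2) fun x => ?_
    obtain ⟨a, b, h⟩ := IsLocalization.exists_mk'_eq (nonZeroDivisors B) x
    exact ⟨(a, b), h⟩
  let : Algebra A ℂ := ι.toAlgebra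
  let : Algebra A (FractionRing B) := ((algebraMap B (FractionRing B)).comp φ).toAlgebra
  have : FaithfulSMul A ℂ := (faithfulSMul_iff_algebraMap_injective _ _).2 hι
  have : FaithfulSMul A (FractionRing B) := (faithfulSMul_iff_algebraMap_injective _ _).2
    ((IsFractionRing.injective B (FractionRing B)).comp hφ)
  obtain ⟨f⟩ := ACEmb_aux (A := A) (K := FractionRing B)
  refine ⟨f.toRingHom.comp (algebraMap B (FractionRing B)),
    f.toRingHom.injective.comp (IsFractionRing.injective B (FractionRing B)), ?_⟩
  ext a
  exact f.commutes a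

end FU
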