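import Mathlib

/-!
# A maximal good ideal
-/

set_option autoImplicit false

noncomputable section

namespace FU

/-- A maximal good ideal is prime.

PROOF.  Call an ideal `z` of `Q` good if for every `s ≠ 0` in `A` there is `𝔫 ∈ T` with `z ≤ 𝔫`
and `algebraMap s ∉ 𝔫`.  `⊥` is good; let `𝔮` be maximal among the good ideals (noetherian).
If `a b ∈ 𝔮`, `a, b ∉ 𝔮`, then `𝔮 ⊔ (a)`, `𝔮 ⊔ (b)` are not good, with bad `s₁`, `s₂`; take `𝔫` for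
`s₁ s₂`: it contains `a` or `b`, a contradiction.  If `g ∉ 𝔮` then `𝔮 ⊔ (g)` is not good, with
bad `s`; the `𝔫` for `𝔮`, `s` does not contain `g`.  If `algebraMap a ∈ 𝔮`, `a ≠ 0`: contradiction
to goodness with `s = a`. -/
theorem good_prime {A Q : Type} [CommRing A] [IsDomain A] [CommRing Q] [IsNoetherianRing Q]
    [Algebra A Q] (T : Set (Ideal Q)) (hT : ∀ 𝔫 ∈ T, 𝔫.IsPrime)
    (hd : ∀ s : A, s ≠ 0 → ∃ 𝔫 ∈ T, algebraMap A Q s ∉ 𝔫) :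
    ∃ 𝔮 : Ideal Q, 𝔮.IsPrime ∧ (∀ a : A, algebraMap A Q a ∈ 𝔮 → a = 0) ∧
      ∀ g : Q, g ∉ 𝔮 → ∃ 𝔫 ∈ T, 𝔮 ≤ 𝔫 ∧ g ∉ 𝔫 := by
  classical
  let G : Set (Ideal Q) := {z | ∀ s : A, s ≠ 0 → ∃ 𝔫 ∈ T, z ≤ 𝔫 ∧ algebraMap A Q s ∉ 𝔫}
  have hG : G.Nonempty := by
    refine ⟨⊥, fun s hs => ?_⟩
    obtain ⟨n, hn, h⟩ := hd s hs
    exact ⟨n, hn, bot_le, h⟩
  obtain ⟨q, hqG, hqmax⟩ := set_has_maximal_iff_noetherian.2
    (inferInstance : IsNoetherian Q Q) G hG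
  -- adding an element outside of `q` destroys goodness
  have bad : ∀ g : Q, g ∉ q → ∃ s : A, s ≠ 0 ∧ ∀ 𝔫 ∈ T, q ≤ 𝔫 → g ∈ 𝔫 →
      algebraMap A Q s ∈ 𝔫 := by
    intro g hg
    have hlt : q < q ⊔ Ideal.span {g} := by
      refine lt_of_le_of_ne le_sup_left fun h => hg ?_
      rw [h]
      exact Ideal.mem_sup_right (Ideal.subset_span rfl)
    have hnot : ¬ (q ⊔ Ideal.span {g}) ∈ G := fun h => hqmax _ h hlt
    have hnot' : ¬ ∀ s : A, s ≠ 0 → ∃ 𝔫 ∈ T, q ⊔ Ideal.span {g} ≤ 𝔫 ∧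
        algebraMap A Q s ∉ 𝔫 := hnot
    push Not at hnot'
    obtain ⟨s, hs, h⟩ := hnot'
    refine ⟨s, hs, fun n hn hq hgn => h n hn (sup_le hq ?_)⟩
    rw [Ideal.span_le]
    intro y hy
    rw [Set.mem_singleton_iff.1 hy]
    exact hgn
  refine ⟨q, ?_, ?_, ?_⟩
  · refine ⟨?_, ?_⟩
    · intro htop
      obtain ⟨n, hn, hle, h⟩ := hqG 1 one_ne_zero
      rw [htop] at hle
      exact h (hle trivial)
    · intro a b hab
      by_contra hcon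
      push Not at hcon
      obtain ⟨s₁, hs₁, h₁⟩ := bad a hcon.1
      obtain ⟨s₂, hs₂, h₂⟩ := bad b hcon.2
      obtain ⟨n, hn, hle, h⟩ := hqG (s₁ * s₂) (mul_ne_zero hs₁ hs₂)
      rcases (hT n hn).mem_or_mem (hle hab) with ha | hb
      · exact h (by rw [map_mul]; exact n.mul_mem_right _ (h₁ n hn hle ha))
      · exact h (by rw [map_mul]; exact n.mul_mem_left _ (h₂ n hn hle hb))
  · intro a ha
    by_contra hne
    obtain ⟨n, hn, hle, h⟩ := hqG a hne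
    exact h (hle ha)
  · intro g hg
    obtain ⟨s, hs, h⟩ := bad g hg
    obtain ⟨n, hn, hle, hns⟩ := hqG s hs
    exact ⟨n, hn, hle, fun hgn => hns (h n hn hle hgn)⟩

end FU
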