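import Pool.Agent.Lib.MP_9e8926_ag_U.Stmt

/-!
# Ideals of bounded level in coordinates
-/

set_option autoImplicit false

noncomputable section

namespace FU

open MvPolynomial

/-- Exponents of the monomials of degree in `[1, M)`. -/
abbrev Ex (N M : ℕ) : Type := {v : Fin N → Fin M // 1 ≤ ∑ i, (v i : ℕ) ∧ ∑ i, (v i : ℕ) < M}

/-- The monomial with exponent `v`. -/
def xm {N M : ℕ} (k : Type*) [CommRing k] (v : Ex N M) : MvPolynomial (Fin N) k :=
  ∏ i, X i ^ ((v.1 i : Fin M) : ℕ)

/-- The ideal generated by `(x)^M` and linear combinations of monomials with coefficients `c`. -/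
def Ic {N M : ℕ} {k : Type*} [CommRing k] (c : Ex N M × Ex N M → k) :
    Ideal (MvPolynomial (Fin N) k) :=
  mX N k ^ M ⊔ Ideal.span (Set.range fun u : Ex N M => ∑ v, C (c (u, v)) * xm k v)

private theorem mX_mapIc {N : ℕ} {k k' : Type*} [CommRing k] [CommRing k'] (φ : k →+* k') :
    (mX N k).map (MvPolynomial.map φ) = mX N k' := by
  rw [mX, mX, Ideal.map_span, ← Set.range_comp]
  congr 2
  funext i
  exact map_X φ i

private theorem xm_map {N M : ℕ} {k k' : Type*} [CommRing k] [CommRing k'] (φ : k →+* k')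
    (v : Ex N M) : MvPolynomial.map φ (xm k v) = xm k' v := by
  rw [xm, xm, map_prod]
  exact Finset.prod_congr rfl fun i _ => by rw [map_pow, map_X]

theorem Ic_map {N M : ℕ} {k k' : Type*} [CommRing k] [CommRing k'] (φ : k →+* k')
    (c : Ex N M × Ex N M → k) : bc φ (Ic c) = Ic (fun u => φ (c u)) := by
  rw [bc, Ic, Ic, Ideal.map_sup, Ideal.map_pow, mX_mapIc, Ideal.map_span, ← Set.range_comp]
  congr 3
  funext u
  rw [Function.comp_apply, map_sum]
  exact Finset.sum_congr rfl fun v _ => by rw [map_mul, map_C, xm_map]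

private theorem X_memIc {N : ℕ} {k : Type*} [CommRing k] (i : Fin N) :
    (X i : MvPolynomial (Fin N) k) ∈ mX N k := Ideal.subset_span ⟨i, rfl⟩

private theorem prod_memIc {N : ℕ} {k : Type*} [CommRing k] (v : Fin N → ℕ) :
    (∏ i, X i ^ v i : MvPolynomial (Fin N) k) ∈ mX N k ^ ∑ i, v i := by
  rw [← Finset.prod_pow_eq_pow_sum]
  exact Ideal.prod_mem_prod fun i _ => Ideal.pow_mem_pow (X_memIc i) _

theorem Ic_le {N M : ℕ} (hM : 1 ≤ M) {k : Type*} [CommRing k] (c : Ex N M × Ex N M → k) :
    Ic c ≤ mX N k ∧ mX N k ^ M ≤ Ic c := by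
  refine ⟨sup_le (Ideal.pow_le_self (by omega)) (Ideal.span_le.2 ?_), le_sup_left⟩
  rintro _ ⟨u, rfl⟩
  refine Ideal.sum_mem _ fun v _ => Ideal.mul_mem_left _ _ ?_
  have h := prod_memIc (k := k) (fun i => ((v.1 i : Fin M) : ℕ))
  exact Ideal.pow_le_self (by have := v.2.1; omega) h

private theorem monomial_Ic {N : ℕ} {k : Type*} [CommRing k] (s : Fin N →₀ ℕ) (a : k) :
    monomial s a = C a * ∏ i, X i ^ s i := by
  rw [monomial_eq, Finsupp.prod_fintype _ _ fun i => pow_zero _]

private theorem low_Ic {N M : ℕ} {k : Type*} [CommRing k]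
    (f : MvPolynomial (Fin N) k) :
    ∃ g ∈ Submodule.span k (Set.range (xm (N := N) (M := M) k)),
      f - C (constantCoeff f) - g ∈ mX N k ^ M := by
  induction f using MvPolynomial.induction_on' with
  | monomial s a =>
    by_cases h0 : s = 0
    · refine ⟨0, Submodule.zero_mem _, ?_⟩
      subst h0
      have h1 : constantCoeff (monomial (0 : Fin N →₀ ℕ) a) = a := by
        rw [constantCoeff_monomial, if_pos rfl]
      rw [h1, sub_zero]
      show C a - C a ∈ _
      rw [sub_self]
      exact Ideal.zero_mem _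
    · have hc : constantCoeff (monomial s a) = 0 := by
        rw [constantCoeff_monomial, if_neg h0]
      by_cases hs : M ≤ ∑ i, s i
      · refine ⟨0, Submodule.zero_mem _, ?_⟩
        rw [hc, map_zero, sub_zero, sub_zero, monomial_Ic]
        exact Ideal.mul_mem_left _ _ (Ideal.pow_le_pow_right hs (prod_memIc _))
      · have hpos : 1 ≤ ∑ i, s i := by
          by_contra hlt
          have hz : ∑ i, s i = 0 := by omega
          refine h0 (Finsupp.ext fun i => ?_)
          exact (Finset.sum_eq_zero_iff.1 hz) i (Finset.mem_univ i)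
        have hlt : ∀ i, s i < M := fun i =>
          lt_of_le_of_lt (Finset.single_le_sum (f := fun i => s i) (fun _ _ => Nat.zero_le _)
            (Finset.mem_univ i)) (not_le.1 hs)
        let v : Ex N M := ⟨fun i => ⟨s i, hlt i⟩, hpos, not_le.1 hs⟩
        refine ⟨monomial s a, ?_, ?_⟩
        · have hv : monomial s a = a • xm k v := by
            rw [monomial_Ic, smul_eq_C_mul]
            rfl
          rw [hv]
          exact Submodule.smul_mem _ _ (Submodule.subset_span ⟨v, rfl⟩)
        · rw [hc, map_zero, sub_zero, sub_self]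
          exact Ideal.zero_mem _
  | add p q hp hq =>
    obtain ⟨g, hg, hg'⟩ := hp
    obtain ⟨g2, hg2, hg2'⟩ := hq
    refine ⟨g + g2, Submodule.add_mem _ hg hg2, ?_⟩
    have h := Ideal.add_mem _ hg' hg2'
    have he : p + q - C (constantCoeff (p + q)) - (g + g2) =
        p - C (constantCoeff p) - g + (q - C (constantCoeff q) - g2) := by
      rw [map_add, map_add]
      ring
    rw [he]
    exact h

private theorem const_Ic {N : ℕ} {k : Type*} [CommRing k] {f : MvPolynomial (Fin N) k}
    (hf : f ∈ mX N k) : constantCoeff f = 0 := by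
  have h : mX N k ≤ RingHom.ker (constantCoeff : MvPolynomial (Fin N) k →+* k) := by
    rw [mX, Ideal.span_le]
    rintro _ ⟨i, rfl⟩
    exact constantCoeff_X k i
  exact h hf

private theorem family_Ic {E : Type*} [Fintype E] {k W : Type*} [Field k] [AddCommGroup W]
    [Module k W] (x : E → W) (U : Submodule k W) (hU : U ≤ Submodule.span k (Set.range x)) :
    ∃ c : E × E → k, Submodule.span k (Set.range fun u => ∑ v, c (u, v) • x v) = U := by
  have hfd : Module.Finite k (Submodule.span k (Set.range x)) :=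
    Module.Finite.span_of_finite k (Set.finite_range x)
  have hfdU : Module.Finite k U := Submodule.finiteDimensional_of_le hU
  have hcard : Fintype.card (Fin (Module.finrank k U)) ≤ Fintype.card E := by
    rw [Fintype.card_fin]
    exact (Submodule.finrank_mono hU).trans (finrank_range_le_card x)
  obtain ⟨emb⟩ := Function.Embedding.nonempty_of_card_le hcard
  let b := Module.finBasis k U
  let g : E → W := Function.extend emb (fun i => ((b i : U) : W)) 0
  have hg : ∀ e, g e ∈ U := fun e => by
    by_cases he : ∃ i, emb i = e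
    · obtain ⟨i, rfl⟩ := he
      show Function.extend emb _ _ (emb i) ∈ U
      rw [emb.injective.extend_apply]
      exact (b i).2
    · show Function.extend emb _ _ e ∈ U
      rw [Function.extend_apply' _ _ _ he]
      exact U.zero_mem
  have hc : ∀ e, ∃ c : E → k, ∑ v, c v • x v = g e := fun e =>
    (Submodule.mem_span_range_iff_exists_fun k).1 (hU (hg e))
  choose c hc using hc
  refine ⟨fun u => c u.1 u.2, ?_⟩
  have hfun : (fun u => ∑ v, c u v • x v) = g := funext hc
  show Submodule.span k (Set.range fun u => ∑ v, c u v • x v) = U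
  rw [hfun]
  refine le_antisymm (Submodule.span_le.2 ?_) fun w hw => ?_
  · rintro _ ⟨e, rfl⟩
    exact hg e
  · have h1 := b.mem_span ⟨w, hw⟩
    have h2 : w ∈ (Submodule.span k (Set.range b)).map U.subtype := ⟨⟨w, hw⟩, h1, rfl⟩
    rw [Submodule.map_span, ← Set.range_comp] at h2
    refine Submodule.span_mono ?_ h2
    rintro _ ⟨i, rfl⟩
    exact ⟨emb i, emb.injective.extend_apply _ _ i⟩

/-- Every ideal between `(x)^M` and `(x)` over a field is an `Ic c`.

PROOF.  Let `V` be the span of the `xm k v`, of dimension `≤ card (Ex N M)`, and `U = K ∩ V`.  `U`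
is spanned by a family indexed by `Ex N M` (a basis of `U`, extended by `0`).  If `f ∈ K ⊆ (x)`
then `f` minus its monomials of degree `≥ M` is in `V ∩ K`. -/
theorem exists_Ic {N M : ℕ} (hM : 1 ≤ M) {k : Type*} [Field k]
    (K : Ideal (MvPolynomial (Fin N) k)) (h1 : K ≤ mX N k) (h2 : mX N k ^ M ≤ K) :
    ∃ c : Ex N M × Ex N M → k, K = Ic c := by
  obtain ⟨c, hc⟩ := family_Ic (xm (N := N) (M := M) k)
    (K.restrictScalars k ⊓ Submodule.span k (Set.range (xm (N := N) (M := M) k))) inf_le_right
  refine ⟨c, le_antisymm (fun f hf => ?_) (sup_le h2 (Ideal.span_le.2 ?_))⟩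
  · obtain ⟨g, hg, hfg⟩ := low_Ic (M := M) f
    rw [const_Ic (h1 hf), map_zero, sub_zero] at hfg
    have hgK : g ∈ K := by
      have h3 := K.sub_mem hf (h2 hfg)
      rwa [sub_sub_cancel] at h3
    have hgU : g ∈ K.restrictScalars k ⊓
        Submodule.span k (Set.range (xm (N := N) (M := M) k)) := ⟨hgK, hg⟩
    rw [← hc] at hgU
    have hsp : Submodule.span k (Set.range fun u => ∑ v, c (u, v) • xm (N := N) (M := M) k v) ≤
        (Ideal.span
          (Set.range fun u : Ex N M => ∑ v, C (c (u, v)) * xm k v)).restrictScalars k := by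
      rw [Submodule.span_le]
      rintro _ ⟨u, rfl⟩
      refine Ideal.subset_span ⟨u, Finset.sum_congr rfl fun v _ => ?_⟩
      rw [smul_eq_C_mul]
    have h4 : g ∈ Ic c := Ideal.mem_sup_right (hsp hgU)
    have h5 : f - g ∈ Ic c := Ideal.mem_sup_left hfg
    have h6 := Ideal.add_mem _ h5 h4
    rwa [sub_add_cancel] at h6
  · rintro _ ⟨u, rfl⟩
    have h3 : ∑ v, c (u, v) • xm (N := N) (M := M) k v ∈ K.restrictScalars k ⊓
        Submodule.span k (Set.range (xm (N := N) (M := M) k)) := by
      rw [← hc]
      exact Submodule.subset_span ⟨u, rfl⟩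
    have h4 : ∑ v, c (u, v) • xm (N := N) (M := M) k v = ∑ v, C (c (u, v)) * xm k v :=
      Finset.sum_congr rfl fun v _ => by rw [smul_eq_C_mul]
    rw [h4] at h3
    exact h3.1

end FU
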