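import Mathlib
import Pool.Agent.Lib.MP_9e8926_ag_FV.ResF

/-!
# Closed points with finite residue field
-/

set_option autoImplicit false

noncomputable section

namespace FU

private theorem acpt_alg {S : Type} [CommRing S] (i : Algebra ℤ S)
    (h : @Algebra.FiniteType ℤ S _ _ i) :
    @Algebra.FiniteType ℤ S _ _ (Ring.toIntAlgebra S) :=
  (Subsingleton.elim i (Ring.toIntAlgebra S)) ▸ h

/-- There are many closed points with finite residue field.

PROOF: `Localization.Away s` is a non-zero finitely generated `ℤ`-algebra; take a maximal ideal
`𝔪` of it; the quotient is a field which is finitely generated over `ℤ`, so finite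
(`finite_of_finite_type_of_isJacobsonRing` gives that it is a finite `ℤ`-module; if
`ℤ → κ` were injective then `ℤ` would be a field; so it is a finite module over `ℤ/p`).  The map
from `A` to the quotient has as image a subring of a finite field, which is a field; take
`κ = A ⧸ ker`. -/
theorem exists_pt {A : Type} [CommRing A] [IsDomain A] [Algebra.FiniteType ℤ A] (s : A)
    (hs : s ≠ 0) : ∃ (κ : Type) (_ : Field κ) (_ : Finite κ) (θ : A →+* κ),
      Function.Surjective θ ∧ θ s ≠ 0 := by
  have hinj : Function.Injective (algebraMap A (Localization.Away s)) :=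
    IsLocalization.injective _ (powers_le_nonZeroDivisors_of_noZeroDivisors hs)
  have hnt : Nontrivial (Localization.Away s) := hinj.nontrivial
  have hft1 : Algebra.FiniteType A (Localization.Away s) :=
    IsLocalization.finiteType_of_monoid_fg (Submonoid.powers s) _
  have hft : Algebra.FiniteType ℤ (Localization.Away s) := Algebra.FiniteType.trans ‹_› hft1
  obtain ⟨m, hm⟩ := Ideal.exists_maximal (Localization.Away s)
  let : Field (Localization.Away s ⧸ m) := Ideal.Quotient.field m
  have hfin : Finite (Localization.Away s ⧸ m) :=
    @FV.finite_of_surj (Localization.Away s) _ (acpt_alg _ hft) _ _ (Ideal.Quotient.mk m)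
      Ideal.Quotient.mk_surjective
  set θ0 : A →+* (Localization.Away s ⧸ m) :=
    (Ideal.Quotient.mk m).comp (algebraMap A (Localization.Away s)) with hθ0
  have hfin2 : Finite (A ⧸ RingHom.ker θ0) :=
    Finite.of_injective _ (RingHom.kerLift_injective θ0)
  have hpr : (RingHom.ker θ0).IsPrime := RingHom.ker_isPrime θ0
  have hdom : IsDomain (A ⧸ RingHom.ker θ0) := Ideal.Quotient.isDomain _
  have hne : θ0 s ≠ 0 := by
    have h1 : IsUnit (algebraMap A (Localization.Away s) s) :=
      IsLocalization.map_units (Localization.Away s) (⟨s, Submonoid.mem_powers s⟩ :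
        Submonoid.powers s)
    exact (h1.map (Ideal.Quotient.mk m)).ne_zero
  refine ⟨A ⧸ RingHom.ker θ0, (Finite.isField_of_domain _).toField, hfin2,
    Ideal.Quotient.mk (RingHom.ker θ0), Ideal.Quotient.mk_surjective, ?_⟩
  intro h
  exact hne ((RingHom.mem_ker).1 (Ideal.Quotient.eq_zero_iff_mem.1 h))

end FU
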