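import Pool.Agent.Lib.MP_9e8926_ag_U.AMul
import Pool.Agent.Lib.MP_9e8926_ag_U.ACGood
import Pool.Agent.Lib.MP_9e8926_ag_U.ACIc
import Pool.Agent.Lib.MP_9e8926_ag_U.ACEmb
import Pool.Agent.Lib.MP_9e8926_ag_U.ACPt

/-!
# The compactness argument: families of ideals of bounded level
-/

set_option autoImplicit false

noncomputable section

namespace FU

open MvPolynomial

private theorem cp_emult_nonneg (κ : Type*) [CommRing κ] (n : ℕ) {R : Type*} [CommRing R]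
    [Algebra κ R] (I : Ideal R) : 0 ≤ emult κ n I := by
  unfold emult
  rw [Filter.limsup_eq]
  refine Real.sInf_nonneg fun a ha => ?_
  obtain ⟨m, hm⟩ := (ha : ∀ᶠ N in Filter.atTop, _ ≤ a).exists
  refine le_trans ?_ hm
  positivity

private theorem cp_fpt_nonneg {R : Type*} [CommRing R] {r : ℕ} (p : ℕ) (K : Type*) [CommRing K]
    [Algebra R K] (𝔪 : Ideal R) (P : Fin r → Ideal R) (c : Fin r → ℚ) (I : Ideal R) :
    0 ≤ fpt p K 𝔪 P c I :=
  Real.sSup_nonneg fun _ ht => ht.1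

private theorem cp_liminf_nonneg {A : Type} [CommRing A] [Nontrivial A]
    (f : ∀ (κ : Type) [Field κ] [Finite κ], (A →+* κ) → ℝ)
    (hf : ∀ (κ : Type) [Field κ] [Finite κ] (θ : A →+* κ), 0 ≤ f κ θ) : 0 ≤ liminfPts f :=
  Real.sSup_nonneg' ⟨0, ⟨1, one_ne_zero, fun κ _ _ θ _ _ => hf κ θ⟩, le_rfl⟩

/-- The value at a bad point. -/
private def cpBad {A : Type} [CommRing A] {N r : ℕ} (J : Ideal (MvPolynomial (Fin N) A))
    (P : Fin r → Ideal (MvPolynomial (Fin N) A)) (c : Fin r → ℚ) (n M : ℕ) (v : ℝ)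
    (κ : Type) [Field κ] (θ : A →+* κ) (c' : Ex N M × Ex N M → κ) : Prop :=
  multAt n κ (bc θ J) (Ic c') *
    fptAt κ (bc θ J) (fun j => bc θ (P j)) c (Ic c') ^ n ≤ v

private theorem cp_mX_map {N : ℕ} {A B : Type*} [CommRing A] [CommRing B] (φ : A →+* B) :
    bc φ (mX N A) = mX N B := by
  unfold bc mX
  rw [Ideal.map_span]
  congr 1
  ext f
  constructor
  · rintro ⟨_, ⟨i, rfl⟩, rfl⟩
    exact ⟨i, (map_X φ i).symm⟩
  · rintro ⟨i, rfl⟩
    exact ⟨X i, ⟨i, rfl⟩, map_X φ i⟩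

private theorem cp_map_pow {N : ℕ} (k : Type*) [CommRing k] (J : Ideal (MvPolynomial (Fin N) k))
    (M : ℕ) : (mX N k ^ M).map (toO k J) = mO k J ^ M :=
  Ideal.map_pow (R := MvPolynomial (Fin N) k) (S := Oc k J) (toO k J) (mX N k) M

private theorem cp_ft {A : Type} [CommRing A] [Algebra.FiniteType ℤ A] {σ : Type} [Finite σ]
    {B : Type} [CommRing B] (f : MvPolynomial σ A →+* B) (hf : Function.Surjective f) :
    Algebra.FiniteType ℤ B := by
  have hA : (Int.castRingHom A).FiniteType := by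
    rw [← algebraMap_int_eq, RingHom.finiteType_algebraMap]
    infer_instance
  have hQ : (C : A →+* MvPolynomial σ A).FiniteType := by
    have h1 : (algebraMap A (MvPolynomial σ A)).FiniteType :=
      RingHom.finiteType_algebraMap.2 inferInstance
    exact h1
  have h := ((RingHom.FiniteType.of_surjective f hf).comp hQ).comp hA
  have e : (f.comp C).comp (Int.castRingHom A) = Int.castRingHom B := Subsingleton.elim _ _
  rw [e, ← algebraMap_int_eq, RingHom.finiteType_algebraMap] at h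
  exact h

private theorem cp_bc_bc {N : ℕ} {A B R : Type*} [CommRing A] [CommRing B] [CommRing R]
    (J : Ideal (MvPolynomial (Fin N) A)) (φ : A →+* B) (ψ : B →+* R) :
    bc ψ (bc φ J) = bc (ψ.comp φ) J := by
  unfold bc
  rw [Ideal.map_map]
  congr 1
  refine RingHom.ext fun f => ?_
  exact MvPolynomial.map_map φ ψ f

private theorem cp_dense {A : Type} [CommRing A] [IsDomain A] {N r : ℕ}
    (J : Ideal (MvPolynomial (Fin N) A)) (P : Fin r → Ideal (MvPolynomial (Fin N) A))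
    (c : Fin r → ℚ) (hJ0 : J ≤ mX N A) (n : ℕ) (M : ℕ) (hM : 1 ≤ M) (v : ℝ)
    (κ : Type) [Field κ] (θ : A →+* κ) (K : Ideal (Oc κ (bc θ J)))
    (h1 : mO κ (bc θ J) ^ M ≤ K) (h2 : K ≤ mO κ (bc θ J))
    (h3 : emult κ n (R := Oc κ (bc θ J)) K * fpt (R := Oc κ (bc θ J)) (ringChar κ)
          (FractionRing (Oc κ (bc θ J))) (mO κ (bc θ J))
          (fun j => (bc θ (P j)).map (toO κ (bc θ J))) c K ^ n ≤ v) :
    ∃ c' : Ex N M × Ex N M → κ, cpBad J P c n M v κ θ c' := by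
  have hJ : bc θ J ≤ mX N κ := by
    rw [← cp_mX_map θ]
    exact Ideal.map_mono hJ0
  obtain ⟨c', hc'⟩ := exists_Ic hM (K.comap (toO κ (bc θ J))) (by
    have h4 : K.comap (toO κ (bc θ J)) ≤ ((mX N κ).map (toO κ (bc θ J))).comap
      (toO κ (bc θ J)) := Ideal.comap_mono h2
    rw [comap_map_toO (bc θ J) (mX N κ) 1 (by rw [pow_one])] at h4
    exact h4.trans (sup_le hJ le_rfl)) (by
    rw [← Ideal.map_le_iff_le_comap]
    exact (cp_map_pow κ (bc θ J) M).le.trans h1)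
  refine ⟨c', ?_⟩
  have h5 : (Ic c').map (toO κ (bc θ J)) = K := by
    rw [← hc', map_comap_toO]
  unfold cpBad multAt fptAt
  rw [h5]
  exact h3

private theorem cp_lim {e l v : ℝ} {n : ℕ} (hn : 1 ≤ n) (hv : 0 ≤ v) (hl : 0 ≤ l)
    (h : ∀ v', 0 < v' → v' < l → e * v' ^ n ≤ v) : e * l ^ n ≤ v := by
  rcases hl.eq_or_lt with h0 | h0
  · rw [← h0, zero_pow (by omega), mul_zero]
    exact hv
  · have hc : Filter.Tendsto (fun x : ℝ => e * x ^ n) (nhdsWithin l (Set.Iio l))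
        (nhds (e * l ^ n)) :=
      ((continuous_const.mul (continuous_pow n)).tendsto l).mono_left nhdsWithin_le_nhds
    refine le_of_tendsto hc ?_
    filter_upwards [Ioo_mem_nhdsLT h0] with x hx
    exact h x hx.1 hx.2

private theorem cp_main {A : Type} [CommRing A] (ι : A →+* ℂ) {N r : ℕ}
    (J : Ideal (MvPolynomial (Fin N) A)) (P : Fin r → Ideal (MvPolynomial (Fin N) A))
    (c : Fin r → ℚ) (n : ℕ) (hn : 1 ≤ n) (M : ℕ) (hM : 1 ≤ M) (v : ℝ) (hv : 0 ≤ v)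
    {B : Type} [CommRing B] [IsDomain B] [Algebra.FiniteType ℤ B] (φ : A →+* B) (ψ : B →+* ℂ)
    (hψ : Function.Injective ψ) (hψφ : ψ.comp φ = ι) (x : Ex N M × Ex N M → B)
    (hx : ∀ s : B, s ≠ 0 → ∃ (κ : Type) (_ : Field κ) (_ : Finite κ) (ν : B →+* κ),
      Function.Surjective ν ∧ ν s ≠ 0 ∧ cpBad J P c n M v κ (ν.comp φ) fun u => ν (x u)) :
    Vlow n ι J P c ≤ v := by
  let 𝔞 : Mod N ι :=
    { B := B
      φ := φ
      ψ := ψ
      inj := hψ
      comp := hψφ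
      I := Ic x
      le := (Ic_le hM x).1
      ge := ⟨M, (Ic_le hM x).2⟩ }
  have hnoB : IsNoetherianRing B := Algebra.FiniteType.isNoetherianRing ℤ B
  obtain ⟨s₁, hs₁, e, he⟩ := mult_const (bc φ J) (Ic x) M (Ic_le hM x).2 n
  have heC : multAt n ℂ (bc ι J) (bc 𝔞.ψ 𝔞.I) = e := by
    rw [← he ℂ ψ (by rwa [Ne, map_eq_zero_iff ψ hψ]), cp_bc_bc, hψφ]
  have he0 : 0 ≤ e := by
    rw [← heC]
    exact cp_emult_nonneg _ _ _
  have hfpt : ∀ (κ : Type) [Field κ] [Finite κ] (ν : B →+* κ), 0 ≤ fptMod ι J P c 𝔞 κ ν :=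
    fun κ _ _ ν => cp_fpt_nonneg _ _ _ _ _ _
  have hl : 0 ≤ liminfPts (fun κ _ _ (ν : B →+* κ) => fptMod ι J P c 𝔞 κ ν) :=
    cp_liminf_nonneg (A := B) _ hfpt
  have key : ∀ s : B, s ≠ 0 → ∃ (κ : Type) (_ : Field κ) (_ : Finite κ) (ν : B →+* κ),
      Function.Surjective ν ∧ ν s ≠ 0 ∧ e * fptMod ι J P c 𝔞 κ ν ^ n ≤ v := by
    intro s hs
    obtain ⟨κ, _, _, ν, hν, hνs, hχ'⟩ := hx (s * s₁) (mul_ne_zero hs hs₁)
    rw [map_mul] at hνs
    refine ⟨κ, inferInstance, inferInstance, ν, hν, left_ne_zero_of_mul hνs, ?_⟩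
    unfold cpBad at hχ'
    rw [← Ic_map ν x] at hχ'
    have h4 := he κ ν (right_ne_zero_of_mul hνs)
    rw [cp_bc_bc] at h4
    rw [h4] at hχ'
    exact hχ'
  have hfin : e * liminfPts (fun κ _ _ (ν : B →+* κ) => fptMod ι J P c 𝔞 κ ν) ^ n ≤ v := by
    refine cp_lim hn hv hl fun v' h0 h1 => ?_
    obtain ⟨w, ⟨s, hs, hw⟩, hvw⟩ := exists_lt_of_lt_csSup
      (⟨0, ⟨1, one_ne_zero, fun κ _ _ ν _ _ => hfpt κ ν⟩⟩ : Set.Nonempty
        {v : ℝ | Almost fun κ _ _ (θ : B →+* κ) => v ≤ fptMod ι J P c 𝔞 κ θ}) h1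
    obtain ⟨κ, _, _, ν, h2, h3, h4⟩ := key s hs
    refine le_trans ?_ h4
    refine mul_le_mul_of_nonneg_left ?_ he0
    exact pow_le_pow_left₀ h0.le (hvw.le.trans (hw κ ν h2 h3)) n
  refine le_trans (csInf_le ⟨0, ?_⟩ ⟨𝔞, rfl⟩) (by rw [heC]; exact hfin)
  rintro _ ⟨𝔟, rfl⟩
  refine mul_nonneg (cp_emult_nonneg _ _ _) (pow_nonneg ?_ n)
  exact cp_liminf_nonneg _ fun κ _ _ ν => cp_fpt_nonneg _ _ _ _ _ _

/-- Transport of bad points along a surjection. -/
private theorem cp_bad_lift {A : Type} [CommRing A] {N r : ℕ}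
    (J : Ideal (MvPolynomial (Fin N) A)) (P : Fin r → Ideal (MvPolynomial (Fin N) A))
    (c : Fin r → ℚ) (n M : ℕ) (v : ℝ) {B Q : Type} [CommRing Q] [CommRing B]
    (f : Q →+* B) (hf : Function.Surjective f) (i : A →+* Q) (x : Ex N M × Ex N M → Q)
    (κ : Type) [Field κ] (χ : Q →+* κ) (hχ : Function.Surjective (χ.comp i))
    (hbad : cpBad J P c n M v κ (χ.comp i) fun u => χ (x u))
    (hk : RingHom.ker f ≤ RingHom.ker χ) (g : Q) (hg : g ∉ RingHom.ker χ) :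
    ∃ ν : B →+* κ, Function.Surjective ν ∧ ν (f g) ≠ 0 ∧
      cpBad J P c n M v κ (ν.comp (f.comp i)) fun u => ν (f (x u)) := by
  let ν : B →+* κ := (f.liftOfRightInverse _ (Function.rightInverse_surjInv hf)) ⟨χ, hk⟩
  have hν : ∀ q, ν (f q) = χ q :=
    f.liftOfRightInverse_comp_apply _ (Function.rightInverse_surjInv hf) ⟨χ, hk⟩
  have hθ : χ.comp i = ν.comp (f.comp i) := RingHom.ext fun a => (hν (i a)).symm
  refine ⟨ν, fun y => ?_, ?_, ?_⟩
  · obtain ⟨a, ha⟩ := hχ y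
    exact ⟨f (i a), by rw [hν]; exact ha⟩
  · rw [hν]
    exact hg
  · rw [← hθ]
    simp only [hν]
    exact hbad

/-- The compactness argument.

PROOF.  Let `Q = MvPolynomial (Ex N M × Ex N M) A` and `c : Ex N M × Ex N M → Q` the variables
(`c u = X u`); `T` is the set of the kernels of the homomorphisms `χ : Q → κ` to finite fields `κ`
such that `θ = χ ∘ C : A → κ` is surjective and `K = (Ic (χ ∘ c)).map (toO κ (bc θ J))` satisfies
`emult κ n K * fpt … K ^ n ≤ v` (bad points).  By `hbad`, `exists_Ic` (for the contraction of `K`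
to `κ[x]`) and `map_comap_toO`, for every `s ≠ 0` there is such a `χ` with `χ (C s) ≠ 0`.  Let `𝔮`
be as in `good_prime`, `B = Q ⧸ 𝔮`, `φ : A → B` injective, `ψ : B → ℂ` as in `exists_emb`,
`I = Ic (class of c)`; this is a model `𝔞 : Mod N ι`.  Let `s₁ ≠ 0`, `e` be as in `mult_const`
for `B`, `bc φ J`, `I`.  For every `s ≠ 0` in `B` there is a bad `χ` which factors through
`ν : B → κ` with `ν (s s₁) ≠ 0`, `ν` surjective; `multAt n κ (bc (ν.comp φ) J) (bc ν I) = e =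
multAt n ℂ (bc ι J) (bc ψ I)` (`bc ν (bc φ J) = bc (ν.comp φ) J`), so
`e * fptMod ι J P c 𝔞 κ ν ^ n ≤ v`.  Let `ℓ` be the `liminfPts` of `fptMod`.  If `ℓ ≤ 0` then
`ℓ = 0` (it is the supremum of a set which contains `0`, or of an unbounded set) and
`e * 0 ^ n = 0 ≤ v`.  Otherwise for every `0 < v' < ℓ` there is `w > v'` with
`Almost (w ≤ fptMod)`, so `e * v' ^ n ≤ v`; let `v' → ℓ`.  So the element of the set defining
`Vlow` given by `𝔞` is `≤ v` (this set is bounded below by `0`). -/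
theorem comp {A : Type} [CommRing A] [IsDomain A] [Algebra.FiniteType ℤ A] (ι : A →+* ℂ)
    (hι : Function.Injective ι) {N r : ℕ} (J : Ideal (MvPolynomial (Fin N) A))
    (P : Fin r → Ideal (MvPolynomial (Fin N) A)) (c : Fin r → ℚ) (hJ0 : J ≤ mX N A) (n : ℕ) (hn : 1 ≤ n)
    (M : ℕ) (hM : 1 ≤ M) (v : ℝ) (hv : 0 ≤ v)
    (hbad : ∀ s : A, s ≠ 0 → ∃ (κ : Type) (_ : Field κ) (_ : Finite κ) (θ : A →+* κ),
      Function.Surjective θ ∧ θ s ≠ 0 ∧ ∃ K : Ideal (Oc κ (bc θ J)),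
        mO κ (bc θ J) ^ M ≤ K ∧ K ≤ mO κ (bc θ J) ∧
        emult κ n (R := Oc κ (bc θ J)) K * fpt (R := Oc κ (bc θ J)) (ringChar κ)
          (FractionRing (Oc κ (bc θ J))) (mO κ (bc θ J))
          (fun j => (bc θ (P j)).map (toO κ (bc θ J))) c K ^ n ≤ v) :
    Vlow n ι J P c ≤ v := by
  have hnoA : IsNoetherianRing A := Algebra.FiniteType.isNoetherianRing ℤ A
  let T : Set (Ideal (MvPolynomial (Ex N M × Ex N M) A)) :=
    {𝔫 | ∃ (κ : Type) (_ : Field κ) (_ : Finite κ) (χ : MvPolynomial (Ex N M × Ex N M) A →+* κ),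
      𝔫 = RingHom.ker χ ∧ Function.Surjective (χ.comp C) ∧
        cpBad J P c n M v κ (χ.comp C) fun u => χ (X u)}
  obtain ⟨𝔮, h𝔮, hinj, hdense⟩ := good_prime (A := A) T (by
    rintro _ ⟨κ, _, _, χ, rfl, -, -⟩
    exact RingHom.ker_isPrime χ) (fun s hs => by
    obtain ⟨κ, _, _, θ, hθ, hs', K, h1, h2, h3⟩ := hbad s hs
    obtain ⟨c', hc'⟩ := cp_dense J P c hJ0 n M hM v κ θ K h1 h2 h3
    have e1 : (eval₂Hom θ c').comp C = θ := eval₂Hom_comp_C θ c'
    have e2 : (fun u => eval₂Hom θ c' (X u)) = c' := funext fun u => eval₂Hom_X' θ c' u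
    refine ⟨RingHom.ker (eval₂Hom θ c'), ⟨κ, inferInstance, inferInstance, eval₂Hom θ c', rfl,
      ?_, ?_⟩, ?_⟩
    · rw [e1]
      exact hθ
    · rw [e1, e2]
      exact hc'
    · rw [RingHom.mem_ker, algebraMap_eq, eval₂Hom_C]
      exact hs')
  obtain ⟨B, _, f, hf, hfk⟩ : ∃ (B : Type) (_ : CommRing B)
      (f : MvPolynomial (Ex N M × Ex N M) A →+* B), Function.Surjective f ∧
        RingHom.ker f = 𝔮 := ⟨_ ⧸ 𝔮, inferInstance, Ideal.Quotient.mk 𝔮,
    Ideal.Quotient.mk_surjective, Ideal.mk_ker⟩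
  have hdom : IsDomain B := by
    have h1 : (RingHom.ker f).IsPrime := by rwa [hfk]
    exact (RingHom.quotientKerEquivOfSurjective hf).symm.toMulEquiv.isDomain _
  have hftB : Algebra.FiniteType ℤ B := cp_ft f hf
  have hφ : Function.Injective (f.comp C) := by
    rw [injective_iff_map_eq_zero]
    intro a ha
    refine hinj a ?_
    rw [← hfk]
    exact ha
  obtain ⟨ψ, hψ, hψφ⟩ := exists_emb (f.comp C) hφ ι hι
  refine cp_main ι J P c n hn M hM v hv (f.comp C) ψ hψ hψφ (fun u => f (X u)) fun s hs => ?_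
  obtain ⟨g, rfl⟩ := hf s
  obtain ⟨_, ⟨κ, _, _, χ, rfl, hχ, hχ'⟩, h1, h2⟩ := hdense g (fun hg' => hs (by
    rw [← hfk] at hg'
    exact hg'))
  rw [← hfk] at h1
  obtain ⟨ν, h3, h4, h5⟩ := cp_bad_lift J P c n M v f hf C X κ χ hχ hχ' h1 g h2
  exact ⟨κ, inferInstance, inferInstance, ν, h3, h4, h5⟩

end FU
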