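import Mathlib

/-!
# Eventually polynomial functions: sums and normalized limits
-/

set_option autoImplicit false

noncomputable section

namespace FU

open Filter Topology

private theorem sum_poly_aux (P : Polynomial ℚ) :
    ∃ Q : Polynomial ℚ, ∀ j : ℕ, ∑ i ∈ Finset.range j, P.eval (i : ℚ) = Q.eval (j : ℚ) := by
  induction P using Polynomial.induction_on' with
  | add P₁ P₂ h₁ h₂ =>
    obtain ⟨Q₁, h₁⟩ := h₁
    obtain ⟨Q₂, h₂⟩ := h₂
    refine ⟨Q₁ + Q₂, fun j => ?_⟩
    rw [Polynomial.eval_add, ← h₁, ← h₂, ← Finset.sum_add_distrib]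
    simp
  | monomial d a =>
    refine ⟨∑ i ∈ Finset.range (d + 1), Polynomial.C (a * (bernoulli i * ((d + 1).choose i) /
      (d + 1))) * Polynomial.X ^ (d + 1 - i), fun j => ?_⟩
    have h1 := sum_range_pow j d
    rw [Polynomial.eval_finsetSum]
    simp only [Polynomial.eval_monomial, Polynomial.eval_mul, Polynomial.eval_C,
      Polynomial.eval_pow, Polynomial.eval_X]
    rw [← Finset.mul_sum, h1, Finset.mul_sum]
    refine Finset.sum_congr rfl fun i _ => ?_
    ring

/-- Sums of eventually polynomial functions are eventually polynomial.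

PROOF: it is enough to find, for `P ∈ ℚ[X]`, a polynomial `Q` with `Q(X+1) - Q(X) = P(X)` (then
`∑_{i<j} f i - Q(j)` is eventually constant).  By linearity and induction on the degree: for
`P = X^d` the polynomial `X^(d+1)/(d+1)` has difference `X^d +` lower terms.  (Or use
`Polynomial.bernoulli`: `Polynomial.bernoulli_succ_eval`, `Polynomial.sum_range_pow_eq_...`.) -/
theorem sum_poly (f : ℕ → ℚ) (P : Polynomial ℚ) (h : ∀ᶠ j : ℕ in atTop, f j = P.eval (j : ℚ)) :
    ∃ Q : Polynomial ℚ, ∀ᶠ j : ℕ in atTop, ∑ i ∈ Finset.range j, f i = Q.eval (j : ℚ) := by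
  obtain ⟨Q, hQ⟩ := sum_poly_aux P
  obtain ⟨N, hN⟩ := eventually_atTop.1 h
  refine ⟨Q + Polynomial.C (∑ i ∈ Finset.range N, (f i - P.eval (i : ℚ))), ?_⟩
  filter_upwards [eventually_ge_atTop N] with j hj
  rw [Polynomial.eval_add, Polynomial.eval_C, ← hQ]
  have h1 : ∑ i ∈ Finset.range j, (f i - P.eval (i : ℚ)) =
      ∑ i ∈ Finset.range N, (f i - P.eval (i : ℚ)) := by
    refine (Finset.sum_subset (Finset.range_subset_range.2 hj) fun i _ hi => ?_).symm
    rw [Finset.mem_range, not_lt] at hi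
    rw [hN i hi, sub_self]
  rw [← h1, Finset.sum_sub_distrib]
  ring

/-- The normalized limit of an eventually polynomial function of bounded growth exists.

PROOF: if `P.natDegree ≤ n` then `P(j) / j^n → P.coeff n`
(`Polynomial.div_tendsto_leadingCoeff_div_of_degree_eq`, `Polynomial.div_tendsto_zero_of_degree_lt`
or a sum of limits of `j^i / j^n`).  If `P.natDegree > n` then `|P(j)| / j^n → ∞`, against
the bound `h j ≤ B j^n`. -/
theorem lim_of_poly (h : ℕ → ℕ) (n : ℕ) (P : Polynomial ℚ)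
    (hP : ∀ᶠ j : ℕ in atTop, (h j : ℚ) = P.eval (j : ℚ)) (B : ℝ)
    (hB : ∀ᶠ j : ℕ in atTop, (h j : ℝ) ≤ B * (j : ℝ) ^ n) :
    ∃ L : ℝ, Tendsto (fun j : ℕ => (n.factorial : ℝ) * (h j : ℝ) / (j : ℝ) ^ n) atTop (𝓝 L) := by
  obtain ⟨R, hR⟩ : ∃ R : Polynomial ℝ, R = P.map (algebraMap ℚ ℝ) := ⟨_, rfl⟩
  have hPR : ∀ᶠ j : ℕ in atTop, (h j : ℝ) = R.eval (j : ℝ) := by
    filter_upwards [hP] with j hj
    have h1 : R.eval (j : ℝ) = ((P.eval (j : ℚ) : ℚ) : ℝ) := by
      rw [hR, Polynomial.eval_map_algebraMap]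
      have h2 := Polynomial.aeval_algebraMap_apply ℝ (j : ℚ) P
      simpa using h2
    rw [h1, ← hj]
    simp
  have hX : (Polynomial.X ^ n : Polynomial ℝ) ≠ 0 := pow_ne_zero _ Polynomial.X_ne_zero
  have hev : ∀ x : ℝ, (Polynomial.X ^ n : Polynomial ℝ).eval x = x ^ n := fun x => by simp
  rcases lt_trichotomy R.degree (Polynomial.X ^ n : Polynomial ℝ).degree with hd | hd | hd
  · have h1 := (Polynomial.div_tendsto_atTop_zero_of_degree_lt R _ hd).comp
      (tendsto_natCast_atTop_atTop (R := ℝ))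
    refine ⟨(n.factorial : ℝ) * 0, ?_⟩
    refine (h1.const_mul (n.factorial : ℝ)).congr' ?_
    filter_upwards [hPR] with j hj
    rw [Function.comp_apply, hev, ← hj, mul_div_assoc]
  · have h1 := (Polynomial.div_tendsto_atTop_leadingCoeff_div_of_degree_eq R _ hd).comp
      (tendsto_natCast_atTop_atTop (R := ℝ))
    refine ⟨(n.factorial : ℝ) * (R.leadingCoeff /
      (Polynomial.X ^ n : Polynomial ℝ).leadingCoeff), ?_⟩
    refine (h1.const_mul (n.factorial : ℝ)).congr' ?_
    filter_upwards [hPR] with j hj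
    rw [Function.comp_apply, hev, ← hj, mul_div_assoc]
  · exfalso
    have h1 := (Polynomial.abs_div_tendsto_atTop_atTop_of_degree_gt R _ hd hX).comp
      (tendsto_natCast_atTop_atTop (R := ℝ))
    have h2 := h1.eventually_gt_atTop B
    obtain ⟨j, hj1, hj2, hj3, hj4⟩ := (h2.and (hPR.and (hB.and (eventually_ge_atTop 1)))).exists
    have hj0 : (0 : ℝ) < (j : ℝ) ^ n := pow_pos (by exact_mod_cast hj4) n
    rw [Function.comp_apply, hev, ← hj2, abs_of_nonneg (by positivity), lt_div_iff₀ hj0] at hj1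
    linarith

end FU
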