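import Pool.Agent.Lib.MP_9e8926_ag_U.AGr
import Pool.Agent.Lib.MP_9e8926_ag_U.ADownA

/-!
# The Hilbert function of a lower set
-/

set_option autoImplicit false

noncomputable section

namespace FU

open Filter Topology

/-- The slice of a set. -/
private def sl {m : ℕ} (D : Set (Fin (m + 1) → ℕ)) (i : ℕ) : Set (Fin m → ℕ) :=
  {γ | (Fin.cons i γ : Fin (m + 1) → ℕ) ∈ D}

private theorem sl_lower {m : ℕ} {D : Set (Fin (m + 1) → ℕ)} (hD : IsLowerSet D) (i : ℕ) :
    IsLowerSet (sl D i) := by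
  intro a b hab ha
  refine hD ?_ ha
  intro k
  refine Fin.cases ?_ (fun k => ?_) k
  · simp
  · simpa using hab k

private theorem sl_anti {m : ℕ} {D : Set (Fin (m + 1) → ℕ)} (hD : IsLowerSet D) {i j : ℕ}
    (hij : i ≤ j) : sl D j ⊆ sl D i := by
  intro a ha
  refine hD ?_ ha
  intro k
  refine Fin.cases ?_ (fun k => ?_) k
  · simpa using hij
  · simp

private theorem sl_stab {m : ℕ} {D : Set (Fin (m + 1) → ℕ)} (hD : IsLowerSet D) :
    ∃ t, ∀ i, t ≤ i → sl D i = sl D t := by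
  by_contra hc
  push Not at hc
  have h1 : ∃ᶠ i in atTop, ∃ γ, γ ∈ sl D i ∧ γ ∉ sl D (i + 1) := by
    rw [Filter.frequently_atTop]
    intro t
    obtain ⟨i, hi, hne⟩ := hc t
    by_contra hc2
    push Not at hc2
    apply hne
    apply Set.Subset.antisymm (sl_anti hD hi)
    have h3 : ∀ k, sl D t ⊆ sl D (t + k) := by
      intro k
      induction k with
      | zero => exact subset_rfl
      | succ k ih => exact fun x hx => hc2 (t + k) (by omega) x (ih hx)
    have h2 := h3 (i - t)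
    rwa [Nat.add_sub_cancel' hi] at h2
  obtain ⟨φ, hφ, hP⟩ := Filter.extraction_of_frequently_atTop h1
  choose g hg hg' using hP
  obtain ⟨a, b, hab, hle⟩ := (wellQuasiOrdered_le (α := Fin m → ℕ)) g
  exact hg' a (sl_lower hD _ hle (sl_anti hD (Nat.succ_le_of_lt (hφ hab)) (hg b)))

private theorem cn_fin {m : ℕ} (D : Set (Fin m → ℕ)) (j : ℕ) :
    Finite {γ : Fin m → ℕ // γ ∈ D ∧ ∑ i, γ i = j} := by
  have h1 : ({γ : Fin m → ℕ | γ ∈ D ∧ ∑ i, γ i = j}).Finite := by
    refine (Set.finite_Iic (fun _ : Fin m => j)).subset ?_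
    rintro γ ⟨_, h⟩
    intro i
    rw [← h]
    exact Finset.single_le_sum (f := γ) (fun _ _ => Nat.zero_le _) (Finset.mem_univ i)
  exact h1.to_subtype

private theorem cn_succ {m : ℕ} (D : Set (Fin (m + 1) → ℕ)) (j : ℕ) :
    Nat.card {γ : Fin (m + 1) → ℕ // γ ∈ D ∧ ∑ i, γ i = j} =
      ∑ i ∈ Finset.range (j + 1), Nat.card {γ : Fin m → ℕ // γ ∈ sl D i ∧ ∑ k, γ k = j - i} := by
  rw [Finset.sum_range]
  have hf := fun i : Fin (j + 1) => cn_fin (sl D i) (j - i)
  rw [← Nat.card_sigma]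
  symm
  refine Nat.card_eq_of_bijective
    (fun x => (⟨Fin.cons (x.1 : ℕ) x.2.1, x.2.2.1, ?_⟩ :
      {γ : Fin (m + 1) → ℕ // γ ∈ D ∧ ∑ i, γ i = j})) ⟨?_, ?_⟩
  · have h1 := x.2.2.2
    have h2 := x.1.2
    rw [Fin.sum_univ_succ]
    simp only [Fin.cons_zero, Fin.cons_succ]
    rw [h1]
    omega
  · rintro ⟨i, γ, h1, h2⟩ ⟨i', γ', h1', h2'⟩ he
    have h3 := congrArg Subtype.val he
    simp only at h3
    obtain ⟨h4, h5⟩ := Fin.cons_inj.1 h3
    have h6 : i = i' := Fin.ext h4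
    subst h6
    subst h5
    rfl
  · rintro ⟨γ, h1, h2⟩
    rw [Fin.sum_univ_succ] at h2
    refine ⟨⟨⟨γ 0, by omega⟩, ⟨Fin.tail γ, ?_, ?_⟩⟩, ?_⟩
    · simp only [sl, Set.mem_ofPred_eq, Fin.cons_self_tail]
      exact h1
    · simp only [Fin.tail]
      omega
    · apply Subtype.ext
      simp

/-- shift of an eventually polynomial function. -/
private theorem shift_poly (f : ℕ → ℚ) (P : Polynomial ℚ) (i : ℕ)
    (h : ∀ᶠ j : ℕ in atTop, f j = P.eval (j : ℚ)) :
    ∀ᶠ j : ℕ in atTop, f (j - i) =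
      (P.comp (Polynomial.X - Polynomial.C (i : ℚ))).eval (j : ℚ) := by
  have h1 := (tendsto_sub_atTop_nat i).eventually h
  filter_upwards [h1, eventually_ge_atTop i] with j h2 h3
  rw [h2, Polynomial.eval_comp, Nat.cast_sub h3]
  simp

/-- The Hilbert function of a lower set of `ℕ^m` is eventually polynomial.

PROOF by induction on `m`; `m = 0`: the function is `0` for `j ≥ 1`.  Step: for `i : ℕ` let
`D_i = {γ : Fin m → ℕ | Fin.cons i γ ∈ D}`, lower sets, decreasing in `i`.  By Dickson's lemma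
(`Fin m → ℕ` is well quasi ordered, so lower sets satisfy the descending chain condition)
`D_i = D_t` for `i ≥ t`.  So the function is
`c_D(j) = ∑_{i<t} c_{D_i}(j - i) + ∑_{l ≤ j - t} c_{D_t}(l)` for `j ≥ t`; shifts of eventually
polynomial functions are eventually polynomial, and `sum_poly` gives the second sum. -/
theorem lower_poly (m : ℕ) (D : Set (Fin m → ℕ)) (hD : IsLowerSet D) :
    ∃ P : Polynomial ℚ, ∀ᶠ j : ℕ in atTop,
      (Nat.card {γ : Fin m → ℕ // γ ∈ D ∧ ∑ i, γ i = j} : ℚ) = P.eval (j : ℚ) := by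
  induction m with
  | zero =>
    refine ⟨0, ?_⟩
    filter_upwards [eventually_gt_atTop 0] with j hj
    have h1 : IsEmpty {γ : Fin 0 → ℕ // γ ∈ D ∧ ∑ i, γ i = j} := by
      refine ⟨fun x => ?_⟩
      have h2 := x.2.2
      simp at h2
      omega
    rw [Nat.card_of_isEmpty]
    simp
  | succ m ih =>
    obtain ⟨t, ht⟩ := sl_stab hD
    choose P hP using fun i => ih (sl D i) (sl_lower hD i)
    obtain ⟨Q, hQ⟩ := sum_poly _ _ (hP t)
    refine ⟨∑ i ∈ Finset.range t, (P i).comp (Polynomial.X - Polynomial.C (i : ℚ)) +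
      Q.comp (Polynomial.X + Polynomial.C (1 - (t : ℚ))), ?_⟩
    have h1 : ∀ᶠ j : ℕ in atTop, ∀ i ∈ Finset.range t,
        (Nat.card {γ : Fin m → ℕ // γ ∈ sl D i ∧ ∑ k, γ k = j - i} : ℚ) =
          ((P i).comp (Polynomial.X - Polynomial.C (i : ℚ))).eval (j : ℚ) := by
      rw [Filter.eventually_all_finset]
      intro i _
      exact shift_poly (fun j => (Nat.card {γ : Fin m → ℕ // γ ∈ sl D i ∧ ∑ k, γ k = j} : ℚ))
        (P i) i (hP i)
    have h2 : Tendsto (fun j : ℕ => j + 1 - t) atTop atTop :=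
      (tendsto_sub_atTop_nat t).comp (tendsto_add_atTop_nat 1)
    filter_upwards [h1, h2.eventually hQ, eventually_ge_atTop t] with j h3 h4 h5
    rw [cn_succ, Nat.cast_sum]
    have h6 : j + 1 = t + (j + 1 - t) := by omega
    have h7 : ∑ i ∈ Finset.range (j + 1),
        (Nat.card {γ : Fin m → ℕ // γ ∈ sl D i ∧ ∑ k, γ k = j - i} : ℚ) =
        ∑ i ∈ Finset.range t,
          (Nat.card {γ : Fin m → ℕ // γ ∈ sl D i ∧ ∑ k, γ k = j - i} : ℚ) +
        ∑ l ∈ Finset.range (j + 1 - t),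
          (Nat.card {γ : Fin m → ℕ // γ ∈ sl D t ∧ ∑ k, γ k = l} : ℚ) := by
      rw [h6, Finset.sum_range_add, ← h6]
      congr 1
      rw [← Finset.sum_range_reflect]
      refine Finset.sum_congr rfl fun l hl => ?_
      have h8 : l < j + 1 - t := Finset.mem_range.1 hl
      rw [ht (t + (j + 1 - t - 1 - l)) (by omega)]
      have h9 : j - (t + (j + 1 - t - 1 - l)) = l := by omega
      rw [h9]
    rw [h7, Finset.sum_congr rfl h3, h4, Polynomial.eval_add, Polynomial.eval_finsetSum]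
    congr 1
    rw [Polynomial.eval_comp, Nat.cast_sub (by omega)]
    congr 1
    simp
    ring

/-- The exponent with the parts given. -/
private def ex {N b : ℕ} (β : Fin N → ℕ) (γ : Fin b → ℕ) : (Fin N ⊕ Fin b) →₀ ℕ :=
  Finsupp.equivFunOnFinite.symm (Sum.elim β γ)

private theorem ex_fin (N M : ℕ) : Finite {β : Fin N → ℕ // ∑ i, β i < M} := by
  have h1 : ({β : Fin N → ℕ | ∑ i, β i < M}).Finite := by
    refine (Set.finite_Iic (fun _ : Fin N => M)).subset ?_
    intro γ h i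
    refine le_trans ?_ (le_of_lt h)
    exact Finset.single_le_sum (f := γ) (fun _ _ => Nat.zero_le _) (Finset.mem_univ i)
  exact h1.to_subtype

/-- The Hilbert function of a lower set which is bounded in the first variables.

PROOF: finiteness: all coordinates are `< M + j`.  The number is
`∑_{β : Fin N → Fin M, ∑ β < M} ∑_{i<j} Nat.card {γ | (β,γ) ∈ D, ∑ γ = i}`, a finite sum of
functions as in `sum_poly`, `lower_poly` (for fixed `β` the set of `γ` is a lower set). -/
theorem count_poly {N b : ℕ} (D : Set ((Fin N ⊕ Fin b) →₀ ℕ)) (hD : IsLowerSet D) (M : ℕ)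
    (hM : ∀ α ∈ D, degl α < M) :
    (∀ j : ℕ, Finite {α : (Fin N ⊕ Fin b) →₀ ℕ // α ∈ D ∧ degr α < j}) ∧
    ∃ P : Polynomial ℚ, ∀ᶠ j : ℕ in atTop,
      (Nat.card {α : (Fin N ⊕ Fin b) →₀ ℕ // α ∈ D ∧ degr α < j} : ℚ) = P.eval (j : ℚ) := by
  classical
  have hfS := ex_fin N M
  have hFS := Fintype.ofFinite {β : Fin N → ℕ // ∑ i, β i < M}
  let E : {β : Fin N → ℕ // ∑ i, β i < M} → Set (Fin b → ℕ) := fun β => {γ | ex β.1 γ ∈ D}
  have hE : ∀ β, IsLowerSet (E β) := by
    intro β γ γ' hle hγ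
    refine hD ?_ hγ
    intro k
    rcases k with k | k
    · exact le_rfl
    · exact hle k
  have hfE : ∀ (j : ℕ) (β : {β : Fin N → ℕ // ∑ i, β i < M}) (i : Fin j),
      Finite {γ : Fin b → ℕ // γ ∈ E β ∧ ∑ k, γ k = (i : ℕ)} := fun j β i => cn_fin _ _
  have hbij : ∀ j : ℕ, ∃ F : (Σ β : {β : Fin N → ℕ // ∑ i, β i < M}, Σ i : Fin j,
      {γ : Fin b → ℕ // γ ∈ E β ∧ ∑ k, γ k = (i : ℕ)}) →
      {α : (Fin N ⊕ Fin b) →₀ ℕ // α ∈ D ∧ degr α < j}, Function.Bijective F := by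
    intro j
    refine ⟨fun x => ⟨ex x.1.1 x.2.2.1, x.2.2.2.1, ?_⟩, ?_, ?_⟩
    · have h1 := x.2.2.2.2
      have h2 := x.2.1.2
      have h3 : degr (ex x.1.1 x.2.2.1) = ∑ k, x.2.2.1 k := rfl
      rw [h3, h1]
      exact h2
    · rintro ⟨⟨β, hβ⟩, i, γ, h1, h2⟩ ⟨⟨β', hβ'⟩, i', γ', h1', h2'⟩ he
      have h3 := congrArg Subtype.val he
      simp only [ex] at h3
      have h4 := Finsupp.equivFunOnFinite.symm.injective h3
      have h5 : β = β' := funext fun k => congrFun h4 (Sum.inl k)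
      have h6 : γ = γ' := funext fun k => congrFun h4 (Sum.inr k)
      subst h5
      subst h6
      have h7 : i = i' := Fin.ext (h2.symm.trans h2')
      subst h7
      rfl
    · rintro ⟨α, h1, h2⟩
      have h3 : ex (fun k => α (Sum.inl k)) (fun k => α (Sum.inr k)) = α := by
        ext k
        rcases k with k | k
        · rfl
        · rfl
      refine ⟨⟨⟨fun k => α (Sum.inl k), hM α h1⟩, ⟨degr α, h2⟩,
        ⟨fun k => α (Sum.inr k), ?_, rfl⟩⟩, ?_⟩
      · change ex _ _ ∈ D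
        rw [h3]
        exact h1
      · exact Subtype.ext h3
  constructor
  · intro j
    obtain ⟨F, hF⟩ := hbij j
    have hfE' := hfE j
    exact Finite.of_surjective F hF.2
  · choose P hP using fun β => lower_poly b (E β) (hE β)
    choose Q hQ using fun β => sum_poly _ _ (hP β)
    refine ⟨∑ β, Q β, ?_⟩
    have h1 := Filter.eventually_all.2 hQ
    filter_upwards [h1] with j hj
    obtain ⟨F, hF⟩ := hbij j
    have hfE' := hfE j
    rw [← Nat.card_eq_of_bijective F hF, Nat.card_sigma, Nat.cast_sum, Polynomial.eval_finsetSum]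
    refine Finset.sum_congr rfl fun β _ => ?_
    rw [Nat.card_sigma, ← hj β, Nat.cast_sum, Finset.sum_range]

end FU
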