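import Pool.Agent.Lib.MP_9e8926_ag_U.AH
import Pool.Agent.Lib.MP_9e8926_ag_G.Fin

/-!
# Extension of the residue field (main theorem of block G)
-/

set_option autoImplicit false

noncomputable section

namespace FU

open MvPolynomial

/-- The Frobenius volume does not decrease under a finite extension of the residue field
(block G, `MP_9e8926_ag_G`). -/
theorem Fvol_le_ext {N r n D D' : ℕ} (hn : 1 ≤ n) (hN : 1 ≤ N) {κ κ' : Type} [Field κ] [Finite κ]
    [Field κ'] [Finite κ'] (j : κ →+* κ') {J : Ideal (MvPolynomial (Fin N) κ)}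
    (hJ : J ≤ mX N κ) {P : Fin r → Ideal (MvPolynomial (Fin N) κ)} (c : Fin r → ℚ)
    (d : HDat J P n D) (hF : d.F ≠ 0) (hnz : ∀ t, aeval d.y d.F * t ∈ J → t ∈ J)
    (d' : HDat (bc j J) (fun i => bc j (P i)) n D') (hF' : d'.F ≠ 0)
    (hnz' : ∀ t, aeval d'.y d'.F * t ∈ bc j J → t ∈ bc j J) :
    Fvol n κ J P c ≤ Fvol n κ' (bc j J) (fun i => bc j (P i)) c :=
  Fvol_le_ext_G hn j hJ c d hF hnz

end FU
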