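import Pool.Agent.Lib.MP_9e8926_ag_U.ALoc

/-!
# Every primary ideal of the local ring over the complex numbers has a model
-/

set_option autoImplicit false

noncomputable section

namespace FU

open MvPolynomial

/-- Every primary ideal of the local ring over `ℂ` has a model.

PROOF.  `𝔟' = 𝔟.comap (toO ℂ _)` is an ideal of `ℂ[x]` with `(x)^M ⊆ 𝔟' ⊆ (x)` (as
`mO.comap toO = J ⊔ (x) = (x)`, `comap_map_toO`, and `𝔟 ≤ mO`), generated by a finite set `G`
(noetherian), `𝔟 = 𝔟'.map toO` (`map_comap_toO`).  Let `B ⊆ ℂ` be the subring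
`Algebra.adjoin ℤ S`, where `S` is the union of the images of a finite set of generators of `A`
over `ℤ` and of the coefficients of the elements of `G`; it is finitely generated over `ℤ`, it is a
domain, `φ : A → B` is the corestriction of `ι`, `ψ` the inclusion.  The elements of `G` lift to a
finite subset `G'` of `B[x]` with vanishing constant coefficients.
`I = (x)^M ⊔ (G')`. -/
theorem exists_mod {A : Type} [CommRing A] [Algebra.FiniteType ℤ A] (ι : A →+* ℂ) {N : ℕ}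
    (J : Ideal (MvPolynomial (Fin N) A)) (hJ0 : J ≤ mX N A) (𝔟 : Ideal (Oc ℂ (bc ι J)))
    (h𝔟 : IsPrim (R := Oc ℂ (bc ι J)) (mO ℂ (bc ι J)) 𝔟) :
    ∃ 𝔞 : Mod N ι, (bc 𝔞.ψ 𝔞.I).map (toO ℂ (bc ι J)) = 𝔟 := by
  obtain ⟨hle, M, hM⟩ := h𝔟
  have hJC : bc ι J ≤ mX N ℂ := by
    intro f hf
    rw [mem_mX]
    have h1 : bc ι J ≤ RingHom.ker (constantCoeff : MvPolynomial (Fin N) ℂ →+* ℂ) := by
      rw [bc, Ideal.map_le_iff_le_comap]
      intro g hg
      rw [Ideal.mem_comap, RingHom.mem_ker, MvPolynomial.constantCoeff_map,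
        (mem_mX g).1 (hJ0 hg), map_zero]
    exact h1 hf
  set 𝔟' : Ideal (MvPolynomial (Fin N) ℂ) := 𝔟.comap (toO ℂ (bc ι J)) with h𝔟'
  have h1 : 𝔟' ≤ mX N ℂ := by
    have h2 : 𝔟' ≤ (mO ℂ (bc ι J)).comap (toO ℂ (bc ι J)) := Ideal.comap_mono hle
    rw [mO, comap_map_toO (bc ι J) (mX N ℂ) 1 (by rw [pow_one])] at h2
    exact h2.trans (sup_le hJC le_rfl)
  have h2 : mX N ℂ ^ (M + 1) ≤ 𝔟' := by
    rw [h𝔟', ← Ideal.map_le_iff_le_comap]
    have h3 : (mX N ℂ ^ (M + 1)).map (toO ℂ (bc ι J)) = mO ℂ (bc ι J) ^ (M + 1) := by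
      let i : CommSemiring (Oc ℂ (bc ι J)) := inferInstance
      exact Ideal.map_pow (S := Oc ℂ (bc ι J)) (toO ℂ (bc ι J)) (mX N ℂ) (M + 1)
    rw [h3]
    exact (Ideal.pow_le_pow_right (Nat.le_succ M)).trans hM
  obtain ⟨G, hG⟩ : 𝔟'.FG := IsNoetherian.noetherian 𝔟'
  obtain ⟨t, ht⟩ := (Algebra.FiniteType.out : (⊤ : Subalgebra ℤ A).FG)
  classical
  set T : Finset ℂ := t.image ι ∪ G.biUnion (fun g => g.coeffs) with hT
  set B : Subalgebra ℤ ℂ := Algebra.adjoin ℤ (T : Set ℂ) with hB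
  have hBft : Algebra.FiniteType ℤ B := (Subalgebra.fg_iff_finiteType B).1 ⟨T, rfl⟩
  have hA : ∀ a : A, ι a ∈ B := by
    intro a
    have h3 : a ∈ Algebra.adjoin ℤ (t : Set A) := by rw [ht]; trivial
    have h4 : ι.toIntAlgHom a ∈ (Algebra.adjoin ℤ (t : Set A)).map ι.toIntAlgHom :=
      ⟨a, h3, rfl⟩
    rw [AlgHom.map_adjoin] at h4
    refine Algebra.adjoin_mono ?_ h4
    rintro _ ⟨x, hx, rfl⟩
    rw [hT, Finset.coe_union]
    exact Or.inl (Finset.mem_coe.2 (Finset.mem_image_of_mem _ hx))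
  have hinj : Function.Injective (B.val : B →+* ℂ) := Subtype.val_injective
  have hlift : ∀ g ∈ G, ∃ g' : MvPolynomial (Fin N) B,
      MvPolynomial.map (B.val : B →+* ℂ) g' = g := by
    intro g hg
    have h3 : g ∈ Set.range (MvPolynomial.map (B.val : B →+* ℂ)) := by
      rw [MvPolynomial.mem_range_map_iff_coeffs_subset]
      intro x hx
      refine ⟨⟨x, Algebra.subset_adjoin ?_⟩, rfl⟩
      rw [hT, Finset.coe_union]
      exact Or.inr (Finset.mem_coe.2 (Finset.mem_biUnion.2 ⟨g, hg, hx⟩))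
    exact h3
  have hmXC : bc (B.val : B →+* ℂ) (mX N B) = mX N ℂ := by
    rw [bc, mX, mX, Ideal.map_span, ← Set.range_comp]
    congr 2
    ext i
    simp
  refine ⟨{ B := B, φ := ι.codRestrict B hA, ψ := B.val, inj := hinj, comp := ?_,
            I := mX N B ^ (M + 1) ⊔ Ideal.span {g' | MvPolynomial.map (B.val : B →+* ℂ) g' ∈ G}
            le := ?_, ge := ⟨M + 1, le_sup_left⟩ }, ?_⟩
  · ext a
    rfl
  · refine sup_le (Ideal.pow_le_self (Nat.succ_ne_zero M)) ?_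
    rw [Ideal.span_le]
    intro g' hg'
    have h3 : MvPolynomial.map (B.val : B →+* ℂ) g' ∈ 𝔟' := by
      rw [← hG]
      exact Ideal.subset_span hg'
    have h4 := (mem_mX _).1 (h1 h3)
    rw [MvPolynomial.constantCoeff_map] at h4
    exact (mem_mX g').2 (hinj (by rw [h4, map_zero]))
  · have h3 : bc (B.val : B →+* ℂ) (mX N B ^ (M + 1) ⊔
        Ideal.span {g' | MvPolynomial.map (B.val : B →+* ℂ) g' ∈ G}) = 𝔟' := by
      rw [bc, Ideal.map_sup, Ideal.map_pow, Ideal.map_span]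
      change bc (B.val : B →+* ℂ) (mX N B) ^ (M + 1) ⊔ _ = _
      rw [hmXC]
      have h4 : (MvPolynomial.map (B.val : B →+* ℂ)) ''
          {g' | MvPolynomial.map (B.val : B →+* ℂ) g' ∈ G} = (G : Set (MvPolynomial (Fin N) ℂ)) := by
        ext g
        constructor
        · rintro ⟨g', hg', rfl⟩
          exact hg'
        · intro hg
          obtain ⟨g', rfl⟩ := hlift g hg
          exact ⟨g', hg, rfl⟩
      rw [h4, hG]
      exact sup_eq_right.2 h2
    change (bc (B.val : B →+* ℂ) _).map _ = 𝔟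
    rw [h3]
    exact map_comap_toO (bc ι J) 𝔟

end FU
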