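import Pool.Agent.Lib.MP_9e8926_ag_U.AFinC
import Pool.Agent.Lib.MP_9e8926_ag_U.AMod

/-!
# The limits of the Frobenius volumes of the reductions
-/

set_option autoImplicit false

noncomputable section

namespace FU

open MvPolynomial IsLocalRing Filter Topology

/-- The lower limit of the Frobenius volumes of the reductions of a pair is the infimum of
`e(𝔞) (lim inf fpt(𝔞_ν))ⁿ` over all primary ideals `𝔞` over the complex numbers, and their upper
limit is at most the infimum of `e(𝔞) (lim sup fpt(𝔞_ν))ⁿ`. -/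
theorem main {A : Type} [CommRing A] [IsDomain A] [Algebra.FiniteType ℤ A] (ι : A →+* ℂ)
    (hι : Function.Injective ι) {N r n : ℕ} (hn : 1 ≤ n) (J : Ideal (MvPolynomial (Fin N) A))
    (hJ0 : J ≤ mX N A) (hJ : (bc ι J).IsPrime)
    (hdim : ringKrullDim (MvPolynomial (Fin N) ℂ ⧸ bc ι J) = n)
    (P : Fin r → Ideal (MvPolynomial (Fin N) A)) (hP : ∀ j, ¬ bc ι (P j) ≤ bc ι J)
    (c : Fin r → ℚ) :
    liminfPts (fun κ _ _ (θ : A →+* κ) => FvolRed n J P c κ θ) = Vlow n ι J P c ∧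
    limsupPts (fun κ _ _ (θ : A →+* κ) => FvolRed n J P c κ θ) ≤ Vup n ι J P c ∧
    (∀ v < Vlow n ι J P c, Almost fun κ _ _ (θ : A →+* κ) => v ≤ FvolRed n J P c κ θ) ∧
    (∀ v > Vup n ι J P c, Almost fun κ _ _ (θ : A →+* κ) => FvolRed n J P c κ θ ≤ v) := by
  have h1 := fun v (hv : v < Vlow n ι J P c) => lower ι hι hn J hJ0 hJ hdim P hP c v hv
  have h2 := fun v (hv : Vup n ι J P c < v) => upper_limsup hι hn hJ0 hJ hdim hP c v hv
  refine ⟨?_, ?_, h1, h2⟩
  · have hne : Set.Nonempty {v : ℝ | Almost (fun κ _ _ (θ : A →+* κ) =>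
        v ≤ FvolRed n J P c κ θ)} := ⟨0, 1, one_ne_zero, fun κ _ _ θ _ _ => FvolR_nonneg⟩
    refine le_antisymm (csSup_le hne fun v hv => upper_liminf hι hn hJ0 hJ hdim hP c v hv) ?_
    refine le_of_forall_lt fun v hv => ?_
    obtain ⟨w, hw1, hw2⟩ := exists_between hv
    exact hw1.trans_le (le_csSup ⟨_, fun v hv => upper_liminf hι hn hJ0 hJ hdim hP c v hv⟩
      (h1 w hw2))
  · have hbd : BddBelow {v : ℝ | Almost (fun κ _ _ (θ : A →+* κ) =>
        FvolRed n J P c κ θ ≤ v)} := by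
      refine ⟨0, ?_⟩
      rintro v ⟨s, hs, h⟩
      obtain ⟨κ, _, _, θ, hθ, hθ1⟩ := exists_pt s hs
      exact FvolR_nonneg.trans (h κ θ hθ hθ1)
    exact le_of_forall_gt_imp_ge_of_dense fun v hv => csInf_le hbd (h2 v hv)

end FU
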