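import Pool.Agent.Lib.MP_9e8926_ag_U.AGenA

/-!
# Uniform data at all points of an open subset
-/

set_option autoImplicit false

noncomputable section

namespace FU

open MvPolynomial

private theorem AGen_bc {N : ℕ} {A B R : Type} [CommRing A] [CommRing B] [CommRing R]
    (J : Ideal (MvPolynomial (Fin N) A)) (φ : A →+* B) (ψ : B →+* R) :
    bc ψ (bc φ J) = bc (ψ.comp φ) J := by
  rw [bc, bc, Ideal.map_map]
  congr 1
  refine RingHom.ext fun f => ?_
  exact MvPolynomial.map_map φ ψ f

private theorem AGen_aeval {N n : ℕ} {B R : Type} [CommRing B] [CommRing R] (φ : B →+* R)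
    (y : Fin n → MvPolynomial (Fin N) B) (a : MvPolynomial (Fin n) B) :
    MvPolynomial.map φ (aeval y a) =
      aeval (fun i => MvPolynomial.map φ (y i)) (MvPolynomial.map φ a) := by
  induction a using MvPolynomial.induction_on with
  | C a =>
    rw [aeval_C, map_C, aeval_C]
    exact map_C _ _
  | add p q hp hq => rw [map_add, map_add, hp, hq, map_add, map_add]
  | mul_X p i hp => rw [map_mul, map_mul, hp, aeval_X, map_mul, map_mul, map_X, aeval_X]

/-- The value at `y` as a finitely supported sum. -/
private theorem AGen_sum {N n : ℕ} {B : Type} [CommRing B]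
    (y : Fin n → MvPolynomial (Fin N) B) (a : (Fin n →₀ ℕ) →₀ B) :
    aeval y ((basisMonomials (Fin n) B).repr.symm a) =
      a.sum (fun α c => C c * aeval y (monomial α (1 : B))) := by
  induction a using Finsupp.induction_linear with
  | zero => simp
  | add f g hf hg =>
    rw [map_add, map_add, hf, hg, Finsupp.sum_add_index' (fun α => by simp)
      (fun α b₁ b₂ => by rw [map_add, add_mul])]
  | single α c =>
    rw [Finsupp.sum_single_index (by simp), Module.Basis.repr_symm_single, coe_basisMonomials,
      map_smul, smul_eq_C_mul]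

/-- The fraction field of a localization. -/
private theorem AGen_frac {A : Type} [CommRing A] [IsDomain A] {s : A} (hs : s ≠ 0) :
    ∃ e : FractionRing (Localization.Away s) ≃+* FractionRing A,
      (e : FractionRing (Localization.Away s) →+* FractionRing A).comp
        ((algebraMap (Localization.Away s) (FractionRing (Localization.Away s))).comp
          (algebraMap A (Localization.Away s))) = algebraMap A (FractionRing A) := by
  have hι : Function.Injective (algebraMap A (FractionRing A)) :=
    IsFractionRing.injective A (FractionRing A)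
  have hu : IsUnit (algebraMap A (FractionRing A) s) := IsUnit.mk0 _ (by
    rw [Ne, map_eq_zero_iff _ hι]
    exact hs)
  have hj : (IsLocalization.Away.lift s hu : Localization.Away s →+* FractionRing A).comp
      (algebraMap A (Localization.Away s)) = algebraMap A (FractionRing A) :=
    IsLocalization.Away.lift_comp s hu
  let alg : Algebra (Localization.Away s) (FractionRing A) :=
    (IsLocalization.Away.lift s hu : Localization.Away s →+* FractionRing A).toAlgebra
  have : IsScalarTower A (Localization.Away s) (FractionRing A) :=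
    IsScalarTower.of_algebraMap_eq fun x => by
      rw [← hj]
      rfl
  have : IsFractionRing (Localization.Away s) (FractionRing A) :=
    IsFractionRing.isFractionRing_of_isDomain_of_isLocalization (Submonoid.powers s)
      (Localization.Away s) (FractionRing A)
  refine ⟨(FractionRing.algEquiv (Localization.Away s) (FractionRing A)).toRingEquiv, ?_⟩
  refine RingHom.ext fun x => ?_
  rw [← hj]
  exact (FractionRing.algEquiv (Localization.Away s) (FractionRing A)).commutes _

/-- Uniform data at all points of a non-empty open subset of `Spec A`.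

PROOF.  Let `s₁`, `d` be as in `exists_HDat_away`, `A' = Localization.Away s₁` (a domain),
`J' = bc _ J`, `g = aeval d.y d.F ∈ A'[x]`.  Apply `nzd` to `A'`, `J'`, `g` (with
`FractionRing A'`, which is isomorphic to `FractionRing A`; or prove the two hypotheses of `nzd` for
`FractionRing A'` with `sat_field` and the embedding `FractionRing A → FractionRing A'`); get
`s₂ ∈ A'`; let `c ≠ 0` be a coefficient of `d.F`; the product `s₂ c ∈ A'` is `a / s₁^k`;
`s = s₁ a`.  For `φ : A → k`, `φ s ≠ 0`, there is `φ' : A' → k` with `φ' ∘ algebraMap = φ`, and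
`φ' (s₂ c) ≠ 0`.  Take `d.map φ'` (`bc φ' (bc _ J) = bc φ J` by `Ideal.map_map`), `w` the total
degree of `d.F`.  If `φ` is injective it extends to `FractionRing A → k`, and `indep_map` for the
family of the monomials in `y` (from the last property of `exists_HDat_away`) gives the last
claim. -/
theorem uniform {N r : ℕ} {A : Type} [CommRing A] [IsDomain A] [CharZero A]
    (J : Ideal (MvPolynomial (Fin N) A)) (P : Fin r → Ideal (MvPolynomial (Fin N) A))
    (hJ : (bc (algebraMap A (FractionRing A)) J).IsPrime)
    (hP : ∀ j, ¬ bc (algebraMap A (FractionRing A)) (P j) ≤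
      bc (algebraMap A (FractionRing A)) J) :
    ∃ (n D w : ℕ) (s : A), s ≠ 0 ∧ ∀ (k : Type) [Field k] (φ : A →+* k), φ s ≠ 0 →
      ∃ d : HDat (bc φ J) (fun j => bc φ (P j)) n D, d.F ≠ 0 ∧ d.F.totalDegree ≤ w ∧
        (∀ t, aeval d.y d.F * t ∈ bc φ J → t ∈ bc φ J) ∧
        (Function.Injective φ → ∀ a : MvPolynomial (Fin n) k,
          aeval d.y a ∈ bc φ J → a = 0) := by
  obtain ⟨n, D, s₁, hs₁, d, hF, hd⟩ := exists_HDat_away J P hJ hP
  have hdom : IsDomain (Localization.Away s₁) :=
    IsLocalization.isDomain_localization (powers_le_nonZeroDivisors_of_noZeroDivisors hs₁)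
  obtain ⟨e, he⟩ := AGen_frac hs₁
  -- the embedding
  obtain ⟨i, hi⟩ : ∃ i : Localization.Away s₁ →+* FractionRing A,
      i = (e : FractionRing (Localization.Away s₁) →+* FractionRing A).comp
        (algebraMap (Localization.Away s₁) (FractionRing (Localization.Away s₁))) := ⟨_, rfl⟩
  have hiA : i.comp (algebraMap A (Localization.Away s₁)) = algebraMap A (FractionRing A) := by
    rw [hi, RingHom.comp_assoc]
    exact he
  have hii : Function.Injective i := by
    rw [hi]
    exact e.injective.comp (IsFractionRing.injective _ _)
  -- the hypotheses of `nzd`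
  have hmem : ∀ x : MvPolynomial (Fin N) (FractionRing (Localization.Away s₁)),
      x ∈ bc (algebraMap (Localization.Away s₁) (FractionRing (Localization.Away s₁)))
        (bc (algebraMap A (Localization.Away s₁)) J) ↔
      MvPolynomial.map (e : FractionRing (Localization.Away s₁) →+* FractionRing A) x ∈
        bc (algebraMap A (FractionRing A)) J := by
    intro x
    constructor
    · intro hx
      rw [← hiA, ← AGen_bc, hi, ← AGen_bc]
      exact Ideal.mem_map_of_mem _ hx
    · intro hx
      have h1 := Ideal.mem_map_of_mem (MvPolynomial.map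
        (e.symm : FractionRing A →+* FractionRing (Localization.Away s₁))) hx
      have h2 := AGen_bc J (algebraMap A (FractionRing A))
        (e.symm : FractionRing A →+* FractionRing (Localization.Away s₁))
      rw [bc] at h2
      rw [h2, MvPolynomial.map_map] at h1
      have h3 : (e.symm : FractionRing A →+* FractionRing (Localization.Away s₁)).comp
          (e : FractionRing (Localization.Away s₁) →+* FractionRing A) = RingHom.id _ := by
        ext z
        simp
      rw [h3, MvPolynomial.map_id, ← he, ← RingHom.comp_assoc, h3, RingHom.id_comp,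
        ← AGen_bc] at h1
      exact h1
  have hprime : ((bc (algebraMap A (Localization.Away s₁)) J).map (MvPolynomial.map
      (algebraMap (Localization.Away s₁) (FractionRing (Localization.Away s₁))))).IsPrime := by
    have h1 : (bc (algebraMap A (Localization.Away s₁)) J).map (MvPolynomial.map
        (algebraMap (Localization.Away s₁) (FractionRing (Localization.Away s₁)))) =
        (bc (algebraMap A (FractionRing A)) J).comap (MvPolynomial.map
          (e : FractionRing (Localization.Away s₁) →+* FractionRing A)) := by
      ext x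
      exact hmem x
    rw [h1]
    exact Ideal.IsPrime.comap _
  have hg : MvPolynomial.map (algebraMap (Localization.Away s₁)
      (FractionRing (Localization.Away s₁))) (aeval d.y d.F) ∉
      (bc (algebraMap A (Localization.Away s₁)) J).map (MvPolynomial.map
        (algebraMap (Localization.Away s₁) (FractionRing (Localization.Away s₁)))) := by
    intro h0
    have h1 := (hmem _).1 h0
    rw [MvPolynomial.map_map, ← hi, AGen_aeval] at h1
    have h2 := hd i hiA _ h1
    exact hF (map_injective i hii (by rw [h2, map_zero]))
  obtain ⟨s₂, hs₂, hnz⟩ := nzd _ _ hprime hg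
  obtain ⟨m, hm⟩ := MvPolynomial.ne_zero_iff.1 hF
  obtain ⟨⟨a, b⟩, hab⟩ := IsLocalization.surj (Submonoid.powers s₁) (s₂ * d.F.coeff m)
  have hab' : s₂ * d.F.coeff m * algebraMap A (Localization.Away s₁) b =
    algebraMap A (Localization.Away s₁) a := hab
  have hb : IsUnit (algebraMap A (Localization.Away s₁) b) := IsLocalization.map_units _ b
  have ha : a ≠ 0 := by
    intro h0
    rw [h0, map_zero] at hab'
    exact mul_ne_zero hs₂ hm ((IsUnit.mul_left_eq_zero hb).1 hab')
  refine ⟨n, D, d.F.totalDegree, s₁ * a, mul_ne_zero hs₁ ha, fun k _ φ hφ => ?_⟩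
  rw [map_mul] at hφ
  have hφ1 : φ s₁ ≠ 0 := left_ne_zero_of_mul hφ
  have hφ2 : φ a ≠ 0 := right_ne_zero_of_mul hφ
  obtain ⟨φ', hφ'⟩ : ∃ φ' : Localization.Away s₁ →+* k,
      φ'.comp (algebraMap A (Localization.Away s₁)) = φ :=
    ⟨IsLocalization.Away.lift s₁ (IsUnit.mk0 _ hφ1), IsLocalization.Away.lift_comp s₁ _⟩
  have h1 : φ' s₂ * φ' (d.F.coeff m) ≠ 0 := by
    intro h0
    apply hφ2
    rw [← hφ', RingHom.comp_apply, ← hab', map_mul, map_mul, h0, zero_mul]
  have h2 : φ' s₂ ≠ 0 := left_ne_zero_of_mul h1
  have h3 : φ' (d.F.coeff m) ≠ 0 := right_ne_zero_of_mul h1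
  have hJ1 : bc φ' (bc (algebraMap A (Localization.Away s₁)) J) = bc φ J := by
    rw [AGen_bc, hφ']
  have hP1 : (fun j => bc φ' (bc (algebraMap A (Localization.Away s₁)) (P j))) =
      fun j => bc φ (P j) := by
    funext j
    rw [AGen_bc, hφ']
  rw [← hJ1, ← hP1]
  refine ⟨d.map φ', ?_, ?_, ?_, ?_⟩
  · change MvPolynomial.map φ' d.F ≠ 0
    intro h0
    apply h3
    rw [← coeff_map, h0, coeff_zero]
  · change (MvPolynomial.map φ' d.F).totalDegree ≤ _
    exact Finset.sup_mono (support_map_subset φ' d.F)
  · intro t ht
    refine hnz k φ' (IsUnit.mk0 _ h2) t ?_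
    rw [AGen_aeval]
    exact ht
  · intro hinj a ha
    change aeval (fun l => MvPolynomial.map φ' (d.y l)) a ∈ _ at ha
    obtain ⟨ψ, hψ⟩ : ∃ ψ : FractionRing A →+* k,
        ψ.comp (algebraMap A (FractionRing A)) = φ :=
      ⟨IsFractionRing.lift hinj, RingHom.ext fun x => IsFractionRing.lift_algebraMap hinj x⟩
    have hψi : ψ.comp i = φ' := by
      refine IsLocalization.ringHom_ext (Submonoid.powers s₁) ?_
      rw [RingHom.comp_assoc, hiA, hψ, hφ']
    have h4 := indep_map (J := bc (algebraMap A (FractionRing A)) J)
      (m := fun α : Fin n →₀ ℕ => aeval (fun l => MvPolynomial.map i (d.y l))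
        (monomial α (1 : FractionRing A))) (fun a ha => by
          rw [← AGen_sum] at ha
          have h5 := hd i hiA _ ha
          rwa [LinearEquiv.map_eq_zero_iff] at h5) ψ
    have h6 : ∀ α : Fin n →₀ ℕ, MvPolynomial.map ψ (aeval (fun l => MvPolynomial.map i (d.y l))
        (monomial α (1 : FractionRing A))) =
        aeval (fun l => MvPolynomial.map φ' (d.y l)) (monomial α (1 : k)) := by
      intro α
      rw [AGen_aeval, map_monomial, map_one]
      congr 2
      funext l
      rw [MvPolynomial.map_map, hψi]
    simp only [h6] at h4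
    have h7 := h4 ((basisMonomials (Fin n) k).repr a) (by
      rw [← AGen_sum, LinearEquiv.symm_apply_apply]
      have h8 := AGen_bc J (algebraMap A (FractionRing A)) ψ
      rw [bc] at h8
      rw [h8, hψ, ← hJ1]
      exact ha)
    rwa [LinearEquiv.map_eq_zero_iff] at h7

end FU
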