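import Pool.Agent.Lib.MP_9e8926_ag_U.AHDat

/-!
# Krull dimension
-/

set_option autoImplicit false

noncomputable section

namespace FU

open MvPolynomial

/-- Krull dimension of integral extensions.

PROOF.  `≤`: contraction of primes `Spec T → Spec S` is strictly monotone (incomparability,
`Ideal.comap_lt_comap_of_integral_mem_sdiff` or `Ideal.IsIntegral...`), `Order.krullDim_le_of_strictMono`.
`≥`: every finite chain `p_0 < … < p_l` of primes of `S` lifts to a chain of `T` by lying over and
going up (`Ideal.exists_ideal_over_prime_of_isIntegral`); the lifted primes are distinct. -/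
theorem ringKrullDim_of_integral {S T : Type*} [CommRing S] [CommRing T] [Algebra S T]
    [Algebra.IsIntegral S T] (h : Function.Injective (algebraMap S T)) :
    ringKrullDim T = ringKrullDim S := by
  unfold ringKrullDim
  refine le_antisymm (Order.krullDim_le_of_strictMono
    (PrimeSpectrum.comap (algebraMap S T)) fun a b hab => ?_) (iSup_le fun l => ?_)
  · have h1 : a.asIdeal < b.asIdeal := hab
    exact Ideal.IsIntegral.comap_lt_comap (R := S) h1
  · obtain ⟨Q, hQ, hQl⟩ := Ideal.exists_ideal_over_prime_of_isIntegral l.head.asIdeal (⊥ : Ideal T)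
      (by
        rw [← RingHom.ker_eq_comap_bot, (RingHom.injective_iff_ker_eq_bot _).1 h]
        exact bot_le)
    obtain ⟨h1, h2⟩ := hQl
    have : Q.LiesOver l.head.asIdeal := ⟨h2.symm⟩
    obtain ⟨L, hL, -⟩ := Ideal.exists_ltSeries_of_hasGoingUp (S := T) l Q
    rw [← hL]
    exact le_iSup (fun p : LTSeries (PrimeSpectrum T) => (p.length : WithBot ℕ∞)) L

/-- The dimension of `V(J)` is `n`.

PROOF: `S = L[Y_1, …, Y_n] → T = L[x]/J`, `Y_i ↦ y_i`, is injective (`hinj`), finite (`h_span`),
hence integral; `MvPolynomial.ringKrullDim_of_isNoetherianRing` and `ringKrullDim_of_integral`. -/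
theorem krull_EDat {N r : ℕ} {L : Type} [Field L] {J : Ideal (MvPolynomial (Fin N) L)}
    {P : Fin r → Ideal (MvPolynomial (Fin N) L)} {n D : ℕ} (d : EDat J P n D)
    (hinj : ∀ a : MvPolynomial (Fin n) L, aeval d.y a ∈ J → a = 0) :
    ringKrullDim (MvPolynomial (Fin N) L ⧸ J) = n := by
  let φ : MvPolynomial (Fin n) L →+* (MvPolynomial (Fin N) L ⧸ J) :=
    (Ideal.Quotient.mk J).comp (aeval d.y : MvPolynomial (Fin n) L →ₐ[L]
      MvPolynomial (Fin N) L).toRingHom
  let _ : Algebra (MvPolynomial (Fin n) L) (MvPolynomial (Fin N) L ⧸ J) := φ.toAlgebra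
  have hφ : ∀ a, algebraMap (MvPolynomial (Fin n) L) (MvPolynomial (Fin N) L ⧸ J) a =
      Ideal.Quotient.mk J (aeval d.y a) := fun a => rfl
  have hi : Function.Injective
      (algebraMap (MvPolynomial (Fin n) L) (MvPolynomial (Fin N) L ⧸ J)) := by
    rw [injective_iff_map_eq_zero]
    intro a ha
    rw [hφ, Ideal.Quotient.eq_zero_iff_mem] at ha
    exact hinj a ha
  have hf : Module.Finite (MvPolynomial (Fin n) L) (MvPolynomial (Fin N) L ⧸ J) := by
    classical
    refine ⟨⟨Finset.univ.image fun v => Ideal.Quotient.mk J (d.h v), ?_⟩⟩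
    rw [eq_top_iff]
    rintro t -
    obtain ⟨t, rfl⟩ := Ideal.Quotient.mk_surjective t
    obtain ⟨a, ha⟩ := d.h_span t
    rw [← Ideal.Quotient.eq_zero_iff_mem, map_sub, sub_eq_zero, map_sum] at ha
    rw [ha]
    refine Submodule.sum_mem _ fun v _ => ?_
    rw [map_mul, ← hφ, ← Algebra.smul_def]
    refine Submodule.smul_mem _ _ (Submodule.subset_span ?_)
    rw [Finset.coe_image]
    exact ⟨v, Finset.mem_coe.2 (Finset.mem_univ v), rfl⟩
  have : Algebra.IsIntegral (MvPolynomial (Fin n) L) (MvPolynomial (Fin N) L ⧸ J) :=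
    Algebra.IsIntegral.of_finite _ _
  rw [ringKrullDim_of_integral hi, MvPolynomial.ringKrullDim_of_isNoetherianRing,
    ringKrullDim_eq_zero_of_field, zero_add, Nat.card_eq_fintype_card, Fintype.card_fin]

end FU
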