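import Pool.Agent.Lib.MP_9e8926_ag_U.AFinA
import Pool.Agent.Lib.MP_9e8926_ag_U.AGen
import Pool.Agent.Lib.MP_9e8926_ag_U.AKr
import Pool.Agent.Lib.MP_9e8926_ag_U.AComp

/-!
# The lower bound for the Frobenius volumes of the reductions
-/

set_option autoImplicit false

noncomputable section

namespace FU

open MvPolynomial IsLocalRing Filter Topology

theorem bc_bc {A B C : Type*} [CommRing A] [CommRing B] [CommRing C] (φ : A →+* B) (ψ : B →+* C)
    {N : ℕ} (J : Ideal (MvPolynomial (Fin N) A)) : bc ψ (bc φ J) = bc (ψ.comp φ) J := by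
  unfold bc
  rw [Ideal.map_map]
  congr 1
  ext <;> simp

section

variable {A : Type} [CommRing A] [IsDomain A] (ι : A →+* ℂ) (hι : Function.Injective ι)
  {N r : ℕ} (J : Ideal (MvPolynomial (Fin N) A))

include hι

/-- The embedding of the field of fractions. -/
theorem exists_frac : ∃ ψ : FractionRing A →+* ℂ,
    ψ.comp (algebraMap A (FractionRing A)) = ι := by
  refine ⟨IsFractionRing.lift (A := A) (K := FractionRing A) (g := ι) hι, ?_⟩
  ext a
  simp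

theorem prime_frac (hJ : (bc ι J).IsPrime) :
    (bc (algebraMap A (FractionRing A)) J).IsPrime := by
  obtain ⟨ψ, hψ⟩ := exists_frac ι hι
  have h1 : bc ι J = bc ψ (bc (algebraMap A (FractionRing A)) J) := by
    rw [bc_bc, hψ]
  have h2 : bc (algebraMap A (FractionRing A)) J =
      (bc ι J).comap (MvPolynomial.map ψ) := by
    refine le_antisymm ?_ fun g hg => ?_
    · rw [h1]
      exact Ideal.le_comap_map
    · rw [Ideal.mem_comap, h1] at hg
      exact sat_field _ ψ g hg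
  rw [h2]
  exact Ideal.comap_isPrime _ _

theorem not_le_frac {P : Ideal (MvPolynomial (Fin N) A)} (hP : ¬ bc ι P ≤ bc ι J) :
    ¬ bc (algebraMap A (FractionRing A)) P ≤ bc (algebraMap A (FractionRing A)) J := by
  obtain ⟨ψ, hψ⟩ := exists_frac ι hι
  have h1 : ∀ Q : Ideal (MvPolynomial (Fin N) A),
      bc ι Q = bc ψ (bc (algebraMap A (FractionRing A)) Q) := by
    intro Q
    rw [bc_bc, hψ]
  intro h
  apply hP
  rw [h1 P, h1 J]
  exact Ideal.map_mono h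

end

/-- The trivial model of the maximal ideal. -/
def Mod.max {A : Type} [CommRing A] [IsDomain A] [Algebra.FiniteType ℤ A] (ι : A →+* ℂ)
    (hι : Function.Injective ι) (N : ℕ) : Mod N ι where
  B := A
  φ := RingHom.id A
  ψ := ι
  inj := hι
  comp := RingHom.comp_id ι
  I := mX N A
  le := le_rfl
  ge := ⟨1, by rw [pow_one]⟩

theorem liminfPts_nonneg {A : Type} [CommRing A] [Nontrivial A]
    (f : ∀ (κ : Type) [Field κ] [Finite κ], (A →+* κ) → ℝ)
    (hf : ∀ (κ : Type) [Field κ] [Finite κ] (θ : A →+* κ), 0 ≤ f κ θ) : 0 ≤ liminfPts f :=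
  Real.sSup_nonneg' ⟨0, ⟨1, one_ne_zero, fun κ _ _ θ _ _ => hf κ θ⟩, le_rfl⟩

theorem Vlow_le {A : Type} [CommRing A] (ι : A →+* ℂ)
    {N r : ℕ} (J : Ideal (MvPolynomial (Fin N) A))
    (P : Fin r → Ideal (MvPolynomial (Fin N) A)) (c : Fin r → ℚ) (n : ℕ) (𝔞 : Mod N ι) :
    Vlow n ι J P c ≤ multAt n ℂ (bc ι J) (bc 𝔞.ψ 𝔞.I) *
      liminfPts (fun κ _ _ (ν : 𝔞.B →+* κ) => fptMod ι J P c 𝔞 κ ν) ^ n := by
  refine csInf_le ⟨0, ?_⟩ ⟨𝔞, rfl⟩
  rintro v ⟨𝔟, rfl⟩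
  exact mul_nonneg (emult_nonneg _ _ _) (pow_nonneg (liminfPts_nonneg _ fun κ _ _ ν =>
    fpt_nonneg') n)

theorem Vlow_nonneg {A : Type} [CommRing A] (ι : A →+* ℂ)
    {N r : ℕ} (J : Ideal (MvPolynomial (Fin N) A))
    (P : Fin r → Ideal (MvPolynomial (Fin N) A)) (c : Fin r → ℚ) (n : ℕ) :
    0 ≤ Vlow n ι J P c := by
  refine Real.sInf_nonneg ?_
  rintro v ⟨𝔟, rfl⟩
  exact mul_nonneg (emult_nonneg _ _ _) (pow_nonneg (liminfPts_nonneg _ fun κ _ _ ν =>
    fpt_nonneg') n)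

/-- The choice of the two parameters. -/
theorem exists_param (n : ℕ) (N E v V : ℝ) (hv : v < V) :
    ∃ Kk M : ℕ, 1 ≤ Kk ∧ 1 ≤ M ∧ ∃ v2 : ℝ, v < v2 ∧ (1 + N / Kk) ^ n * v2 < V ∧
      v + E * ((Kk : ℝ) + N) ^ (n - 1) / M ≤ v2 := by
  obtain ⟨v2, h1, h2⟩ := exists_between hv
  have h3 : Tendsto (fun K : ℕ => (1 + N / (K : ℝ)) ^ n * v2) atTop (𝓝 ((1 + 0) ^ n * v2)) :=
    (((tendsto_const_nhds (x := N)).div_atTop tendsto_natCast_atTop_atTop).const_add 1
      |>.pow n).mul_const v2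
  rw [add_zero, one_pow, one_mul] at h3
  obtain ⟨K, hK1, hK2⟩ := ((h3.eventually_lt_const h2).and (eventually_ge_atTop 1)).exists
  have h4 : Tendsto (fun M : ℕ => v + E * ((K : ℝ) + N) ^ (n - 1) / (M : ℝ)) atTop
      (𝓝 (v + 0)) :=
    ((tendsto_const_nhds (x := E * ((K : ℝ) + N) ^ (n - 1))).div_atTop
      tendsto_natCast_atTop_atTop).const_add v
  rw [add_zero] at h4
  obtain ⟨M, hM1, hM2⟩ := ((h4.eventually_le_const h1).and (eventually_ge_atTop 1)).exists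
  exact ⟨K, M, hK2, hM2, v2, h1, hK1, hM1⟩

/-- The lower bound. -/
theorem lower {A : Type} [CommRing A] [IsDomain A] [Algebra.FiniteType ℤ A] (ι : A →+* ℂ)
    (hι : Function.Injective ι) {N r n : ℕ} (hn : 1 ≤ n) (J : Ideal (MvPolynomial (Fin N) A))
    (hJ0 : J ≤ mX N A) (hJ : (bc ι J).IsPrime)
    (hdim : ringKrullDim (MvPolynomial (Fin N) ℂ ⧸ bc ι J) = n)
    (P : Fin r → Ideal (MvPolynomial (Fin N) A)) (hP : ∀ j, ¬ bc ι (P j) ≤ bc ι J)
    (c : Fin r → ℚ) (v : ℝ) (hv : v < Vlow n ι J P c) :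
    Almost (fun κ _ _ (θ : A →+* κ) => v ≤ FvolRed n J P c κ θ) := by
  have hcz : CharZero A := (RingHom.charZero_iff hι).2 inferInstance
  rcases lt_or_ge v 0 with hv0 | hv0
  · exact ⟨1, one_ne_zero, fun κ _ _ θ _ _ => hv0.le.trans FvolR_nonneg⟩
  by_contra hno
  obtain ⟨n', D, w, s0, hs0, H⟩ := uniform J P (prime_frac ι hι J hJ)
    (fun j => not_le_frac ι hι J (hP j))
  obtain ⟨dC, -, -, -, hinj⟩ := H ℂ ι (fun h => hs0 (hι (by rw [h, map_zero])))
  have hk := krull_EDat dC.toEDat (hinj hι)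
  rw [hdim] at hk
  have hnn : n' = n := by exact_mod_cast hk.symm
  subst hnn
  have hN : 1 ≤ N := by
    by_contra hN0
    have hN1 : N = 0 := by omega
    subst hN1
    have h1 : ringKrullDim (MvPolynomial (Fin 0) ℂ ⧸ bc ι J) ≤
        ringKrullDim (MvPolynomial (Fin 0) ℂ) := ringKrullDim_quotient_le _
    rw [hdim, MvPolynomial.ringKrullDim_of_isNoetherianRing] at h1
    simp only [ringKrullDim_eq_zero_of_field, Nat.card_eq_fintype_card, Fintype.card_fin] at h1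
    norm_num at h1
    omega
  obtain ⟨s1, hs1, hS⟩ : ∃ s1 : A, s1 ≠ 0 ∧ ∀ (κ : Type) [Field κ] [Finite κ] (θ : A →+* κ),
      Function.Surjective θ → θ s1 ≠ 0 →
        SFR (ringChar κ) (FractionRing (Oc κ (bc θ J))) (mO κ (bc θ J))
          (fun j => (bc θ (P j)).map (toO κ (bc θ J))) c ⊤ 0 := by
    have h1 := Vlow_le ι J P c n' (Mod.max ι hι N)
    have h2 : 0 < liminfPts (fun κ _ _ (ν : (Mod.max ι hι N).B →+* κ) =>
        fptMod ι J P c (Mod.max ι hι N) κ ν) := by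
      by_contra h3
      have h4 : liminfPts (fun κ _ _ (ν : (Mod.max ι hι N).B →+* κ) =>
        fptMod ι J P c (Mod.max ι hι N) κ ν) = 0 :=
        le_antisymm (not_lt.1 h3) (liminfPts_nonneg _ fun κ _ _ ν => fpt_nonneg')
      rw [h4, zero_pow (by omega), mul_zero] at h1
      linarith
    have hne : Set.Nonempty {v : ℝ | Almost (fun κ _ _ (ν : (Mod.max ι hι N).B →+* κ) =>
        v ≤ fptMod ι J P c (Mod.max ι hι N) κ ν)} := by
      by_contra hcon
      rw [Set.not_nonempty_iff_eq_empty] at hcon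
      unfold liminfPts at h2
      rw [hcon, Real.sSup_empty] at h2
      exact lt_irrefl _ h2
    obtain ⟨v1, ⟨s1, hs1, h5⟩, hv1⟩ := exists_lt_of_lt_csSup hne h2
    refine ⟨s1, hs1, fun κ _ _ θ hθ hθ1 => ?_⟩
    have h6 := hv1.trans_le (h5 κ θ hθ hθ1)
    have h7 := SFR.of_fpt_pos h6
    have h8 : ∀ θ' : A →+* κ, θ' = θ →
        SFR (ringChar κ) (FractionRing (Oc κ (bc θ' J))) (mO κ (bc θ' J))
          (fun j => (bc θ' (P j)).map (toO κ (bc θ' J))) c ⊤ 0 →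
        SFR (ringChar κ) (FractionRing (Oc κ (bc θ J))) (mO κ (bc θ J))
          (fun j => (bc θ (P j)).map (toO κ (bc θ J))) c ⊤ 0 := by
      rintro _ rfl h
      exact h
    exact h8 _ (RingHom.comp_id θ) h7
  obtain ⟨Kk, M, hK, hM, v2, hv2, hv3, hv4⟩ := exists_param n' N
    ((D : ℝ) * (5 * w) * n' * (n'.factorial : ℝ)) v _ hv
  have hfin := comp ι hι J P c hJ0 n' hn (Kk * M) (Nat.mul_pos hK hM)
    ((1 + (N : ℝ) / Kk) ^ n' * v2) (mul_nonneg (by positivity) (hv0.trans hv2.le)) ?_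
  · exact absurd hv3 (not_lt.2 hfin)
  intro s hs
  by_contra hcon
  apply hno
  refine ⟨s * (s0 * s1), mul_ne_zero hs (mul_ne_zero hs0 hs1), fun κ _ _ θ hθ hθs => ?_⟩
  rw [map_mul, map_mul] at hθs
  have hθ1 := left_ne_zero_of_mul hθs
  have hθ2 := left_ne_zero_of_mul (right_ne_zero_of_mul hθs)
  have hθ3 := right_ne_zero_of_mul (right_ne_zero_of_mul hθs)
  by_contra hlt
  rw [not_le] at hlt
  obtain ⟨d, hdF, hdw, hnz, -⟩ := H κ θ hθ2
  have hJθ : bc θ J ≤ mX N κ := by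
    refine (Ideal.map_mono hJ0).trans ?_
    rw [mX, mX, Ideal.map_span, Ideal.span_le]
    rintro _ ⟨_, ⟨i, rfl⟩, rfl⟩
    rw [MvPolynomial.map_X]
    exact Ideal.subset_span ⟨i, rfl⟩
  obtain ⟨C, hC1, hC2, hC3⟩ := thm1_pt hn hN hJθ c d hdF hdw hnz (hS κ θ hθ hθ3) Kk M hK hM v hlt
  refine hcon ⟨κ, inferInstance, inferInstance, θ, hθ, hθ1, C, hC1, hC2, hC3.trans ?_⟩
  exact mul_le_mul_of_nonneg_left hv4 (by positivity)

end FU
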