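import Pool.Agent.Lib.MP_9e8926_ag_U.AGro

/-!
# Lifting closed points
-/

set_option autoImplicit false

noncomputable section

namespace FU

open MvPolynomial

private theorem alift_comp {A K σ : Type} [CommRing A] [CommRing K] (F : MvPolynomial σ A →+* K)
    (φ : A →+* K) (hφ : ∀ a, F (C a) = φ a) (p : MvPolynomial σ A) :
    MvPolynomial.eval₂ (RingHom.id K) (fun i => F (X i)) (MvPolynomial.map φ p) = F p := by
  rw [MvPolynomial.eval₂_map, RingHom.id_comp]
  have h : (eval₂Hom φ fun i => F (X i)) = F :=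
    MvPolynomial.ringHom_ext (fun a => by rw [coe_eval₂Hom, eval₂_C, hφ])
      fun i => by rw [coe_eval₂Hom, eval₂_X]
  exact congrArg (fun g => g p) h

/-- Specialization of a finitely presented extension of domains. -/
private theorem alift_spec {A R : Type} [CommRing A] [IsDomain A] [CommRing R] [IsDomain R]
    {n : ℕ} (F : MvPolynomial (Fin n) A →+* R) (hF : Function.Surjective F)
    (hinj : ∀ a : A, F (C a) = 0 → a = 0) :
    ∃ a : A, a ≠ 0 ∧ ∀ (κ : Type) [Field κ] [Finite κ] (θ : A →+* κ), Function.Surjective θ →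
      θ a ≠ 0 → ∃ (κ' : Type) (_ : Field κ') (_ : Finite κ') (j : κ →+* κ') (H : R →+* κ'),
        Function.Surjective H ∧ ∀ x, H (F (C x)) = j (θ x) := by
  classical
  obtain ⟨s, hs, D, -, hD⟩ := exists_bas (RingHom.ker F)
  -- the generic point
  have hne : Nonempty D := by
    by_contra hcon
    have hE : IsEmpty D := not_nonempty_iff.1 hcon
    let φ' : A →+* FractionRing R := ((algebraMap R (FractionRing R)).comp F).comp C
    have hφ' : ∀ a, φ' a = 0 → a = 0 := fun a ha => by
      have h1 : algebraMap R (FractionRing R) (F (C a)) = 0 := ha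
      rw [map_eq_zero_iff _ (IsFractionRing.injective R (FractionRing R))] at h1
      exact hinj a h1
    have hu : IsUnit (φ' s) := IsUnit.mk0 _ fun h => hs (hφ' s h)
    obtain ⟨a, ha⟩ := (hD (FractionRing R) φ' hu).1 1
    have ha0 : a = 0 := Subsingleton.elim _ _
    rw [ha0, Finsupp.sum_zero_index, sub_zero] at ha
    let ev : MvPolynomial (Fin n) (FractionRing R) →+* FractionRing R :=
      eval₂Hom (RingHom.id _) fun i => algebraMap R (FractionRing R) (F (X i))
    have h2 : (RingHom.ker F).map (MvPolynomial.map φ') ≤ RingHom.ker ev := by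
      rw [Ideal.map_le_iff_le_comap]
      intro p hp
      rw [Ideal.mem_comap, RingHom.mem_ker]
      have h3 := alift_comp ((algebraMap R (FractionRing R)).comp F) φ' (fun a => rfl) p
      rw [RingHom.mem_ker] at hp
      have h4 : ((algebraMap R (FractionRing R)).comp F) p = 0 := by
        rw [RingHom.comp_apply, hp, map_zero]
      rw [h4] at h3
      exact h3
    have h3 := h2 ha
    rw [RingHom.mem_ker, map_one] at h3
    exact one_ne_zero h3
  refine ⟨s, hs, fun κ _ _ θ hθ hθs => ?_⟩
  obtain ⟨α⟩ := hne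
  have hb := hD κ θ (IsUnit.mk0 _ hθs)
  have htop : (RingHom.ker F).map (MvPolynomial.map θ) ≠ ⊤ := by
    intro htop
    have h1 := hb.2 (Finsupp.single α 1) (by
      rw [htop]
      exact Submodule.mem_top)
    rw [Finsupp.single_eq_zero] at h1
    exact one_ne_zero h1
  obtain ⟨m, hm, hle⟩ := Ideal.exists_le_maximal _ htop
  let _ : Field (MvPolynomial (Fin n) κ ⧸ m) := Ideal.Quotient.field m
  have hfin : Module.Finite κ (MvPolynomial (Fin n) κ ⧸ m) :=
    finite_of_finite_type_of_isJacobsonRing κ (MvPolynomial (Fin n) κ ⧸ m)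
  have hfin2 : Finite (MvPolynomial (Fin n) κ ⧸ m) := Module.finite_of_finite κ
  let G : MvPolynomial (Fin n) A →+* (MvPolynomial (Fin n) κ ⧸ m) :=
    (Ideal.Quotient.mk m).comp (MvPolynomial.map θ)
  have hG : RingHom.ker F ≤ RingHom.ker G := by
    intro p hp
    rw [RingHom.mem_ker]
    exact Ideal.Quotient.eq_zero_iff_mem.2 (hle (Ideal.mem_map_of_mem _ hp))
  have hc := F.liftOfSurjective_comp_apply hF ⟨G, hG⟩
  refine ⟨MvPolynomial (Fin n) κ ⧸ m, inferInstance, hfin2, (Ideal.Quotient.mk m).comp C,
    F.liftOfSurjective hF ⟨G, hG⟩, ?_, fun x => ?_⟩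
  · intro y
    obtain ⟨q, rfl⟩ := Ideal.Quotient.mk_surjective y
    obtain ⟨p, rfl⟩ := MvPolynomial.map_surjective θ hθ q
    exact ⟨F p, hc p⟩
  · rw [hc]
    change Ideal.Quotient.mk m (MvPolynomial.map θ (C x)) = Ideal.Quotient.mk m (C (θ x))
    rw [map_C]

/-- Almost all closed points of `Spec A` lift to closed points of `Spec B` with `b ≠ 0`.

PROOF.  `C = Localization.Away b` is a domain, finitely generated over `A`, so `C = A[x_1, …, x_m]/J`
(as an `A`-algebra, `A → C` injective).  Let `s`, `D` be as in `exists_bas` for `J`.  `D` is not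
empty: otherwise `1 ∈ J L[x]`, `L = FractionRing A`, so some `a ≠ 0` of `A` is in `J`, against
the injectivity of `A → C`.  Put `a = s`.  If `θ : A → κ`, `θ s ≠ 0`, then `κ[x]/(J κ[x])` has a
basis indexed by `D`, so it is not zero; let `𝔫` be a maximal ideal of it and `κ'` the quotient by
`𝔫`, a finite extension of `κ` (`finite_of_finite_type_of_isJacobsonRing`), so a finite field.
The map `A[x] → κ[x] → κ'` kills `J` and gives `C → κ'`; `ν` is its composition with `B → C`.  It is
surjective: its image contains the image of `b⁻¹` (`κ'` is finite: the inverse of `ν b ≠ 0` is a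
power of it), hence the image of `C`, which is everything because `θ` is surjective. -/
theorem exists_lift {A B : Type} [CommRing A] [IsDomain A] [CommRing B] [IsDomain B]
    [Algebra.FiniteType ℤ A] [Algebra.FiniteType ℤ B] (φ : A →+* B) (hφ : Function.Injective φ)
    (b : B) (hb : b ≠ 0) :
    ∃ a : A, a ≠ 0 ∧ ∀ (κ : Type) [Field κ] [Finite κ] (θ : A →+* κ), Function.Surjective θ →
      θ a ≠ 0 → ∃ (κ' : Type) (_ : Field κ') (_ : Finite κ') (j : κ →+* κ') (ν : B →+* κ'),
        Function.Surjective ν ∧ ν.comp φ = j.comp θ ∧ ν b ≠ 0 := by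
  classical
  have hle : Submonoid.powers b ≤ nonZeroDivisors B :=
    powers_le_nonZeroDivisors_of_noZeroDivisors hb
  have hdom : IsDomain (Localization.Away b) := IsLocalization.isDomain_localization hle
  have hβ : Function.Injective (algebraMap B (Localization.Away b)) :=
    IsLocalization.injective _ hle
  have hft1 : Algebra.FiniteType B (Localization.Away b) :=
    IsLocalization.finiteType_of_monoid_fg (Submonoid.powers b) _
  have hft : Algebra.FiniteType ℤ (Localization.Away b) := Algebra.FiniteType.trans ‹_› hft1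
  obtain ⟨n, f₀, hf₀⟩ := Algebra.FiniteType.iff_quotient_mvPolynomial''.1 hft
  let F : MvPolynomial (Fin n) A →+* Localization.Away b :=
    eval₂Hom ((algebraMap B (Localization.Away b)).comp φ) fun i => f₀ (X i)
  have hFC : ∀ a, F (C a) = algebraMap B (Localization.Away b) (φ a) := fun a => eval₂_C _ _ _
  have hFX : ∀ i, F (X i) = f₀ (X i) := fun i => eval₂_X _ _ _
  have hF : Function.Surjective F := by
    intro c
    obtain ⟨p, rfl⟩ := hf₀ c
    refine ⟨MvPolynomial.map (Int.castRingHom A) p, ?_⟩
    have h1 : F.comp (MvPolynomial.map (Int.castRingHom A)) = f₀.toRingHom := by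
      refine MvPolynomial.ringHom_ext (fun z => ?_) fun i => ?_
      · rw [RingHom.comp_apply, map_C]
        simp
      · rw [RingHom.comp_apply, map_X, hFX]
        rfl
    exact congrArg (fun g => g p) h1
  obtain ⟨s, hs, h⟩ := alift_spec F hF (fun a ha => by
    rw [hFC, map_eq_zero_iff _ hβ, map_eq_zero_iff _ hφ] at ha
    exact ha)
  refine ⟨s, hs, fun κ _ _ θ hθ hθs => ?_⟩
  obtain ⟨κ', iF, iN, j, H, hH, hj⟩ := h κ θ hθ hθs
  have hbu : IsUnit (algebraMap B (Localization.Away b) b) :=
    IsLocalization.Away.algebraMap_isUnit _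
  have hb' : H (algebraMap B (Localization.Away b) b) ≠ 0 := (hbu.map H).ne_zero
  refine ⟨κ', iF, iN, j, H.comp (algebraMap B (Localization.Away b)), ?_, ?_, hb'⟩
  · intro y
    obtain ⟨c, rfl⟩ := hH y
    obtain ⟨⟨x, ⟨_, N, rfl⟩⟩, hx⟩ := IsLocalization.surj (Submonoid.powers b) c
    have hx' : c * algebraMap B (Localization.Away b) (b ^ N) =
        algebraMap B (Localization.Away b) x := hx
    have := Fintype.ofFinite κ'
    obtain ⟨u, hu⟩ : ∃ u, u = H (algebraMap B (Localization.Away b) b) := ⟨_, rfl⟩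
    have hu0 : u ≠ 0 := by
      rw [hu]
      exact hb'
    have h1 : u ^ (Fintype.card κ' - 1) = 1 := FiniteField.pow_card_sub_one_eq_one u hu0
    have h2 : 1 < Fintype.card κ' := Fintype.one_lt_card
    obtain ⟨q, hq⟩ : ∃ q, Fintype.card κ' - 1 = q + 1 := ⟨Fintype.card κ' - 2, by omega⟩
    rw [hq] at h1
    refine ⟨x * b ^ (N * q), ?_⟩
    rw [RingHom.comp_apply, map_mul, ← hx', map_mul, map_mul, map_pow, map_pow, map_pow, map_pow,
      ← hu, mul_assoc, ← pow_add]
    have h3 : N + N * q = (q + 1) * N := by ring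
    rw [h3, pow_mul, h1, one_pow, mul_one]
  · refine RingHom.ext fun a => ?_
    rw [RingHom.comp_apply, RingHom.comp_apply, RingHom.comp_apply, ← hFC, hj]

end FU
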