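import Pool.Agent.Lib.MP_9e8926_ag_U.AFinB
import Pool.Agent.Lib.MP_9e8926_ag_U.AExt
import Pool.Agent.Lib.MP_9e8926_ag_U.ALift

/-!
# The upper bounds for the Frobenius volumes of the reductions
-/

set_option autoImplicit false

noncomputable section

namespace FU

open MvPolynomial IsLocalRing Filter Topology

/-- Every homomorphism to a finite field factors through a closed point. -/
theorem exists_sub {A κ' : Type} [CommRing A] [Field κ'] [Finite κ'] (θ' : A →+* κ') :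
    ∃ (κ : Type) (_ : Field κ) (_ : Finite κ) (θ : A →+* κ) (j : κ →+* κ'),
      Function.Surjective θ ∧ j.comp θ = θ' := by
  have hinj : Function.Injective θ'.kerLift := RingHom.kerLift_injective θ'
  have hfin : Finite (A ⧸ RingHom.ker θ') := Finite.of_injective _ hinj
  have hdom : IsDomain (A ⧸ RingHom.ker θ') := hinj.isDomain θ'.kerLift
  have hmax : (RingHom.ker θ').IsMaximal :=
    Ideal.Quotient.maximal_of_isField _ (Finite.isField_of_domain _)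
  exact ⟨A ⧸ RingHom.ker θ', Ideal.Quotient.field _, hfin, Ideal.Quotient.mk _, θ'.kerLift,
    Ideal.Quotient.mk_surjective, RingHom.ext fun a => rfl⟩

theorem mX_bc {A B : Type*} [CommRing A] [CommRing B] (φ : A →+* B) {N : ℕ}
    {J : Ideal (MvPolynomial (Fin N) A)} (h : J ≤ mX N A) : bc φ J ≤ mX N B := by
  refine (Ideal.map_mono h).trans ?_
  rw [mX, mX, Ideal.map_span, Ideal.span_le]
  rintro _ ⟨_, ⟨i, rfl⟩, rfl⟩
  rw [MvPolynomial.map_X]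
  exact Ideal.subset_span ⟨i, rfl⟩

theorem mX_pow_bc {A B : Type*} [CommRing A] [CommRing B] (φ : A →+* B) {N M : ℕ}
    {I : Ideal (MvPolynomial (Fin N) A)} (h : mX N A ^ M ≤ I) : mX N B ^ M ≤ bc φ I := by
  have h1 : mX N B ≤ bc φ (mX N A) := by
    rw [mX, Ideal.span_le]
    rintro _ ⟨i, rfl⟩
    rw [← MvPolynomial.map_X φ]
    exact Ideal.mem_map_of_mem _ (Ideal.subset_span ⟨i, rfl⟩)
  refine (Ideal.pow_right_mono h1 M).trans ?_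
  rw [bc, ← Ideal.map_pow]
  exact Ideal.map_mono h

section

variable {A : Type} [CommRing A] [IsDomain A] [Algebra.FiniteType ℤ A] {ι : A →+* ℂ}
  {N r n : ℕ} {J : Ideal (MvPolynomial (Fin N) A)} {P : Fin r → Ideal (MvPolynomial (Fin N) A)}

omit [Algebra.FiniteType ℤ A] in
/-- The uniform data, with the dimension and `1 ≤ N`. -/
theorem uniform' (hι : Function.Injective ι) (hn : 1 ≤ n) (hJ : (bc ι J).IsPrime)
    (hdim : ringKrullDim (MvPolynomial (Fin N) ℂ ⧸ bc ι J) = n)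
    (hP : ∀ j, ¬ bc ι (P j) ≤ bc ι J) :
    1 ≤ N ∧ ∃ (D : ℕ) (s0 : A), s0 ≠ 0 ∧ ∀ (k : Type) [Field k] (φ : A →+* k), φ s0 ≠ 0 →
      ∃ d : HDat (bc φ J) (fun j => bc φ (P j)) n D, d.F ≠ 0 ∧
        (∀ t, aeval d.y d.F * t ∈ bc φ J → t ∈ bc φ J) := by
  have hcz : CharZero A := (RingHom.charZero_iff hι).2 inferInstance
  obtain ⟨n', D, w, s0, hs0, H⟩ := uniform J P (prime_frac ι hι J hJ)
    (fun j => not_le_frac ι hι J (hP j))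
  obtain ⟨dC, -, -, -, hinj⟩ := H ℂ ι (fun h => hs0 (hι (by rw [h, map_zero])))
  have hk := krull_EDat dC.toEDat (hinj hι)
  rw [hdim] at hk
  have hnn : n' = n := by exact_mod_cast hk.symm
  subst hnn
  refine ⟨?_, D, s0, hs0, fun k _ φ hφ => ?_⟩
  · by_contra hN0
    have hN1 : N = 0 := by omega
    subst hN1
    have h1 : ringKrullDim (MvPolynomial (Fin 0) ℂ ⧸ bc ι J) ≤
        ringKrullDim (MvPolynomial (Fin 0) ℂ) := ringKrullDim_quotient_le _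
    rw [hdim, MvPolynomial.ringKrullDim_of_isNoetherianRing] at h1
    simp only [ringKrullDim_eq_zero_of_field, Nat.card_eq_fintype_card, Fintype.card_fin] at h1
    norm_num at h1
    omega
  · obtain ⟨d, h1, -, h2, -⟩ := H k φ hφ
    exact ⟨d, h1, h2⟩

omit [IsDomain A] [Algebra.FiniteType ℤ A] in
/-- The comparison of the Frobenius volume at a closed point of `Spec A` with the value of a model
of an ideal at a point above it. -/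
theorem Fvol_le_mod (hn : 1 ≤ n) (hN : 1 ≤ N) (hJ0 : J ≤ mX N A) (c : Fin r → ℚ) {D : ℕ} {s0 : A}
    (H : ∀ (k : Type) [Field k] (φ : A →+* k), φ s0 ≠ 0 →
      ∃ d : HDat (bc φ J) (fun j => bc φ (P j)) n D, d.F ≠ 0 ∧
        (∀ t, aeval d.y d.F * t ∈ bc φ J → t ∈ bc φ J))
    (𝔞 : Mod N ι) {κ κ' : Type} [Field κ] [Finite κ] [Field κ'] [Finite κ'] (θ : A →+* κ)
    (j : κ →+* κ') (ν : 𝔞.B →+* κ') (hν : ν.comp 𝔞.φ = j.comp θ) (hθ : θ s0 ≠ 0) :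
    FvolRed n J P c κ θ ≤ multAt n κ' (bc (ν.comp 𝔞.φ) J) (bc ν 𝔞.I) *
      fptMod ι J P c 𝔞 κ' ν ^ n := by
  obtain ⟨d, hF, hnz⟩ := H κ θ hθ
  have h1 : ∀ Q : Ideal (MvPolynomial (Fin N) A), bc j (bc θ Q) = bc (ν.comp 𝔞.φ) Q := fun Q => by
    rw [bc_bc, hν]
  have h2 : ∀ (J₁ : Ideal (MvPolynomial (Fin N) κ'))
      (P₁ : Fin r → Ideal (MvPolynomial (Fin N) κ')), J₁ = bc (ν.comp 𝔞.φ) J →
      P₁ = (fun i => bc (ν.comp 𝔞.φ) (P i)) → ∃ d' : HDat J₁ P₁ n D, d'.F ≠ 0 ∧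
      ∀ t, aeval d'.y d'.F * t ∈ J₁ → t ∈ J₁ := by
    rintro _ _ rfl rfl
    refine H κ' (ν.comp 𝔞.φ) ?_
    rw [hν, RingHom.comp_apply]
    exact (map_ne_zero j).2 hθ
  obtain ⟨d', hF', hnz'⟩ := h2 (bc j (bc θ J)) (fun i => bc j (bc θ (P i))) (h1 J)
    (funext fun i => h1 (P i))
  have h3 := Fvol_le_ext hn hN j (mX_bc θ hJ0) c d hF hnz d' hF' hnz'
  simp only [h1] at h3
  exact h3.trans (FvolR_le (isPrim_map (mX_bc ν 𝔞.le)
    (𝔞.ge.imp fun M hM => mX_pow_bc ν hM)))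

/-- The upper bound for the lower limit. -/
theorem upper_liminf (hι : Function.Injective ι) (hn : 1 ≤ n) (hJ0 : J ≤ mX N A)
    (hJ : (bc ι J).IsPrime) (hdim : ringKrullDim (MvPolynomial (Fin N) ℂ ⧸ bc ι J) = n)
    (hP : ∀ j, ¬ bc ι (P j) ≤ bc ι J) (c : Fin r → ℚ) (v : ℝ)
    (hv : Almost (fun κ _ _ (θ : A →+* κ) => v ≤ FvolRed n J P c κ θ)) :
    v ≤ Vlow n ι J P c := by
  obtain ⟨hN, D, s0, hs0, H⟩ := uniform' hι hn hJ hdim hP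
  obtain ⟨s, hs, hv⟩ := hv
  refine le_csInf ⟨_, Mod.max ι hι N, rfl⟩ ?_
  rintro _ ⟨𝔞, rfl⟩
  have hφ : Function.Injective 𝔞.φ := by
    have h1 : Function.Injective (𝔞.ψ ∘ 𝔞.φ) := by
      rw [← RingHom.coe_comp, 𝔞.comp]
      exact hι
    exact h1.of_comp
  obtain ⟨M, hM⟩ := 𝔞.ge
  have hBn : IsNoetherianRing 𝔞.B := Algebra.FiniteType.isNoetherianRing ℤ 𝔞.B
  obtain ⟨s1, hs1, e, he⟩ := mult_const (bc 𝔞.φ J) 𝔞.I M hM n
  have heC : multAt n ℂ (bc ι J) (bc 𝔞.ψ 𝔞.I) = e := by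
    rw [← he ℂ 𝔞.ψ ((map_ne_zero_iff _ 𝔞.inj).2 hs1), bc_bc, 𝔞.comp]
  rw [heC]
  have he0 : 0 ≤ e := heC ▸ emult_nonneg _ _ _
  have h1 : ∀ (κ' : Type) [Field κ'] [Finite κ'] (ν : 𝔞.B →+* κ'), Function.Surjective ν →
      ν (𝔞.φ (s * s0) * s1) ≠ 0 → v ≤ e * fptMod ι J P c 𝔞 κ' ν ^ n := by
    intro κ' _ _ ν hν hν1
    rw [map_mul, map_mul, map_mul] at hν1
    obtain ⟨κ, _, _, θ, j, hθ, hj⟩ := exists_sub (ν.comp 𝔞.φ)
    have h2 : ∀ a : A, j (θ a) = ν (𝔞.φ a) := fun a => by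
      rw [← RingHom.comp_apply, hj, RingHom.comp_apply]
    have h3 := Fvol_le_mod hn hN hJ0 c H 𝔞 θ j ν hj.symm
      (fun h => left_ne_zero_of_mul hν1 (by rw [← h2, ← h2, h, map_zero, mul_zero]))
    rw [← bc_bc, he κ' ν (right_ne_zero_of_mul hν1)] at h3
    exact (hv κ θ hθ fun h => left_ne_zero_of_mul hν1
      (by rw [← h2, ← h2, h, map_zero, zero_mul])).trans h3
  have hb : 𝔞.φ (s * s0) * s1 ≠ 0 :=
    mul_ne_zero ((map_ne_zero_iff _ hφ).2 (mul_ne_zero hs hs0)) hs1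
  have hbd : BddAbove {w : ℝ | Almost (fun κ _ _ (ν : 𝔞.B →+* κ) =>
      w ≤ fptMod ι J P c 𝔞 κ ν)} := by
    refine ⟨2 * N, ?_⟩
    rintro w ⟨t, ht, hw⟩
    obtain ⟨κ', _, _, ν, hν, hν1⟩ := exists_pt t ht
    exact (hw κ' ν hν hν1).trans (fptAt_le hN (mX_bc _ hJ0) _ c _ (mX_bc ν 𝔞.le))
  have hl0 : 0 ≤ liminfPts (fun κ _ _ (ν : 𝔞.B →+* κ) => fptMod ι J P c 𝔞 κ ν) :=
    liminfPts_nonneg _ fun κ _ _ ν => fpt_nonneg'
  rcases le_or_gt v 0 with hv0 | hv0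
  · exact hv0.trans (mul_nonneg he0 (pow_nonneg hl0 n))
  have hepos : 0 < e := by
    obtain ⟨κ', _, _, ν, hν, hν1⟩ := exists_pt _ hb
    have h2 := h1 κ' ν hν hν1
    rcases he0.eq_or_lt with h3 | h3
    · rw [← h3, zero_mul] at h2
      linarith
    · exact h3
  have hn0 : n ≠ 0 := by omega
  have hw : (v / e) ^ ((n : ℝ)⁻¹) ≤
      liminfPts (fun κ _ _ (ν : 𝔞.B →+* κ) => fptMod ι J P c 𝔞 κ ν) := by
    refine le_csSup hbd ⟨_, hb, fun κ' _ _ ν hν hν1 => ?_⟩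
    have h2 := h1 κ' ν hν hν1
    have h3 : v / e ≤ fptMod ι J P c 𝔞 κ' ν ^ n := by
      rw [div_le_iff₀ hepos, mul_comm]
      exact h2
    calc (v / e) ^ ((n : ℝ)⁻¹) ≤ (fptMod ι J P c 𝔞 κ' ν ^ n) ^ ((n : ℝ)⁻¹) :=
          Real.rpow_le_rpow (by positivity) h3 (by positivity)
      _ = fptMod ι J P c 𝔞 κ' ν := Real.pow_rpow_inv_natCast fpt_nonneg' hn0
  calc v = e * (v / e) := by field_simp
    _ = e * ((v / e) ^ ((n : ℝ)⁻¹)) ^ n := by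
        rw [Real.rpow_inv_natCast_pow (by positivity) hn0]
    _ ≤ _ := mul_le_mul_of_nonneg_left (pow_le_pow_left₀ (by positivity) hw n) he0

/-- The upper bound for the upper limit. -/
theorem upper_limsup (hι : Function.Injective ι) (hn : 1 ≤ n) (hJ0 : J ≤ mX N A)
    (hJ : (bc ι J).IsPrime) (hdim : ringKrullDim (MvPolynomial (Fin N) ℂ ⧸ bc ι J) = n)
    (hP : ∀ j, ¬ bc ι (P j) ≤ bc ι J) (c : Fin r → ℚ) (v : ℝ) (hv : Vup n ι J P c < v) :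
    Almost (fun κ _ _ (θ : A →+* κ) => FvolRed n J P c κ θ ≤ v) := by
  obtain ⟨hN, D, s0, hs0, H⟩ := uniform' hι hn hJ hdim hP
  have hne0 : Set.Nonempty {v : ℝ | ∃ 𝔞 : Mod N ι, v = multAt n ℂ (bc ι J) (bc 𝔞.ψ 𝔞.I) *
      limsupPts (fun κ _ _ (ν : 𝔞.B →+* κ) => fptMod ι J P c 𝔞 κ ν) ^ n} :=
    ⟨_, Mod.max ι hι N, rfl⟩
  obtain ⟨_, ⟨𝔞, rfl⟩, hlt⟩ := exists_lt_of_csInf_lt hne0 hv
  have hφ : Function.Injective 𝔞.φ := by
    have h1 : Function.Injective (𝔞.ψ ∘ 𝔞.φ) := by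
      rw [← RingHom.coe_comp, 𝔞.comp]
      exact hι
    exact h1.of_comp
  obtain ⟨M, hM⟩ := 𝔞.ge
  have hBn : IsNoetherianRing 𝔞.B := Algebra.FiniteType.isNoetherianRing ℤ 𝔞.B
  obtain ⟨s1, hs1, e, he⟩ := mult_const (bc 𝔞.φ J) 𝔞.I M hM n
  have heC : multAt n ℂ (bc ι J) (bc 𝔞.ψ 𝔞.I) = e := by
    rw [← he ℂ 𝔞.ψ ((map_ne_zero_iff _ 𝔞.inj).2 hs1), bc_bc, 𝔞.comp]
  rw [heC] at hlt
  have he0 : 0 ≤ e := heC ▸ emult_nonneg _ _ _
  have hne : Set.Nonempty {w : ℝ | Almost (fun κ _ _ (ν : 𝔞.B →+* κ) =>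
      fptMod ι J P c 𝔞 κ ν ≤ w)} :=
    ⟨2 * N, 1, one_ne_zero, fun κ' _ _ ν _ _ =>
      fptAt_le hN (mX_bc _ hJ0) _ c _ (mX_bc ν 𝔞.le)⟩
  have hcont : Tendsto (fun u : ℝ => e * u ^ n)
      (𝓝[>] (limsupPts (fun κ _ _ (ν : 𝔞.B →+* κ) => fptMod ι J P c 𝔞 κ ν)))
      (𝓝 (e * limsupPts (fun κ _ _ (ν : 𝔞.B →+* κ) => fptMod ι J P c 𝔞 κ ν) ^ n)) :=
    (Continuous.tendsto (by fun_prop) _).mono_left nhdsWithin_le_nhds
  obtain ⟨u, hu1, hu2⟩ := ((hcont.eventually_lt_const hlt).and self_mem_nhdsWithin).exists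
  obtain ⟨w, ⟨t, ht, hw⟩, hwu⟩ := exists_lt_of_csInf_lt hne hu2
  obtain ⟨a, ha, hlift⟩ := exists_lift 𝔞.φ hφ (t * s1) (mul_ne_zero ht hs1)
  refine ⟨a * s0, mul_ne_zero ha hs0, fun κ _ _ θ hθ hθ1 => ?_⟩
  rw [map_mul] at hθ1
  obtain ⟨κ', _, _, j, ν, hν, hνj, hν1⟩ := hlift κ θ hθ (left_ne_zero_of_mul hθ1)
  rw [map_mul] at hν1
  have h3 := Fvol_le_mod hn hN hJ0 c H 𝔞 θ j ν hνj (right_ne_zero_of_mul hθ1)
  rw [← bc_bc, he κ' ν (right_ne_zero_of_mul hν1)] at h3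
  have h4 := (hw κ' ν hν (left_ne_zero_of_mul hν1)).trans hwu.le
  exact h3.trans ((mul_le_mul_of_nonneg_left (pow_le_pow_left₀ fpt_nonneg' h4 n) he0).trans
    hu1.le)

end

end FU
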