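import Pool.Agent.Lib.MP_9e8926_ag_U.AFin

/-!
# Convergence of the Frobenius volumes if the `F`-pure thresholds converge
-/

set_option autoImplicit false

noncomputable section

namespace FU

open MvPolynomial

theorem almost_and {A : Type} [CommRing A] [IsDomain A]
    {Q Q' : ∀ (κ : Type) [Field κ] [Finite κ], (A →+* κ) → Prop} (h : Almost Q) (h' : Almost Q') :
    Almost fun κ _ _ (θ : A →+* κ) => Q κ θ ∧ Q' κ θ := by
  obtain ⟨s, hs, h⟩ := h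
  obtain ⟨t, ht, h'⟩ := h'
  refine ⟨s * t, mul_ne_zero hs ht, fun κ _ _ θ hθ hθ1 => ?_⟩
  rw [map_mul] at hθ1
  exact ⟨h κ θ hθ (left_ne_zero_of_mul hθ1), h' κ θ hθ (right_ne_zero_of_mul hθ1)⟩

theorem liminfPts_eq {A : Type} [CommRing A] [IsDomain A] [Algebra.FiniteType ℤ A]
    {f : ∀ (κ : Type) [Field κ] [Finite κ], (A →+* κ) → ℝ} {L : ℝ} (h : TendstoPts f L) :
    liminfPts f = L := by
  have h1 : ∀ ε > 0, L - ε ∈ {v : ℝ | Almost fun κ _ _ (θ : A →+* κ) => v ≤ f κ θ} := by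
    intro ε hε
    obtain ⟨s, hs, h2⟩ := h ε hε
    refine ⟨s, hs, fun κ _ _ θ hθ hθ1 => ?_⟩
    have h3 := (abs_le.1 (h2 κ θ hθ hθ1)).1
    linarith
  have h4 : ∀ v ∈ {v : ℝ | Almost fun κ _ _ (θ : A →+* κ) => v ≤ f κ θ}, v ≤ L := by
    intro v hv
    refine le_of_forall_pos_le_add fun ε hε => ?_
    obtain ⟨s, hs, h5⟩ := almost_and hv (h ε hε)
    obtain ⟨κ, _, _, θ, hθ, hθ1⟩ := exists_pt s hs
    obtain ⟨h6, h7⟩ := h5 κ θ hθ hθ1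
    have h8 := (abs_le.1 h7).2
    linarith
  refine le_antisymm (csSup_le ⟨_, h1 1 one_pos⟩ h4) (le_of_forall_pos_le_add fun ε hε => ?_)
  have h9 := le_csSup ⟨L, h4⟩ (h1 ε hε)
  have h10 : liminfPts f = sSup {v : ℝ | Almost fun κ _ _ (θ : A →+* κ) => v ≤ f κ θ} := rfl
  rw [h10]
  linarith

theorem limsupPts_eq {A : Type} [CommRing A] [IsDomain A] [Algebra.FiniteType ℤ A]
    {f : ∀ (κ : Type) [Field κ] [Finite κ], (A →+* κ) → ℝ} {L : ℝ} (h : TendstoPts f L) :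
    limsupPts f = L := by
  have h1 : ∀ ε > 0, L + ε ∈ {v : ℝ | Almost fun κ _ _ (θ : A →+* κ) => f κ θ ≤ v} := by
    intro ε hε
    obtain ⟨s, hs, h2⟩ := h ε hε
    refine ⟨s, hs, fun κ _ _ θ hθ hθ1 => ?_⟩
    have h3 := (abs_le.1 (h2 κ θ hθ hθ1)).2
    linarith
  have h4 : ∀ v ∈ {v : ℝ | Almost fun κ _ _ (θ : A →+* κ) => f κ θ ≤ v}, L ≤ v := by
    intro v hv
    refine le_of_forall_pos_le_add fun ε hε => ?_
    obtain ⟨s, hs, h5⟩ := almost_and hv (h ε hε)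
    obtain ⟨κ, _, _, θ, hθ, hθ1⟩ := exists_pt s hs
    obtain ⟨h6, h7⟩ := h5 κ θ hθ hθ1
    have h8 := (abs_le.1 h7).1
    linarith
  refine le_antisymm (le_of_forall_pos_le_add fun ε hε => ?_) (le_csInf ⟨_, h1 1 one_pos⟩ h4)
  exact csInf_le ⟨L, h4⟩ (h1 ε hε)

/-- If the `F`-pure thresholds of the reductions of all models of primary ideals converge, then
the Frobenius volumes of the reductions of the pair converge to the infimum of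
`e(𝔞) (lim fpt(𝔞_ν))ⁿ`. -/
theorem main_lim {A : Type} [CommRing A] [IsDomain A] [Algebra.FiniteType ℤ A] (ι : A →+* ℂ)
    (hι : Function.Injective ι) {N r n : ℕ} (hn : 1 ≤ n) (J : Ideal (MvPolynomial (Fin N) A))
    (hJ0 : J ≤ mX N A) (hJ : (bc ι J).IsPrime)
    (hdim : ringKrullDim (MvPolynomial (Fin N) ℂ ⧸ bc ι J) = n)
    (P : Fin r → Ideal (MvPolynomial (Fin N) A)) (hP : ∀ j, ¬ bc ι (P j) ≤ bc ι J)
    (c : Fin r → ℚ) (lam : Mod N ι → ℝ)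
    (hlam : ∀ 𝔞 : Mod N ι,
      TendstoPts (fun κ _ _ (ν : 𝔞.B →+* κ) => fptMod ι J P c 𝔞 κ ν) (lam 𝔞)) :
    TendstoPts (fun κ _ _ (θ : A →+* κ) => FvolRed n J P c κ θ)
      (sInf {v : ℝ | ∃ 𝔞 : Mod N ι,
        v = multAt n ℂ (bc ι J) (bc 𝔞.ψ 𝔞.I) * lam 𝔞 ^ n}) := by
  obtain ⟨-, -, h3, h4⟩ := FU.main ι hι hn J hJ0 hJ hdim P hP c
  have h5 : Vlow n ι J P c = sInf {v : ℝ | ∃ 𝔞 : Mod N ι,
      v = multAt n ℂ (bc ι J) (bc 𝔞.ψ 𝔞.I) * lam 𝔞 ^ n} := by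
    unfold Vlow
    congr 1
    ext v
    refine exists_congr fun 𝔞 => ?_
    rw [liminfPts_eq (hlam 𝔞)]
  have h6 : Vup n ι J P c = sInf {v : ℝ | ∃ 𝔞 : Mod N ι,
      v = multAt n ℂ (bc ι J) (bc 𝔞.ψ 𝔞.I) * lam 𝔞 ^ n} := by
    unfold Vup
    congr 1
    ext v
    refine exists_congr fun 𝔞 => ?_
    rw [limsupPts_eq (hlam 𝔞)]
  rw [h5] at h3
  rw [h6] at h4
  intro ε hε
  obtain ⟨s, hs, h7⟩ := almost_and (h3 _ (sub_lt_self _ hε)) (h4 _ (lt_add_of_pos_right _ hε))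
  refine ⟨s, hs, fun κ _ _ θ hθ hθ1 => ?_⟩
  obtain ⟨h8, h9⟩ := h7 κ θ hθ hθ1
  rw [abs_le]
  constructor
  · linarith
  · linarith

end FU
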