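import Mathlib

/-!
# Primitive elements of finite extensions of integrally closed domains
-/

set_option autoImplicit false

noncomputable section

namespace FU

/-- every element of the field of fractions has a multiple in `T` -/
private theorem anb_den {S T K : Type} [CommRing S] [IsDomain S] [CommRing T] [IsDomain T]
    [Field K] [Algebra S T] [Algebra T K] [Algebra S K] [IsScalarTower S T K] [IsFractionRing T K]
    [Module.Finite S T] (k : K) :
    ∃ b : S, b ≠ 0 ∧ ∃ u : T, b • k = algebraMap T K u := by
  obtain ⟨n, d, hd, h⟩ := IsFractionRing.div_surjective (A := T) k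
  have hd0 : d ≠ 0 := nonZeroDivisors.ne_zero hd
  obtain ⟨b, hb, v, hv⟩ :=
    (Algebra.IsIntegral.isIntegral (R := S) d).isAlgebraic.exists_nonzero_dvd hd
  refine ⟨b, hb, n * v, ?_⟩
  have hdK : algebraMap T K d ≠ 0 := fun h0 => hd0 ((IsFractionRing.injective T K)
    (by rw [h0, map_zero]))
  rw [← h, Algebra.smul_def, IsScalarTower.algebraMap_apply S T K, hv, map_mul, map_mul]
  field_simp

private theorem anb_prim {S T E K : Type} [CommRing S] [IsDomain S] [CommRing T] [IsDomain T]
    [Field E] [Field K] [Algebra S T] [Algebra T K] [Algebra S K] [IsScalarTower S T K]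
    [IsFractionRing T K] [Algebra S E] [IsFractionRing S E] [Algebra E K] [IsScalarTower S E K]
    [Module.Finite S T] [FiniteDimensional E K] [CharZero E] :
    ∃ t : T, ∀ k : K, ∃ b : S, b ≠ 0 ∧ ∃ β : Polynomial S,
      b • k = algebraMap T K (Polynomial.aeval t β) := by
  obtain ⟨α, hα⟩ := Field.exists_primitive_element E K
  obtain ⟨c, hc, t, ht⟩ := anb_den (S := S) (T := T) α
  refine ⟨t, fun k => ?_⟩
  have hcE : algebraMap S E c ≠ 0 := fun h0 => hc ((IsFractionRing.injective S E)
    (by rw [h0, map_zero]))
  have hα' : α ∈ Algebra.adjoin E {algebraMap T K t} := by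
    have h1 : α = (algebraMap S E c)⁻¹ • algebraMap T K t := by
      rw [← ht, ← algebraMap_smul E c α, smul_smul, inv_mul_cancel₀ hcE, one_smul]
    rw [h1]
    exact Subalgebra.smul_mem _ (Algebra.self_mem_adjoin_singleton E _) _
  have h0 : Algebra.adjoin E {α} = ⊤ :=
    Algebra.adjoin_eq_top_of_intermediateField (fun x _ => Algebra.IsAlgebraic.isAlgebraic x) hα
  have hk : k ∈ Algebra.adjoin E {algebraMap T K t} := by
    have h1 : k ∈ Algebra.adjoin E {α} := h0.symm ▸ Algebra.mem_top
    exact Algebra.adjoin_le (Set.singleton_subset_iff.2 hα') h1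
  rw [Algebra.adjoin_singleton_eq_range_aeval] at hk
  obtain ⟨p, hp⟩ := hk
  obtain ⟨b, hb, hb'⟩ := IsLocalization.integerNormalization_spec (nonZeroDivisors S) p
  refine ⟨b, nonZeroDivisors.ne_zero hb,
    IsLocalization.integerNormalization (nonZeroDivisors S) p, ?_⟩
  rw [← Polynomial.aeval_algebraMap_apply, ← Polynomial.aeval_map_algebraMap E, hb', ← hp]
  rw [← algebraMap_smul E b p, map_smul, algebraMap_smul]
  rfl

/-- Primitive elements of finite extensions of integrally closed domains of characteristic `0`.

PROOF.  `E = FractionRing S`, `K = FractionRing T`; `K` is a finite separable extension of `E`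
(characteristic `0`), and every element of `K` is `t / b` with `t ∈ T`, `b ∈ S \ 0` (last claim).
`Field.exists_primitive_element E K`; multiply by an element of `S` to get `t ∈ T` with
`E⟮t⟯ = ⊤`.  `G = minpoly S t`, `G.map = minpoly E t`
(`minpoly.isIntegrallyClosed_eq_field_fractions'`); if `β` has smaller degree and `β(t) = 0` then
`β = 0` (`minpoly.degree_le_of_ne_zero` over `E`).  Every `u ∈ T` is in `E[t]`, clear denominators
for the finitely many generators of the `S`-module `T`.  `G'(t) ≠ 0` by separability, and
`G'(t)⁻¹ ∈ E[t]`; clear denominators.  Last claim: `u ≠ 0` integral over the domain `S`; the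
constant coefficient `b` of `minpoly S u` is `≠ 0` (or of a monic equation of minimal degree) and
`b = u v`. -/
theorem prim_abs {S T : Type} [CommRing S] [IsDomain S] [IsIntegrallyClosed S] [CharZero S]
    [CommRing T] [IsDomain T] [Algebra S T] [Module.Finite S T]
    (hinj : Function.Injective (algebraMap S T)) :
    ∃ (t : T) (G : Polynomial S), G.Monic ∧ Polynomial.aeval t G = 0 ∧
      (∀ β : Polynomial S, β.degree < G.degree → Polynomial.aeval t β = 0 → β = 0) ∧
      (∃ b : S, b ≠ 0 ∧ ∀ u : T, ∃ β : Polynomial S, b • u = Polynomial.aeval t β) ∧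
      (∃ b : S, b ≠ 0 ∧ ∃ δ : Polynomial S, algebraMap S T b =
        Polynomial.aeval t (Polynomial.derivative G) * Polynomial.aeval t δ) ∧
      ∀ u : T, u ≠ 0 → ∃ b : S, b ≠ 0 ∧ ∃ v : T, algebraMap S T b = u * v := by
  classical
  have : FaithfulSMul S T := (faithfulSMul_iff_algebraMap_injective S T).2 hinj
  have : Module.IsTorsionFree S T := Module.isTorsionFree_iff_algebraMap_injective.2 hinj
  let : Algebra (FractionRing S) (FractionRing T) := FractionRing.liftAlgebra S (FractionRing T)
  have : IsScalarTower S (FractionRing S) (FractionRing T) :=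
    FractionRing.isScalarTower_liftAlgebra S (FractionRing T)
  have : FiniteDimensional (FractionRing S) (FractionRing T) := inferInstance
  have : CharZero (FractionRing S) :=
    charZero_of_injective_algebraMap (IsFractionRing.injective S (FractionRing S))
  obtain ⟨t, ht⟩ := anb_prim (S := S) (T := T) (E := FractionRing S) (K := FractionRing T)
  have hK := IsFractionRing.injective T (FractionRing T)
  have hti : IsIntegral S t := Algebra.IsIntegral.isIntegral t
  have hT : ∀ (b : S) (u : T), algebraMap T (FractionRing T) (b • u) =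
      b • algebraMap T (FractionRing T) u := fun b u => by
    rw [Algebra.smul_def, map_mul, Algebra.smul_def, ← IsScalarTower.algebraMap_apply]
  have hdeg : ∀ β : Polynomial S, β.degree < (minpoly S t).degree →
      Polynomial.aeval t β = 0 → β = 0 := fun β h1 h2 => by
    by_contra h0
    exact absurd (minpoly.IsIntegrallyClosed.degree_le_of_ne_zero h0 h2) (not_le.2 h1)
  refine ⟨t, minpoly S t, minpoly.monic hti, minpoly.aeval S t, hdeg, ?_, ?_, fun u hu => ?_⟩
  · have hN : ∀ s : Finset T, ∃ b : S, b ≠ 0 ∧ ∀ u ∈ s, ∃ β : Polynomial S,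
        b • u = Polynomial.aeval t β := by
      intro s
      induction s using Finset.induction_on with
      | empty => exact ⟨1, one_ne_zero, fun u hu => absurd hu (Finset.notMem_empty u)⟩
      | insert a s _ ih =>
        obtain ⟨b, hb, h⟩ := ih
        obtain ⟨c, hc, γ, hγ⟩ := ht (algebraMap T (FractionRing T) a)
        rw [← hT] at hγ
        refine ⟨b * c, mul_ne_zero hb hc, fun u hu => ?_⟩
        rcases Finset.mem_insert.1 hu with rfl | hu
        · exact ⟨b • γ, by rw [mul_smul, hK hγ, map_smul]⟩
        · obtain ⟨β, hβ⟩ := h u hu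
          exact ⟨c • β, by rw [mul_comm b c, mul_smul, hβ, map_smul]⟩
    obtain ⟨s, hs⟩ := Module.Finite.fg_top (R := S) (M := T)
    obtain ⟨b, hb, h⟩ := hN s
    refine ⟨b, hb, fun u => ?_⟩
    have hu : u ∈ Submodule.span S (s : Set T) := by
      rw [hs]
      trivial
    induction hu using Submodule.span_induction with
    | mem x hx => exact h x hx
    | zero => exact ⟨0, by rw [smul_zero, map_zero]⟩
    | add x y _ _ hx hy =>
      obtain ⟨β, hβ⟩ := hx
      obtain ⟨γ, hγ⟩ := hy
      exact ⟨β + γ, by rw [smul_add, hβ, hγ, map_add]⟩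
    | smul a x _ hx =>
      obtain ⟨β, hβ⟩ := hx
      exact ⟨a • β, by rw [smul_comm, hβ, map_smul]⟩
  · have hg : Polynomial.aeval t (Polynomial.derivative (minpoly S t)) ≠ 0 := by
      intro h0
      have h1 := hdeg _ (Polynomial.degree_derivative_lt (minpoly.monic hti).ne_zero) h0
      have h2 := Polynomial.derivative_eq_zero.1 h1
      exact absurd h2 (minpoly.natDegree_pos hti).ne'
    obtain ⟨b, hb, δ, hδ⟩ := ht (algebraMap T (FractionRing T)
      (Polynomial.aeval t (Polynomial.derivative (minpoly S t))))⁻¹
    refine ⟨b, hb, δ, hK ?_⟩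
    have hg' : algebraMap T (FractionRing T)
        (Polynomial.aeval t (Polynomial.derivative (minpoly S t))) ≠ 0 := fun h0 => hg (hK
      (by rw [h0, map_zero]))
    rw [map_mul, ← hδ, Algebra.smul_def, mul_left_comm, mul_inv_cancel₀ hg', mul_one,
      ← IsScalarTower.algebraMap_apply]
  · exact (Algebra.IsIntegral.isIntegral (R := S) u).isAlgebraic.exists_nonzero_dvd
      (mem_nonZeroDivisors_of_ne_zero hu)

end FU
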