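import Pool.Agent.Lib.MP_9e8926_ag_U.ANoeA
import Pool.Agent.Lib.MP_9e8926_ag_U.ANoeB

/-!
# Elementary data of a variety over a field of characteristic zero
-/

set_option autoImplicit false

noncomputable section

namespace FU

open MvPolynomial

private theorem anoe_ev_mul_C {A T : Type*} [CommRing A] [CommRing T] [Algebra A T] {n : ℕ}
    (y : Fin n → T) (z : T) (c : MvPolynomial (Fin n) A)
    (β : Polynomial (MvPolynomial (Fin n) A)) :
    ev y z (Polynomial.C c * β) = aeval y c * ev y z β := by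
  unfold ev
  rw [Polynomial.eval₂_mul, Polynomial.eval₂_C]
  rfl

/-- The claim with the quotient replaced by an isomorphic ring `T`. -/
private theorem anoe_aux {N r : ℕ} {L : Type} [Field L] [CharZero L]
    (J : Ideal (MvPolynomial (Fin N) L)) (hJ : J.IsPrime)
    (P : Fin r → Ideal (MvPolynomial (Fin N) L)) (hP : ∀ j, ¬ P j ≤ J)
    {T : Type} [CommRing T] [IsDomain T] (π : MvPolynomial (Fin N) L →+* T)
    (hπ : Function.Surjective π) (hker : ∀ x, π x = 0 ↔ x ∈ J) :
    ∃ (n D : ℕ) (d : EDat J P n D), d.F ≠ 0 ∧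
      (∀ a : MvPolynomial (Fin n) L, aeval d.y a ∈ J → a = 0) ∧
      ∀ β : Polynomial (MvPolynomial (Fin n) L), β.degree < d.G.degree →
        ev d.y d.z β ∈ J → β = 0 := by
  classical
  have hker' : ∀ x x', π x = π x' ↔ x - x' ∈ J := fun x x' => by
    rw [← hker, map_sub, sub_eq_zero]
  obtain ⟨n, y, D, h, hy, hinj, hspan⟩ := noether J hJ
  let f : MvPolynomial (Fin n) L →+* T :=
    π.comp (aeval y : MvPolynomial (Fin n) L →ₐ[L] MvPolynomial (Fin N) L).toRingHom
  let _ : Algebra (MvPolynomial (Fin n) L) T := f.toAlgebra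
  have hf : ∀ a, algebraMap (MvPolynomial (Fin n) L) T a = π (aeval y a) := fun a => rfl
  have _ : Module.Finite (MvPolynomial (Fin n) L) T := by
    refine ⟨⟨Finset.univ.image fun v => π (h v), ?_⟩⟩
    rw [eq_top_iff]
    rintro u -
    obtain ⟨t, rfl⟩ := hπ u
    obtain ⟨a, ha⟩ := hspan t
    rw [(hker' _ _).2 ha, map_sum]
    refine Submodule.sum_mem _ fun v _ => ?_
    rw [map_mul, ← hf, ← Algebra.smul_def]
    exact Submodule.smul_mem _ _ (Submodule.subset_span (by simp))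
  have hinj' : Function.Injective (algebraMap (MvPolynomial (Fin n) L) T) := by
    rw [injective_iff_map_eq_zero]
    intro a ha
    rw [hf, hker] at ha
    exact hinj a ha
  obtain ⟨t, G, hG, hGt, hGmin, ⟨b₁, hb₁, hs₁⟩, ⟨b₂, hb₂, δ, hδ⟩, hdiv⟩ := prim_abs hinj'
  obtain ⟨z, rfl⟩ := hπ t
  have hev : ∀ β : Polynomial (MvPolynomial (Fin n) L),
      Polynomial.aeval (π z) β = π (ev y z β) := by
    intro β
    rw [Polynomial.aeval_def, ev, Polynomial.hom_eval₂]
    rfl
  -- elements of `L[Y]` in `P j + J`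
  have hb : ∀ j, ∃ b : MvPolynomial (Fin n) L, b ≠ 0 ∧ aeval y b ∈ P j ⊔ J := by
    intro j
    obtain ⟨q, hqP, hqJ⟩ := Set.not_subset.1 (hP j)
    obtain ⟨b, hb, v, hv⟩ := hdiv (π q) (fun h0 => hqJ ((hker q).1 h0))
    obtain ⟨v, rfl⟩ := hπ v
    rw [hf, ← map_mul, hker'] at hv
    refine ⟨b, hb, ?_⟩
    have h1 : aeval y b = (aeval y b - q * v) + q * v := by ring
    rw [h1]
    exact Ideal.add_mem _ (Ideal.mem_sup_right hv)
      (Ideal.mem_sup_left (Ideal.mul_mem_right _ _ hqP))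
  choose b hb0 hbP using hb
  let e : MvPolynomial (Fin n) L := if h : 0 < n then X ⟨0, h⟩ else 1
  have he : e ≠ 0 := by
    simp only [e]
    split_ifs
    · exact X_ne_zero _
    · exact one_ne_zero
  let F : MvPolynomial (Fin n) L := b₁ * (b₂ * ((∏ j, b j) * e))
  have hF : F ≠ 0 :=
    mul_ne_zero hb₁ (mul_ne_zero hb₂ (mul_ne_zero (Finset.prod_ne_zero_iff.2 fun j _ => hb0 j) he))
  refine ⟨n, D, ⟨y, hy, h, hspan, z, G, hG, ?_, F, ?_, ?_, ?_, ?_⟩, hF, hinj, ?_⟩
  · rw [← hker, ← hev, hGt]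
  · intro t
    obtain ⟨β, hβ⟩ := hs₁ (π t)
    refine ⟨Polynomial.C (b₂ * ((∏ j, b j) * e)) * β, ?_⟩
    rw [anoe_ev_mul_C, ← hker', map_mul π, map_mul π, ← hev, ← hβ, Algebra.smul_def, ← hf, ← hf]
    simp only [F, map_mul]
    ring
  · refine ⟨Polynomial.C (b₁ * ((∏ j, b j) * e)) * δ, ?_⟩
    rw [anoe_ev_mul_C, ← hker', map_mul π, map_mul π, ← hev, ← hev, ← hf, ← hf]
    have h1 : F = b₂ * (b₁ * ((∏ j, b j) * e)) := by simp only [F]; ring
    rw [h1, map_mul, hδ]
    ring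
  · intro j
    have h1 : F = (b₁ * (b₂ * ((∏ i ∈ Finset.univ.erase j, b i) * e))) * b j := by
      have h2 : ∏ i, b i = b j * ∏ i ∈ Finset.univ.erase j, b i :=
        (Finset.mul_prod_erase _ _ (Finset.mem_univ j)).symm
      simp only [F]
      rw [h2]
      ring
    rw [h1, map_mul]
    exact Ideal.mul_mem_left _ _ (hbP j)
  · intro hn
    have h1 : F = (b₁ * (b₂ * ∏ j, b j)) * X ⟨0, hn⟩ := by
      simp only [F, e, dif_pos hn]
      ring
    rw [h1, map_mul, aeval_X]
    exact Ideal.mul_mem_left _ _ (hy _)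
  · intro β hβ hβJ
    refine hGmin β hβ ?_
    rw [hev, hker]
    exact hβJ

/-- Elementary data of a variety over a field of characteristic `0`.

PROOF.  `noether` gives `n`, `y`, `D`, `h`.  `S = L[Y_1, …, Y_n]` (a UFD, so integrally closed),
`T = L[x]/J` with the algebra structure `(Ideal.Quotient.mk J).comp (aeval y)`, apply `prim_abs`;
`z` is a lift of `t`, and `F = b₁ b₂ ∏_j b_j' (Y_0 if n > 0)`, where `b_j'` comes from the last
claim for the class of some `p_j ∈ P_j \ J`. -/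
theorem exists_EDat {N r : ℕ} {L : Type} [Field L] [CharZero L]
    (J : Ideal (MvPolynomial (Fin N) L)) (hJ : J.IsPrime)
    (P : Fin r → Ideal (MvPolynomial (Fin N) L)) (hP : ∀ j, ¬ P j ≤ J) :
    ∃ (n D : ℕ) (d : EDat J P n D), d.F ≠ 0 ∧
      (∀ a : MvPolynomial (Fin n) L, aeval d.y a ∈ J → a = 0) ∧
      ∀ β : Polynomial (MvPolynomial (Fin n) L), β.degree < d.G.degree →
        ev d.y d.z β ∈ J → β = 0 :=
  have _ : IsDomain (MvPolynomial (Fin N) L ⧸ J) := Ideal.Quotient.isDomain J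
  anoe_aux J hJ P hP (Ideal.Quotient.mk J) Ideal.Quotient.mk_surjective
    fun _ => Ideal.Quotient.eq_zero_iff_mem

end FU
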