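import Pool.Agent.Lib.MP_9e8926_ag_U.AGro
import Pool.Agent.Lib.MP_9e8926_ag_U.ANoe
import Pool.Agent.Lib.MP_9e8926_ag_U.AH

/-!
# Spreading out: data over a localization
-/

set_option autoImplicit false

noncomputable section

namespace FU

open MvPolynomial

section AGenA

variable {A : Type} [CommRing A] [IsDomain A]

/-- The filter of the sets which contain all multiples `≠ 0` of some `s ≠ 0`. -/
private def AGenA_f (A : Type) [CommRing A] [IsDomain A] : Filter A where
  sets := {Q | ∃ s : A, s ≠ 0 ∧ ∀ s' : A, s' ≠ 0 → s ∣ s' → s' ∈ Q}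
  univ_sets := ⟨1, one_ne_zero, fun _ _ _ => trivial⟩
  sets_of_superset := by
    rintro x y ⟨s, hs, h⟩ hxy
    exact ⟨s, hs, fun s' h1 h2 => hxy (h s' h1 h2)⟩
  inter_sets := by
    rintro x y ⟨s, hs, h⟩ ⟨t, ht, h'⟩
    exact ⟨s * t, mul_ne_zero hs ht, fun s' h1 h2 =>
      ⟨h s' h1 (dvd_of_mul_right_dvd h2), h' s' h1 (dvd_of_mul_left_dvd h2)⟩⟩

private theorem AGenA_ev {Q : A → Prop} :
    (∀ᶠ s in AGenA_f A, Q s) ↔ ∃ s : A, s ≠ 0 ∧ ∀ s' : A, s' ≠ 0 → s ∣ s' → Q s' := Iff.rfl

/-- `g` is a lift of `f` to the localization at `s`. -/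
private def AGenA_l {σ : Type} (s : A) (g : MvPolynomial σ (Localization.Away s))
    (f : MvPolynomial σ (FractionRing A)) : Prop :=
  ∀ j : Localization.Away s →+* FractionRing A,
    j.comp (algebraMap A (Localization.Away s)) = algebraMap A (FractionRing A) →
      MvPolynomial.map j g = f

/-- `g` is a lift of `f` to the localization at `s`. -/
private def AGenA_lp {σ : Type} (s : A)
    (g : Polynomial (MvPolynomial σ (Localization.Away s)))
    (f : Polynomial (MvPolynomial σ (FractionRing A))) : Prop :=
  ∀ j : Localization.Away s →+* FractionRing A,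
    j.comp (algebraMap A (Localization.Away s)) = algebraMap A (FractionRing A) →
      g.map (MvPolynomial.map j) = f

private theorem AGenA_unit {s s' : A} (h : s ∣ s') :
    IsUnit (algebraMap A (Localization.Away s') s) :=
  isUnit_of_dvd_unit (map_dvd _ h) (IsLocalization.Away.algebraMap_isUnit s')

private theorem AGenA_lift {σ : Type} (f : MvPolynomial σ (FractionRing A)) :
    ∀ᶠ s in AGenA_f A, ∃ g, AGenA_l s g f := by
  induction f using MvPolynomial.induction_on with
  | C a =>
    obtain ⟨x, y, hy, rfl⟩ := IsFractionRing.div_surjective (A := A) a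
    refine AGenA_ev.2 ⟨y, nonZeroDivisors.ne_zero hy, fun s' _ hs => ?_⟩
    obtain ⟨u, hu⟩ := AGenA_unit hs
    refine ⟨C (algebraMap A _ x * (u⁻¹ : (Localization.Away s')ˣ).1), fun j hj => ?_⟩
    rw [map_C]
    congr 1
    have hy' : algebraMap A (FractionRing A) y ≠ 0 := by
      rw [Ne, map_eq_zero_iff _ (IsFractionRing.injective A (FractionRing A))]
      exact nonZeroDivisors.ne_zero hy
    rw [eq_div_iff hy', map_mul, ← hj, RingHom.comp_apply, RingHom.comp_apply, ← hu, mul_assoc,
      ← map_mul, Units.inv_mul, map_one, mul_one]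
  | add p q hp hq =>
    filter_upwards [hp, hq] with s h1 h2
    obtain ⟨g1, h1⟩ := h1
    obtain ⟨g2, h2⟩ := h2
    exact ⟨g1 + g2, fun j hj => by rw [map_add, h1 j hj, h2 j hj]⟩
  | mul_X p i hp =>
    filter_upwards [hp] with s h1
    obtain ⟨g1, h1⟩ := h1
    exact ⟨g1 * X i, fun j hj => by rw [map_mul, h1 j hj, map_X]⟩

private theorem AGenA_liftp {σ : Type} (f : Polynomial (MvPolynomial σ (FractionRing A))) :
    ∀ᶠ s in AGenA_f A, ∃ g, AGenA_lp s g f := by
  induction f using Polynomial.induction_on with
  | C a =>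
    filter_upwards [AGenA_lift a] with s h1
    obtain ⟨g1, h1⟩ := h1
    exact ⟨Polynomial.C g1, fun j hj => by rw [Polynomial.map_C, h1 j hj]⟩
  | add p q hp hq =>
    filter_upwards [hp, hq] with s h1 h2
    obtain ⟨g1, h1⟩ := h1
    obtain ⟨g2, h2⟩ := h2
    exact ⟨g1 + g2, fun j hj => by rw [Polynomial.map_add, h1 j hj, h2 j hj]⟩
  | monomial n a h =>
    filter_upwards [h] with s h1
    obtain ⟨g1, h1⟩ := h1
    refine ⟨g1 * Polynomial.X, fun j hj => ?_⟩
    rw [Polynomial.map_mul, h1 j hj, Polynomial.map_X, mul_assoc, ← pow_succ]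

private theorem AGenA_bc {N : ℕ} {B R : Type} [CommRing B] [CommRing R]
    (J : Ideal (MvPolynomial (Fin N) A)) (φ : A →+* B) (ψ : B →+* R) :
    bc ψ (bc φ J) = bc (ψ.comp φ) J := by
  rw [bc, bc, Ideal.map_map]
  congr 1
  refine RingHom.ext fun f => ?_
  exact MvPolynomial.map_map φ ψ f

private theorem AGenA_sat {N : ℕ} (J : Ideal (MvPolynomial (Fin N) A)) :
    ∀ᶠ s in AGenA_f A, ∀ j : Localization.Away s →+* FractionRing A,
      j.comp (algebraMap A (Localization.Away s)) = algebraMap A (FractionRing A) →
      Function.Injective j → ∀ g : MvPolynomial (Fin N) (Localization.Away s),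
        MvPolynomial.map j g ∈ bc (algebraMap A (FractionRing A)) J →
          g ∈ bc (algebraMap A (Localization.Away s)) J := by
  obtain ⟨s₀, hs₀, h⟩ := sat J
  refine AGenA_ev.2 ⟨s₀, hs₀, fun s _ hs j hj hi g hg => ?_⟩
  refine h _ _ (algebraMap A (Localization.Away s)) j hi (AGenA_unit hs) g ?_
  rw [hj]
  exact hg

private theorem AGenA_inj {s : A} (hs : s ≠ 0) : ∃ j : Localization.Away s →+* FractionRing A,
    j.comp (algebraMap A (Localization.Away s)) = algebraMap A (FractionRing A) ∧
      Function.Injective j := by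
  have hι : Function.Injective (algebraMap A (FractionRing A)) :=
    IsFractionRing.injective A (FractionRing A)
  have hu : IsUnit (algebraMap A (FractionRing A) s) := IsUnit.mk0 _ (by
    rw [Ne, map_eq_zero_iff _ hι]
    exact hs)
  have hj : (IsLocalization.Away.lift s hu : Localization.Away s →+* FractionRing A).comp
      (algebraMap A (Localization.Away s)) = algebraMap A (FractionRing A) :=
    IsLocalization.Away.lift_comp s hu
  refine ⟨IsLocalization.Away.lift s hu, hj, ?_⟩
  rw [injective_iff_map_eq_zero]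
  intro x hx
  obtain ⟨⟨a, b⟩, hab⟩ := IsLocalization.surj (Submonoid.powers s) x
  have e2 : x * algebraMap A (Localization.Away s) b = algebraMap A (Localization.Away s) a := hab
  have e3 : algebraMap A (FractionRing A) a = 0 := by
    rw [← hj, RingHom.comp_apply, ← e2, map_mul, hx, zero_mul]
  have e4 : a = 0 := (map_eq_zero_iff _ hι).1 e3
  rw [e4, map_zero] at e2
  exact (IsUnit.mul_left_eq_zero (IsLocalization.map_units _ b)).1 e2

end AGenA

private theorem AGenA_aeval {N n : ℕ} {B R : Type} [CommRing B] [CommRing R] (φ : B →+* R)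
    (y : Fin n → MvPolynomial (Fin N) B) (a : MvPolynomial (Fin n) B) :
    MvPolynomial.map φ (aeval y a) =
      aeval (fun i => MvPolynomial.map φ (y i)) (MvPolynomial.map φ a) := by
  induction a using MvPolynomial.induction_on with
  | C a =>
    rw [aeval_C, map_C, aeval_C]
    exact map_C _ _
  | add p q hp hq => rw [map_add, map_add, hp, hq, map_add, map_add]
  | mul_X p i hp => rw [map_mul, map_mul, hp, aeval_X, map_mul, map_mul, map_X, aeval_X]

private theorem AGenA_evm {N n : ℕ} {B R : Type} [CommRing B] [CommRing R] (φ : B →+* R)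
    (y : Fin n → MvPolynomial (Fin N) B) (z : MvPolynomial (Fin N) B)
    (β : Polynomial (MvPolynomial (Fin n) B)) :
    MvPolynomial.map φ (ev y z β) =
      ev (fun i => MvPolynomial.map φ (y i)) (MvPolynomial.map φ z)
        (β.map (MvPolynomial.map φ)) := by
  rw [ev, ev, Polynomial.hom_eval₂, Polynomial.eval₂_map]
  congr 1
  refine RingHom.ext fun a => ?_
  exact AGenA_aeval φ y a

/-- Data over a localization of `A`.

PROOF.  `L = FractionRing A`.  `exists_EDat` over `L` gives `d`, with the finite module relations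
`1 ≡ ∑ a_v(y) h_v`, `x_k h_v ≡ ∑ a_{kvu}(y) h_u`, `F(y) h_v ≡ β_v(y,z)`,
`F(y) ≡ G'(y,z) δ(y,z)` modulo `J L[x]`.  Let `s₀` be the product of the elements given by `sat` for
`J` and for the ideals `P_j ⊔ J`.  All the finitely many polynomials over `L` (`y`, `h`, `z`, `F`,
the coefficients of `G`, `a`, `β_v`, `δ`) have coefficients in `A_s ⊆ L` for some multiple
`s` of `s₀`, `s ≠ 0` (`IsLocalization.exist_integer_multiples_of_finset`).  Lift them to
`A_s`; all the relations hold modulo `J A_s[x]` by `sat`
(`B = A_s`, `R = L`), in particular `F(y) ∈ P_j ⊔ J` over `A_s`.  Now `h_span` holds for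
all `t ∈ A_s[x]` (the set of `t` which satisfy it contains `1` and is stable under
multiplication by `x_k` and under `A_s`), and `F_span` follows from `h_span` and the `β_v`.
`hind` and `hnzd` of `exists_HDat` hold over `A_s`: map to `L`; `F(y) ∉ J L[x]` because of
`hinj` and `F ≠ 0`, `J L[x]` is prime, and use `sat` again. -/
theorem exists_HDat_away {N r : ℕ} {A : Type} [CommRing A] [IsDomain A] [CharZero A]
    (J : Ideal (MvPolynomial (Fin N) A)) (P : Fin r → Ideal (MvPolynomial (Fin N) A))
    (hJ : (bc (algebraMap A (FractionRing A)) J).IsPrime)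
    (hP : ∀ j, ¬ bc (algebraMap A (FractionRing A)) (P j) ≤
      bc (algebraMap A (FractionRing A)) J) :
    ∃ (n D : ℕ) (s : A), s ≠ 0 ∧
      ∃ d : HDat (bc (algebraMap A (Localization.Away s)) J)
          (fun j => bc (algebraMap A (Localization.Away s)) (P j)) n D, d.F ≠ 0 ∧
        ∀ (j : Localization.Away s →+* FractionRing A),
          j.comp (algebraMap A (Localization.Away s)) = algebraMap A (FractionRing A) →
          ∀ a : MvPolynomial (Fin n) (FractionRing A),
            aeval (fun i => MvPolynomial.map j (d.y i)) a ∈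
              bc (algebraMap A (FractionRing A)) J → a = 0 := by
  obtain ⟨n, D, d, hF, hinj, hG⟩ := exists_EDat (bc (algebraMap A (FractionRing A)) J) hJ
    (fun j => bc (algebraMap A (FractionRing A)) (P j)) hP
  -- the relations
  obtain ⟨a1, ha1⟩ := d.h_span 1
  choose a2 ha2 using fun (v : Fin D) (k : Fin N) => d.h_span (d.h v * X k)
  choose β hβ using fun v => d.F_span (d.h v)
  obtain ⟨δ, hδ⟩ := d.F_der
  -- the element `s`
  have e1 : ∀ᶠ s in AGenA_f A, ∀ i, ∃ g, AGenA_l s g (d.y i) :=
    Filter.eventually_all.2 fun i => AGenA_lift _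
  have e2 : ∀ᶠ s in AGenA_f A, ∀ v, ∃ g, AGenA_l s g (d.h v) :=
    Filter.eventually_all.2 fun i => AGenA_lift _
  have e3 : ∀ᶠ s in AGenA_f A, ∀ v, ∃ g, AGenA_l s g (a1 v) :=
    Filter.eventually_all.2 fun i => AGenA_lift _
  have e4 : ∀ᶠ s in AGenA_f A, ∀ v k u, ∃ g, AGenA_l s g (a2 v k u) :=
    Filter.eventually_all.2 fun v => Filter.eventually_all.2 fun k =>
      Filter.eventually_all.2 fun u => AGenA_lift _
  have e5 : ∀ᶠ s in AGenA_f A, ∀ v, ∃ g, AGenA_lp s g (β v) :=
    Filter.eventually_all.2 fun i => AGenA_liftp _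
  have e6 : ∀ᶠ s in AGenA_f A, ∀ i, ∀ j : Localization.Away s →+* FractionRing A,
      j.comp (algebraMap A (Localization.Away s)) = algebraMap A (FractionRing A) →
      Function.Injective j → ∀ g : MvPolynomial (Fin N) (Localization.Away s),
        MvPolynomial.map j g ∈ bc (algebraMap A (FractionRing A)) (P i ⊔ J) →
          g ∈ bc (algebraMap A (Localization.Away s)) (P i ⊔ J) :=
    Filter.eventually_all.2 fun i => AGenA_sat _
  have key := (e1.and (e2.and (e3.and (e4.and (e5.and (e6.and ((AGenA_lift d.z).and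
    ((AGenA_lift d.F).and ((AGenA_liftp d.G).and ((AGenA_liftp δ).and (AGenA_sat J)))))))))))
  obtain ⟨s, hs, hs'⟩ := AGenA_ev.1 key
  obtain ⟨k1, k2, k3, k4, k5, k6, ⟨z, hz⟩, ⟨F, hF'⟩, ⟨G, hG'⟩, ⟨δ', hδ'⟩, k7⟩ := hs' s hs dvd_rfl
  obtain ⟨j, hj, hji⟩ := AGenA_inj hs
  choose y hy using k1
  choose h hh using k2
  choose b1 hb1 using k3
  choose b2 hb2 using k4
  choose γ hγ using k5
  clear e1 e2 e3 e4 e5 e6 key hs'
  have hy' : (fun i => MvPolynomial.map j (y i)) = d.y := funext fun i => hy i j hj
  have hh' : ∀ v, MvPolynomial.map j (h v) = d.h v := fun v => hh v j hj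
  have hb1' : ∀ v, MvPolynomial.map j (b1 v) = a1 v := fun v => hb1 v j hj
  have hb2' : ∀ v k u, MvPolynomial.map j (b2 v k u) = a2 v k u := fun v k u => hb2 v k u j hj
  have hγ' : ∀ v, (γ v).map (MvPolynomial.map j) = β v := fun v => hγ v j hj
  have hz' : MvPolynomial.map j z = d.z := hz j hj
  have hF1 : MvPolynomial.map j F = d.F := hF' j hj
  have hG1 : G.map (MvPolynomial.map j) = d.G := hG' j hj
  have hδ1 : δ'.map (MvPolynomial.map j) = δ := hδ' j hj
  have hm : ∀ g : MvPolynomial (Fin N) (Localization.Away s),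
      MvPolynomial.map j g ∈ bc (algebraMap A (FractionRing A)) J →
        g ∈ bc (algebraMap A (Localization.Away s)) J := k7 j hj hji
  have hm' : ∀ g ∈ bc (algebraMap A (Localization.Away s)) J,
      MvPolynomial.map j g ∈ bc (algebraMap A (FractionRing A)) J := fun g hg => by
    rw [← hj, ← AGenA_bc]
    exact Ideal.mem_map_of_mem _ hg
  have hae : ∀ a : MvPolynomial (Fin n) (Localization.Away s),
      MvPolynomial.map j (aeval y a) = aeval d.y (MvPolynomial.map j a) := fun a => by
    rw [AGenA_aeval, hy']
  have hev : ∀ a : Polynomial (MvPolynomial (Fin n) (Localization.Away s)),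
      MvPolynomial.map j (ev y z a) = ev d.y d.z (a.map (MvPolynomial.map j)) := fun a => by
    rw [AGenA_evm, hy', hz']
  have hj0 : ∀ {σ : Type} (f : MvPolynomial σ (Localization.Away s)),
      constantCoeff f = 0 ↔ constantCoeff (MvPolynomial.map j f) = 0 := fun f => by
    rw [constantCoeff_map, map_eq_zero_iff j hji]
  have hspan : ∀ t : MvPolynomial (Fin N) (Localization.Away s),
      ∃ a : Fin D → MvPolynomial (Fin n) (Localization.Away s),
      t - ∑ v, aeval y (a v) * h v ∈ bc (algebraMap A (Localization.Away s)) J := by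
    have r1 : (1 : MvPolynomial (Fin N) (Localization.Away s)) - ∑ v, aeval y (b1 v) * h v ∈
        bc (algebraMap A (Localization.Away s)) J := by
      refine hm _ ?_
      rw [map_sub, map_one, map_sum]
      simp only [map_mul, hae, hb1', hh']
      exact ha1
    have r2 : ∀ v k, h v * X k - ∑ u, aeval y (b2 v k u) * h u ∈
        bc (algebraMap A (Localization.Away s)) J := by
      intro v k
      refine hm _ ?_
      rw [map_sub, map_sum]
      simp only [map_mul, hae, hb2', hh', map_X]
      exact ha2 v k
    intro t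
    induction t using MvPolynomial.induction_on with
    | C c =>
      refine ⟨fun v => C c * b1 v, ?_⟩
      have r3 := Ideal.mul_mem_left _ (C c) r1
      rw [mul_sub, mul_one, Finset.mul_sum] at r3
      convert r3 using 3 with v
      rw [map_mul, aeval_C, mul_assoc]
      rfl
    | add p q hp hq =>
      obtain ⟨a, ha⟩ := hp
      obtain ⟨b, hb⟩ := hq
      refine ⟨fun v => a v + b v, ?_⟩
      convert add_mem ha hb using 1
      simp only [map_add, add_mul, Finset.sum_add_distrib]
      ring
    | mul_X p k hp =>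
      obtain ⟨a, ha⟩ := hp
      refine ⟨fun u => ∑ v, a v * b2 v k u, ?_⟩
      have r3 := Ideal.mul_mem_right (X k) _ ha
      have r4 : ∑ v, aeval y (a v) * (h v * X k - ∑ u, aeval y (b2 v k u) * h u) ∈
          bc (algebraMap A (Localization.Away s)) J :=
        Ideal.sum_mem _ fun v _ => Ideal.mul_mem_left _ _ (r2 v k)
      convert add_mem r3 r4 using 1
      have r5 : ∑ u, aeval y (∑ v, a v * b2 v k u) * h u =
          ∑ v, aeval y (a v) * ∑ u, aeval y (b2 v k u) * h u := by
        simp only [map_sum, map_mul, Finset.sum_mul, Finset.mul_sum]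
        rw [Finset.sum_comm]
        exact Finset.sum_congr rfl fun v _ => Finset.sum_congr rfl fun u _ => mul_assoc _ _ _
      rw [r5]
      simp only [mul_sub, Finset.sum_sub_distrib, sub_mul, Finset.sum_mul, mul_assoc]
      ring
  let d' : EDat (bc (algebraMap A (Localization.Away s)) J)
      (fun i => bc (algebraMap A (Localization.Away s)) (P i)) n D :=
    { y := y
      y_mem := fun i => by
        rw [mem_mX, hj0, show MvPolynomial.map j (y i) = d.y i from hy i j hj, ← mem_mX]
        exact d.y_mem i
      h := h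
      h_span := hspan
      z := z
      G := G
      G_monic := by
        refine Polynomial.monic_of_injective (MvPolynomial.map_injective j hji) ?_
        rw [hG1]
        exact d.G_monic
      G_z := by
        refine hm _ ?_
        rw [hev, hG1]
        exact d.G_z
      F := F
      F_span := fun t => by
        obtain ⟨a, ha⟩ := hspan t
        have r1 : ∀ v, aeval y F * h v - ev y z (γ v) ∈
            bc (algebraMap A (Localization.Away s)) J := fun v => by
          refine hm _ ?_
          rw [map_sub, map_mul, hae, hF1, hh', hev, hγ']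
          exact hβ v
        refine ⟨∑ v, Polynomial.C (a v) * γ v, ?_⟩
        have r2 : ∑ v, aeval y (a v) * (aeval y F * h v - ev y z (γ v)) ∈
            bc (algebraMap A (Localization.Away s)) J :=
          Ideal.sum_mem _ fun v _ => Ideal.mul_mem_left _ _ (r1 v)
        convert add_mem (Ideal.mul_mem_left _ (aeval y F) ha) r2 using 1
        have r3 : ev y z (∑ v, Polynomial.C (a v) * γ v) =
            ∑ v, aeval y (a v) * ev y z (γ v) := by
          rw [ev, Polynomial.eval₂_finsetSum]
          refine Finset.sum_congr rfl fun v _ => ?_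
          rw [Polynomial.eval₂_mul, Polynomial.eval₂_C]
          rfl
        rw [r3]
        simp only [mul_sub, Finset.sum_sub_distrib, Finset.mul_sum]
        have r4 : ∑ v, aeval y (a v) * (aeval y F * h v) =
            ∑ v, aeval y F * (aeval y (a v) * h v) :=
          Finset.sum_congr rfl fun v _ => mul_left_comm _ _ _
        rw [r4]
        ring
      F_der := by
        refine ⟨δ', hm _ ?_⟩
        rw [map_sub, map_mul, hae, hF1, hev, hev, hδ1, ← Polynomial.derivative_map, hG1]
        exact hδ
      F_P := fun i => by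
        have r1 := k6 i j hj hji (aeval y F) (by
          rw [hae, hF1, bc, Ideal.map_sup]
          exact d.F_P i)
        rw [bc, Ideal.map_sup] at r1
        exact r1
      F_mem := fun hn => by
        rw [mem_mX, hj0, hae, hF1, ← mem_mX]
        exact d.F_mem hn }
  have hF2 : d'.F ≠ 0 := by
    intro h0
    apply hF
    rw [← hF1, show F = 0 from h0, map_zero]
  obtain ⟨e, he⟩ := exists_HDat d' (by
      intro b hb hb'
      have r1 := hm' _ hb'
      rw [show ev d'.y d'.z b = ev y z b from rfl, hev] at r1
      have r2 := hG (b.map (MvPolynomial.map j)) (by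
        rw [← hG1, Polynomial.degree_map_eq_of_injective (MvPolynomial.map_injective j hji),
          Polynomial.degree_map_eq_of_injective (MvPolynomial.map_injective j hji)]
        exact hb) r1
      rwa [Polynomial.map_eq_zero_iff (MvPolynomial.map_injective j hji)] at r2) (by
      intro t ht
      have r1 := hm' _ ht
      rw [show aeval d'.y d'.F = aeval y F from rfl, map_mul, hae, hF1] at r1
      exact hm _ ((hJ.mem_or_mem r1).resolve_left fun r2 => hF (hinj _ r2)))
  refine ⟨n, D, s, hs, e, ?_, ?_⟩
  · rw [he]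
    exact hF2
  · intro j' hj' a ha
    refine hinj a ?_
    rw [show e.y = y by rw [he]] at ha
    rw [show (fun i => MvPolynomial.map j' (y i)) = d.y from funext fun i => hy i j' hj'] at ha
    exact ha

end FU
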