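import Pool.Agent.Lib.MP_9e8926_ag_U.AGro

/-!
# Uniform bases of `A[x]/(J + I^j)`
-/

set_option autoImplicit false

noncomputable section

namespace FU

open MvPolynomial

/-- The degree in the first group of variables. -/
def degl {N b : ℕ} (α : (Fin N ⊕ Fin b) →₀ ℕ) : ℕ := ∑ i, α (Sum.inl i)

/-- The degree in the second group of variables. -/
def degr {N b : ℕ} (α : (Fin N ⊕ Fin b) →₀ ℕ) : ℕ := ∑ i, α (Sum.inr i)

/-- The element `x^β f^γ`. -/
def mof {N b : ℕ} {A : Type} [CommRing A] (f : Fin b → MvPolynomial (Fin N) A)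
    (α : (Fin N ⊕ Fin b) →₀ ℕ) : MvPolynomial (Fin N) A :=
  (∏ i, X i ^ α (Sum.inl i)) * ∏ i, f i ^ α (Sum.inr i)

private theorem AGr_degr_add {N b : ℕ} (α β : (Fin N ⊕ Fin b) →₀ ℕ) :
    degr (α + β) = degr α + degr β := by
  simp [degr, Finset.sum_add_distrib]

private theorem AGr_mof_add {N b : ℕ} {A : Type} [CommRing A] (f : Fin b → MvPolynomial (Fin N) A)
    (α β : (Fin N ⊕ Fin b) →₀ ℕ) : mof f (α + β) = mof f α * mof f β := by
  simp only [mof, Finsupp.add_apply, pow_add, Finset.prod_mul_distrib]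
  ring

private theorem AGr_mof_map {N b : ℕ} {A B : Type} [CommRing A] [CommRing B] (φ : A →+* B)
    (f : Fin b → MvPolynomial (Fin N) A) (α : (Fin N ⊕ Fin b) →₀ ℕ) :
    MvPolynomial.map φ (mof f α) = mof (fun k => MvPolynomial.map φ (f k)) α := by
  simp [mof]

private theorem AGr_mof_mem {N b : ℕ} {A : Type} [CommRing A] (f : Fin b → MvPolynomial (Fin N) A)
    (α : (Fin N ⊕ Fin b) →₀ ℕ) : mof f α ∈ Ideal.span (Set.range f) ^ degr α := by
  refine Ideal.mul_mem_left _ _ ?_
  rw [degr, ← Finset.prod_pow_eq_pow_sum]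
  exact Ideal.prod_mem_prod fun i _ =>
    Ideal.pow_mem_pow (Ideal.subset_span (Set.mem_range_self i)) _

/-- The part of degree `i` in the second variables, evaluated at `f`. -/
private def AGr_ev {N b : ℕ} {A : Type} [CommRing A] (f : Fin b → MvPolynomial (Fin N) A) (i : ℕ) :
    MvPolynomial (Fin N ⊕ Fin b) A →ₗ[A] MvPolynomial (Fin N) A :=
  (basisMonomials (Fin N ⊕ Fin b) A).constr A (fun α => if degr α = i then mof f α else 0)

private theorem AGr_ev_monomial {N b : ℕ} {A : Type} [CommRing A]
    (f : Fin b → MvPolynomial (Fin N) A) (i : ℕ) (α : (Fin N ⊕ Fin b) →₀ ℕ) (c : A) :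
    AGr_ev f i (monomial α c) = if degr α = i then C c * mof f α else 0 := by
  have h1 : (monomial α c : MvPolynomial (Fin N ⊕ Fin b) A) =
      c • basisMonomials (Fin N ⊕ Fin b) A α := by
    rw [coe_basisMonomials, smul_monomial, smul_eq_mul, mul_one]
  rw [h1, map_smul, AGr_ev, Module.Basis.constr_basis]
  split_ifs
  · rw [smul_eq_C_mul]
  · rw [smul_zero]

private theorem AGr_ev_mul {N b : ℕ} {A : Type} [CommRing A]
    (f : Fin b → MvPolynomial (Fin N) A) (i : ℕ) (β : (Fin N ⊕ Fin b) →₀ ℕ) (c : A)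
    (F : MvPolynomial (Fin N ⊕ Fin b) A) :
    AGr_ev f i (monomial β c * F) =
      if degr β ≤ i then C c * mof f β * AGr_ev f (i - degr β) F else 0 := by
  induction F using MvPolynomial.induction_on' with
  | monomial α a =>
    rw [monomial_mul, AGr_ev_monomial, AGr_ev_monomial, AGr_degr_add, AGr_mof_add]
    by_cases h1 : degr β ≤ i
    · rw [if_pos h1]
      by_cases h2 : degr β + degr α = i
      · rw [if_pos h2, if_pos (by omega), C_mul]
        ring
      · rw [if_neg h2, if_neg (by omega), mul_zero]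
    · rw [if_neg h1, if_neg (by omega)]
  | add p q hp hq =>
    rw [mul_add, map_add, hp, hq, map_add]
    split_ifs
    · ring
    · ring

private theorem AGr_ev_map {N b : ℕ} {A B : Type} [CommRing A] [CommRing B] (φ : A →+* B)
    (f : Fin b → MvPolynomial (Fin N) A) (i : ℕ) (F : MvPolynomial (Fin N ⊕ Fin b) A) :
    AGr_ev (fun k => MvPolynomial.map φ (f k)) i (MvPolynomial.map φ F) =
      MvPolynomial.map φ (AGr_ev f i F) := by
  induction F using MvPolynomial.induction_on' with
  | monomial α a =>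
    rw [map_monomial, AGr_ev_monomial, AGr_ev_monomial, ← AGr_mof_map]
    split_ifs
    · rw [map_mul, map_C]
    · rw [map_zero]
  | add p q hp hq => rw [map_add, map_add, hp, hq, map_add, map_add]

/-- The ideal of the `F` all of whose parts have small values. -/
private def AGr_K {N b : ℕ} {A : Type} [CommRing A] (f : Fin b → MvPolynomial (Fin N) A)
    (J : Ideal (MvPolynomial (Fin N) A)) : Ideal (MvPolynomial (Fin N ⊕ Fin b) A) where
  carrier := {F | ∀ i, AGr_ev f i F ∈ Ideal.span (Set.range f) ^ (i + 1) ⊔ J}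
  add_mem' := fun {F G} hF hG i => by
    rw [map_add]
    exact add_mem (hF i) (hG i)
  zero_mem' := fun i => by
    rw [map_zero]
    exact zero_mem _
  smul_mem' := fun G F hF => by
    rw [smul_eq_mul]
    induction G using MvPolynomial.induction_on' with
    | monomial β c =>
      intro i
      rw [AGr_ev_mul]
      split_ifs with h1
      · rw [mul_assoc]
        refine Ideal.mul_mem_left _ _ ?_
        have h2 := Ideal.mul_mem_mul (AGr_mof_mem f β) (hF (i - degr β))
        rw [Ideal.mul_sup, ← pow_add] at h2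
        have h3 : degr β + (i - degr β + 1) = i + 1 := by omega
        rw [h3] at h2
        exact (sup_le_sup_left Ideal.mul_le_right _ :
          _ ≤ Ideal.span (Set.range f) ^ (i + 1) ⊔ J) h2
      · exact zero_mem _
    | add p q hp hq =>
      intro i
      rw [add_mul, map_add]
      exact add_mem (hp i) (hq i)

private theorem AGr_mem_K {N b : ℕ} {A : Type} [CommRing A] (f : Fin b → MvPolynomial (Fin N) A)
    (J : Ideal (MvPolynomial (Fin N) A)) (F : MvPolynomial (Fin N ⊕ Fin b) A) :
    F ∈ AGr_K f J ↔ ∀ i, AGr_ev f i F ∈ Ideal.span (Set.range f) ^ (i + 1) ⊔ J := Iff.rfl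

private theorem AGr_map_ideal {N b : ℕ} {A B : Type} [CommRing A] [CommRing B] (φ : A →+* B)
    (f : Fin b → MvPolynomial (Fin N) A) (J : Ideal (MvPolynomial (Fin N) A)) (j : ℕ) :
    (Ideal.span (Set.range f) ^ j ⊔ J).map (MvPolynomial.map φ) =
      Ideal.span (Set.range fun k => MvPolynomial.map φ (f k)) ^ j ⊔
        J.map (MvPolynomial.map φ) := by
  rw [Ideal.map_sup, Ideal.map_pow, Ideal.map_span, ← Set.range_comp]
  rfl

private theorem AGr_map_K {N b : ℕ} {A B : Type} [CommRing A] [CommRing B] (φ : A →+* B)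
    (f : Fin b → MvPolynomial (Fin N) A) (J : Ideal (MvPolynomial (Fin N) A)) :
    (AGr_K f J).map (MvPolynomial.map φ) ≤
      AGr_K (fun k => MvPolynomial.map φ (f k)) (J.map (MvPolynomial.map φ)) := by
  rw [Ideal.map_le_iff_le_comap]
  intro F hF
  rw [Ideal.mem_comap, AGr_mem_K]
  intro i
  rw [AGr_ev_map, ← AGr_map_ideal]
  exact Ideal.mem_map_of_mem _ (hF i)

/-- Every element of `I ^ i` is the value of a form of degree `i`. -/
private theorem AGr_pow {N b : ℕ} {A : Type} [CommRing A] (f : Fin b → MvPolynomial (Fin N) A)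
    (i : ℕ) (g : MvPolynomial (Fin N) A) (hg : g ∈ Ideal.span (Set.range f) ^ i) :
    ∃ F, AGr_ev f i F = g := by
  let T : ℕ → Ideal (MvPolynomial (Fin N) A) := fun i =>
    { carrier := {g | ∃ F, AGr_ev f i F = g}
      add_mem' := by
        rintro g g' ⟨F, rfl⟩ ⟨F', rfl⟩
        exact ⟨F + F', map_add _ _ _⟩
      zero_mem' := ⟨0, map_zero _⟩
      smul_mem' := by
        rintro h g ⟨F, rfl⟩
        rw [smul_eq_mul]
        induction h using MvPolynomial.induction_on' with
        | monomial β c =>
          refine ⟨monomial (β.mapDomain Sum.inl) c * F, ?_⟩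
          have h0 : ∀ k : Fin N, (β.mapDomain Sum.inl : (Fin N ⊕ Fin b) →₀ ℕ) (Sum.inl k) = β k :=
            fun k => Finsupp.mapDomain_apply Sum.inl_injective _ _
          have h0' : ∀ k : Fin b, (β.mapDomain Sum.inl : (Fin N ⊕ Fin b) →₀ ℕ) (Sum.inr k) = 0 :=
            fun k => Finsupp.mapDomain_of_notMem_range _ _ (by simp)
          have h1 : degr (β.mapDomain Sum.inl : (Fin N ⊕ Fin b) →₀ ℕ) = 0 := by
            rw [degr]
            exact Finset.sum_eq_zero fun k _ => h0' k
          have h2 : mof f (β.mapDomain Sum.inl : (Fin N ⊕ Fin b) →₀ ℕ) = monomial β 1 := by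
            rw [mof]
            simp only [h0, h0', pow_zero, Finset.prod_const_one, mul_one]
            rw [monomial_eq, Finsupp.prod_fintype _ _ (by simp), C_1, one_mul]
          rw [AGr_ev_mul, h1, if_pos (Nat.zero_le _), h2, Nat.sub_zero, C_mul_monomial, mul_one]
        | add p q hp hq =>
          obtain ⟨F1, h1⟩ := hp
          obtain ⟨F2, h2⟩ := hq
          exact ⟨F1 + F2, by rw [map_add, h1, h2, add_mul]⟩ }
  have h1 : ∀ i, Ideal.span (Set.range f) ^ i ≤ T i := by
    intro i
    induction i with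
    | zero =>
      rw [pow_zero, Ideal.one_eq_top, top_le_iff, Ideal.eq_top_iff_one]
      refine ⟨monomial 0 1, ?_⟩
      rw [AGr_ev_monomial]
      simp [degr, mof]
    | succ i ih =>
      rw [pow_succ, Ideal.mul_le]
      intro r hr t ht
      obtain ⟨F, rfl⟩ := ih hr
      induction ht using Submodule.span_induction with
      | mem t ht =>
        obtain ⟨k, rfl⟩ := ht
        refine ⟨monomial (Finsupp.single (Sum.inr k) 1) 1 * F, ?_⟩
        have e1 : degr (Finsupp.single (Sum.inr k) 1 : (Fin N ⊕ Fin b) →₀ ℕ) = 1 := by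
          rw [degr, Finset.sum_eq_single k]
          · simp
          · intro l _ hl
            rw [Finsupp.single_apply, if_neg]
            intro h
            exact hl (Sum.inr_injective h).symm
          · intro h
            exact absurd (Finset.mem_univ k) h
        have e2 : mof f (Finsupp.single (Sum.inr k) 1 : (Fin N ⊕ Fin b) →₀ ℕ) = f k := by
          rw [mof, Finset.prod_eq_one, one_mul, Finset.prod_eq_single k]
          · simp
          · intro l _ hl
            rw [Finsupp.single_apply, if_neg, pow_zero]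
            intro h
            exact hl (Sum.inr_injective h).symm
          · intro h
            exact absurd (Finset.mem_univ k) h
          · intro l _
            rw [Finsupp.single_apply, if_neg (by simp), pow_zero]
        rw [AGr_ev_mul, e1, e2, if_pos (by omega), Nat.add_sub_cancel, C_1, one_mul, mul_comm]
      | zero =>
        rw [mul_zero]
        exact zero_mem _
      | add x y _ _ hx hy =>
        rw [mul_add]
        exact add_mem hx hy
      | smul a x _ hx =>
        rw [smul_eq_mul, mul_left_comm]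
        exact Ideal.mul_mem_left _ _ hx
  exact h1 i hg

section

attribute [local instance] MvPolynomial.algebraMvPolynomial

private theorem AGr_clear {τ A : Type} [CommRing A] [IsDomain A] {s : A} (hs : s ≠ 0)
    (K : Ideal (MvPolynomial τ A)) (g : MvPolynomial τ A)
    (hg : MvPolynomial.map (algebraMap A (Localization.Away s)) g ∈
      K.map (MvPolynomial.map (algebraMap A (Localization.Away s)))) :
    ∃ l : ℕ, C s ^ l * g ∈ K := by
  have hinj : Function.Injective (MvPolynomial.map (σ := τ)
      (algebraMap A (Localization.Away s))) :=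
    MvPolynomial.map_injective _ (IsLocalization.injective _
      (powers_le_nonZeroDivisors_of_noZeroDivisors hs))
  have hloc : IsLocalization ((Submonoid.powers s).map (C (σ := τ)))
      (MvPolynomial τ (Localization.Away s)) :=
    MvPolynomial.isLocalization (Submonoid.powers s) (Localization.Away s)
  have h1 := (IsLocalization.mem_map_algebraMap_iff ((Submonoid.powers s).map (C (σ := τ)))
    (MvPolynomial τ (Localization.Away s))).1 hg
  obtain ⟨⟨⟨k, hk⟩, ⟨m, hm⟩⟩, h2⟩ := h1
  obtain ⟨t, ⟨l, rfl⟩, rfl⟩ := hm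
  refine ⟨l, ?_⟩
  have h3 : g * C (s ^ l) = k := by
    apply hinj
    rw [map_mul]
    exact h2
  rw [← map_pow, mul_comm, h3]
  exact hk

private theorem AGr_den {τ A : Type} [CommRing A] [IsDomain A] (s : A)
    (F : MvPolynomial τ (Localization.Away s)) :
    ∃ (k : ℕ) (F' : MvPolynomial τ A), MvPolynomial.map (algebraMap A (Localization.Away s)) F' =
      C (algebraMap A (Localization.Away s) s) ^ k * F := by
  have hloc : IsLocalization ((Submonoid.powers s).map (C (σ := τ)))
      (MvPolynomial τ (Localization.Away s)) :=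
    MvPolynomial.isLocalization (Submonoid.powers s) (Localization.Away s)
  obtain ⟨⟨F', ⟨m, hm⟩⟩, h2⟩ := IsLocalization.surj ((Submonoid.powers s).map (C (σ := τ))) F
  obtain ⟨t, ⟨l, rfl⟩, rfl⟩ := hm
  refine ⟨l, F', ?_⟩
  have h3 : F * MvPolynomial.map (algebraMap A (Localization.Away s)) (C (s ^ l)) =
      MvPolynomial.map (algebraMap A (Localization.Away s)) F' := h2
  rw [← h3, map_C, map_pow, map_pow, mul_comm]

end

/-- The value of a combination of monomials. -/
private theorem AGr_ev_sum {N b : ℕ} {A ι : Type} [CommRing A]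
    (f : Fin b → MvPolynomial (Fin N) A) (i : ℕ) (m : ι → (Fin N ⊕ Fin b) →₀ ℕ) (a : ι →₀ A) :
    AGr_ev f i (a.sum fun α c => C c * (monomial (m α) (1 : A))) =
      a.sum fun α c => if degr (m α) = i then C c * mof f (m α) else 0 := by
  rw [map_finsuppSum]
  refine Finsupp.sum_congr fun α _ => ?_
  rw [C_mul_monomial, mul_one, AGr_ev_monomial]

private theorem AGr_span {N b : ℕ} {B : Type} [CommRing B]
    (J : Ideal (MvPolynomial (Fin N) B)) (f : Fin b → MvPolynomial (Fin N) B)
    (D : Set ((Fin N ⊕ Fin b) →₀ ℕ))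
    (h : ∀ F : MvPolynomial (Fin N ⊕ Fin b) B, ∃ a : D →₀ B,
      F - a.sum (fun α c => C c * (monomial (α : (Fin N ⊕ Fin b) →₀ ℕ) (1 : B))) ∈ AGr_K f J)
    (j : ℕ) (g : MvPolynomial (Fin N) B) :
    ∃ u ∈ Submodule.span B (Set.range
      (fun α : {α : (Fin N ⊕ Fin b) →₀ ℕ // α ∈ D ∧ degr α < j} => mof f α.1)),
      g - u ∈ J ⊔ Ideal.span (Set.range f) ^ j := by
  induction j with
  | zero =>
    refine ⟨0, zero_mem _, ?_⟩
    rw [pow_zero, Ideal.one_eq_top, sup_top_eq]
    exact Submodule.mem_top
  | succ j ih =>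
    obtain ⟨u, hu, h1⟩ := ih
    obtain ⟨y, hy, z, hz, h2⟩ := Submodule.mem_sup.1 h1
    obtain ⟨F, rfl⟩ := AGr_pow f j z hz
    obtain ⟨a, ha⟩ := h F
    have h3 := ha j
    rw [map_sub, AGr_ev_sum] at h3
    refine ⟨u + a.sum fun α c => if degr (α : (Fin N ⊕ Fin b) →₀ ℕ) = j then
      C c * mof f (α : (Fin N ⊕ Fin b) →₀ ℕ) else 0, add_mem ?_ ?_, ?_⟩
    · refine Submodule.span_mono ?_ hu
      rintro _ ⟨α, rfl⟩
      exact ⟨⟨α.1, α.2.1, α.2.2.trans (Nat.lt_succ_self j)⟩, rfl⟩
    · refine Submodule.sum_mem _ fun α _ => ?_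
      dsimp only
      split_ifs with h4
      · rw [← smul_eq_C_mul]
        exact Submodule.smul_mem _ _ (Submodule.subset_span
          ⟨⟨α.1, α.2, h4 ▸ Nat.lt_succ_self j⟩, rfl⟩)
      · exact zero_mem _
    · have h5 : g - (u + a.sum fun α c => if degr (α : (Fin N ⊕ Fin b) →₀ ℕ) = j then
          C c * mof f (α : (Fin N ⊕ Fin b) →₀ ℕ) else 0) =
          y + (AGr_ev f j F - a.sum fun α c => if degr (α : (Fin N ⊕ Fin b) →₀ ℕ) = j then
          C c * mof f (α : (Fin N ⊕ Fin b) →₀ ℕ) else 0) := by
        rw [← sub_sub, ← h2]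
        ring
      rw [h5]
      refine add_mem (Ideal.mem_sup_left hy) ?_
      rw [sup_comm]
      exact h3

private theorem AGr_indep {N b : ℕ} {A : Type} [CommRing A] [IsDomain A]
    (J : Ideal (MvPolynomial (Fin N) A)) (f : Fin b → MvPolynomial (Fin N) A) {s : A} (hs : s ≠ 0)
    (D : Set ((Fin N ⊕ Fin b) →₀ ℕ))
    (h : ∀ a : D →₀ Localization.Away s,
      a.sum (fun α c => C c * (monomial (α : (Fin N ⊕ Fin b) →₀ ℕ) (1 : Localization.Away s))) ∈
        (AGr_K f J).map (MvPolynomial.map (algebraMap A (Localization.Away s))) → a = 0)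
    (j : ℕ) (a : {α : (Fin N ⊕ Fin b) →₀ ℕ // α ∈ D ∧ degr α < j} →₀ Localization.Away s)
    (ha : a.sum (fun α c => C c *
        MvPolynomial.map (algebraMap A (Localization.Away s)) (mof f α.1)) ∈
      (J ⊔ Ideal.span (Set.range f) ^ j).map
        (MvPolynomial.map (algebraMap A (Localization.Away s)))) : a = 0 := by
  classical
  set φ := algebraMap A (Localization.Away s) with hφ
  have hφinj : Function.Injective φ := IsLocalization.injective _
    (powers_le_nonZeroDivisors_of_noZeroDivisors hs)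
  have hunit : IsUnit (φ s) := IsLocalization.Away.algebraMap_isUnit s
  by_contra hne
  obtain ⟨α0, hα0, hmin⟩ := Finset.exists_min_image a.support (fun α => degr α.1)
    (Finsupp.support_nonempty_iff.2 hne)
  set i := degr α0.1 with hi
  set a1 := a.filter (fun α => degr α.1 = i) with ha1
  set F : MvPolynomial (Fin N ⊕ Fin b) (Localization.Away s) :=
    a1.sum (fun α c => C c * (monomial α.1 (1 : Localization.Away s))) with hF
  set f' : Fin b → MvPolynomial (Fin N) (Localization.Away s) :=
    fun k => MvPolynomial.map φ (f k) with hf'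
  -- the values of `F`
  have hF0 : ∀ i', i' ≠ i → AGr_ev f' i' F = 0 := by
    intro i' hi'
    rw [hF, AGr_ev_sum]
    refine Finset.sum_eq_zero fun α hα => ?_
    rw [ha1, Finsupp.support_filter, Finset.mem_filter] at hα
    dsimp only
    rw [if_neg]
    rw [hα.2]
    exact fun h => hi' h.symm
  have hF1 : AGr_ev f' i F ∈ (Ideal.span (Set.range f) ^ (i + 1) ⊔ J).map
      (MvPolynomial.map φ) := by
    have e1 : AGr_ev f' i F = a1.sum (fun α c => C c * MvPolynomial.map φ (mof f α.1)) := by
      rw [hF, AGr_ev_sum]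
      refine Finsupp.sum_congr fun α hα => ?_
      rw [ha1, Finsupp.support_filter, Finset.mem_filter] at hα
      rw [if_pos hα.2, AGr_mof_map]
    have e2 : a.sum (fun α c => C c * MvPolynomial.map φ (mof f α.1)) =
        a1.sum (fun α c => C c * MvPolynomial.map φ (mof f α.1)) +
        (a.filter (fun α => ¬ degr α.1 = i)).sum
          (fun α c => C c * MvPolynomial.map φ (mof f α.1)) := by
      rw [← Finsupp.sum_add_index']
      · rw [ha1, Finsupp.filter_add_filter_not]
      · intro α
        rw [C_0, zero_mul]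
      · intro α c c'
        rw [C_add, add_mul]
    rw [e1, ← add_sub_cancel_right (a1.sum (fun α c => C c * MvPolynomial.map φ (mof f α.1)))
      ((a.filter (fun α => ¬ degr α.1 = i)).sum
          (fun α c => C c * MvPolynomial.map φ (mof f α.1))), ← e2]
    refine sub_mem ?_ ?_
    · refine Ideal.map_mono ?_ ha
      rw [sup_comm]
      refine sup_le_sup_right (Ideal.pow_le_pow_right ?_) _
      exact α0.2.2
    · refine Ideal.sum_mem _ fun α hα => Ideal.mul_mem_left _ _ ?_
      rw [Finsupp.support_filter, Finset.mem_filter] at hα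
      refine Ideal.mem_map_of_mem _ (Ideal.mem_sup_left ?_)
      refine Ideal.pow_le_pow_right ?_ (AGr_mof_mem f α.1)
      have h1 := hmin α hα.1
      have h2 := hα.2
      omega
  -- clear the denominators
  obtain ⟨k, F', hF'⟩ := AGr_den s F
  rw [← hφ] at hF'
  have hev : ∀ i', MvPolynomial.map φ (AGr_ev f i' F') = C (φ s) ^ k * AGr_ev f' i' F := by
    intro i'
    rw [← AGr_ev_map, hF', ← map_pow, ← smul_eq_C_mul, map_smul, smul_eq_C_mul, hf', map_pow]
  obtain ⟨l, hl⟩ := AGr_clear hs (Ideal.span (Set.range f) ^ (i + 1) ⊔ J) (AGr_ev f i F')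
    (by
      rw [← hφ, hev]
      exact Ideal.mul_mem_left _ _ hF1)
  have hK : C s ^ l * F' ∈ AGr_K f J := by
    intro i'
    rw [← map_pow, ← smul_eq_C_mul, map_smul, smul_eq_C_mul, map_pow]
    by_cases h1 : i' = i
    · rw [h1]
      exact hl
    · have h2 : AGr_ev f i' F' = 0 := by
        apply MvPolynomial.map_injective φ hφinj
        rw [hev, hF0 i' h1, mul_zero, map_zero]
      rw [h2, mul_zero]
      exact zero_mem _
  have hFK : F ∈ (AGr_K f J).map (MvPolynomial.map φ) := by
    have h1 := Ideal.mem_map_of_mem (MvPolynomial.map φ) hK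
    rw [map_mul, map_pow, map_C, hF', ← mul_assoc, ← pow_add] at h1
    have h2 : IsUnit ((C (φ s) : MvPolynomial (Fin N ⊕ Fin b) (Localization.Away s)) ^ (l + k)) :=
      (hunit.map C).pow _
    exact (Ideal.unit_mul_mem_iff_mem _ h2).1 h1
  -- conclusion
  have hFsum : (a1.mapDomain (fun α => (⟨α.1, α.2.1⟩ : D))).sum
      (fun α c => C c * (monomial (α : (Fin N ⊕ Fin b) →₀ ℕ) (1 : Localization.Away s))) = F := by
    rw [Finsupp.sum_mapDomain_index]
    · intro α
      rw [C_0, zero_mul]
    · intro α c c'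
      rw [C_add, add_mul]
  have h0 := h (a1.mapDomain (fun α => (⟨α.1, α.2.1⟩ : D))) (by rw [hFsum]; exact hFK)
  have hinj : Function.Injective
      (fun α : {α : (Fin N ⊕ Fin b) →₀ ℕ // α ∈ D ∧ degr α < j} => (⟨α.1, α.2.1⟩ : D)) := by
    intro α β hαβ
    exact Subtype.ext (congrArg (fun γ : D => γ.1) hαβ)
  have h1 : a1 α0 = 0 := by
    have h2 := DFunLike.congr_fun h0 (⟨α0.1, α0.2.1⟩ : D)
    rw [Finsupp.coe_zero, Pi.zero_apply] at h2
    rw [← h2]
    exact (Finsupp.mapDomain_apply hinj a1 α0).symm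
  rw [ha1, Finsupp.filter_apply, if_pos hi.symm] at h1
  exact (Finsupp.mem_support_iff.1 hα0) h1

/-- Uniform bases of `A[x]/(J + I^j)` for all `j` at once, `I = (f_1, …, f_b)`.

PROOF.  For `F ∈ A[x,Y]` and `i : ℕ` let `F_i` be the part of degree `i` in `Y` (the sum of the
monomials with `degr = i`) and `F_i(x,f)` its value at `x = x`, `Y = f` (so a monomial `x^α` goes to
`mof f α`).  Let `𝔎 = {F | ∀ i, F_i(x,f) ∈ I^(i+1) + J}`; it is an ideal of `A[x,Y]` (a monomial
of `Y`-degree `l` maps the part of degree `i` to the part of degree `i + l`, and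
`mof f α ∈ I ^ (degr α)`).  Let `s, D` be given by `exists_bas` for `𝔎` (`σ = Fin N ⊕ Fin b`).

(1) `(x)^M ⊆ I` implies `degl α < M` for `α ∈ D`: otherwise `mof f α ∈ I^M'`,
with `M' = degr α + 1`, so the monomial `x^α` is in `𝔎` and over the non-trivial ring
`Localization.Away s` (independence) we get `1 = 0`.

(2) By `IsBas.map` it is enough to treat `B = A_s = Localization.Away s`.  Write `φ : A → B`.
Spanning.  Every element of `(I B)^i` is `F(x,f)` with `F ∈ B[x,Y]` homogeneous of `Y`-degree `i`.
By `exists_bas`, `F = ∑_{α ∈ D} c_α x^α + H`, `H ∈ 𝔎 B[x,Y]`; taking parts of `Y`-degree `i`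
and evaluating, `F(x,f) ≡ ∑_{α ∈ D, degr α = i} c_α mof f α` modulo `(I^(i+1) + J) B[x]` (for
`H = ∑ h_l · map φ G_l`, `G_l ∈ 𝔎`, use that `𝔎` is an ideal to reduce to `H = C b * map φ G`).
By induction on `j`, `B[x]` is spanned by the `mof f α`, `α ∈ D`, `degr α < j` modulo
`(J + I^j) B[x]` (start: `j = 0`; step: `i = j`).
Independence.  Suppose `∑_{α ∈ D, degr α < j} c_α mof f α ∈ (J + I^j) B[x]`, `c ≠ 0`.  Multiply by
a power of `s`: there are `c' ∈ A` with `φ c'_α = s^k c_α` and
`∑ c'_α mof f α ∈ J + I^j` in `A[x]` (`IsLocalization.mem_map_algebraMap_iff`).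
Let `i` be the minimal `degr α` with `c'_α ≠ 0` (`A → A_s` is injective); the terms with
`degr α > i` are in `I^(i+1)`, and `I^j ⊆ I^(i+1)`, so
`F = ∑_{degr α = i} c'_α x^α` is in `𝔎`, and independence of the monomials of `D` modulo
`𝔎 B[x,Y]` gives `φ c'_α = 0`: a contradiction. -/
theorem gr_bas {N b : ℕ} {A : Type} [CommRing A] [IsDomain A] (J : Ideal (MvPolynomial (Fin N) A))
    (f : Fin b → MvPolynomial (Fin N) A) :
    ∃ s : A, s ≠ 0 ∧ ∃ D : Set ((Fin N ⊕ Fin b) →₀ ℕ), IsLowerSet D ∧
      (∀ M : ℕ, mX N A ^ M ≤ Ideal.span (Set.range f) → ∀ α ∈ D, degl α < M) ∧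
      ∀ (j : ℕ) (B : Type) [CommRing B] (φ : A →+* B), IsUnit (φ s) →
        IsBas ((J ⊔ Ideal.span (Set.range f) ^ j).map (MvPolynomial.map φ))
          (fun α : {α : (Fin N ⊕ Fin b) →₀ ℕ // α ∈ D ∧ degr α < j} =>
            MvPolynomial.map φ (mof f α.1)) := by
  obtain ⟨s, hs, D, hD, hbas⟩ := exists_bas (AGr_K f J)
  have hφinj : Function.Injective (algebraMap A (Localization.Away s)) :=
    IsLocalization.injective _ (powers_le_nonZeroDivisors_of_noZeroDivisors hs)
  have hunit : IsUnit (algebraMap A (Localization.Away s) s) :=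
    IsLocalization.Away.algebraMap_isUnit s
  have h0 := hbas (Localization.Away s) (algebraMap A (Localization.Away s)) hunit
  refine ⟨s, hs, D, hD, ?_, ?_⟩
  · intro M hM α hα
    by_contra hcon
    rw [not_lt] at hcon
    have h1 : mof f α ∈ Ideal.span (Set.range f) ^ (degr α + 1) := by
      rw [mof, pow_succ', degr, ← Finset.prod_pow_eq_pow_sum]
      refine Ideal.mul_mem_mul ?_ (Ideal.prod_mem_prod fun i _ =>
        Ideal.pow_mem_pow (Ideal.subset_span (Set.mem_range_self i)) _)
      refine hM (Ideal.pow_le_pow_right hcon ?_)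
      rw [degl, ← Finset.prod_pow_eq_pow_sum]
      exact Ideal.prod_mem_prod fun i _ =>
        Ideal.pow_mem_pow (Ideal.subset_span (Set.mem_range_self i)) _
    have h2 : (monomial α (1 : A)) ∈ AGr_K f J := by
      intro i
      rw [AGr_ev_monomial]
      split_ifs with h3
      · rw [← h3, C_1, one_mul]
        exact Ideal.mem_sup_left h1
      · exact zero_mem _
    have h3 := h0.2 (Finsupp.single ⟨α, hα⟩ 1) (by
      rw [Finsupp.sum_single_index (by rw [C_0, zero_mul]), C_1, one_mul]
      have h4 := Ideal.mem_map_of_mem (MvPolynomial.map (algebraMap A (Localization.Away s))) h2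
      rwa [map_monomial, map_one] at h4)
    have h4 : (1 : Localization.Away s) = 0 := by
      have h5 := DFunLike.congr_fun h3 (⟨α, hα⟩ : D)
      rwa [Finsupp.single_eq_same, Finsupp.coe_zero, Pi.zero_apply] at h5
    have h5 : (1 : A) = 0 := hφinj (by rw [map_one, map_zero, h4])
    exact one_ne_zero h5
  · intro j B _ φ hφ
    have hmain : IsBas ((J ⊔ Ideal.span (Set.range f) ^ j).map
        (MvPolynomial.map (algebraMap A (Localization.Away s))))
        (fun α : {α : (Fin N ⊕ Fin b) →₀ ℕ // α ∈ D ∧ degr α < j} =>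
          MvPolynomial.map (algebraMap A (Localization.Away s)) (mof f α.1)) := by
      refine ⟨fun g => ?_, fun a ha => AGr_indep J f hs D h0.2 j a ha⟩
      obtain ⟨u, hu, h1⟩ := AGr_span (J.map (MvPolynomial.map (algebraMap A (Localization.Away s))))
        (fun k => MvPolynomial.map (algebraMap A (Localization.Away s)) (f k)) D
        (fun F => by
          obtain ⟨a, ha⟩ := h0.1 F
          exact ⟨a, AGr_map_K _ _ _ ha⟩) j g
      obtain ⟨a, rfl⟩ := Finsupp.mem_span_range_iff_exists_finsupp.1 hu
      refine ⟨a, ?_⟩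
      have h2 : (a.sum fun α c => C c *
          MvPolynomial.map (algebraMap A (Localization.Away s)) (mof f α.1)) =
          a.sum fun α c => c • mof
            (fun k => MvPolynomial.map (algebraMap A (Localization.Away s)) (f k)) α.1 := by
        refine Finsupp.sum_congr fun α _ => ?_
        rw [smul_eq_C_mul, AGr_mof_map]
      rw [h2, sup_comm, AGr_map_ideal, sup_comm]
      exact h1
    have h1 := hmain.map (IsLocalization.Away.lift s hφ)
    have h2 : (IsLocalization.Away.lift s hφ).comp (algebraMap A (Localization.Away s)) = φ :=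
      IsLocalization.Away.lift_comp s hφ
    have h3 : (MvPolynomial.map (σ := Fin N) (IsLocalization.Away.lift s hφ)).comp
        (MvPolynomial.map (algebraMap A (Localization.Away s))) = MvPolynomial.map φ := by
      refine RingHom.ext fun x => ?_
      rw [RingHom.comp_apply, MvPolynomial.map_map, h2]
    rw [Ideal.map_map, h3] at h1
    have h4 : (fun α : {α : (Fin N ⊕ Fin b) →₀ ℕ // α ∈ D ∧ degr α < j} =>
        MvPolynomial.map φ (mof f α.1)) = fun α =>
        MvPolynomial.map (IsLocalization.Away.lift s hφ)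
          (MvPolynomial.map (algebraMap A (Localization.Away s)) (mof f α.1)) := by
      funext α
      rw [← h3, RingHom.comp_apply]
    rw [h4]
    exact h1

end FU
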