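import Pool.Agent.Lib.MP_9e8926_ag_U.AGroA

/-!
# Generic freeness: the standard monomials form a basis after inverting one element
-/

set_option autoImplicit false

noncomputable section

namespace FU

open MvPolynomial

private theorem ag_map_sum {σ ι B R : Type*} [CommRing B] [CommRing R] (ψ : B →+* R)
    (m : ι → MvPolynomial σ B) (a : ι →₀ B) :
    MvPolynomial.map ψ (a.sum fun i c => C c * m i) =
      (a.mapRange ψ (map_zero ψ)).sum fun i c => C c * MvPolynomial.map ψ (m i) := by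
  rw [map_finsuppSum, Finsupp.sum_mapRange_index (fun i => by rw [C_0, zero_mul])]
  refine Finsupp.sum_congr fun i _ => ?_
  rw [map_mul, map_C]

private theorem ag_map_map {σ A B R : Type*} [CommRing A] [CommRing B] [CommRing R]
    (J : Ideal (MvPolynomial σ A)) (φ : A →+* B) (ψ : B →+* R) :
    (J.map (MvPolynomial.map φ)).map (MvPolynomial.map ψ) =
      J.map (MvPolynomial.map (σ := σ) (ψ.comp φ)) := by
  rw [Ideal.map_map]
  congr 1
  refine RingHom.ext fun f => ?_
  exact MvPolynomial.map_map φ ψ f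

/-- The quotient embeds in every bigger quotient.

PROOF: let `s`, `D` be as in `exists_bas`.  For `g ∈ B[x]` choose `a` with
`g - ∑ a_α x^α ∈ J B[x]` (spanning over `B`); apply `map ψ`: `∑ ψ(a_α) x^α ∈ J C[x]`, so
`ψ (a_α) = 0` (independence over `C`, `ψ (φ s)` is a unit), `a = 0` and `g ∈ J B[x]`. -/
theorem sat {σ : Type} [Finite σ] {A : Type} [CommRing A] [IsDomain A]
    (J : Ideal (MvPolynomial σ A)) :
    ∃ s : A, s ≠ 0 ∧ ∀ (B R : Type) [CommRing B] [CommRing R] (φ : A →+* B) (ψ : B →+* R),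
      Function.Injective ψ → IsUnit (φ s) → ∀ g : MvPolynomial σ B,
        MvPolynomial.map ψ g ∈ J.map (MvPolynomial.map (ψ.comp φ)) →
          g ∈ J.map (MvPolynomial.map φ) := by
  obtain ⟨s, hs, D, -, hD⟩ := exists_bas J
  refine ⟨s, hs, fun B R _ _ φ ψ hψ hφ g hg => ?_⟩
  have h1 := hD B φ hφ
  have h2 := hD R (ψ.comp φ) (hφ.map ψ)
  obtain ⟨a, ha⟩ := h1.1 g
  have h3 := Ideal.mem_map_of_mem (MvPolynomial.map ψ) ha
  rw [ag_map_map, map_sub, ag_map_sum] at h3
  have h4 := sub_mem hg h3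
  rw [sub_sub_cancel] at h4
  simp only [map_monomial, map_one] at h4
  have h5 := h2.2 _ h4
  rw [Finsupp.mapRange_eq_zero hψ] at h5
  rw [h5, Finsupp.sum_zero_index, sub_zero] at ha
  exact ha

/-- The same over a field (every element `≠ 0` is a unit, so there is no exceptional `s`).

PROOF: apply `sat` (or `exists_bas`) with `A = L`, `B = L`, `φ = id`. -/
theorem sat_field {σ : Type} [Finite σ] {L R : Type} [Field L] [CommRing R] [Nontrivial R]
    (J : Ideal (MvPolynomial σ L)) (ψ : L →+* R) (g : MvPolynomial σ L)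
    (h : MvPolynomial.map ψ g ∈ J.map (MvPolynomial.map ψ)) : g ∈ J := by
  obtain ⟨s, hs, hs'⟩ := sat J
  have h1 := hs' L R (RingHom.id L) ψ ψ.injective (IsUnit.mk0 s hs) g (by
    rw [RingHom.comp_id]
    exact h)
  have h2 : (MvPolynomial.map (RingHom.id L) : MvPolynomial σ L →+* MvPolynomial σ L) =
      RingHom.id _ := RingHom.ext fun f => MvPolynomial.map_id f
  rw [h2, Ideal.map_id] at h1
  exact h1

/-- A polynomial which is not a zero divisor generically is not a zero divisor after specialization.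

PROOF.  Let `L = FractionRing A`.  Apply `exists_bas` to `J` (get `s₁`, `D₁`) and to
`J ⊔ (g)` (get `s₂`, `D₂`), `s = s₁ s₂`.  Over `B₀ = Localization.Away s` the family
`Sum.elim (fun α : D₁ => g x^α) (fun β : D₂ => x^β)` satisfies `IsBas (J B₀[x])`:
spanning: `f ≡ ∑ b_β x^β + g f₁` modulo `J`, `f₁ ≡ ∑ a_α x^α` modulo `J`; independence: if
`∑ a_α g x^α + ∑ b_β x^β ∈ J` then `b = 0` (modulo `J ⊔ (g)`), so `g f ∈ J B₀[x]` for
`f = ∑ a_α x^α`; in `L[x]` we get `g f ∈ J L[x]`, a prime ideal which does not contain `g`, so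
`f ∈ J L[x]`, and independence over `L` for `D₁` (`s` is a unit in `L`) gives `a = 0`.
By `IsBas.map` the family is a basis over every `B` with `φ s` a unit.  If `g t ∈ J B[x]`, write
`t ≡ ∑ a_α x^α`; then `∑ a_α g x^α ∈ J B[x]`, so `a = 0` and `t ∈ J B[x]`. -/
theorem nzd {σ : Type} [Finite σ] {A : Type} [CommRing A] [IsDomain A]
    (J : Ideal (MvPolynomial σ A)) (g : MvPolynomial σ A)
    (hJ : (J.map (MvPolynomial.map (algebraMap A (FractionRing A)))).IsPrime)
    (hg : MvPolynomial.map (algebraMap A (FractionRing A)) g ∉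
      J.map (MvPolynomial.map (algebraMap A (FractionRing A)))) :
    ∃ s : A, s ≠ 0 ∧ ∀ (B : Type) [CommRing B] (φ : A →+* B), IsUnit (φ s) →
      ∀ t : MvPolynomial σ B, MvPolynomial.map φ g * t ∈ J.map (MvPolynomial.map φ) →
        t ∈ J.map (MvPolynomial.map φ) := by
  obtain ⟨s₁, hs₁, D₁, -, hD₁⟩ := exists_bas J
  obtain ⟨s₂, hs₂, D₂, -, hD₂⟩ := exists_bas (J ⊔ Ideal.span {g})
  have hs : s₁ * s₂ ≠ 0 := mul_ne_zero hs₁ hs₂
  refine ⟨s₁ * s₂, hs, fun B _ φ hφ t ht => ?_⟩
  let φ₀ : A →+* Localization.Away (s₁ * s₂) := algebraMap A (Localization.Away (s₁ * s₂))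
  have hφ₀ : IsUnit (φ₀ (s₁ * s₂)) := IsLocalization.Away.algebraMap_isUnit _
  have hu := isUnit_of_mul_isUnit_left (by rw [← map_mul]; exact hφ₀ : IsUnit (φ₀ s₁ * φ₀ s₂))
  have hu' := isUnit_of_mul_isUnit_right (by rw [← map_mul]; exact hφ₀ : IsUnit (φ₀ s₁ * φ₀ s₂))
  have h1 := hD₁ _ φ₀ hu
  have h2 := hD₂ _ φ₀ hu'
  -- the embedding in the field of fractions
  let ι : A →+* FractionRing A := algebraMap A (FractionRing A)
  have hι : Function.Injective ι := IsFractionRing.injective A (FractionRing A)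
  have hιs : ∀ x : A, x ≠ 0 → IsUnit (ι x) := fun x hx => IsUnit.mk0 _ (by
    rw [Ne, map_eq_zero_iff ι hι]
    exact hx)
  let lam : Localization.Away (s₁ * s₂) →+* FractionRing A :=
    IsLocalization.Away.lift (s₁ * s₂) (hιs _ hs)
  have hlam : lam.comp φ₀ = ι := IsLocalization.Away.lift_comp (s₁ * s₂) (hιs _ hs)
  have hlam' : Function.Injective lam := by
    rw [injective_iff_map_eq_zero]
    intro x hx
    obtain ⟨⟨a, b⟩, hab⟩ := IsLocalization.surj (Submonoid.powers (s₁ * s₂)) x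
    have e1 : lam (φ₀ a) = 0 := by
      have e2 : x * φ₀ b = φ₀ a := hab
      rw [← e2, map_mul, hx, zero_mul]
    have e3 : ι a = 0 := by
      rw [← hlam]
      exact e1
    have e4 : a = 0 := (map_eq_zero_iff ι hι).1 e3
    have e5 : x * φ₀ b = 0 := by
      have e2 : x * φ₀ b = φ₀ a := hab
      rw [e2, e4, map_zero]
    exact (IsUnit.mul_left_eq_zero (IsLocalization.map_units _ b)).1 e5
  -- the basis
  have hbas : IsBas (J.map (MvPolynomial.map φ₀))
      (Sum.elim (fun α : D₁ => MvPolynomial.map φ₀ g * monomial (α : σ →₀ ℕ) 1)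
        (fun β : D₂ => monomial (β : σ →₀ ℕ) 1)) := by
    have hsup : (J ⊔ Ideal.span {g}).map (MvPolynomial.map φ₀) =
        J.map (MvPolynomial.map φ₀) ⊔ Ideal.span {MvPolynomial.map φ₀ g} := by
      rw [Ideal.map_sup, Ideal.map_span, Set.image_singleton]
    have hpull : ∀ a : D₁ →₀ Localization.Away (s₁ * s₂),
        (a.sum fun i c => C c * (MvPolynomial.map φ₀ g * monomial (i : σ →₀ ℕ) 1)) =
          MvPolynomial.map φ₀ g * a.sum fun i c => C c * monomial (i : σ →₀ ℕ) 1 := by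
      intro a
      rw [Finsupp.mul_sum]
      exact Finsupp.sum_congr fun i _ => mul_left_comm _ _ _
    refine ⟨fun f => ?_, fun c hc => ?_⟩
    · obtain ⟨b, hb⟩ := h2.1 f
      rw [hsup, Submodule.mem_sup] at hb
      obtain ⟨y, hy, w, hw, hyw⟩ := hb
      obtain ⟨f₁, rfl⟩ := Ideal.mem_span_singleton'.1 hw
      obtain ⟨a, ha⟩ := h1.1 f₁
      refine ⟨a.sumElim b, ?_⟩
      rw [Finsupp.sum_sumElim]
      have e1 := add_mem hy (Ideal.mul_mem_left _ (MvPolynomial.map φ₀ g) ha)
      convert e1 using 1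
      have e2 : (a.sum ((fun i c => C c * Sum.elim (fun α : D₁ => MvPolynomial.map φ₀ g *
          monomial (α : σ →₀ ℕ) 1) (fun β : D₂ => monomial (β : σ →₀ ℕ) 1) i) ∘ Sum.inl)) =
          MvPolynomial.map φ₀ g * a.sum fun i c => C c * monomial (i : σ →₀ ℕ) 1 := hpull a
      have e3 : (b.sum ((fun i c => C c * Sum.elim (fun α : D₁ => MvPolynomial.map φ₀ g *
          monomial (α : σ →₀ ℕ) 1) (fun β : D₂ => monomial (β : σ →₀ ℕ) 1) i) ∘ Sum.inr)) =
          b.sum fun i c => C c * monomial (i : σ →₀ ℕ) 1 := rfl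
      rw [e2, e3, mul_sub]
      linear_combination -hyw
    · obtain ⟨a, b, rfl⟩ : ∃ (a : D₁ →₀ Localization.Away (s₁ * s₂))
          (b : D₂ →₀ Localization.Away (s₁ * s₂)), c = a.sumElim b :=
        ⟨_, _, (Finsupp.comapDomain_sumElim_comapDomain c).symm⟩
      rw [Finsupp.sum_sumElim] at hc
      have e2 : (a.sum ((fun i c => C c * Sum.elim (fun α : D₁ => MvPolynomial.map φ₀ g *
          monomial (α : σ →₀ ℕ) 1) (fun β : D₂ => monomial (β : σ →₀ ℕ) 1) i) ∘ Sum.inl)) =
          MvPolynomial.map φ₀ g * a.sum fun i c => C c * monomial (i : σ →₀ ℕ) 1 := hpull a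
      have e3 : (b.sum ((fun i c => C c * Sum.elim (fun α : D₁ => MvPolynomial.map φ₀ g *
          monomial (α : σ →₀ ℕ) 1) (fun β : D₂ => monomial (β : σ →₀ ℕ) 1) i) ∘ Sum.inr)) =
          b.sum fun i c => C c * monomial (i : σ →₀ ℕ) 1 := rfl
      rw [e2, e3] at hc
      have hb : b = 0 := by
        refine h2.2 b ?_
        rw [hsup]
        have e4 : MvPolynomial.map φ₀ g * (a.sum fun i c => C c * monomial (i : σ →₀ ℕ) 1) ∈
            J.map (MvPolynomial.map φ₀) ⊔ Ideal.span {MvPolynomial.map φ₀ g} :=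
          Ideal.mul_mem_right _ _ (Ideal.mem_sup_right (Ideal.mem_span_singleton_self _))
        have e5 := sub_mem (Ideal.mem_sup_left (T := Ideal.span {MvPolynomial.map φ₀ g}) hc) e4
        rw [add_sub_cancel_left] at e5
        exact e5
      subst hb
      rw [Finsupp.sum_zero_index, add_zero] at hc
      have ha : a = 0 := by
        have e4 := Ideal.mem_map_of_mem (MvPolynomial.map lam) hc
        rw [ag_map_map, hlam, map_mul, MvPolynomial.map_map, hlam, ag_map_sum] at e4
        simp only [map_monomial, map_one] at e4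
        have e5 := (hJ.mem_or_mem e4).resolve_left hg
        have e6 := (hD₁ (FractionRing A) ι (hιs s₁ hs₁)).2 _ e5
        exact (Finsupp.mapRange_eq_zero hlam' _).1 e6
      rw [ha, Finsupp.sumElim_zero_zero]
  -- base change to B
  let χ : Localization.Away (s₁ * s₂) →+* B := IsLocalization.Away.lift (s₁ * s₂) hφ
  have hχ : χ.comp φ₀ = φ := IsLocalization.Away.lift_comp (s₁ * s₂) hφ
  have hB := hbas.map χ
  rw [ag_map_map, hχ] at hB
  have hφ1 : IsUnit (φ s₁) := isUnit_of_mul_isUnit_left (y := φ s₂) (by rwa [← map_mul])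
  obtain ⟨a, ha⟩ := (hD₁ B φ hφ1).1 t
  have h3 := Ideal.mul_mem_left _ (MvPolynomial.map φ g) ha
  rw [mul_sub] at h3
  have h4 := sub_mem ht h3
  rw [sub_sub_cancel, Finsupp.mul_sum] at h4
  have h5 := hB.2 (a.sumElim 0) (by
    rw [Finsupp.sum_sumElim, Finsupp.sum_zero_index, add_zero]
    convert h4 using 1
    refine Finsupp.sum_congr fun i _ => ?_
    change C (a i) * MvPolynomial.map χ (MvPolynomial.map φ₀ g * monomial (i : σ →₀ ℕ) 1) =
      MvPolynomial.map φ g * (C (a i) * monomial (i : σ →₀ ℕ) 1)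
    rw [map_mul, MvPolynomial.map_map, hχ, map_monomial, map_one, mul_left_comm])
  have h6 : a = 0 := by
    ext i
    exact DFunLike.congr_fun h5 (Sum.inl i)
  rw [h6, Finsupp.sum_zero_index, sub_zero] at ha
  exact ha

end FU
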