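import Pool.Agent.Lib.MP_9e8926_ag_U.ABas

/-!
# Generic freeness by leading monomials
-/

set_option autoImplicit false

noncomputable section

namespace FU

open MvPolynomial

/-- Dickson's lemma. -/
private theorem dick {σ : Type} [Finite σ] (E : Set (σ →₀ ℕ)) :
    ∃ T : Finset (σ →₀ ℕ), (∀ t ∈ T, t ∈ E) ∧ ∀ d ∈ E, ∃ t ∈ T, t ≤ d := by
  have hfin : {x | Minimal (· ∈ E) x}.Finite :=
    WellQuasiOrderedLE.finite_of_isAntichain (setOfPred_minimal_antichain _)
  refine ⟨hfin.toFinset, ?_, ?_⟩
  · intro t ht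
    exact (hfin.mem_toFinset.1 ht).1
  · intro d hd
    obtain ⟨t, ht, hmin⟩ := exists_minimal_le_of_wellFoundedLT (· ∈ E) d hd
    exact ⟨t, hfin.mem_toFinset.2 hmin, ht⟩

/-- the linear combinations of monomials -/
private theorem sum_eq {σ B : Type} [CommRing B] (D : Set (σ →₀ ℕ)) (a : D →₀ B) :
    a.sum (fun i c => C c * (monomial (i : σ →₀ ℕ) (1 : B) : MvPolynomial σ B)) =
      Finsupp.linearCombination B
        (fun α : D => (monomial (α : σ →₀ ℕ) (1 : B) : MvPolynomial σ B)) a := by
  rw [Finsupp.linearCombination_apply]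
  refine Finsupp.sum_congr fun i _ => ?_
  rw [smul_eq_C_mul]

private theorem coeff_lc {σ B : Type} [CommRing B] (D : Set (σ →₀ ℕ)) (a : D →₀ B)
    (β : σ →₀ ℕ) :
    coeff β (Finsupp.linearCombination B
        (fun α : D => (monomial (α : σ →₀ ℕ) (1 : B) : MvPolynomial σ B)) a) ≠ 0 → β ∈ D := by
  classical
  intro h
  by_contra hβ
  refine h ?_
  rw [Finsupp.linearCombination_apply, Finsupp.sum, coeff_sum]
  refine Finset.sum_eq_zero fun i _ => ?_
  rw [coeff_smul, coeff_monomial, if_neg, smul_zero]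
  rintro rfl
  exact hβ i.2

private theorem coeff_lc' {σ B : Type} [CommRing B] (D : Set (σ →₀ ℕ)) (a : D →₀ B)
    (β : D) :
    coeff (β : σ →₀ ℕ) (Finsupp.linearCombination B
        (fun α : D => (monomial (α : σ →₀ ℕ) (1 : B) : MvPolynomial σ B)) a) = a β := by
  classical
  rw [Finsupp.linearCombination_apply, Finsupp.sum, coeff_sum]
  rw [Finset.sum_eq_single β]
  · rw [coeff_smul, coeff_monomial, if_pos rfl, smul_eq_mul, mul_one]
  · intro i _ hi
    rw [coeff_smul, coeff_monomial, if_neg (fun h => hi (Subtype.ext h)), smul_zero]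
  · intro h
    rw [Finsupp.notMem_support_iff.1 h, zero_smul, coeff_zero]

private theorem exists_lc {σ B : Type} [CommRing B] (D : Set (σ →₀ ℕ))
    (r : MvPolynomial σ B) (h : ∀ c ∈ r.support, c ∈ D) :
    ∃ a : D →₀ B, r = Finsupp.linearCombination B
        (fun α : D => (monomial (α : σ →₀ ℕ) (1 : B) : MvPolynomial σ B)) a := by
  refine ⟨∑ c ∈ r.support.attach, Finsupp.single ⟨c.1, h c.1 c.2⟩ (coeff c.1 r), ?_⟩
  rw [map_sum]
  simp only [Finsupp.linearCombination_single, smul_monomial, smul_eq_mul, mul_one]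
  rw [Finset.sum_attach r.support (fun c => monomial c (coeff c r))]
  exact r.as_sum

/-- the degree of the image -/
private theorem deg_map {σ A B : Type} [CommRing A] [CommRing B] (o : MonomialOrder σ)
    (φ : A →+* B) (g : MvPolynomial σ A) (h : φ (o.leadingCoeff g) ≠ 0) :
    o.degree (MvPolynomial.map φ g) = o.degree g ∧
      o.leadingCoeff (MvPolynomial.map φ g) = φ (o.leadingCoeff g) := by
  have h1 : o.degree (MvPolynomial.map φ g) = o.degree g := by
    apply o.toSyn.injective
    apply le_antisymm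
    · rw [MonomialOrder.degree_le_iff]
      intro c hc
      exact MonomialOrder.le_degree (support_map_subset _ _ hc)
    · refine MonomialOrder.le_degree ?_
      rw [mem_support_iff, coeff_map]
      exact h
  refine ⟨h1, ?_⟩
  rw [MonomialOrder.leadingCoeff, h1, coeff_map]
  rfl

section

attribute [local instance] MvPolynomial.algebraMvPolynomial

/-- The case of the localization. -/
private theorem bas_loc {σ : Type} {A L : Type} [CommRing A] [IsDomain A]
    [CommRing L] [IsDomain L] [Algebra A L] (o : MonomialOrder σ)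
    (J : Ideal (MvPolynomial σ A)) (s : A) [IsLocalization.Away s L]
    (hinj : Function.Injective (algebraMap A L)) (G : Finset (MvPolynomial σ A))
    (hGJ : ∀ g ∈ G, g ∈ J) (hG : ∀ g ∈ G, IsUnit (algebraMap A L (o.leadingCoeff g)))
    (hE : ∀ f ∈ J, f ≠ 0 → ∃ g ∈ G, o.degree g ≤ o.degree f) :
    IsBas (J.map (MvPolynomial.map (algebraMap A L)))
      (fun α : {d | ∀ f ∈ J, f ≠ 0 → o.degree f ≠ d} =>
        (monomial (α : σ →₀ ℕ) (1 : L) : MvPolynomial σ L)) := by
  classical
  set D : Set (σ →₀ ℕ) := {d | ∀ f ∈ J, f ≠ 0 → o.degree f ≠ d} with hD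
  constructor
  · intro f
    obtain ⟨h, r, h1, -, h3⟩ := o.div (b := fun g : G => MvPolynomial.map (algebraMap A L) g.1)
      (fun g => by
        rw [(deg_map o _ _ (hG g.1 g.2).ne_zero).2]
        exact hG g.1 g.2) f
    obtain ⟨a, ha⟩ := exists_lc D r (by
      intro c hc f' hf' hne hcf
      obtain ⟨g, hg, hle⟩ := hE f' hf' hne
      refine h3 c hc ⟨g, hg⟩ ?_
      rw [(deg_map o _ _ (hG g hg).ne_zero).1, ← hcf]
      exact hle)
    refine ⟨a, ?_⟩
    rw [sum_eq, ← ha, h1, add_sub_cancel_right, Finsupp.linearCombination_apply]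
    refine Ideal.sum_mem _ fun g _ => ?_
    exact Ideal.mul_mem_left _ _ (Ideal.mem_map_of_mem _ (hGJ g.1 g.2))
  · intro a ha
    rw [sum_eq] at ha
    set f := Finsupp.linearCombination L
        (fun α : D => (monomial (α : σ →₀ ℕ) (1 : L) : MvPolynomial σ L)) a with hf
    have hf0 : f = 0 := by
      by_contra hne
      have ha' : f ∈ J.map (algebraMap (MvPolynomial σ A) (MvPolynomial σ L)) := ha
      rw [IsLocalization.mem_map_algebraMap_iff ((Submonoid.powers s).map (C (σ := σ)))] at ha'
      obtain ⟨⟨⟨f', hf'⟩, ⟨_, ⟨u, hu, rfl⟩⟩⟩, h1⟩ := ha'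
      have h2 : f * C (algebraMap A L u) = MvPolynomial.map (algebraMap A L) f' := by
        have h3 : MvPolynomial.map (algebraMap A L) (C u : MvPolynomial σ A) =
            C (algebraMap A L u) := map_C _ _
        rw [← h3]
        exact h1
      have hu' : algebraMap A L u ≠ 0 := by
        have h3 := IsLocalization.map_units L (⟨u, hu⟩ : Submonoid.powers s)
        exact h3.ne_zero
      have hC : (C (algebraMap A L u) : MvPolynomial σ L) ≠ 0 := by
        rwa [Ne, C_eq_zero]
      have hf0' : f' ≠ 0 := by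
        rintro rfl
        rw [map_zero] at h2
        exact (mul_ne_zero hne hC) h2
      have h3 : coeff (o.degree f') (MvPolynomial.map (algebraMap A L) f') ≠ 0 := by
        rw [coeff_map, map_ne_zero_iff _ hinj]
        exact MonomialOrder.coeff_degree_ne_zero_iff.2 hf0'
      rw [← h2, mul_comm, coeff_C_mul] at h3
      have h4 : o.degree f' ∈ D := coeff_lc D a _ (right_ne_zero_of_mul h3)
      exact h4 f' hf' hf0' rfl
    ext β
    rw [← coeff_lc' D a β, ← hf, hf0, coeff_zero]
    rfl

/-- Generic freeness. -/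
theorem exists_bas {σ : Type} [Finite σ] {A : Type} [CommRing A] [IsDomain A]
    (J : Ideal (MvPolynomial σ A)) :
    ∃ s : A, s ≠ 0 ∧ ∃ D : Set (σ →₀ ℕ), IsLowerSet D ∧
      ∀ (B : Type) [CommRing B] (φ : A →+* B), IsUnit (φ s) →
        IsBas (J.map (MvPolynomial.map φ))
          (fun α : D => (monomial (α : σ →₀ ℕ) (1 : B) : MvPolynomial σ B)) := by
  classical
  obtain ⟨n, ⟨en⟩⟩ := Finite.exists_equiv_fin σ
  let _ : LinearOrder σ := LinearOrder.lift' en en.injective
  have : WellFoundedGT σ := Finite.to_wellFoundedGT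
  let o : MonomialOrder σ := MonomialOrder.lex
  obtain ⟨T, hT, hT'⟩ := dick {d | ∃ f ∈ J, f ≠ 0 ∧ o.degree f = d}
  choose g hg using hT
  let G : Finset (MvPolynomial σ A) := T.attach.image fun t => g t.1 t.2
  have hG : ∀ f ∈ G, f ∈ J ∧ f ≠ 0 := by
    intro f hf
    obtain ⟨t, -, rfl⟩ := Finset.mem_image.1 hf
    exact ⟨(hg t.1 t.2).1, (hg t.1 t.2).2.1⟩
  have hE : ∀ f ∈ J, f ≠ 0 → ∃ f' ∈ G, o.degree f' ≤ o.degree f := by
    intro f hf hne
    obtain ⟨t, ht, hle⟩ := hT' (o.degree f) ⟨f, hf, hne, rfl⟩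
    refine ⟨g t ht, Finset.mem_image.2 ⟨⟨t, ht⟩, Finset.mem_attach _ _, rfl⟩, ?_⟩
    rw [(hg t ht).2.2]
    exact hle
  let s : A := ∏ f ∈ G, o.leadingCoeff f
  have hs : s ≠ 0 := Finset.prod_ne_zero_iff.2 fun f hf =>
    MonomialOrder.leadingCoeff_ne_zero_iff.2 (hG f hf).2
  refine ⟨s, hs, {d | ∀ f ∈ J, f ≠ 0 → o.degree f ≠ d}, ?_, ?_⟩
  · intro d' d hle hd' f hf hne hfd
    subst hfd
    obtain ⟨e, rfl⟩ := exists_add_of_le hle
    have hm : (monomial e (1 : A) : MvPolynomial σ A) ≠ 0 := by
      rw [Ne, monomial_eq_zero]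
      exact one_ne_zero
    refine hd' (monomial e 1 * f) (Ideal.mul_mem_left _ _ hf) (mul_ne_zero hm hne) ?_
    rw [MonomialOrder.degree_mul hm hne, MonomialOrder.degree_monomial, if_neg one_ne_zero,
      add_comm]
  · intro B _ φ hφ
    let L := Localization.Away s
    have hle : Submonoid.powers s ≤ nonZeroDivisors A :=
      powers_le_nonZeroDivisors_of_noZeroDivisors hs
    have : IsDomain L := IsLocalization.isDomain_localization hle
    have hinj : Function.Injective (algebraMap A L) := IsLocalization.injective L hle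
    have hsu : IsUnit (algebraMap A L s) := IsLocalization.Away.algebraMap_isUnit s
    have hb := bas_loc (L := L) o J s hinj G (fun f hf => (hG f hf).1) (fun f hf => by
      refine isUnit_of_dvd_unit ?_ hsu
      exact map_dvd _ (Finset.dvd_prod_of_mem _ hf)) hE
    have h1 := hb.map (IsLocalization.Away.lift s hφ : L →+* B)
    have hcomp : (IsLocalization.Away.lift s hφ : L →+* B).comp (algebraMap A L) = φ :=
      IsLocalization.Away.lift_comp s hφ
    rw [Ideal.map_map] at h1
    have hm : (MvPolynomial.map (σ := σ) (IsLocalization.Away.lift s hφ : L →+* B)).comp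
        (MvPolynomial.map (algebraMap A L)) = MvPolynomial.map φ := by
      refine RingHom.ext fun x => ?_
      rw [RingHom.comp_apply, MvPolynomial.map_map, hcomp]
    rw [hm] at h1
    simpa only [map_monomial, map_one] using h1

end

end FU
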