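import Pool.Agent.Lib.MP_9e8926_ag_U.Stmt

/-!
# Explicit data of an affine scheme over a ring, in polynomial form

Everything is written with polynomials, so that base change is obvious: `A[x]/J` is generated as a
module over `A[Y_1, …, Y_n]` (`Y_i ↦ y_i`) by `D` elements, it is contained in
`F⁻¹ A[Y][z]`, where `z` is a root of the monic polynomial `G` and `F` is a multiple of `G'(z)`.
-/

set_option autoImplicit false

noncomputable section

namespace FU

open MvPolynomial

/-- The value `β(y, z)` of `β ∈ A[Y_1, …, Y_n][W]`. -/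
def ev {A T : Type*} [CommRing A] [CommRing T] [Algebra A T] {n : ℕ} (y : Fin n → T) (z : T)
    (β : Polynomial (MvPolynomial (Fin n) A)) : T :=
  β.eval₂ (aeval y : MvPolynomial (Fin n) A →ₐ[A] T).toRingHom z

/-- Elementary data of `V(J)` over a ring `A`. -/
structure EDat {N r : ℕ} {A : Type} [CommRing A] (J : Ideal (MvPolynomial (Fin N) A))
    (P : Fin r → Ideal (MvPolynomial (Fin N) A)) (n D : ℕ) where
  /-- the coordinates -/
  y : Fin n → MvPolynomial (Fin N) A
  y_mem : ∀ i, y i ∈ mX N A
  /-- the module generators -/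
  h : Fin D → MvPolynomial (Fin N) A
  h_span : ∀ t : MvPolynomial (Fin N) A, ∃ a : Fin D → MvPolynomial (Fin n) A,
    t - ∑ v, aeval y (a v) * h v ∈ J
  /-- the primitive element -/
  z : MvPolynomial (Fin N) A
  /-- its equation -/
  G : Polynomial (MvPolynomial (Fin n) A)
  G_monic : G.Monic
  G_z : ev y z G ∈ J
  /-- the denominator -/
  F : MvPolynomial (Fin n) A
  F_span : ∀ t : MvPolynomial (Fin N) A, ∃ β : Polynomial (MvPolynomial (Fin n) A),
    aeval y F * t - ev y z β ∈ J
  F_der : ∃ δ : Polynomial (MvPolynomial (Fin n) A),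
    aeval y F - ev y z G.derivative * ev y z δ ∈ J
  F_P : ∀ j, aeval y F ∈ P j ⊔ J
  F_mem : 0 < n → aeval y F ∈ mX N A

/-- Elementary data together with Taylor maps `ψ_i : y_l ↦ y_l + δ_{il} F(y)^3 X`. -/
structure HDat {N r : ℕ} {A : Type} [CommRing A] (J : Ideal (MvPolynomial (Fin N) A))
    (P : Fin r → Ideal (MvPolynomial (Fin N) A)) (n D : ℕ) extends EDat J P n D where
  /-- the Taylor maps -/
  ψ : Fin n → MvPolynomial (Fin N) A →ₐ[A] PowerSeries (MvPolynomial (Fin N) A)
  ψ_zero : ∀ i t, PowerSeries.constantCoeff (ψ i t) - t ∈ J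
  ψ_J : ∀ i, ∀ t ∈ J, ∀ m, PowerSeries.coeff m (ψ i t) ∈ J
  ψ_y : ∀ i l m, PowerSeries.coeff m (ψ i (y l) - (PowerSeries.C (y l) +
    if i = l then PowerSeries.C (aeval y F ^ 3) * PowerSeries.X else 0)) ∈ J

private theorem ahd_aeval {N n : ℕ} {A B : Type} [CommRing A] [CommRing B] (φ : A →+* B)
    (y : Fin n → MvPolynomial (Fin N) A) (a : MvPolynomial (Fin n) A) :
    MvPolynomial.map φ (aeval y a) =
      aeval (fun i => MvPolynomial.map φ (y i)) (MvPolynomial.map φ a) := by
  induction a using MvPolynomial.induction_on with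
  | C a =>
    rw [MvPolynomial.map_C, MvPolynomial.algHom_C, MvPolynomial.algHom_C]
    exact MvPolynomial.map_C φ a
  | add p q hp hq => simp only [map_add, hp, hq]
  | mul_X p i hp => simp only [map_mul, hp, aeval_X, MvPolynomial.map_X]

private theorem ahd_ev {N n : ℕ} {A B : Type} [CommRing A] [CommRing B] (φ : A →+* B)
    (y : Fin n → MvPolynomial (Fin N) A) (z : MvPolynomial (Fin N) A)
    (β : Polynomial (MvPolynomial (Fin n) A)) :
    MvPolynomial.map φ (ev y z β) =
      ev (fun i => MvPolynomial.map φ (y i)) (MvPolynomial.map φ z)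
        (β.map (MvPolynomial.map φ)) := by
  unfold ev
  rw [Polynomial.hom_eval₂, Polynomial.eval₂_map]
  congr 1
  refine RingHom.ext fun a => ?_
  exact ahd_aeval φ y a

private theorem ahd_mX {N : ℕ} {A B : Type} [CommRing A] [CommRing B] (φ : A →+* B)
    {t : MvPolynomial (Fin N) A} (ht : t ∈ mX N A) : MvPolynomial.map φ t ∈ mX N B := by
  have h1 : (mX N A).map (MvPolynomial.map φ) ≤ mX N B := by
    unfold mX
    rw [Ideal.map_span, Ideal.span_le]
    rintro _ ⟨_, ⟨k, rfl⟩, rfl⟩
    rw [MvPolynomial.map_X]
    exact Ideal.subset_span ⟨k, rfl⟩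
  exact h1 (Ideal.mem_map_of_mem _ ht)

/-- A property of `t ∈ B[x]` which is stable under sums and under multiplication by constants and
which holds for the images of `A[x]` holds for all `t`. -/
private theorem ahd_ind {N : ℕ} {A B : Type} [CommRing A] [CommRing B] (φ : A →+* B)
    {Q : MvPolynomial (Fin N) B → Prop} (h1 : ∀ t, Q (MvPolynomial.map φ t))
    (h2 : ∀ b t, Q t → Q (C b * t)) (h3 : ∀ t t', Q t → Q t' → Q (t + t')) (t) : Q t := by
  induction t using MvPolynomial.induction_on' with
  | monomial u b =>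
    have h := h2 b _ (h1 (monomial u 1))
    rw [MvPolynomial.map_monomial, map_one, C_mul_monomial, mul_one] at h
    exact h
  | add p q hp hq => exact h3 p q hp hq

private theorem ahd_mem {N : ℕ} {A B : Type} [CommRing A] [CommRing B] (φ : A →+* B)
    {J : Ideal (MvPolynomial (Fin N) A)} {t : MvPolynomial (Fin N) A} (ht : t ∈ J) :
    MvPolynomial.map φ t ∈ bc φ J := Ideal.mem_map_of_mem _ ht

/-- Base change of the elementary data.

PROOF: map everything with `MvPolynomial.map φ` (and `Polynomial.map (MvPolynomial.map φ)` for `G`,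
`β`, `δ`); `map φ (aeval y a) = aeval (map φ ∘ y) (map φ a)` and
`map φ (ev y z β) = ev (map φ ∘ y) (map φ z) (β.map (map φ))`.
For `h_span`, `F_span` over `B`: the set of `t ∈ B[x]` for which the claim holds is a
`B`-submodule which contains the images of all `t ∈ A[x]`, in particular all monomials. -/
def EDat.map {N r : ℕ} {A B : Type} [CommRing A] [CommRing B]
    {J : Ideal (MvPolynomial (Fin N) A)} {P : Fin r → Ideal (MvPolynomial (Fin N) A)} {n D : ℕ}
    (d : EDat J P n D) (φ : A →+* B) : EDat (bc φ J) (fun j => bc φ (P j)) n D where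
  y := fun i => MvPolynomial.map φ (d.y i)
  y_mem := fun i => ahd_mX φ (d.y_mem i)
  h := fun v => MvPolynomial.map φ (d.h v)
  h_span := by
    refine ahd_ind φ (fun t => ?_) (fun b t h => ?_) (fun t t' h h' => ?_)
    · obtain ⟨a, ha⟩ := d.h_span t
      refine ⟨fun v => MvPolynomial.map φ (a v), ?_⟩
      have h := ahd_mem φ ha
      simp only [map_sub, map_sum, map_mul, ahd_aeval] at h
      exact h
    · obtain ⟨a, ha⟩ := h
      refine ⟨fun v => C b * a v, ?_⟩
      have h := Ideal.mul_mem_left _ (C b) ha
      have e : C b * (t - ∑ v, aeval (fun i => MvPolynomial.map φ (d.y i)) (a v) *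
          MvPolynomial.map φ (d.h v)) = C b * t -
          ∑ v, aeval (fun i => MvPolynomial.map φ (d.y i)) (C b * a v) *
            MvPolynomial.map φ (d.h v) := by
        rw [mul_sub, Finset.mul_sum]
        congr 1
        refine Finset.sum_congr rfl fun v _ => ?_
        rw [map_mul, MvPolynomial.algHom_C, MvPolynomial.algebraMap_eq, mul_assoc]
      rw [e] at h
      exact h
    · obtain ⟨a, ha⟩ := h
      obtain ⟨a', ha'⟩ := h'
      refine ⟨fun v => a v + a' v, ?_⟩
      have h := Ideal.add_mem _ ha ha'
      have e : (t - ∑ v, aeval (fun i => MvPolynomial.map φ (d.y i)) (a v) *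
          MvPolynomial.map φ (d.h v)) + (t' -
          ∑ v, aeval (fun i => MvPolynomial.map φ (d.y i)) (a' v) *
            MvPolynomial.map φ (d.h v)) = (t + t') -
          ∑ v, aeval (fun i => MvPolynomial.map φ (d.y i)) (a v + a' v) *
            MvPolynomial.map φ (d.h v) := by
        simp only [map_add, add_mul, Finset.sum_add_distrib]
        ring
      rw [e] at h
      exact h
  z := MvPolynomial.map φ d.z
  G := d.G.map (MvPolynomial.map φ)
  G_monic := d.G_monic.map _
  G_z := by
    have h := ahd_mem φ d.G_z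
    rw [ahd_ev] at h
    exact h
  F := MvPolynomial.map φ d.F
  F_span := by
    refine ahd_ind φ (fun t => ?_) (fun b t h => ?_) (fun t t' h h' => ?_)
    · obtain ⟨β, hβ⟩ := d.F_span t
      refine ⟨β.map (MvPolynomial.map φ), ?_⟩
      have h := ahd_mem φ hβ
      simp only [map_sub, map_mul, ahd_aeval, ahd_ev] at h
      exact h
    · obtain ⟨β, hβ⟩ := h
      refine ⟨Polynomial.C (C b) * β, ?_⟩
      have h := Ideal.mul_mem_left _ (C b) hβ
      have e : ev (fun i => MvPolynomial.map φ (d.y i)) (MvPolynomial.map φ d.z)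
          (Polynomial.C (C b) * β) = C b * ev (fun i => MvPolynomial.map φ (d.y i))
          (MvPolynomial.map φ d.z) β := by
        unfold ev
        rw [Polynomial.eval₂_mul, Polynomial.eval₂_C]
        congr 1
        exact MvPolynomial.algHom_C _ b
      rw [e, mul_left_comm, ← mul_sub]
      exact h
    · obtain ⟨β, hβ⟩ := h
      obtain ⟨β', hβ'⟩ := h'
      refine ⟨β + β', ?_⟩
      have h := Ideal.add_mem _ hβ hβ'
      have e : ev (fun i => MvPolynomial.map φ (d.y i)) (MvPolynomial.map φ d.z)
          (β + β') = ev (fun i => MvPolynomial.map φ (d.y i)) (MvPolynomial.map φ d.z) β +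
          ev (fun i => MvPolynomial.map φ (d.y i)) (MvPolynomial.map φ d.z) β' := by
        unfold ev
        rw [Polynomial.eval₂_add]
      rw [e, mul_add, add_sub_add_comm]
      exact h
  F_der := by
    obtain ⟨δ, hδ⟩ := d.F_der
    refine ⟨δ.map (MvPolynomial.map φ), ?_⟩
    have h := ahd_mem φ hδ
    rw [map_sub, map_mul, ahd_aeval, ahd_ev, ahd_ev, ← Polynomial.derivative_map] at h
    exact h
  F_P := fun j => by
    have h := ahd_mem φ (d.F_P j)
    rw [ahd_aeval] at h
    exact (Ideal.map_sup (MvPolynomial.map φ) (P j) J) ▸ h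
  F_mem := fun hn => by
    have h := ahd_mX φ (d.F_mem hn)
    rw [ahd_aeval] at h
    exact h

/-- The extended Taylor map on the images of `A[x]`. -/
private theorem ahd_psi {N : ℕ} {A B : Type} [CommRing A] [CommRing B] (φ : A →+* B)
    (ψ : MvPolynomial (Fin N) A →ₐ[A] PowerSeries (MvPolynomial (Fin N) A))
    (t : MvPolynomial (Fin N) A) :
    (aeval (fun k => PowerSeries.map (MvPolynomial.map φ) (ψ (X k))) :
      MvPolynomial (Fin N) B →ₐ[B] PowerSeries (MvPolynomial (Fin N) B))
      (MvPolynomial.map φ t) = PowerSeries.map (MvPolynomial.map φ) (ψ t) := by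
  induction t using MvPolynomial.induction_on with
  | C a =>
    rw [MvPolynomial.map_C, MvPolynomial.algHom_C, MvPolynomial.algHom_C,
      PowerSeries.algebraMap_apply, PowerSeries.algebraMap_apply, PowerSeries.map_C,
      MvPolynomial.algebraMap_eq, MvPolynomial.algebraMap_eq, MvPolynomial.map_C]
  | add p q hp hq => simp only [map_add, hp, hq]
  | mul_X p i hp => simp only [map_mul, hp, aeval_X, MvPolynomial.map_X]

/-- Base change of the data.

PROOF: `ψ_i` over `B` is the `B`-algebra map with
`x_k ↦ PowerSeries.map (MvPolynomial.map φ) (ψ_i x_k)`; it is compatible with `ψ_i` on the images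
of `A[x]`.  `ψ_J`: `bc φ J` is generated by the images of `J`, and the power series with all
coefficients in `bc φ J` form an ideal.  `ψ_zero`: the set of `t` for which it holds is a
subalgebra. -/
def HDat.map {N r : ℕ} {A B : Type} [CommRing A] [CommRing B]
    {J : Ideal (MvPolynomial (Fin N) A)} {P : Fin r → Ideal (MvPolynomial (Fin N) A)} {n D : ℕ}
    (d : HDat J P n D) (φ : A →+* B) : HDat (bc φ J) (fun j => bc φ (P j)) n D where
  toEDat := d.toEDat.map φ
  ψ := fun i => aeval fun k => PowerSeries.map (MvPolynomial.map φ) (d.ψ i (X k))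
  ψ_zero := fun i t => by
    have h : ∀ t : MvPolynomial (Fin N) B, Ideal.Quotient.mk (bc φ J)
        (PowerSeries.constantCoeff ((aeval (fun k => PowerSeries.map (MvPolynomial.map φ)
          (d.ψ i (X k))) : MvPolynomial (Fin N) B →ₐ[B]
          PowerSeries (MvPolynomial (Fin N) B)) t)) = Ideal.Quotient.mk (bc φ J) t := by
      intro t
      induction t using MvPolynomial.induction_on with
      | C b =>
        rw [MvPolynomial.algHom_C, PowerSeries.algebraMap_apply, PowerSeries.constantCoeff_C,
          MvPolynomial.algebraMap_eq]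
      | add p q hp hq => simp only [map_add, hp, hq]
      | mul_X p k hp =>
        have hk := ahd_mem φ (d.ψ_zero i (X k))
        rw [map_sub, MvPolynomial.map_X] at hk
        have hk' := Ideal.Quotient.eq.mpr hk
        simp only [map_mul, hp, aeval_X]
        congr 1
    exact Ideal.Quotient.eq.mp (h t)
  ψ_J := fun i => by
    have h : bc φ J ≤ (RingHom.ker (PowerSeries.map (Ideal.Quotient.mk (bc φ J)))).comap
        ((aeval (fun k => PowerSeries.map (MvPolynomial.map φ) (d.ψ i (X k))) :
          MvPolynomial (Fin N) B →ₐ[B] PowerSeries (MvPolynomial (Fin N) B)) :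
          MvPolynomial (Fin N) B →+* PowerSeries (MvPolynomial (Fin N) B)) := by
      rw [Ideal.map_le_iff_le_comap]
      intro t ht
      rw [Ideal.mem_comap, Ideal.mem_comap, RingHom.mem_ker]
      refine PowerSeries.ext fun m => ?_
      rw [RingHom.coe_coe, ahd_psi, PowerSeries.coeff_map, PowerSeries.coeff_map, map_zero]
      exact Ideal.Quotient.eq_zero_iff_mem.mpr (ahd_mem φ (d.ψ_J i t ht m))
    intro t ht m
    have h1 := h ht
    rw [Ideal.mem_comap, RingHom.mem_ker] at h1
    have h2 := congrArg (PowerSeries.coeff m) h1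
    rw [PowerSeries.coeff_map, map_zero] at h2
    exact Ideal.Quotient.eq_zero_iff_mem.mp h2
  ψ_y := fun i l m => by
    have h := ahd_mem φ (d.ψ_y i l m)
    rw [← PowerSeries.coeff_map, map_sub, map_add, ← ahd_psi, PowerSeries.map_C] at h
    by_cases hil : i = l
    · rw [if_pos hil, map_mul, PowerSeries.map_X, PowerSeries.map_C, map_pow, ahd_aeval] at h
      rw [if_pos hil]
      exact h
    · rw [if_neg hil, map_zero] at h
      rw [if_neg hil]
      exact h

end FU
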