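import Pool.Agent.Lib.MP_9e8926_ag_U.AHDat

/-!
# Noether normalization at the origin
-/

set_option autoImplicit false

noncomputable section

namespace FU

open MvPolynomial

/-- Noether normalization at the origin.

PROOF: `exists_finite_inj_algHom_of_fg L (L[x]/J)` gives `g : L[Y_1, …, Y_n] → L[x]/J` injective and
finite.  Lift `g (Y_i)` to `y'_i ∈ L[x]`, `y_i = y'_i - C (constantCoeff y'_i)`.  The map
`a ↦ class of aeval y a` is `g ∘ α` with the automorphism `α : Y_i ↦ Y_i - C c_i`, so it is again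
injective and finite. -/
theorem noether {N : ℕ} {L : Type} [Field L] (J : Ideal (MvPolynomial (Fin N) L))
    (hJ : J.IsPrime) :
    ∃ (n : ℕ) (y : Fin n → MvPolynomial (Fin N) L) (D : ℕ) (h : Fin D → MvPolynomial (Fin N) L),
      (∀ i, y i ∈ mX N L) ∧
      (∀ a : MvPolynomial (Fin n) L, aeval y a ∈ J → a = 0) ∧
      ∀ t : MvPolynomial (Fin N) L, ∃ a : Fin D → MvPolynomial (Fin n) L,
        t - ∑ v, aeval y (a v) * h v ∈ J := by
  have hne : Nontrivial (MvPolynomial (Fin N) L ⧸ J) := Ideal.Quotient.nontrivial_iff.2 hJ.ne_top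
  obtain ⟨n, g, hg, hfin⟩ := exists_finite_inj_algHom_of_fg L (MvPolynomial (Fin N) L ⧸ J)
  choose y' hy' using fun i : Fin n => Ideal.Quotient.mk_surjective (g (X i))
  set y : Fin n → MvPolynomial (Fin N) L := fun i => y' i - C (constantCoeff (y' i)) with hy
  set α : MvPolynomial (Fin n) L →ₐ[L] MvPolynomial (Fin n) L :=
    aeval (fun i => X i - C (constantCoeff (y' i))) with hα
  set α' : MvPolynomial (Fin n) L →ₐ[L] MvPolynomial (Fin n) L :=
    aeval (fun i => X i + C (constantCoeff (y' i))) with hα'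
  have hα1 : ∀ a, α' (α a) = a := by
    have h1 : α'.comp α = AlgHom.id L _ := by
      refine MvPolynomial.algHom_ext fun i => ?_
      simp [hα, hα', algHom_C, algebraMap_eq]
    exact fun a => DFunLike.congr_fun h1 a
  have hα2 : ∀ a, α (α' a) = a := by
    have h1 : α.comp α' = AlgHom.id L _ := by
      refine MvPolynomial.algHom_ext fun i => ?_
      simp [hα, hα', algHom_C, algebraMap_eq]
    exact fun a => DFunLike.congr_fun h1 a
  have key : ∀ a, Ideal.Quotient.mk J (aeval y a) = g (α a) := by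
    have h1 : (Ideal.Quotient.mkₐ L J).comp (aeval y) = g.comp α := by
      refine MvPolynomial.algHom_ext fun i => ?_
      have h2 : g (C (constantCoeff (y' i))) =
          Ideal.Quotient.mk J (C (constantCoeff (y' i))) := by
        rw [← algebraMap_eq, AlgHom.commutes]
        rfl
      rw [AlgHom.comp_apply, AlgHom.comp_apply, aeval_X, hα, aeval_X, map_sub g, h2, ← hy',
        Ideal.Quotient.mkₐ_eq_mk, ← map_sub]
    exact fun a => DFunLike.congr_fun h1 a
  have hfin' : ∃ (D : ℕ) (r : Fin D → MvPolynomial (Fin N) L ⧸ J),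
      ∀ t, ∃ a : Fin D → MvPolynomial (Fin n) L, ∑ v, g (a v) * r v = t := by
    let _ : Algebra (MvPolynomial (Fin n) L) (MvPolynomial (Fin N) L ⧸ J) :=
      g.toRingHom.toAlgebra
    have hf : Module.Finite (MvPolynomial (Fin n) L) (MvPolynomial (Fin N) L ⧸ J) := hfin
    obtain ⟨D, r, hr⟩ := Module.Finite.exists_fin (R := MvPolynomial (Fin n) L)
      (M := MvPolynomial (Fin N) L ⧸ J)
    refine ⟨D, r, fun t => ?_⟩
    have ht : t ∈ Submodule.span (MvPolynomial (Fin n) L) (Set.range r) := by
      rw [hr]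
      exact Submodule.mem_top
    obtain ⟨a, ha⟩ := Submodule.mem_span_range_iff_exists_fun _ |>.1 ht
    exact ⟨a, ha⟩
  obtain ⟨D, r, hr⟩ := hfin'
  choose h hh using fun v => Ideal.Quotient.mk_surjective (r v)
  refine ⟨n, y, D, h, fun i => ?_, fun a ha => ?_, fun t => ?_⟩
  · rw [mX, ← Set.image_univ, MvPolynomial.mem_ideal_span_X_image]
    intro m hm
    by_contra hcon
    push Not at hcon
    have hm0 : m = 0 := Finsupp.ext fun i => hcon i (Set.mem_univ i)
    rw [hm0, mem_support_iff] at hm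
    apply hm
    simp [hy, constantCoeff_eq]
  · have h1 := key a
    rw [Ideal.Quotient.eq_zero_iff_mem.2 ha] at h1
    have h2 : α a = 0 := hg (by rw [map_zero, ← h1])
    rw [← hα1 a, h2, map_zero]
  · obtain ⟨a, ha⟩ := hr (Ideal.Quotient.mk J t)
    refine ⟨fun v => α' (a v), ?_⟩
    rw [← Ideal.Quotient.eq_zero_iff_mem, map_sub, map_sum, sub_eq_zero, ← ha]
    refine Finset.sum_congr rfl fun v _ => ?_
    rw [map_mul, key, hα2, hh]

end FU
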