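import Pool.Agent.Lib.MP_9e8926_ag_U.ALoc
import Pool.Agent.Lib.MP_9e8926_ag_U.CalB

/-!
# Strong F-regularity implies that the local ring is a domain; elementary bounds
-/

set_option autoImplicit false

noncomputable section

namespace FU

open MvPolynomial IsLocalRing

/-- Strongly `F`-regular local rings are domains.

PROOF.  Let `d d' = 0`, `d ≠ 0`, `φ`, `a` as in `SFR` for `d`; `φ (d a)` is in `R` (`IsCart` with
`x = d a ∈ R`) and not in `𝔪`, so it is a unit `u`.  `0 = φ (d'^q d a) = d' u` in `K`, `R → K` is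
injective (`K` is the total ring of fractions), so `d' = 0`. -/
theorem SFR.isDomain {R : Type*} [CommRing R] [Nontrivial R] {p : ℕ} (hp : 0 < p)
    {K : Type*} [CommRing K] [Algebra R K] [IsFractionRing R K] {𝔪 : Ideal R}
    (hm : ∀ a : R, a ∉ 𝔪 → IsUnit a) {r : ℕ} {P : Fin r → Ideal R} {c : Fin r → ℚ} {I : Ideal R}
    {t : ℝ} (h : SFR p K 𝔪 P c I t) : IsDomain R := by
  have key : ∀ d d' : R, d * d' = 0 → d ≠ 0 → d' = 0 := by
    intro d d' h0 hd
    obtain ⟨e, -, φ, hφ, a, -, hb⟩ := h d hd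
    obtain ⟨u, hu⟩ : φ (algebraMap R K (d * a)) ∈ (algebraMap R K).range :=
      hφ.2 _ fun b _ => ⟨d * a * b, map_mul _ _ _⟩
    have hu1 : IsUnit u := hm u fun hmem => hb u hmem hu.symm
    have hq : p ^ e ≠ 0 := (Nat.pow_pos hp).ne'
    have h1 : d' ^ p ^ e * (d * a) = 0 := by
      obtain ⟨q, hq1⟩ := Nat.exists_eq_succ_of_ne_zero hq
      rw [hq1, pow_succ]
      calc d' ^ q * d' * (d * a) = d' ^ q * a * (d * d') := by ring
        _ = 0 := by rw [h0, mul_zero]
    have h2 : algebraMap R K (d' * u) = 0 := by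
      rw [map_mul, hu, ← hφ.1, ← map_pow, ← map_mul, h1, map_zero, map_zero]
    have h3 : d' * u = 0 := by
      refine IsFractionRing.injective R K ?_
      rw [h2, map_zero]
    exact (hu1.mul_left_eq_zero).1 h3
  have h4 : NoZeroDivisors R := ⟨fun {a b} hab => by
    by_cases ha : a = 0
    · exact Or.inl ha
    · exact Or.inr (key a b hab ha)⟩
  exact NoZeroDivisors.to_isDomain R

theorem SFR.top {R : Type*} [CommRing R] {p : ℕ} {K : Type*} [CommRing K] [Algebra R K]
    {𝔪 : Ideal R} {r : ℕ} {P : Fin r → Ideal R} {c : Fin r → ℚ} {I : Ideal R}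
    {t : ℝ} (h : SFR p K 𝔪 P c I t) : SFR p K 𝔪 P c ⊤ 0 := by
  intro d hd
  obtain ⟨e, he, φ, hφ, a, -, hb⟩ := h d hd
  exact ⟨e, he, φ, hφ, a, by simp, hb⟩

/-- If the threshold is positive then the pair is strongly `F`-regular (a supremum of the empty set
is `0`). -/
theorem SFR.of_fpt_pos {R : Type*} [CommRing R] {p : ℕ} {K : Type*} [CommRing K] [Algebra R K]
    {𝔪 : Ideal R} {r : ℕ} {P : Fin r → Ideal R} {c : Fin r → ℚ} {I : Ideal R}
    (h : 0 < fpt p K 𝔪 P c I) : SFR p K 𝔪 P c ⊤ 0 := by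
  by_contra hn
  have h1 : {t : ℝ | 0 ≤ t ∧ SFR p K 𝔪 P c I t} = ∅ := by
    rw [Set.eq_empty_iff_forall_notMem]
    rintro t ⟨-, ht⟩
    exact hn ht.top
  rw [fpt, h1, Real.sSup_empty] at h
  exact lt_irrefl _ h

theorem fpt_nonneg' {R : Type*} [CommRing R] {p : ℕ} {K : Type*} [CommRing K] [Algebra R K]
    {𝔪 : Ideal R} {r : ℕ} {P : Fin r → Ideal R} {c : Fin r → ℚ} {I : Ideal R} :
    0 ≤ fpt p K 𝔪 P c I :=
  Real.sSup_nonneg fun _ ht => ht.1

/-- The multiplicity is non-negative.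

PROOF: a limsup of non-negative real numbers is non-negative (if the sequence is not bounded above
then the limsup is `sInf ∅ = 0`; otherwise `Filter.le_limsup_of_frequently_le` or directly: every
eventual upper bound is `≥ 0`). -/
theorem emult_nonneg (κ : Type*) [CommRing κ] (n : ℕ) {R : Type*} [CommRing R] [Algebra κ R]
    (I : Ideal R) : 0 ≤ emult κ n I := by
  rw [emult, Filter.limsup_eq]
  refine Real.sInf_nonneg fun a ha => ?_
  obtain ⟨N, hN⟩ := Filter.Eventually.exists ha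
  refine le_trans ?_ hN
  positivity

theorem FvolR_nonneg {κ : Type*} [CommRing κ] {R : Type*} [CommRing R] [Algebra κ R] {n p : ℕ}
    {K : Type*} [CommRing K] [Algebra R K] {𝔪 : Ideal R} {r : ℕ} {P : Fin r → Ideal R}
    {c : Fin r → ℚ} : 0 ≤ FvolR κ n p K 𝔪 P c :=
  Real.sInf_nonneg fun _ ⟨I, _, hv⟩ => hv ▸ mul_nonneg (emult_nonneg κ n I)
    (pow_nonneg fpt_nonneg' n)

theorem FvolR_le {κ : Type*} [CommRing κ] {R : Type*} [CommRing R] [Algebra κ R] {n p : ℕ}
    {K : Type*} [CommRing K] [Algebra R K] {𝔪 : Ideal R} {r : ℕ} {P : Fin r → Ideal R}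
    {c : Fin r → ℚ} {I : Ideal R} (hI : IsPrim 𝔪 I) :
    FvolR κ n p K 𝔪 P c ≤ emult κ n I * fpt p K 𝔪 P c I ^ n :=
  csInf_le ⟨0, fun _ ⟨I, _, hv⟩ => hv ▸ mul_nonneg (emult_nonneg κ n I)
    (pow_nonneg fpt_nonneg' n)⟩ ⟨I, hI, rfl⟩

section

variable {N : ℕ} {k : Type} [Field k] {J : Ideal (MvPolynomial (Fin N) k)}

/-- `Oc k J` is a local ring. -/
theorem isLocal_Oc (hJ : J ≤ mX N k) : IsLocalRing (Oc k J) := by
  obtain ⟨h1, h2⟩ := isLocalRing_Oc J hJ
  have h3 : Nontrivial (Oc k J) := by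
    by_contra hn
    rw [not_nontrivial_iff_subsingleton] at hn
    exact h1 (Subsingleton.elim _ _)
  have h4 : ∀ a : Oc k J, a ∈ nonunits (Oc k J) → a ∈ mO k J := fun a ha => by
    by_contra hn
    exact ha (h2 a hn)
  refine IsLocalRing.of_nonunits_add fun a b ha hb hab => ?_
  exact h1 (Ideal.eq_top_of_isUnit_mem _ ((mO k J).add_mem (h4 a ha) (h4 b hb)) hab)

theorem maximal_Oc (hJ : J ≤ mX N k) [IsLocalRing (Oc k J)] :
    maximalIdeal (Oc k J) = mO k J := by
  obtain ⟨h1, h2⟩ := isLocalRing_Oc J hJ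
  refine (le_antisymm (IsLocalRing.le_maximalIdeal h1) fun a ha => ?_).symm
  by_contra hn
  exact (mem_maximalIdeal a).1 ha (h2 a hn)

theorem charP_Oc (p : ℕ) [CharP k p] (hJ : J ≤ mX N k) : CharP (Oc k J) p := by
  have h1 := isLocal_Oc hJ
  exact charP_of_injective_algebraMap (algebraMap k (Oc k J)).injective p

theorem charP_frac (p : ℕ) [CharP k p] (hJ : J ≤ mX N k) :
    CharP (FractionRing (Oc k J)) p := by
  have h1 := charP_Oc p hJ
  exact charP_of_injective_algebraMap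
    (IsFractionRing.injective (Oc k J) (FractionRing (Oc k J))) p

/-- Primary ideals of the polynomial ring give primary ideals of the local ring. -/
theorem isPrim_map {I : Ideal (MvPolynomial (Fin N) k)} (h : I ≤ mX N k)
    (h' : ∃ M : ℕ, mX N k ^ M ≤ I) : IsPrim (R := Oc k J) (mO k J) (I.map (toO k J)) := by
  obtain ⟨M, hM⟩ := h'
  refine ⟨Ideal.map_mono h, M, ?_⟩
  let i : CommSemiring (Oc k J) := inferInstance
  have h1 : (mX N k ^ M).map (toO k J) = (mX N k).map (toO k J) ^ M :=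
    Ideal.map_pow (S := Oc k J) (toO k J) (mX N k) M
  have h2 : (mX N k ^ M).map (toO k J) ≤ I.map (toO k J) := Ideal.map_mono hM
  rw [h1] at h2
  exact h2

/-- The `F`-pure threshold is bounded by `2 N`.

PROOF: if no `t` is admissible then `fpt = 0`.  Otherwise `Oc k J` is a domain (`SFR.isDomain`, so
its fraction ring is a field) and `bddAbove_fpt` applies with the `N` generators `toO (X i)`; if
`N = 0`... excluded by `1 ≤ N`. -/
theorem fptAt_le [Finite k] (hN : 1 ≤ N) (hJ : J ≤ mX N k) {r : ℕ}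
    (P : Fin r → Ideal (MvPolynomial (Fin N) k)) (c : Fin r → ℚ)
    (I : Ideal (MvPolynomial (Fin N) k)) (hI : I ≤ mX N k) : fptAt k J P c I ≤ 2 * N := by
  rw [fptAt, fpt]
  rcases Set.eq_empty_or_nonempty {t : ℝ | 0 ≤ t ∧ SFR (ringChar k) (FractionRing (Oc k J))
    (mO k J) (fun j => (P j).map (toO k J)) c (I.map (toO k J)) t} with he | hne
  · rw [he, Real.sSup_empty]
    positivity
  · have hloc := isLocal_Oc hJ
    have hpr : Fact (ringChar k).Prime := ⟨CharP.char_is_prime k _⟩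
    obtain ⟨t, ht0, ht⟩ := hne
    have hdom : IsDomain (Oc k J) := ht.isDomain hpr.out.pos (isLocalRing_Oc J hJ).2
    have hmax := maximal_Oc hJ
    have hg : Ideal.span (Set.range fun i : Fin N => toO k J (X i)) = maximalIdeal (Oc k J) := by
      rw [hmax, mO, mX, Ideal.map_span, ← Set.range_comp]
      rfl
    have hI1 : I.map (toO k J) ≤ maximalIdeal (Oc k J) := by
      rw [hmax]
      exact Ideal.map_mono hI
    have h1 := bddAbove_fpt (p := ringChar k) (K := FractionRing (Oc k J))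
      (P := fun j => (P j).map (toO k J)) (c := c) hN _ hg hI1
    rw [hmax] at h1
    exact csSup_le ⟨t, ht0, ht⟩ h1

end

end FU
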