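import Mathlib

/-!
# Limits of subspaces under unipotent one-parameter families
-/

set_option autoImplicit false

noncomputable section

namespace FU

open Finset

variable {κ V : Type*} [Field κ] [AddCommGroup V] [Module κ V]

/-- The coefficient of degree `j` of `φ_X(u)`, `u = ∑ u_i X^i`, `φ_X = ∑ θ_k X^k`. -/
def cf (θ : ℕ → V →ₗ[κ] V) (u : ℕ → V) (j : ℕ) : V := ∑ i ∈ range (j + 1), θ (j - i) (u i)

/-- `θ` raises the filtration `F` of length `T`. -/
structure Tay (θ : ℕ → V →ₗ[κ] V) (F : ℕ → Submodule κ V) (T : ℕ) : Prop where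
  zero : θ 0 = LinearMap.id
  top : F 0 = ⊤
  bot : F T = ⊥
  anti : Antitone F
  map : ∀ k l, ∀ v ∈ F l, θ k v ∈ F (l + k)

/-- `v` is the coefficient of degree `D` of a polynomial `φ_X(u)` of degree at most `D`, where `u`
is a polynomial with coefficients in `b`. -/
def IsTop (θ : ℕ → V →ₗ[κ] V) (b : Submodule κ V) (v : V) : Prop :=
  ∃ u : ℕ → V, (∀ j, u j ∈ b) ∧ (∃ T0, ∀ j, T0 ≤ j → u j = 0) ∧
    ∃ D, (∀ j, D < j → cf θ u j = 0) ∧ cf θ u D = v

/-- The limit of `φ_X(b)` for `X → ∞`. -/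
def lim (θ : ℕ → V →ₗ[κ] V) (b : Submodule κ V) : Submodule κ V :=
  Submodule.span κ {v | IsTop θ b v}

theorem cf_add (θ : ℕ → V →ₗ[κ] V) (u u' : ℕ → V) (j : ℕ) :
    cf θ (fun i => u i + u' i) j = cf θ u j + cf θ u' j := by
  unfold cf
  rw [← Finset.sum_add_distrib]
  exact Finset.sum_congr rfl fun i _ => map_add _ _ _

theorem cf_smul (θ : ℕ → V →ₗ[κ] V) (a : κ) (u : ℕ → V) (j : ℕ) :
    cf θ (fun i => a • u i) j = a • cf θ u j := by
  unfold cf
  rw [Finset.smul_sum]
  exact Finset.sum_congr rfl fun i _ => map_smul _ _ _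

/-- Multiplication by `X ^ s`. -/
theorem cf_shift (θ : ℕ → V →ₗ[κ] V) (u : ℕ → V) (s j : ℕ) :
    cf θ (fun i => if s ≤ i then u (i - s) else 0) j = if s ≤ j then cf θ u (j - s) else 0 := by
  unfold cf
  split_ifs with h
  · obtain ⟨m, rfl⟩ := Nat.exists_eq_add_of_le h
    have h1 : s + m + 1 = s + (m + 1) := by omega
    rw [h1, Finset.sum_range_add, Finset.sum_eq_zero, zero_add]
    · have h2 : s + m - s = m := by omega
      rw [h2]
      refine Finset.sum_congr rfl fun i hi => ?_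
      change θ (s + m - (s + i)) (if s ≤ s + i then u (s + i - s) else 0) = θ (m - i) (u i)
      rw [if_pos (Nat.le_add_right s i)]
      have h3 : s + m - (s + i) = m - i := by omega
      have h4 : s + i - s = i := by omega
      rw [h3, h4]
    · intro i hi
      change θ (s + m - i) (if s ≤ i then u (i - s) else 0) = 0
      rw [if_neg (by rw [Finset.mem_range] at hi; omega), map_zero]
  · refine Finset.sum_eq_zero fun i hi => ?_
    change θ (j - i) (if s ≤ i then u (i - s) else 0) = 0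
    rw [if_neg (by rw [Finset.mem_range] at hi; omega), map_zero]

/-- The set is a subspace: for a sum multiply by powers of `X` to make the degrees equal. -/
theorem mem_lim (θ : ℕ → V →ₗ[κ] V) (b : Submodule κ V) (v : V) :
    v ∈ lim θ b ↔ IsTop θ b v := by
  constructor
  · intro h
    refine Submodule.span_induction (p := fun x _ => IsTop θ b x) (fun x hx => hx) ?_ ?_ ?_ h
    · refine ⟨fun _ => 0, fun _ => b.zero_mem, ⟨0, fun _ _ => rfl⟩, 0, fun j _ => ?_, ?_⟩
      · exact Finset.sum_eq_zero fun i _ => map_zero _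
      · exact Finset.sum_eq_zero fun i _ => map_zero _
    · rintro x y - - ⟨u, hu, ⟨T, hT⟩, D, hD, rfl⟩ ⟨u', hu', ⟨T', hT'⟩, D', hD', rfl⟩
      refine ⟨fun i => (if D' ≤ i then u (i - D') else 0) + (if D ≤ i then u' (i - D) else 0),
        fun j => ?_, ⟨T + D' + (T' + D), fun j hj => ?_⟩, D + D', fun j hj => ?_, ?_⟩
      · refine b.add_mem ?_ ?_
        · split_ifs
          · exact hu _
          · exact b.zero_mem
        · split_ifs
          · exact hu' _
          · exact b.zero_mem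
      · change (if D' ≤ j then u (j - D') else 0) + (if D ≤ j then u' (j - D) else 0) = 0
        rw [if_pos (by omega), if_pos (by omega), hT _ (by omega), hT' _ (by omega), add_zero]
      · rw [cf_add, cf_shift, cf_shift, if_pos (by omega), if_pos (by omega), hD _ (by omega),
          hD' _ (by omega), add_zero]
      · rw [cf_add, cf_shift, cf_shift, if_pos (by omega), if_pos (by omega)]
        have h1 : D + D' - D' = D := by omega
        have h2 : D + D' - D = D' := by omega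
        rw [h1, h2]
    · rintro a x - ⟨u, hu, ⟨T, hT⟩, D, hD, rfl⟩
      refine ⟨fun i => a • u i, fun j => b.smul_mem a (hu j), ⟨T, fun j hj => ?_⟩, D,
        fun j hj => ?_, cf_smul θ a u D⟩
      · change a • u j = 0
        rw [hT j hj, smul_zero]
      · rw [cf_smul, hD j hj, smul_zero]
  · intro h
    exact Submodule.subset_span h

theorem lim_mono (θ : ℕ → V →ₗ[κ] V) {b b' : Submodule κ V} (h : b ≤ b') :
    lim θ b ≤ lim θ b' := by
  refine Submodule.span_mono ?_
  rintro v ⟨u, hu, h1, h2⟩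
  exact ⟨u, fun j => h (hu j), h1, h2⟩

theorem lim_le (θ : ℕ → V →ₗ[κ] V) {b N : Submodule κ V} (h : b ≤ N)
    (hN : ∀ k, ∀ v ∈ N, θ k v ∈ N) : lim θ b ≤ N := by
  refine Submodule.span_le.2 ?_
  rintro v ⟨u, hu, -, D, -, rfl⟩
  exact N.sum_mem fun i _ => hN _ _ (h (hu i))

theorem Tay.eq_zero {θ : ℕ → V →ₗ[κ] V} {F : ℕ → Submodule κ V} {T : ℕ} (h : Tay θ F T) (k : ℕ)
    (hk : T ≤ k) : θ k = 0 := by
  refine LinearMap.ext fun v => ?_
  have h1 : θ k v ∈ F (0 + k) := h.map k 0 v (by rw [h.top]; exact Submodule.mem_top)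
  rw [zero_add] at h1
  have h2 := h.anti hk h1
  rw [h.bot, Submodule.mem_bot] at h2
  rw [h2, LinearMap.zero_apply]

theorem Tay.cf_eq_zero {θ : ℕ → V →ₗ[κ] V} {F : ℕ → Submodule κ V} {T : ℕ} (h : Tay θ F T)
    {u : ℕ → V} {T0 : ℕ} (hu : ∀ j, T0 ≤ j → u j = 0) (j : ℕ) (hj : T + T0 ≤ j) :
    cf θ u j = 0 := by
  refine Finset.sum_eq_zero fun i hi => ?_
  by_cases h1 : T0 ≤ i
  · rw [hu i h1, map_zero]
  · rw [h.eq_zero (j - i) (by omega), LinearMap.zero_apply]

/-- `φ_X` is injective.  Proof: by strong induction `u j = 0`. -/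
theorem Tay.cf_inj {θ : ℕ → V →ₗ[κ] V} {F : ℕ → Submodule κ V} {T : ℕ} (h : Tay θ F T)
    {u : ℕ → V} (hu : ∀ j, cf θ u j = 0) (j : ℕ) : u j = 0 := by
  induction j using Nat.strong_induction_on with
  | _ j ih =>
    have h1 := hu j
    unfold cf at h1
    rw [Finset.sum_range_succ, Finset.sum_eq_zero, zero_add, Nat.sub_self, h.zero,
      LinearMap.id_apply] at h1
    · exact h1
    · intro i hi
      rw [ih i (Finset.mem_range.1 hi), map_zero]

private theorem bora_split {θ : ℕ → V →ₗ[κ] V} (h0 : θ 0 = LinearMap.id) (u : ℕ → V) (j : ℕ) :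
    cf θ u j = ∑ i ∈ range j, θ (j - i) (u i) + u j := by
  unfold cf
  rw [Finset.sum_range_succ, Nat.sub_self, h0, LinearMap.id_apply]

private theorem bora_surj {θ : ℕ → V →ₗ[κ] V} {F : ℕ → Submodule κ V} {T : ℕ} (h : Tay θ F T)
    {N : Submodule κ V} (hN : ∀ k, ∀ v ∈ N, θ k v ∈ N) (n : ℕ) : ∀ (l : ℕ), T ≤ l + n →
    ∀ {w : ℕ → V}, (∀ j, w j ∈ N) → (∀ j, w j ∈ F l) → (∃ T0, ∀ j, T0 ≤ j → w j = 0) →
    ∃ u : ℕ → V, (∀ j, u j ∈ N) ∧ (∃ T0, ∀ j, T0 ≤ j → u j = 0) ∧ ∀ j, cf θ u j = w j := by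
  induction n with
  | zero =>
    intro l hl w hwN hwF hw0
    refine ⟨fun _ => 0, fun _ => N.zero_mem, ⟨0, fun _ _ => rfl⟩, fun j => ?_⟩
    have h1 := h.anti (show T ≤ l from hl) (hwF j)
    rw [h.bot, Submodule.mem_bot] at h1
    rw [h1]
    exact Finset.sum_eq_zero fun i _ => map_zero _
  | succ n ih =>
    intro l hl w hwN hwF hw0
    obtain ⟨T0, hT0⟩ := hw0
    obtain ⟨u', hu'N, ⟨T1, hT1⟩, hu'⟩ := ih (l + 1) (by omega)
      (w := fun j => -∑ i ∈ range j, θ (j - i) (w i))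
      (fun j => N.neg_mem (N.sum_mem fun i _ => hN _ _ (hwN i)))
      (fun j => (F (l + 1)).neg_mem ((F (l + 1)).sum_mem fun i hi =>
        h.anti (show l + 1 ≤ l + (j - i) by rw [Finset.mem_range] at hi; omega)
          (h.map (j - i) l (w i) (hwF i))))
      ⟨T + T0, fun j hj => by
        have h1 := h.cf_eq_zero hT0 j hj
        rw [bora_split h.zero, hT0 j (by omega), add_zero] at h1
        change -∑ i ∈ range j, θ (j - i) (w i) = 0
        rw [h1, neg_zero]⟩
    refine ⟨fun i => w i + u' i, fun j => N.add_mem (hwN j) (hu'N j),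
      ⟨T0 + T1, fun j hj => ?_⟩, fun j => ?_⟩
    · change w j + u' j = 0
      rw [hT0 j (by omega), hT1 j (by omega), add_zero]
    · rw [cf_add, hu', bora_split h.zero]
      abel

/-- `φ_X` is surjective on polynomials.
Proof. Induction on `T - l`: if all `w j` are in `F l ⊓ N`, then there is such a `u` with values
in `F l ⊓ N`.  For `l ≥ T` take `u = 0`.  In general `w' j = cf θ w j - w j = ∑_{i < j} θ_{j-i} (w
i)` is
in `F (l + 1) ⊓ N` and eventually zero (`Tay.cf_eq_zero`); take `u'` for `-w'` and `u = w + u'`. -/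
theorem Tay.cf_surj {θ : ℕ → V →ₗ[κ] V} {F : ℕ → Submodule κ V} {T : ℕ} (h : Tay θ F T)
    {N : Submodule κ V} (hN : ∀ k, ∀ v ∈ N, θ k v ∈ N) {w : ℕ → V} (hw : ∀ j, w j ∈ N)
    (hw0 : ∃ T0, ∀ j, T0 ≤ j → w j = 0) :
    ∃ u : ℕ → V, (∀ j, u j ∈ N) ∧ (∃ T0, ∀ j, T0 ≤ j → u j = 0) ∧ ∀ j, cf θ u j = w j := by
  refine bora_surj h hN T 0 (by omega) hw (fun j => ?_) hw0
  rw [h.top]
  exact Submodule.mem_top

/-- If `u` and `u'` are polynomials with `φ_X(u)` in the subspace `F l`, then so is `u`.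
(Strong induction: `u j = cf θ u j - ∑_{i < j} θ_{j-i} (u i)`.) -/
theorem Tay.mem_of_cf_mem {θ : ℕ → V →ₗ[κ] V} {F : ℕ → Submodule κ V} {T : ℕ} (h : Tay θ F T)
    (l : ℕ) {u : ℕ → V} (hu : ∀ j, cf θ u j ∈ F l) (j : ℕ) : u j ∈ F l := by
  induction j using Nat.strong_induction_on with
  | _ j ih =>
    have h1 := hu j
    rw [bora_split h.zero] at h1
    refine ((F l).add_mem_iff_right ((F l).sum_mem fun i hi => ?_)).1 h1
    exact h.anti (Nat.le_add_right l (j - i)) (h.map _ _ _ (ih i (Finset.mem_range.1 hi)))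

end FU
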