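import Pool.Agent.Lib.MP_9e8926_ag_U.BorA

/-!
# The dimension of the limit, and the case of equality
-/

set_option autoImplicit false

noncomputable section

namespace FU

open Finset

variable {κ V : Type*} [Field κ] [AddCommGroup V] [Module κ V] [Module.Finite κ V]

/-- If all coefficients of `φ_X(u)` of degree at least `m` are in a subspace which meets the limit
trivially, then they are zero. -/
private theorem borB_top {θ : ℕ → V →ₗ[κ] V} {b W : Submodule κ V} (hW : lim θ b ⊓ W = ⊥)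
    {u : ℕ → V} (hu : ∀ j, u j ∈ b) (hu0 : ∃ T0, ∀ j, T0 ≤ j → u j = 0)
    {T1 : ℕ} (hc : ∀ j, T1 ≤ j → cf θ u j = 0) (m : ℕ) (hm : ∀ j, m ≤ j → cf θ u j ∈ W)
    (j : ℕ) (hj : m ≤ j) : cf θ u j = 0 := by
  have key : ∀ n j, m ≤ j → T1 ≤ j + n → cf θ u j = 0 := by
    intro n
    induction n with
    | zero => exact fun j _ h => hc j h
    | succ n ih =>
      intro j hj h
      have h1 : IsTop θ b (cf θ u j) :=
        ⟨u, hu, hu0, j, fun j' hj' => ih j' (by omega) (by omega), rfl⟩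
      have h2 : cf θ u j ∈ lim θ b ⊓ W := ⟨(mem_lim θ b _).2 h1, hm j hj⟩
      rw [hW] at h2
      exact (Submodule.mem_bot κ).1 h2
  exact key T1 j hj (Nat.le_add_left _ _)

/-- Extension of a vector by zero. -/
private def borB_ext (b : Submodule κ V) (D : ℕ) : (Fin D → b) →ₗ[κ] (ℕ → V) where
  toFun u i := if h : i < D then (u ⟨i, h⟩ : V) else 0
  map_add' u u' := by
    funext i
    by_cases h : i < D
    · simp [h]
    · simp [h]
  map_smul' a u := by
    funext i
    by_cases h : i < D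
    · simp [h]
    · simp [h]

private theorem borB_ext_pos {b : Submodule κ V} {D : ℕ} (u : Fin D → b) {i : ℕ} (h : i < D) :
    borB_ext b D u i = (u ⟨i, h⟩ : V) := dif_pos h

private theorem borB_ext_neg {b : Submodule κ V} {D : ℕ} (u : Fin D → b) {i : ℕ} (h : D ≤ i) :
    borB_ext b D u i = 0 := dif_neg (not_lt.2 h)

/-- The coefficient as a linear map. -/
private def borB_cf (θ : ℕ → V →ₗ[κ] V) (j : ℕ) : (ℕ → V) →ₗ[κ] V where
  toFun u := cf θ u j
  map_add' u u' := cf_add θ u u' j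
  map_smul' a u := cf_smul θ a u j

/-- Proof. Let `U` be a complement of `lim θ b` and `π : V → lim θ b` the projection along `U`.
For every `D` the linear map ` (Fin D → b) → (Fin (D + T) → lim θ b)`, `u ↦ (π (cf θ u j))_j` (`u`
extended by zero) is injective: if `π (cf θ u j) = 0` for all `j < D + T`, hence (`Tay.cf_eq_zero`)
for all `j`, and `cf θ u ≠ 0`, then the highest non-zero `cf θ u D'` is in `lim θ b ⊓ U = ⊥`
(`mem_lim`), a contradiction; so `cf θ u = 0` and `u = 0` (`Tay.cf_inj`).  So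
`D * finrank b ≤ (D + T) * finrank (lim θ b)` for all `D`, whence the claim (take
`D = T * finrank (lim θ b) + 1`). -/
theorem Tay.finrank_le_lim {θ : ℕ → V →ₗ[κ] V} {F : ℕ → Submodule κ V} {T : ℕ} (h : Tay θ F T)
    (b : Submodule κ V) : Module.finrank κ b ≤ Module.finrank κ (lim θ b) := by
  obtain ⟨U, hU⟩ := Submodule.exists_isCompl (lim θ b)
  have key : ∀ D : ℕ, D * Module.finrank κ b ≤ (D + T) * Module.finrank κ (lim θ b) := by
    intro D
    let Φ : (Fin D → b) →ₗ[κ] (Fin (D + T) → lim θ b) :=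
      LinearMap.pi fun j => (Submodule.projectionOnto (lim θ b) U hU).comp
        ((borB_cf θ j).comp (borB_ext b D))
    have hinj : Function.Injective Φ := by
      rw [injective_iff_map_eq_zero]
      intro u hu
      have hu1 : ∀ i, borB_ext b D u i ∈ b := by
        intro i
        by_cases h : i < D
        · rw [borB_ext_pos u h]
          exact (u ⟨i, h⟩).2
        · rw [borB_ext_neg u (not_lt.1 h)]
          exact b.zero_mem
      have hu0 : ∀ j, D ≤ j → borB_ext b D u j = 0 := fun j hj => borB_ext_neg u hj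
      have hc : ∀ j, T + D ≤ j → cf θ (borB_ext b D u) j = 0 := fun j hj =>
        h.cf_eq_zero hu0 j hj
      have hm : ∀ j, 0 ≤ j → cf θ (borB_ext b D u) j ∈ U := by
        intro j _
        by_cases hj : j < D + T
        · have h1 := congrFun hu ⟨j, hj⟩
          exact (Submodule.projectionOnto_apply_eq_zero_iff hU).1 h1
        · rw [hc j (by omega)]
          exact U.zero_mem
      have h2 := borB_top hU.inf_eq_bot hu1 ⟨D, hu0⟩ hc 0 hm
      have h3 := h.cf_inj (fun j => h2 j (Nat.zero_le j))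
      funext i
      have h4 := h3 i
      rw [borB_ext_pos u i.2] at h4
      exact Subtype.ext h4
    have h1 := LinearMap.finrank_le_finrank_of_injective hinj
    rwa [Module.finrank_pi_fintype, Module.finrank_pi_fintype, Finset.sum_const, Finset.sum_const,
      Finset.card_univ, Finset.card_univ, Fintype.card_fin, Fintype.card_fin, smul_eq_mul,
      smul_eq_mul] at h1
  by_contra hn
  rw [not_le] at hn
  have h1 := key (T * Module.finrank κ (lim θ b) + 1)
  have h2 := Nat.mul_le_mul_left (T * Module.finrank κ (lim θ b) + 1) (Nat.succ_le_of_lt hn)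
  have h3 := h2.trans h1
  rw [Nat.succ_eq_add_one] at h3
  nlinarith

/-- A complement of `b` adapted to the filtration.
Proof. By descending induction on `l` there is `W ≤ F l` with `b ⊓ W = ⊥` and
`F l' ≤ (b ⊓ F l') ⊔ (W ⊓ F l')` for all `l' ≥ l`.  For `l = T` take `W = ⊥`.  Given `W'` for `l +
1`
choose a complement `U` of ` (b ⊓ F l) ⊔ F (l + 1)` in `F l` and put `W = W' ⊔ U`: if
`w + u ∈ F (l + 1)` with `w ∈ W'`, `u ∈ U`, then `u = 0`; if `w + u ∈ b`, then
`u ∈ (b ⊓ F l) ⊔ F (l + 1)`, so `u = 0` and `w = 0`. -/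
theorem exists_adapted (F : ℕ → Submodule κ V) (T : ℕ) (h0 : F 0 = ⊤) (hT : F T = ⊥)
    (hF : Antitone F) (b : Submodule κ V) :
    ∃ W : Submodule κ V, b ⊓ W = ⊥ ∧ ∀ l, F l ≤ (b ⊓ F l) ⊔ (W ⊓ F l) := by
  have key : ∀ n l, l + n = T → ∃ W : Submodule κ V, W ≤ F l ∧ b ⊓ W = ⊥ ∧
      ∀ l', l ≤ l' → F l' ≤ (b ⊓ F l') ⊔ (W ⊓ F l') := by
    intro n
    induction n with
    | zero =>
      intro l hl
      refine ⟨⊥, bot_le, inf_bot_eq _, fun l' hl' => ?_⟩
      have h1 : F l' ≤ ⊥ := by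
        rw [← hT]
        exact hF (by omega)
      exact h1.trans bot_le
    | succ n ih =>
      intro l hl
      obtain ⟨W', h1, h2, h3⟩ := ih (l + 1) (by omega)
      obtain ⟨U0, hU0⟩ := Submodule.exists_isCompl ((b ⊓ F l) ⊔ F (l + 1))
      have hA : (b ⊓ F l) ⊔ F (l + 1) ≤ F l := sup_le inf_le_right (hF (Nat.le_succ l))
      have hU1 : ((b ⊓ F l) ⊔ F (l + 1)) ⊓ (U0 ⊓ F l) = ⊥ := by
        rw [← inf_assoc, hU0.inf_eq_bot, bot_inf_eq]
      have hU2 : ((b ⊓ F l) ⊔ F (l + 1)) ⊔ (U0 ⊓ F l) = F l := by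
        rw [sup_inf_assoc_of_le U0 hA |>.symm, hU0.sup_eq_top, top_inf_eq]
      refine ⟨W' ⊔ (U0 ⊓ F l), sup_le (h1.trans (hF (Nat.le_succ l))) inf_le_right, ?_, ?_⟩
      · rw [Submodule.eq_bot_iff]
        rintro x ⟨hxb, hxW⟩
        obtain ⟨w, hw, u, hu, rfl⟩ := Submodule.mem_sup.1 hxW
        have hwl : w ∈ F l := hF (Nat.le_succ l) (h1 hw)
        have hxl : w + u ∈ F l := (F l).add_mem hwl hu.2
        have h4 : u ∈ (b ⊓ F l) ⊔ F (l + 1) := by
          have h5 : u = (w + u) + -w := by abel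
          rw [h5]
          exact Submodule.add_mem_sup ⟨hxb, hxl⟩ ((F (l + 1)).neg_mem (h1 hw))
        have h6 : u ∈ ((b ⊓ F l) ⊔ F (l + 1)) ⊓ (U0 ⊓ F l) := ⟨h4, hu⟩
        rw [hU1] at h6
        have h7 : u = 0 := (Submodule.mem_bot κ).1 h6
        rw [h7, add_zero] at hxb ⊢
        have h8 : w ∈ b ⊓ W' := ⟨hxb, hw⟩
        rw [h2] at h8
        exact (Submodule.mem_bot κ).1 h8
      · intro l' hl'
        rcases Nat.eq_or_lt_of_le hl' with rfl | hlt
        · rw [← hU2]
          conv_rhs => rw [hU2]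
          have h5 : F (l + 1) ≤ (b ⊓ F l) ⊔ ((W' ⊔ (U0 ⊓ F l)) ⊓ F l) :=
            (h3 (l + 1) le_rfl).trans (sup_le_sup (inf_le_inf_left _ (hF (Nat.le_succ l)))
              (inf_le_inf le_sup_left (hF (Nat.le_succ l))))
          exact sup_le (sup_le le_sup_left h5)
            ((le_inf le_sup_right inf_le_right).trans le_sup_right)
        · exact (h3 l' hlt).trans (sup_le_sup_left (inf_le_inf_right _ le_sup_left) _)
  obtain ⟨W, -, h2, h3⟩ := key T 0 (Nat.zero_add T)
  exact ⟨W, h2, fun l => h3 l (Nat.zero_le l)⟩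

private theorem borB_lim_le {θ : ℕ → V →ₗ[κ] V} {F : ℕ → Submodule κ V} {T : ℕ}
    (h : Tay θ F T) (b : Submodule κ V) (l : ℕ) : lim θ (b ⊓ F l) ≤ lim θ b ⊓ F l :=
  le_inf (lim_mono θ inf_le_left) (lim_le θ inf_le_right fun k v hv =>
    h.anti (Nat.le_add_right l k) (h.map k l v hv))

/-- Step (i) of `Tay.stable_of_eq`. -/
private theorem borB_i {θ : ℕ → V →ₗ[κ] V} {F : ℕ → Submodule κ V} {T : ℕ} (h : Tay θ F T)
    (b : Submodule κ V) (l : ℕ) (hb : Module.finrank κ (lim θ b ⊓ F l : Submodule κ V) ≤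
      Module.finrank κ (b ⊓ F l : Submodule κ V)) {v : V} (hv : v ∈ lim θ b ⊓ F l) :
    ∃ β ∈ b ⊓ F l, ∃ f ∈ F (l + 1), v = β + f := by
  have h1 : lim θ (b ⊓ F l) = lim θ b ⊓ F l :=
    Submodule.eq_of_le_of_finrank_le (borB_lim_le h b l) (hb.trans (h.finrank_le_lim (b ⊓ F l)))
  rw [← h1] at hv
  obtain ⟨u, hu, -, D, -, hD⟩ := (mem_lim θ (b ⊓ F l) v).1 hv
  refine ⟨u D, hu D, ∑ i ∈ range D, θ (D - i) (u i), ?_, ?_⟩
  · refine Submodule.sum_mem _ fun i hi => ?_
    have h2 : i < D := mem_range.1 hi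
    exact h.anti (by omega) (h.map (D - i) l (u i) (hu i).2)
  · rw [← hD, cf, sum_range_succ, Nat.sub_self, h.zero, LinearMap.id_apply, add_comm]

/-- Step (iii) of `Tay.stable_of_eq`. -/
private theorem borB_iii {θ : ℕ → V →ₗ[κ] V} {F : ℕ → Submodule κ V} {T : ℕ} (h : Tay θ F T)
    {b W : Submodule κ V} (hc : IsCompl b W) (hW : ∀ l, F l ≤ (b ⊓ F l) ⊔ (W ⊓ F l))
    {w : ℕ → b} (hw0 : ∃ T0, ∀ j, T0 ≤ j → w j = 0) :
    ∃ u : ℕ → V, (∀ j, u j ∈ b) ∧ (∃ T0, ∀ j, T0 ≤ j → u j = 0) ∧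
      ∀ j, Submodule.projectionOnto b W hc (cf θ u j) = w j := by
  set π := Submodule.projectionOnto b W hc with hπ
  have hπF : ∀ l, ∀ v ∈ F l, (π v : V) ∈ F l := by
    intro l v hv
    obtain ⟨β, hβ, ω, hω, rfl⟩ := Submodule.mem_sup.1 (hW l hv)
    rw [map_add, hπ, Submodule.projectionOnto_apply_of_mem_left hc hβ.1,
      (Submodule.projectionOnto_apply_eq_zero_iff hc).2 hω.1, add_zero]
    exact hβ.2
  let θ' : ℕ → b →ₗ[κ] b := fun k => π.comp ((θ k).comp b.subtype)
  have h' : Tay θ' (fun l => (F l).comap b.subtype) T := by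
    refine ⟨?_, ?_, ?_, ?_, ?_⟩
    · refine LinearMap.ext fun x => ?_
      change π (θ 0 (x : V)) = x
      rw [h.zero, LinearMap.id_apply]
      exact Submodule.projectionOnto_apply_left hc x
    · rw [h.top, Submodule.comap_top]
    · change (F T).comap b.subtype = ⊥
      rw [h.bot, Submodule.comap_bot, Submodule.ker_subtype]
    · exact fun l l' hl => Submodule.comap_mono (h.anti hl)
    · intro k l v hv
      exact hπF _ _ (h.map k l _ hv)
  obtain ⟨u, -, ⟨T0, hu0⟩, hu⟩ := h'.cf_surj (N := ⊤) (fun _ _ _ => Submodule.mem_top)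
    (w := w) (fun _ => Submodule.mem_top) hw0
  refine ⟨fun j => (u j : V), fun j => (u j).2, ⟨T0, fun j hj => ?_⟩, fun j => ?_⟩
  · change (u j : V) = 0
    rw [hu0 j hj, Submodule.coe_zero]
  · rw [← hu j, cf, cf, map_sum]
    rfl

/-- Step (iv) of `Tay.stable_of_eq`. -/
private theorem borB_iv {θ : ℕ → V →ₗ[κ] V} {F : ℕ → Submodule κ V} {T : ℕ} (h : Tay θ F T)
    {b W : Submodule κ V} (hc : IsCompl b W) (hW : ∀ l, F l ≤ (b ⊓ F l) ⊔ (W ⊓ F l))
    (hlim : lim θ b ⊓ W = ⊥) (n : ℕ) : ∀ β : ℕ → V, (∀ j, β j ∈ b) → (∀ j, n ≤ j → β j = 0) →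
    ∃ u : ℕ → V, (∀ j, u j ∈ b) ∧ (∃ T0, ∀ j, T0 ≤ j → u j = 0) ∧ ∀ j, cf θ u j = β j := by
  induction n with
  | zero =>
    intro β _ h0
    refine ⟨fun _ => 0, fun _ => b.zero_mem, ⟨0, fun _ _ => rfl⟩, fun j => ?_⟩
    rw [h0 j (Nat.zero_le j), cf]
    exact sum_eq_zero fun i _ => map_zero _
  | succ n ih =>
    intro β hβ h0
    obtain ⟨u1, hu1, ⟨T1, hT1⟩, hu1'⟩ := ih (fun j => if j = n then 0 else β j)
      (fun j => by
        by_cases hj : j = n
        · rw [if_pos hj]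
          exact b.zero_mem
        · rw [if_neg hj]
          exact hβ j)
      (fun j hj => by
        by_cases hj' : j = n
        · rw [if_pos hj']
        · rw [if_neg hj']
          exact h0 j (by omega))
    obtain ⟨u2, hu2, ⟨T2, hT2⟩, hu2'⟩ := borB_iii h hc hW
      (w := fun j => if j = 0 then (⟨β n, hβ n⟩ : b) else 0)
      ⟨1, fun j hj => if_neg (by omega)⟩
    have h2 : ∀ j, 1 ≤ j → cf θ u2 j = 0 := by
      refine borB_top hlim hu2 ⟨T2, hT2⟩ (T1 := T + T2) (fun j hj => h.cf_eq_zero hT2 j hj) 1 ?_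
      intro j hj
      rw [← Submodule.projectionOnto_apply_eq_zero_iff hc, hu2' j]
      exact if_neg (by omega)
    have h3 : cf θ u2 0 = β n := by
      have h4 : cf θ u2 0 = u2 0 := by
        rw [cf, sum_range_one, Nat.sub_self, h.zero, LinearMap.id_apply]
      have h5 := hu2' 0
      rw [h4, Submodule.projectionOnto_apply_of_mem_left hc (hu2 0), if_pos rfl] at h5
      rw [h4]
      exact congrArg Subtype.val h5
    refine ⟨fun j => u1 j + (if n ≤ j then u2 (j - n) else 0), fun j => ?_,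
      ⟨T1 + T2 + n, fun j hj => ?_⟩, fun j => ?_⟩
    · refine b.add_mem (hu1 j) ?_
      by_cases hj : n ≤ j
      · rw [if_pos hj]
        exact hu2 _
      · rw [if_neg hj]
        exact b.zero_mem
    · change u1 j + (if n ≤ j then u2 (j - n) else 0) = 0
      rw [hT1 j (by omega), if_pos (by omega), hT2 (j - n) (by omega), add_zero]
    · rw [cf_add, cf_shift, hu1' j]
      by_cases hj : j = n
      · subst hj
        rw [if_pos rfl, if_pos le_rfl, Nat.sub_self, h3, zero_add]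
      · rw [if_neg hj]
        by_cases hj' : n ≤ j
        · rw [if_pos hj', h2 (j - n) (by omega), add_zero]
        · rw [if_neg hj', add_zero]

/-- The case of equality.  Proof. Take `W` of `exists_adapted`.
(i) `lim θ (b ⊓ F l) ≤ lim θ b ⊓ F l` (`lim_mono`, `lim_le`) and the dimensions agree
(`finrank_le_lim` and the hypothesis), so `lim θ b ⊓ F l = lim θ (b ⊓ F l)`.  Let `v ∈ lim θ (b ⊓ F
l)`:
`v = cf θ u D` with `u j ∈ b ⊓ F l`, so `v = u D + ∑_{i < D} θ_{D-i} (u i) ∈ (b ⊓ F l) + F (l + 1)`.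
(ii) `lim θ b ⊓ W = ⊥`: let `v ≠ 0` be in it, `v ∈ F l`, `v ∉ F (l + 1)`.  By (i) `v = β + f`,
`β ∈ b ⊓ F l`, `f ∈ F (l + 1)`, `f = β' + ω'` with `β' ∈ b`, `ω' ∈ W ⊓ F (l + 1)`; then
`v - ω' = β + β' ∈ W ⊓ b = ⊥`, so `v = ω' ∈ F (l + 1)`, a contradiction.
(iii) Let `π : V → b` be the projection along `W` (`V = b ⊕ W` by `l = 0`); `π (F l) ≤ b ⊓ F l`.
Let
`θ'_k = π ∘ θ_k : b → b` with the filtration `b ⊓ F l`; it satisfies `Tay`.  So by `Tay.cf_surj`
for every polynomial `β` with values in `b` there is a polynomial `u` with values in `b` and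
`π (cf θ u j) = β j` for all `j`.
(iv) Let `β j = 0` for `j > 0`, `β 0 ∈ b` and `u` as in (iii).  If `cf θ u j ≠ 0` for some `j > 0`,
then the highest non-zero one is in `W ⊓ lim θ b = ⊥`.  So `cf θ u j = 0` for `j > 0`, and
`cf θ u 0 = u 0 ∈ b`, so `cf θ u 0 = π (u 0) = β 0`.  So: every `β 0 ∈ b`, and therefore (linearity
and shifts) every polynomial `β` with values in `b`, is `cf θ u` for a polynomial `u` with values in
`b`.
(v) Let `x ∈ b`, `w = cf θ (x, 0, 0, …)`, i.e. `w j = θ_j x`, and `β = π ∘ w = cf θ u''` by (iv).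
Then
`w - β = cf θ ((x, 0, …) - u'')` has values in `W`; if it is not zero, then its highest non-zero
coefficient is in `W ⊓ lim θ b = ⊥`, a contradiction.  So `θ_j x = β j ∈ b`. -/
theorem Tay.stable_of_eq {θ : ℕ → V →ₗ[κ] V} {F : ℕ → Submodule κ V} {T : ℕ} (h : Tay θ F T)
    (b : Submodule κ V) (hb : ∀ l, Module.finrank κ (lim θ b ⊓ F l : Submodule κ V) ≤
      Module.finrank κ (b ⊓ F l : Submodule κ V)) (k : ℕ) {v : V} (hv : v ∈ b) : θ k v ∈ b := by
  obtain ⟨W, hbW, hW⟩ := exists_adapted F T h.top h.bot h.anti b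
  have hc : IsCompl b W := by
    refine ⟨disjoint_iff.2 hbW, codisjoint_iff.2 (top_le_iff.1 ?_)⟩
    have h1 := hW 0
    rw [h.top, inf_top_eq, inf_top_eq] at h1
    exact h1
  have hlim : lim θ b ⊓ W = ⊥ := by
    rw [Submodule.eq_bot_iff]
    rintro x ⟨hx1, hx2⟩
    have key : ∀ l, x ∈ F l := by
      intro l
      induction l with
      | zero =>
        rw [h.top]
        exact Submodule.mem_top
      | succ l ih =>
        obtain ⟨β, hβ, f, hf, h1⟩ := borB_i h b l (hb l) ⟨hx1, ih⟩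
        obtain ⟨β', hβ', ω', hω', h2⟩ := Submodule.mem_sup.1 (hW (l + 1) hf)
        have h3 : x - ω' = β + β' := by
          rw [h1, ← h2]
          abel
        have h4 : x - ω' ∈ b ⊓ W := ⟨by
          rw [h3]
          exact b.add_mem hβ.1 hβ'.1, W.sub_mem hx2 hω'.1⟩
        rw [hbW] at h4
        have h5 : x = ω' := sub_eq_zero.1 ((Submodule.mem_bot κ).1 h4)
        rw [h5]
        exact hω'.2
    have h6 := key T
    rw [h.bot] at h6
    exact (Submodule.mem_bot κ).1 h6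
  -- the polynomial `x`, `x = v`
  set u1 : ℕ → V := fun j => if j = 0 then v else 0 with hu1
  have hu1b : ∀ j, u1 j ∈ b := by
    intro j
    by_cases hj : j = 0
    · simp only [hu1, if_pos hj]
      exact hv
    · simp only [hu1, if_neg hj]
      exact b.zero_mem
  have hu10 : ∀ j, 1 ≤ j → u1 j = 0 := fun j hj => if_neg (by omega)
  have hcf : ∀ j, cf θ u1 j = θ j v := by
    intro j
    rw [cf, sum_eq_single 0]
    · rw [Nat.sub_zero]
      simp only [hu1, if_pos]
    · intro i _ hi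
      rw [hu10 i (by omega), map_zero]
    · intro h0
      exact absurd (mem_range.2 (Nat.succ_pos j)) h0
  obtain ⟨u2, hu2, ⟨T2, hT2⟩, hu2'⟩ := borB_iv h hc hW hlim T
    (fun j => (Submodule.projectionOnto b W hc (θ j v) : V)) (fun j => Subtype.prop _)
    (fun j hj => by
      rw [h.eq_zero j hj, LinearMap.zero_apply, map_zero, Submodule.coe_zero])
  have h7 : ∀ j, cf θ (fun i => u1 i + (-1 : κ) • u2 i) j =
      θ j v - (Submodule.projectionOnto b W hc (θ j v) : V) := by
    intro j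
    rw [cf_add, cf_smul, hcf, hu2' j, neg_one_smul, sub_eq_add_neg]
  have h8 := borB_top hlim (u := fun i => u1 i + (-1 : κ) • u2 i)
    (fun j => b.add_mem (hu1b j) (b.smul_mem _ (hu2 j)))
    ⟨1 + T2, fun j hj => by
      rw [hu10 j (by omega), hT2 j (by omega), smul_zero, add_zero]⟩
    (T1 := T + (1 + T2)) (fun j hj => h.cf_eq_zero (T0 := 1 + T2) (fun j hj => by
      rw [hu10 j (by omega), hT2 j (by omega), smul_zero, add_zero]) j hj) 0
    (fun j _ => by
      rw [h7, ← Submodule.projectionOnto_apply_eq_zero_iff hc, map_sub,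
        Submodule.projectionOnto_apply_left hc, sub_self]) k (Nat.zero_le k)
  rw [h7] at h8
  rw [sub_eq_zero.1 h8]
  exact Subtype.prop _

/-- From `finrank_le_lim`, `lim_mono` and `lim_le`. -/
theorem Tay.finrank_inf_le_lim {θ : ℕ → V →ₗ[κ] V} {F : ℕ → Submodule κ V} {T : ℕ} (h : Tay θ F T)
    (b : Submodule κ V) (l : ℕ) : Module.finrank κ (b ⊓ F l : Submodule κ V) ≤
      Module.finrank κ (lim θ b ⊓ F l : Submodule κ V) :=
  (h.finrank_le_lim (b ⊓ F l)).trans (Submodule.finrank_mono (borB_lim_le h b l))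

end FU
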