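import Pool.Agent.Lib.MP_9e8926_ag_U.BorB

/-!
# Borel's fixed point theorem for ideals of a finite dimensional algebra
-/

set_option autoImplicit false

noncomputable section

namespace FU

open Finset

variable {κ V : Type*} [Field κ] [CommRing V] [Algebra κ V] [Module.Finite κ V]

/-- The Leibniz rule for `θ`. -/
def Leib (θ : ℕ → V →ₗ[κ] V) : Prop :=
  ∀ k a b, θ k (a * b) = ∑ x ∈ antidiagonal k, θ x.1 a * θ x.2 b

omit [Module.Finite κ V] in
private theorem borc_cf (θ : ℕ → V →ₗ[κ] V) (u : ℕ → V) (j : ℕ) :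
    cf θ u j = ∑ x ∈ antidiagonal j, θ x.2 (u x.1) := by
  rw [Finset.Nat.sum_antidiagonal_eq_sum_range_succ (fun a b => θ b (u a)) j]
  rfl

/-- `φ_X` is multiplicative. -/
theorem cf_mul {θ : ℕ → V →ₗ[κ] V} (hL : Leib θ) (u u' : ℕ → V) (j : ℕ) :
    cf θ (fun i => ∑ x ∈ antidiagonal i, u x.1 * u' x.2) j =
      ∑ x ∈ antidiagonal j, cf θ u x.1 * cf θ u' x.2 := by
  rw [borc_cf]
  have h1 : ∀ x : ℕ × ℕ, θ x.2 (∑ y ∈ antidiagonal x.1, u y.1 * u' y.2) =
      ∑ p ∈ antidiagonal x.1 ×ˢ antidiagonal x.2, θ p.2.1 (u p.1.1) * θ p.2.2 (u' p.1.2) := by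
    intro x
    rw [map_sum, Finset.sum_product]
    exact Finset.sum_congr rfl fun y _ => hL _ _ _
  have h2 : ∀ x : ℕ × ℕ, cf θ u x.1 * cf θ u' x.2 =
      ∑ p ∈ antidiagonal x.1 ×ˢ antidiagonal x.2, θ p.1.2 (u p.1.1) * θ p.2.2 (u' p.2.1) := by
    intro x
    rw [borc_cf, borc_cf, Finset.sum_mul_sum, Finset.sum_product]
  rw [Finset.sum_congr rfl fun x _ => h1 x, Finset.sum_congr rfl fun x _ => h2 x,
    Finset.sum_sigma', Finset.sum_sigma']
  refine Finset.sum_nbij'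
    (fun q => ⟨(q.2.1.1 + q.2.2.1, q.2.1.2 + q.2.2.2), (q.2.1.1, q.2.2.1), (q.2.1.2, q.2.2.2)⟩)
    (fun q => ⟨(q.2.1.1 + q.2.2.1, q.2.1.2 + q.2.2.2), (q.2.1.1, q.2.2.1), (q.2.1.2, q.2.2.2)⟩)
    ?_ ?_ ?_ ?_ ?_
  · rintro ⟨⟨a, b⟩, ⟨c, d⟩, ⟨e, f⟩⟩ h
    simp only [Finset.mem_sigma, Finset.mem_product, HasAntidiagonal.mem_antidiagonal] at h ⊢
    obtain ⟨h1, h2, h3⟩ := h
    exact ⟨by omega, trivial, trivial⟩
  · rintro ⟨⟨a, b⟩, ⟨c, d⟩, ⟨e, f⟩⟩ h
    simp only [Finset.mem_sigma, Finset.mem_product, HasAntidiagonal.mem_antidiagonal] at h ⊢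
    obtain ⟨h1, h2, h3⟩ := h
    exact ⟨by omega, trivial, trivial⟩
  · rintro ⟨⟨a, b⟩, ⟨c, d⟩, ⟨e, f⟩⟩ h
    simp only [Finset.mem_sigma, Finset.mem_product, HasAntidiagonal.mem_antidiagonal] at h
    obtain ⟨-, rfl, rfl⟩ := h
    rfl
  · rintro ⟨⟨a, b⟩, ⟨c, d⟩, ⟨e, f⟩⟩ h
    simp only [Finset.mem_sigma, Finset.mem_product, HasAntidiagonal.mem_antidiagonal] at h
    obtain ⟨-, rfl, rfl⟩ := h
    rfl
  · rintro ⟨⟨a, b⟩, ⟨c, d⟩, ⟨e, f⟩⟩ h
    rfl

private theorem borc_top {θ : ℕ → V →ₗ[κ] V} (hL : Leib θ) (c : Ideal V) {u u' : ℕ → V}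
    (huv : ∀ i j, u i * u' j ∈ c) (h0 : ∃ T0, ∀ j, T0 ≤ j → u j = 0)
    (h0' : ∃ T0, ∀ j, T0 ≤ j → u' j = 0) {D D' : ℕ} (hD : ∀ j, D < j → cf θ u j = 0)
    (hD' : ∀ j, D' < j → cf θ u' j = 0) :
    cf θ u D * cf θ u' D' ∈ lim θ (c.restrictScalars κ) := by
  rw [mem_lim]
  obtain ⟨S, hS⟩ := h0
  obtain ⟨S', hS'⟩ := h0'
  refine ⟨fun i => ∑ x ∈ antidiagonal i, u x.1 * u' x.2, fun i => c.sum_mem fun x _ => huv _ _,
    ⟨S + S', fun j hj => Finset.sum_eq_zero fun x hx => ?_⟩, D + D', fun j hj => ?_, ?_⟩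
  · rw [HasAntidiagonal.mem_antidiagonal] at hx
    by_cases h1 : S ≤ x.1
    · rw [hS _ h1, zero_mul]
    · rw [hS' _ (by omega), mul_zero]
  · rw [cf_mul hL]
    refine Finset.sum_eq_zero fun x hx => ?_
    rw [HasAntidiagonal.mem_antidiagonal] at hx
    by_cases h1 : D < x.1
    · rw [hD _ h1, zero_mul]
    · rw [hD' _ (by omega), mul_zero]
  · rw [cf_mul hL, Finset.sum_eq_single (D, D')]
    · intro x hx hne
      rw [HasAntidiagonal.mem_antidiagonal] at hx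
      by_cases h1 : D < x.1
      · rw [hD _ h1, zero_mul]
      · rw [hD' _ ?_, mul_zero]
        by_contra h2
        exact hne (Prod.ext (by show x.1 = D; omega) (by show x.2 = D'; omega))
    · intro h
      exact (h (HasAntidiagonal.mem_antidiagonal.2 rfl)).elim

/-- Proof. Let `v = cf θ u D` be in the limit and `a ∈ V`.  By `Tay.cf_surj` (`N = ⊤`) there is a
polynomial `s` with `φ_X(s) = a`, and `a v` is the coefficient of degree `D` of
`φ_X(s) φ_X(u) = φ_X(s u)` (`cf_mul`). -/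
theorem lim_smul_mem {θ : ℕ → V →ₗ[κ] V} {F : ℕ → Submodule κ V} {T : ℕ} (h : Tay θ F T)
    (hL : Leib θ) (b : Ideal V) (a : V) {v : V} (hv : v ∈ lim θ (b.restrictScalars κ)) :
    a * v ∈ lim θ (b.restrictScalars κ) := by
  rw [mem_lim] at hv
  obtain ⟨u, hu, hu0, D, hD, rfl⟩ := hv
  obtain ⟨s, -, hs0, hs⟩ := h.cf_surj (N := ⊤) (fun _ _ _ => Submodule.mem_top)
    (w := fun j => if j = 0 then a else 0) (fun _ => Submodule.mem_top)
    ⟨1, fun j hj => if_neg (by omega)⟩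
  have h1 := borc_top hL b (u := s) (u' := u) (D := 0) (D' := D)
    (fun i j => b.mul_mem_left _ (hu j)) hs0 hu0
    (fun j hj => by rw [hs, if_neg (by omega)]) hD
  rw [hs, if_pos rfl] at h1
  exact h1

/-- Products of top coefficients (`cf_mul`). -/
theorem mul_mem_lim {θ : ℕ → V →ₗ[κ] V} (hL : Leib θ) (b b' : Ideal V) {v v' : V}
    (hv : v ∈ lim θ (b.restrictScalars κ)) (hv' : v' ∈ lim θ (b'.restrictScalars κ)) :
    v * v' ∈ lim θ ((b * b').restrictScalars κ) := by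
  rw [mem_lim] at hv hv'
  obtain ⟨u, hu, hu0, D, hD, rfl⟩ := hv
  obtain ⟨u', hu', hu0', D', hD', rfl⟩ := hv'
  exact borc_top hL (b * b') (fun i j => Ideal.mul_mem_mul (hu i) (hu' j)) hu0 hu0' hD hD'

/-- The limit of an ideal as an ideal. -/
private def borcI {θ : ℕ → V →ₗ[κ] V} {F : ℕ → Submodule κ V} {T : ℕ} (h : Tay θ F T)
    (hL : Leib θ) (b : Ideal V) : Ideal V where
  carrier := {v | v ∈ lim θ (b.restrictScalars κ)}
  add_mem' := fun hx hy => (lim θ (b.restrictScalars κ)).add_mem hx hy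
  zero_mem' := (lim θ (b.restrictScalars κ)).zero_mem
  smul_mem' := fun a _ hv => lim_smul_mem h hL b a hv

private theorem borcI_res {θ : ℕ → V →ₗ[κ] V} {F : ℕ → Submodule κ V} {T : ℕ} (h : Tay θ F T)
    (hL : Leib θ) (b : Ideal V) :
    (borcI h hL b).restrictScalars κ = lim θ (b.restrictScalars κ) := by
  ext v
  rfl

private theorem borcI_pow {θ : ℕ → V →ₗ[κ] V} {F : ℕ → Submodule κ V} {T : ℕ} (h : Tay θ F T)
    (hL : Leib θ) (b : Ideal V) (m : ℕ) :
    borcI h hL b ^ (m + 1) ≤ borcI h hL (b ^ (m + 1)) := by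
  induction m with
  | zero => rw [zero_add, pow_one, pow_one]
  | succ m ih =>
    rw [pow_succ (borcI h hL b), pow_succ b]
    refine Ideal.mul_le.2 fun r hr t ht => ?_
    exact mul_mem_lim hL (b ^ (m + 1)) b (ih hr) ht

private theorem borc_quot (b : Ideal V) : Module.finrank κ (V ⧸ b) +
    Module.finrank κ (b.restrictScalars κ) = Module.finrank κ V := by
  rw [← Submodule.finrank_quotient_add_finrank (b.restrictScalars κ),
    (Submodule.Quotient.restrictScalarsEquiv κ b).finrank_eq]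

/-- Borel's fixed point theorem.  `Q` is a set of conditions: ` (m, I) ∈ Q` is the condition
`b ^ m ≤ I`.
Proof. Among the ideals `b` with `N ≤ b`, `finrank (V ⧸ b) ≤ finrank (V ⧸ b0)` and `b ^ m ≤ I` for
all
` (m, I) ∈ Q` choose one for which `w b = ∑_{l < T} finrank (b ⊓ F l)` (at most `T * finrank V`) is
maximal.  Let `i` be given and let `b'` be the ideal with underlying space `lim (θ i) b`
(`lim_smul_mem`).  It contains `N` (`lim (θ i) N ≤ N` has at least the dimension of `N`, and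
`lim_mono`), `finrank b ≤ finrank b'` (`finrank_le_lim`), and `b' ^ m ≤ lim (b ^ m) ≤ I`
(`mul_mem_lim`, `lim_mono`, `lim_le`; the case `m = 0`: `I = ⊤`).  By `finrank_inf_le_lim` and
maximality `finrank (b' ⊓ F l) = finrank (b ⊓ F l)` for all `l < T` (and trivially for `l ≥ T`), so
`b`
is stable under `θ i` by `Tay.stable_of_eq`. -/
theorem exists_stable_alg {n : ℕ} (θ : Fin n → ℕ → V →ₗ[κ] V) (F : ℕ → Submodule κ V) (T : ℕ)
    (h : ∀ i, Tay (θ i) F T) (hL : ∀ i, Leib (θ i)) (N : Ideal V)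
    (hN : ∀ i k, ∀ v ∈ N, θ i k v ∈ N) (Q : Set (ℕ × Ideal V))
    (hQ : ∀ x ∈ Q, ∀ i k, ∀ v ∈ x.2, θ i k v ∈ x.2) (b0 : Ideal V) (hb0 : N ≤ b0)
    (hb0Q : ∀ x ∈ Q, b0 ^ x.1 ≤ x.2) :
    ∃ b : Ideal V, N ≤ b ∧ Module.finrank κ (V ⧸ b) ≤ Module.finrank κ (V ⧸ b0) ∧
      (∀ x ∈ Q, b ^ x.1 ≤ x.2) ∧ ∀ i k, ∀ v ∈ b, θ i k v ∈ b := by
  set P : Ideal V → Prop := fun b => N ≤ b ∧
    Module.finrank κ (V ⧸ b) ≤ Module.finrank κ (V ⧸ b0) ∧ ∀ x ∈ Q, b ^ x.1 ≤ x.2 with hP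
  set w : Ideal V → ℕ := fun b =>
    ∑ l ∈ range T, Module.finrank κ ((b.restrictScalars κ) ⊓ F l : Submodule κ V) with hw
  have hbdd : BddAbove {m | ∃ b, P b ∧ w b = m} := by
    refine ⟨T * Module.finrank κ V, ?_⟩
    rintro m ⟨b, -, rfl⟩
    have h1 := Finset.sum_le_card_nsmul (range T)
      (fun l => Module.finrank κ ((b.restrictScalars κ) ⊓ F l : Submodule κ V))
      (Module.finrank κ V) (fun l _ => Submodule.finrank_le _)
    rw [Finset.card_range, smul_eq_mul] at h1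
    exact h1
  obtain ⟨b, hb, hbw⟩ := Nat.sSup_mem (s := {m | ∃ b, P b ∧ w b = m})
    ⟨w b0, b0, ⟨hb0, le_rfl, hb0Q⟩, rfl⟩ hbdd
  have hmax : ∀ b', P b' → w b' ≤ w b := fun b' hb' => by
    rw [hbw]
    exact le_csSup hbdd ⟨b', hb', rfl⟩
  obtain ⟨hb1, hb2, hb3⟩ := hb
  refine ⟨b, hb1, hb2, hb3, fun i k v hv => ?_⟩
  have hle : ∀ l, Module.finrank κ ((b.restrictScalars κ) ⊓ F l : Submodule κ V) ≤
      Module.finrank κ (lim (θ i) (b.restrictScalars κ) ⊓ F l : Submodule κ V) :=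
    fun l => (h i).finrank_inf_le_lim (b.restrictScalars κ) l
  have hb' : P (borcI (h i) (hL i) b) := by
    refine ⟨?_, ?_, ?_⟩
    · have h1 : lim (θ i) (N.restrictScalars κ) = N.restrictScalars κ :=
        Submodule.eq_of_le_of_finrank_le (lim_le (θ i) le_rfl (hN i))
          ((h i).finrank_le_lim (N.restrictScalars κ))
      intro x hx
      have h2 : x ∈ lim (θ i) (N.restrictScalars κ) := by
        rw [h1]
        exact hx
      exact lim_mono (θ i) (b := N.restrictScalars κ) (b' := b.restrictScalars κ) hb1 h2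
    · have h1 := borc_quot (κ := κ) b
      have h2 := borc_quot (κ := κ) (borcI (h i) (hL i) b)
      have h3 := (h i).finrank_le_lim (b.restrictScalars κ)
      rw [borcI_res] at h2
      omega
    · rintro ⟨m, I⟩ hx
      cases m with
      | zero =>
        have h1 := hb3 _ hx
        rw [pow_zero, Ideal.one_eq_top] at h1 ⊢
        exact h1
      | succ m =>
        refine (borcI_pow (h i) (hL i) b m).trans ?_
        intro x hx'
        exact lim_le (θ i) (b := (b ^ (m + 1)).restrictScalars κ) (N := I.restrictScalars κ)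
          (hb3 _ hx) (hQ _ hx i) hx'
  have h4 := hmax _ hb'
  simp only [hw] at h4
  have h5 := (Finset.sum_eq_sum_iff_of_le (s := range T) fun l _ => hle l).1
    (le_antisymm (Finset.sum_le_sum fun l _ => hle l) h4)
  refine (h i).stable_of_eq (b.restrictScalars κ) (fun l => ?_) k hv
  by_cases hl : l < T
  · exact (h5 l (Finset.mem_range.2 hl)).ge
  · have h6 : F l = ⊥ := by
      rw [eq_bot_iff, ← (h i).bot]
      exact (h i).anti (by omega)
    rw [h6, inf_bot_eq, inf_bot_eq]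

end FU
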