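import Mathlib

/-!
# Frobenius powers of power series
-/

set_option autoImplicit false

namespace FU

open PowerSeries

/-- Proof. `f = trunc + X ^ (m + 1) * g`, so `f ^ q = trunc ^ q + X ^ ((m + 1) q) g ^ q`
(`add_pow_char_pow`), which reduces the claim to polynomials, where `f ^ q = ∑ C (a_k ^ q) X ^ (k
q)`
(`sum_pow_char_pow`; or `Polynomial.expand` and `map_iterateFrobenius_expand`).  Alternatively
by induction on `e`, with the coefficient formula for `f ^ p`. -/
theorem coeff_pow_frob {p : ℕ} [Fact p.Prime] {K : Type*} [Field K] [CharP K p] (e m : ℕ)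
    (f : PowerSeries K) :
    coeff m (f ^ p ^ e) = if p ^ e ∣ m then (coeff (m / p ^ e) f) ^ p ^ e else 0 := by
  have hp : p ≠ 0 := (Fact.out : p.Prime).ne_zero
  have h1 : f ^ p ^ e = map (iterateFrobenius K p e) (expand (p ^ e) (pow_ne_zero e hp) f) :=
    (MvPowerSeries.map_iterateFrobenius_expand p hp f e).symm
  rw [h1, coeff_map, coeff_expand]
  split_ifs
  · rw [iterateFrobenius_def]
  · rw [map_zero]

/-- Proof. For `m < q - 1` the degree is too small.  For `m = q - 1` clear.  For
`m = q + j`, `j < q - 1`, ` (C y + X) ^ m = (C (y ^ q) + X ^ q) * (C y + X) ^ j`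
(`add_pow_char_pow`), and ` (C y + X) ^ j` has degree `j < q - 1`. -/
theorem coeff_add_X_pow {p : ℕ} [Fact p.Prime] {K : Type*} [Field K] [CharP K p] (e m : ℕ) (y : K)
    (hm : m < 2 * p ^ e - 1) :
    coeff (p ^ e - 1) ((C y + X : PowerSeries K) ^ m) = if m = p ^ e - 1 then 1 else 0 := by
  have hq : 0 < p ^ e := pow_pos (Fact.out : p.Prime).pos e
  have h1 : (C y + X : PowerSeries K) ^ m =
      (((Polynomial.X + Polynomial.C y) ^ m : Polynomial K) : PowerSeries K) := by
    rw [Polynomial.coe_pow, Polynomial.coe_add, Polynomial.coe_X, Polynomial.coe_C, add_comm]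
  rw [h1, Polynomial.coeff_coe]
  rcases lt_trichotomy m (p ^ e - 1) with h | h | h
  · rw [if_neg h.ne, Polynomial.coeff_X_add_C_pow, Nat.choose_eq_zero_of_lt h, Nat.cast_zero,
      mul_zero]
  · rw [if_pos h, Polynomial.coeff_X_add_C_pow, h, Nat.sub_self, pow_zero, Nat.choose_self,
      Nat.cast_one, mul_one]
  · obtain ⟨j, rfl⟩ : ∃ j, m = p ^ e + j := ⟨m - p ^ e, by omega⟩
    rw [if_neg h.ne', pow_add, add_pow_char_pow, add_mul, Polynomial.coeff_add,
      ← Polynomial.C_pow, Polynomial.coeff_C_mul, Polynomial.coeff_X_pow_mul',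
      if_neg (by omega), Polynomial.coeff_X_add_C_pow, Nat.choose_eq_zero_of_lt (by omega),
      Nat.cast_zero, mul_zero, mul_zero, add_zero]

end FU
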