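import Pool.Agent.Lib.MP_9e8926_ag_U.Th
import Pool.Agent.Lib.MP_9e8926_ag_U.Frob

/-!
# The ideals `I_e` are stable under the Taylor maps
-/

set_option autoImplicit false

noncomputable section

namespace FU

open IsLocalRing PowerSeries Finset

variable {p : ℕ} [Fact p.Prime] {κ R K : Type*} [Field κ] [CommRing R] [IsDomain R]
  [IsLocalRing R] [Field K] [CharP K p] [Algebra κ R] [Algebra R K] [IsFractionRing R K] {r : ℕ}
  {P : Fin r → Ideal R} {n C0 : ℕ} {E : ℝ}

/-- From `coeff_pow_frob`: `phi (a ^ q * x) = (phi a) ^ q * phi x`. -/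
theorem Dat.th_pow_mul (d : Dat p κ K (maximalIdeal R) P n C0 E) (i : Fin n) (e m : ℕ) (a x : K) :
    d.th i m (a ^ p ^ e * x) =
      ∑ k ∈ range (m / p ^ e + 1), d.th i k a ^ p ^ e * d.th i (m - k * p ^ e) x := by
  have hq : 0 < p ^ e := pow_pos (Nat.Prime.pos Fact.out) e
  rw [d.th_def, map_mul, map_pow, PowerSeries.coeff_mul,
    Finset.Nat.sum_antidiagonal_eq_sum_range_succ
      (fun u v => coeff u (d.phi i a ^ p ^ e) * coeff v (d.phi i x))]
  have h1 : ∀ u ∈ range m.succ, coeff u (d.phi i a ^ p ^ e) * coeff (m - u) (d.phi i x) =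
      if p ^ e ∣ u then (coeff (u / p ^ e) (d.phi i a)) ^ p ^ e * coeff (m - u) (d.phi i x)
      else 0 := by
    intro u _
    rw [coeff_pow_frob]
    split_ifs <;> simp
  rw [Finset.sum_congr rfl h1, ← Finset.sum_filter]
  symm
  refine Finset.sum_nbij (fun k => k * p ^ e) ?_ ?_ ?_ ?_
  · intro k hk
    rw [Finset.mem_range, Nat.lt_succ_iff] at hk
    rw [Finset.mem_filter, Finset.mem_range, Nat.lt_succ_iff]
    exact ⟨(Nat.le_div_iff_mul_le hq).1 hk, dvd_mul_left _ _⟩
  · intro k _ l _ h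
    exact Nat.eq_of_mul_eq_mul_right hq h
  · intro u hu
    rw [Finset.mem_coe, Finset.mem_filter, Finset.mem_range, Nat.lt_succ_iff] at hu
    obtain ⟨hu1, k, rfl⟩ := hu
    refine ⟨k, ?_, mul_comm _ _⟩
    rw [Finset.mem_coe, Finset.mem_range, Nat.lt_succ_iff, Nat.le_div_iff_mul_le hq, mul_comm]
    exact hu1
  · intro k _
    rw [Nat.mul_div_cancel _ hq, d.th_def, d.th_def]

/-- If `x` is in `R(D) = {x | x · Dq P c q ⊆ R}`, then so is `th i k x`.
Proof. Strong induction on `k`: for `a ∈ Dq P c q` we have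
`th k (x a) = th k x * a + ∑_{u < k} th u x * th (k - u) a` (`th_mul`), `x a ∈ R`, so `th k (x a) ∈
R`
(`coe_thR`), and `th (k - u) a ∈ Dq P c q` (`stab_Dq`). -/
theorem Dat.th_mem_RD (d : Dat p κ K (maximalIdeal R) P n C0 E) (i : Fin n) (c : Fin r → ℚ) (q : ℕ)
    {x : K} (hx : ∀ a ∈ Dq P c q, x * algebraMap R K a ∈ (algebraMap R K).range) (k : ℕ) :
    ∀ a ∈ Dq P c q, d.th i k x * algebraMap R K a ∈ (algebraMap R K).range := by
  induction k using Nat.strong_induction_on with
  | _ k ih =>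
    intro a ha
    have h1 := d.th_mul i k x (algebraMap R K a)
    rw [Finset.Nat.sum_antidiagonal_eq_sum_range_succ
      (fun u v => d.th i u x * d.th i v (algebraMap R K a)), Finset.sum_range_succ, Nat.sub_self,
      d.th_zero] at h1
    have h2 : d.th i k x * algebraMap R K a = d.th i k (x * algebraMap R K a) -
        ∑ u ∈ range k, d.th i u x * d.th i (k - u) (algebraMap R K a) := by
      rw [h1]; ring
    rw [h2]
    refine sub_mem ?_ (sum_mem fun u hu => ?_)
    · obtain ⟨b, hb⟩ := hx a ha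
      rw [← hb, ← d.coe_thR]
      exact ⟨_, rfl⟩
    · rw [← d.coe_thR]
      exact ih u (Finset.mem_range.1 hu) _ (d.stab_Dq i c q (k - u) a ha)

/-- The recursion. -/
private noncomputable def xiIe {K : Type*} [Field K] (q : ℕ) (hq : 0 < q) (T : ℕ → (K →+ K))
    (φ : K →+ K) (m : ℕ) : K →+ K :=
  φ.comp (T m) - ∑ k : Fin (m / q), (T (k + 1)).comp (xiIe q hq T φ (m - (k + 1) * q))
termination_by m
decreasing_by
  have h1 : ((k : ℕ) + 1) * q ≤ m := (Nat.le_div_iff_mul_le hq).1 k.2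
  have h2 : 0 < ((k : ℕ) + 1) * q := by positivity
  omega

private theorem xiIe_apply {K : Type*} [Field K] (q : ℕ) (hq : 0 < q) (T : ℕ → (K →+ K))
    (φ : K →+ K) (m : ℕ) (x : K) :
    xiIe q hq T φ m x =
      φ (T m x) - ∑ k ∈ range (m / q), T (k + 1) (xiIe q hq T φ (m - (k + 1) * q) x) := by
  rw [xiIe, Finset.sum_range]
  simp

private theorem xiIe_sum {K : Type*} [Field K] (q : ℕ) (hq : 0 < q) (T : ℕ → (K →+ K))
    (hT : ∀ x, T 0 x = x) (φ : K →+ K) (m : ℕ) (x : K) :
    φ (T m x) = ∑ k ∈ range (m / q + 1), T k (xiIe q hq T φ (m - k * q) x) := by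
  rw [Finset.sum_range_succ', hT, zero_mul, Nat.sub_zero, xiIe_apply q hq T φ m x]
  ring

/-- Proof. Let `q = p ^ e` and `φ` of level `e`.  Define additive maps `ξ m : K → K` by strong
recursion: `ξ m x = φ (th m x) - ∑_{1 ≤ k ≤ m / q} th k (ξ (m - k q) x)`, so that
(*) `φ (th m x) = ∑_{k ≤ m / q} th k (ξ (m - k q) x)` (the `k = 0` term is `ξ m x`).
Claim: all `ξ m` satisfy `IsCart p P c e`.
(a) `ξ m (a ^ q x) = a * ξ m x` by strong induction on `m`: by `th_pow_mul` and linearity of `φ`,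
`φ (th m (a ^ q x)) = ∑_k th k a * φ (th (m - k q) x)
  = ∑_k ∑_l th k a * th l (ξ (m - k q - l q) x) = ∑_N th N (a * ξ (m - N q) x)` (`th_mul`), and by
induction the terms with `N ≥ 1` are `th N (ξ (m - N q) (a ^ q x))`; subtract them.
(b) if `x ∈ R(D)`, then `ξ m x ∈ R` by strong induction, (*), `th_mem_RD` and `coe_thR`.
Now let `a ∈ I_e`.  Then `ξ m a ∈ 𝔪` for all `m`, and by (*) and `stab_max` (for `l = 1`)
`φ (th m a) ∈ 𝔪`.  So `thR m a ∈ I_e`. -/
theorem Dat.stab_Ie (d : Dat p κ K (maximalIdeal R) P n C0 E) (i : Fin n) (c : Fin r → ℚ) (e : ℕ) :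
    d.Stab i (Ie p K (maximalIdeal R) P c e) := by
  have hq : 0 < p ^ e := pow_pos (Nat.Prime.pos Fact.out) e
  intro m a ha φ hφ
  set ξ : ℕ → (K →+ K) := xiIe (p ^ e) hq (d.th i) φ with hξ
  have hrec : ∀ m x, ξ m x = φ (d.th i m x) -
      ∑ k ∈ range (m / p ^ e), d.th i (k + 1) (ξ (m - (k + 1) * p ^ e) x) :=
    fun m x => xiIe_apply _ hq _ _ m x
  have hstar : ∀ m x, φ (d.th i m x) =
      ∑ k ∈ range (m / p ^ e + 1), d.th i k (ξ (m - k * p ^ e) x) :=
    fun m x => xiIe_sum _ hq _ (d.th_zero i) _ m x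
  -- the maps are Cartier maps
  have hlin : ∀ m, ∀ s x : K, ξ m (s ^ p ^ e * x) = s * ξ m x := by
    intro m
    induction m using Nat.strong_induction_on with
    | _ m ih =>
      intro s x
      have h1 : φ (d.th i m (s ^ p ^ e * x)) = ∑ N ∈ range (m / p ^ e + 1),
          d.th i N (s * ξ (m - N * p ^ e) x) := by
        rw [d.th_pow_mul, map_sum]
        have h2 : ∀ k ∈ range (m / p ^ e + 1),
            φ (d.th i k s ^ p ^ e * d.th i (m - k * p ^ e) x) =
            ∑ l ∈ range (m / p ^ e + 1 - k),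
              d.th i k s * d.th i l (ξ (m - (k + l) * p ^ e) x) := by
          intro k hk
          rw [Finset.mem_range, Nat.lt_succ_iff] at hk
          rw [hφ.1, hstar, Finset.mul_sum]
          have h3 : (m - k * p ^ e) / p ^ e + 1 = m / p ^ e + 1 - k := by
            rw [mul_comm, Nat.sub_mul_div, Nat.sub_add_comm hk]
          rw [h3]
          refine Finset.sum_congr rfl fun l _ => ?_
          rw [Nat.sub_sub, ← add_mul]
        rw [Finset.sum_congr rfl h2]
        rw [← Finset.sum_range_diag_flip (m / p ^ e + 1)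
          (fun k l => d.th i k s * d.th i l (ξ (m - (k + l) * p ^ e) x))]
        refine Finset.sum_congr rfl fun N _ => ?_
        rw [d.th_mul, Finset.Nat.sum_antidiagonal_eq_sum_range_succ
          (fun u v => d.th i u s * d.th i v (ξ (m - N * p ^ e) x))]
        refine Finset.sum_congr rfl fun k hk => ?_
        rw [Finset.mem_range, Nat.lt_succ_iff] at hk
        rw [Nat.add_sub_cancel' hk]
      rw [hrec, h1, Finset.sum_range_succ', d.th_zero, zero_mul, Nat.sub_zero]
      have h4 : ∀ k ∈ range (m / p ^ e),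
          d.th i (k + 1) (ξ (m - (k + 1) * p ^ e) (s ^ p ^ e * x)) =
          d.th i (k + 1) (s * ξ (m - (k + 1) * p ^ e) x) := by
        intro k hk
        have h5 : (k + 1) * p ^ e ≤ m := (Nat.le_div_iff_mul_le hq).1 (Finset.mem_range.1 hk)
        have h6 : 0 < (k + 1) * p ^ e := by positivity
        rw [ih _ (by omega)]
      rw [Finset.sum_congr rfl h4]
      ring
  have hreg : ∀ m, ∀ x : K,
      (∀ a ∈ Dq P c (p ^ e), x * algebraMap R K a ∈ (algebraMap R K).range) →
      ξ m x ∈ (algebraMap R K).range := by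
    intro m
    induction m using Nat.strong_induction_on with
    | _ m ih =>
      intro x hx
      rw [hrec]
      refine sub_mem (hφ.2 _ (d.th_mem_RD i c (p ^ e) hx m)) (sum_mem fun k hk => ?_)
      have h5 : (k + 1) * p ^ e ≤ m := (Nat.le_div_iff_mul_le hq).1 (Finset.mem_range.1 hk)
      have h6 : 0 < (k + 1) * p ^ e := by positivity
      obtain ⟨b, hb⟩ := ih (m - (k + 1) * p ^ e) (by omega) x hx
      rw [← hb, ← d.coe_thR]
      exact ⟨_, rfl⟩
  have hval : ∀ m, ∃ b ∈ maximalIdeal R, ξ m (algebraMap R K a) = algebraMap R K b :=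
    fun m => ha (ξ m) ⟨hlin m, hreg m⟩
  choose b hb hb' using hval
  rw [d.coe_thR, hstar]
  refine ⟨∑ k ∈ range (m / p ^ e + 1), d.thR i k (b (m - k * p ^ e)),
    sum_mem fun k _ => ?_, ?_⟩
  · have h7 := d.stab_max i 1 k (b (m - k * p ^ e)) (by rw [pow_one]; exact hb _)
    rwa [pow_one] at h7
  · rw [map_sum]
    refine Finset.sum_congr rfl fun k _ => ?_
    rw [d.coe_thR, hb']

end FU
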