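import Pool.Agent.Lib.MP_9e8926_ag_U.BorC
import Pool.Agent.Lib.MP_9e8926_ag_U.StabIe

/-!
# Stable ideals in the local ring
-/

set_option autoImplicit false

noncomputable section

namespace FU

open IsLocalRing Finset

/-- `R ⧸ 𝔪 ^ L` is a finite set, so it has finitely many ideals, and the ideals of `R` above
`𝔪 ^ L` are the preimages of these. -/
theorem Dat.finite_ideals {p : ℕ} {κ R K : Type*} [Field κ] [Finite κ] [CommRing R] [IsLocalRing R]
    [Field K] [Algebra κ R] [Algebra R K] {r : ℕ} {P : Fin r → Ideal R} {n C0 : ℕ} {E : ℝ}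
    (d : Dat p κ K (maximalIdeal R) P n C0 E) (L : ℕ) :
    Finite {b : Ideal R // maximalIdeal R ^ L ≤ b} := by
  have := d.fin L
  have : Finite (R ⧸ maximalIdeal R ^ L) := Module.finite_of_finite κ
  have : Finite (Ideal (R ⧸ maximalIdeal R ^ L)) :=
    Finite.of_injective
      (SetLike.coe : Ideal (R ⧸ maximalIdeal R ^ L) → Set (R ⧸ maximalIdeal R ^ L))
      SetLike.coe_injective
  refine Finite.of_injective (fun b : {b : Ideal R // maximalIdeal R ^ L ≤ b} =>
    b.1.map (Ideal.Quotient.mk (maximalIdeal R ^ L))) fun b b' h => Subtype.ext ?_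
  have h1 := congrArg (Ideal.comap (Ideal.Quotient.mk (maximalIdeal R ^ L))) h
  simp only at h1
  rwa [Ideal.comap_map_mk b.2, Ideal.comap_map_mk b'.2] at h1

variable {p : ℕ} [Fact p.Prime] {κ R K : Type*} [Field κ] [CommRing R] [IsDomain R]
  [IsLocalRing R] [Field K] [CharP K p] [Algebra κ R] [Algebra R K] [IsFractionRing R K] {r : ℕ}
  {P : Fin r → Ideal R} {n C0 : ℕ} {E : ℝ}

omit [Fact p.Prime] [CharP K p] in
/-- The map induced by `thR i k` on the quotient by a stable ideal. -/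
private theorem BorD_map (d : Dat p κ K (maximalIdeal R) P n C0 E) (L' : ℕ) (i : Fin n) (k : ℕ) :
    ∃ θ : (R ⧸ maximalIdeal R ^ L') →ₗ[κ] (R ⧸ maximalIdeal R ^ L'), ∀ a : R,
      θ (Ideal.Quotient.mk (maximalIdeal R ^ L') a) =
        Ideal.Quotient.mk (maximalIdeal R ^ L') (d.thR i k a) := by
  have h1 : (maximalIdeal R ^ L').restrictScalars κ ≤
      ((maximalIdeal R ^ L').restrictScalars κ).comap (d.thR i k) :=
    fun a ha => d.stab_max i L' k a ha
  refine ⟨(Submodule.Quotient.restrictScalarsEquiv κ (maximalIdeal R ^ L')).toLinearMap.comp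
    ((Submodule.mapQ _ _ (d.thR i k) h1).comp
      (Submodule.Quotient.restrictScalarsEquiv κ (maximalIdeal R ^ L')).symm.toLinearMap),
    fun a => rfl⟩

/-- `finrank (V ⧸ b') = finrank (R ⧸ b)` for `V = R ⧸ I` and `I ≤ b`. -/
private theorem BorD_finrank {κ R : Type*} [Field κ] [CommRing R] [Algebra κ R] {I b : Ideal R}
    (h : I ≤ b) : Module.finrank κ ((R ⧸ I) ⧸ b.map (Ideal.Quotient.mk I)) =
      Module.finrank κ (R ⧸ b) :=
  (DoubleQuot.quotQuotEquivQuotOfLEₐ κ h).toLinearEquiv.finrank_eq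

omit [Fact p.Prime] [CharP K p] in
/-- The image of a stable ideal. -/
private theorem BorD_stab (d : Dat p κ K (maximalIdeal R) P n C0 E) {L' : ℕ}
    {θ : Fin n → ℕ → (R ⧸ maximalIdeal R ^ L') →ₗ[κ] (R ⧸ maximalIdeal R ^ L')}
    (hθ : ∀ i k a, θ i k (Ideal.Quotient.mk (maximalIdeal R ^ L') a) =
      Ideal.Quotient.mk (maximalIdeal R ^ L') (d.thR i k a)) {I : Ideal R}
    (hI : ∀ i, d.Stab i I) (i : Fin n) (k : ℕ) :
    ∀ v ∈ I.map (Ideal.Quotient.mk (maximalIdeal R ^ L')),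
      θ i k v ∈ I.map (Ideal.Quotient.mk (maximalIdeal R ^ L')) := by
  intro v hv
  obtain ⟨a, ha, rfl⟩ := (Ideal.mem_map_iff_of_surjective _ Ideal.Quotient.mk_surjective).1 hv
  rw [hθ]
  exact Ideal.mem_map_of_mem _ (hI i k a ha)

/-- Proof. Let `L' = max L (C0 * p ^ E')` and `V = R ⧸ 𝔪 ^ L'`, with the maps `θ i k` induced by
`thR i k` (`stab_max`), `F l` the image of `𝔪 ^ l`, `T = L'`, `N` the image of `𝔪 ^ L`,
`Q = {(j, image of I_e) | e ≤ E', S p ^ e ≤ m j}` and the image of `b0`.  `Tay` by `thR_zero` and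
`thR_mem_max`, `Leib` by `thR_mul`, stability by `stab_max` and `stab_Ie`.  Apply
`exists_stable_alg` and take the preimage `b`.  `R ⧸ b ≃ V ⧸ b.map` (`DoubleQuot`, or both
quotients of `R` by the same ideal), and `b ^ j ≤ I_e ⊔ 𝔪 ^ L' = I_e` for `e ≤ E'`, because
`𝔪 ^ L' ≤ 𝔪 ^ (C0 p ^ e) ≤ I_e` (`maxPow_le_Ie` with `d.g`, `d.span_g`). -/
theorem Dat.exists_stable_bdd (hC : 1 ≤ C0) (d : Dat p κ K (maximalIdeal R) P n C0 E)
    (c : Fin r → ℚ) (S : ℝ) (m L E' : ℕ) (b0 : Ideal R) (h0 : maximalIdeal R ^ L ≤ b0)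
    (hP : Prp p K (maximalIdeal R) P c S m b0) :
    ∃ b : Ideal R, maximalIdeal R ^ L ≤ b ∧
      Module.finrank κ (R ⧸ b) ≤ Module.finrank κ (R ⧸ b0) ∧
      (∀ e i : ℕ, e ≤ E' → S * (p : ℝ) ^ e ≤ (m : ℝ) * i →
        b ^ i ≤ Ie p K (maximalIdeal R) P c e) ∧
      ∀ i, d.Stab i b := by
  set L' : ℕ := max L (C0 * p ^ E') with hL'
  have := d.fin L'
  choose θ hθ using fun i k => BorD_map d L' i k
  have hpow : ∀ l, l ≤ L' → maximalIdeal R ^ L' ≤ maximalIdeal R ^ l :=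
    fun l hl => Ideal.pow_le_pow_right hl
  have hIe : ∀ e, e ≤ E' → maximalIdeal R ^ L' ≤ Ie p K (maximalIdeal R) P c e := by
    intro e he
    refine (hpow (C0 * p ^ e) (le_trans ?_ (le_max_right _ _))).trans
      (maxPow_le_Ie hC d.g d.span_g e)
    exact Nat.mul_le_mul_left _ (Nat.pow_le_pow_right (Nat.Prime.pos Fact.out) he)
  have hTay : ∀ i, Tay (θ i)
      (fun l => ((maximalIdeal R ^ l).map
        (Ideal.Quotient.mk (maximalIdeal R ^ L'))).restrictScalars κ) L' := by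
    intro i
    refine ⟨?_, ?_, ?_, ?_, ?_⟩
    · refine LinearMap.ext fun v => ?_
      obtain ⟨a, rfl⟩ := Ideal.Quotient.mk_surjective v
      rw [hθ, d.thR_zero, LinearMap.id_apply]
    · rw [pow_zero, Ideal.one_eq_top, Ideal.map_top, Submodule.restrictScalars_top]
    · rw [Ideal.map_quotient_self, Submodule.restrictScalars_bot]
    · intro l l' hl v hv
      exact Ideal.map_mono (Ideal.pow_le_pow_right hl) hv
    · intro k l v hv
      obtain ⟨a, ha, rfl⟩ :=
        (Ideal.mem_map_iff_of_surjective _ Ideal.Quotient.mk_surjective).1 hv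
      rw [hθ]
      exact Ideal.mem_map_of_mem _ (d.thR_mem_max i k l ha)
  have hLeib : ∀ i, Leib (θ i) := by
    intro i k v w
    obtain ⟨a, rfl⟩ := Ideal.Quotient.mk_surjective v
    obtain ⟨b, rfl⟩ := Ideal.Quotient.mk_surjective w
    rw [← map_mul, hθ, d.thR_mul, map_sum]
    refine Finset.sum_congr rfl fun x _ => ?_
    rw [map_mul, hθ, hθ]
  obtain ⟨b', h1, h2, h3, h4⟩ := exists_stable_alg θ _ L' hTay hLeib
    ((maximalIdeal R ^ L).map (Ideal.Quotient.mk (maximalIdeal R ^ L')))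
    (fun i k => BorD_stab d hθ (fun i => d.stab_max i L) i k)
    {x | ∃ e, e ≤ E' ∧ S * (p : ℝ) ^ e ≤ (m : ℝ) * x.1 ∧
      x.2 = (Ie p K (maximalIdeal R) P c e).map (Ideal.Quotient.mk (maximalIdeal R ^ L'))}
    (by
      rintro ⟨j, I⟩ ⟨e, -, -, hI⟩ i k
      simp only at hI
      rw [hI]
      exact BorD_stab d hθ (fun i => d.stab_Ie i c e) i k)
    (b0.map (Ideal.Quotient.mk (maximalIdeal R ^ L'))) (Ideal.map_mono h0)
    (by
      rintro ⟨j, I⟩ ⟨e, -, he, hI⟩
      simp only at hI he ⊢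
      rw [hI, ← Ideal.map_pow]
      exact Ideal.map_mono (hP e j he))
  have hmc : (b'.comap (Ideal.Quotient.mk (maximalIdeal R ^ L'))).map
      (Ideal.Quotient.mk (maximalIdeal R ^ L')) = b' :=
    Ideal.map_comap_of_surjective _ Ideal.Quotient.mk_surjective b'
  have hle : maximalIdeal R ^ L ≤ b'.comap (Ideal.Quotient.mk (maximalIdeal R ^ L')) :=
    Ideal.map_le_iff_le_comap.1 h1
  have hle' : maximalIdeal R ^ L' ≤ maximalIdeal R ^ L := hpow L (le_max_left _ _)
  refine ⟨b'.comap (Ideal.Quotient.mk (maximalIdeal R ^ L')), hle, ?_, ?_, ?_⟩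
  · rw [← BorD_finrank (κ := κ) (hle'.trans hle), ← BorD_finrank (κ := κ) (hle'.trans h0), hmc]
    exact h2
  · intro e i he hi
    have h5 := h3 (i, (Ie p K (maximalIdeal R) P c e).map
      (Ideal.Quotient.mk (maximalIdeal R ^ L'))) ⟨e, he, hi, rfl⟩
    simp only at h5
    rw [← hmc, ← Ideal.map_pow, Ideal.map_le_iff_le_comap, Ideal.comap_map_mk (hIe e he)] at h5
    exact h5
  · intro i k a ha
    rw [Ideal.mem_comap] at ha ⊢
    rw [← hθ]
    exact h4 i k _ ha

/-- Proof. For every `E'` take the ideal `b_{E'}` of `exists_stable_bdd`.  By `finite_ideals` and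
the pigeonhole principle (`Finite.exists_infinite_fiber`) one ideal `b` occurs for infinitely many
`E'`; it satisfies the conditions for all `e`. -/
theorem Dat.exists_stable [Finite κ] (hC : 1 ≤ C0) (d : Dat p κ K (maximalIdeal R) P n C0 E)
    (c : Fin r → ℚ) (S : ℝ) (m L : ℕ) (b0 : Ideal R) (h0 : maximalIdeal R ^ L ≤ b0)
    (hP : Prp p K (maximalIdeal R) P c S m b0) :
    ∃ b : Ideal R, maximalIdeal R ^ L ≤ b ∧
      Module.finrank κ (R ⧸ b) ≤ Module.finrank κ (R ⧸ b0) ∧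
      Prp p K (maximalIdeal R) P c S m b ∧ ∀ i, d.Stab i b := by
  choose f hf1 hf2 hf3 hf4 using fun E' => d.exists_stable_bdd hC c S m L E' b0 h0 hP
  have := d.finite_ideals L
  obtain ⟨b, hb⟩ := Finite.exists_infinite_fiber
    (fun E' => (⟨f E', hf1 E'⟩ : {b : Ideal R // maximalIdeal R ^ L ≤ b}))
  have hb' : ∀ e : ℕ, ∃ E', e ≤ E' ∧ f E' = b.1 := by
    intro e
    obtain ⟨E', h1, h2⟩ := (Set.infinite_coe_iff.1 hb).exists_gt e
    exact ⟨E', h2.le, congrArg Subtype.val h1⟩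
  obtain ⟨E0, -, h0'⟩ := hb' 0
  refine ⟨b.1, b.2, ?_, fun e i hi => ?_, ?_⟩
  · rw [← h0']
    exact hf2 E0
  · obtain ⟨E', h1, h2⟩ := hb' e
    rw [← h2]
    exact hf3 E' e i h1 hi
  · rw [← h0']
    exact hf4 E0

end FU
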