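import Pool.Agent.Lib.MP_9e8926_ag_U.Dat

/-!
# The ideals `I_e`: elementary properties
-/

set_option autoImplicit false

noncomputable section

namespace FU

open IsLocalRing

private theorem CalA_Dq {R : Type*} [CommRing R] {r : ℕ} {P : Fin r → Ideal R} {c : Fin r → ℚ}
    {q q' : ℕ} {a b : R} (ha : a ∈ Dq P c q) (hb : b ∈ Dq P c q') :
    a ^ q' * b ∈ Dq P c (q * q') := by
  have h1 : a ^ q' * b ∈ Dq P c q ^ q' * Dq P c q' :=
    Ideal.mul_mem_mul (Ideal.pow_mem_pow ha q') hb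
  have h2 : Dq P c q ^ q' * Dq P c q' ≤ Dq P c (q * q') := by
    unfold Dq
    rw [← Finset.prod_pow, ← Finset.prod_mul_distrib]
    refine Finset.prod_le_prod' fun j _ => ?_
    rw [← pow_mul, ← pow_add]
    refine Ideal.pow_le_pow_right (Nat.ceil_le.2 ?_)
    have e1 : (c j : ℝ) * (((q * q' : ℕ) : ℝ) - 1) =
        (c j : ℝ) * ((q : ℝ) - 1) * q' + (c j : ℝ) * ((q' : ℝ) - 1) := by
      push_cast
      ring
    rw [e1]
    push_cast
    exact add_le_add (mul_le_mul_of_nonneg_right (Nat.le_ceil _) (Nat.cast_nonneg _))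
      (Nat.le_ceil _)
  exact h2 h1

private theorem CalA_mon {R : Type*} [CommRing R] {C0 N q T : ℕ} (hq : 0 < q) (g : Fin C0 → R)
    (I : Ideal R) (h : ∀ a ∈ Ideal.span (Set.range g) ^ T, ∀ s : R, a ^ q * s ∈ I)
    (hN : T * q + C0 * (q - 1) < N + q) : Ideal.span (Set.range g) ^ N ≤ I := by
  intro x hx
  obtain ⟨Q, hQ, rfl⟩ := (Ideal.mem_span_pow_iff_exists_isHomogeneous g x).1 hx
  rw [MvPolynomial.eval_eq']
  refine I.sum_mem fun α hα => ?_
  have hd : ∑ i, α i = N := by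
    have h1 := hQ (MvPolynomial.mem_support_iff.1 hα)
    rw [Finsupp.weight_apply, Finsupp.sum_fintype _ _ (by simp)] at h1
    simpa using h1
  have e1 : ∏ i, g i ^ α i = (∏ i, g i ^ (α i / q)) ^ q * ∏ i, g i ^ (α i % q) := by
    rw [← Finset.prod_pow, ← Finset.prod_mul_distrib]
    refine Finset.prod_congr rfl fun i _ => ?_
    rw [← pow_mul, ← pow_add, mul_comm, Nat.div_add_mod]
  have e2 : MvPolynomial.coeff α Q * ∏ i, g i ^ α i =
      (∏ i, g i ^ (α i / q)) ^ q * (MvPolynomial.coeff α Q * ∏ i, g i ^ (α i % q)) := by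
    rw [e1]
    ring
  rw [e2]
  refine h _ ?_ _
  have h2 : ∏ i, g i ^ (α i / q) ∈ Ideal.span (Set.range g) ^ ∑ i, α i / q := by
    rw [← Finset.prod_pow_eq_pow_sum]
    exact Ideal.prod_mem_prod fun i _ =>
      Ideal.pow_mem_pow (Ideal.subset_span (Set.mem_range_self i)) _
  refine Ideal.pow_le_pow_right ?_ h2
  have h3 : N = q * ∑ i, α i / q + ∑ i, α i % q := by
    rw [← hd, Finset.mul_sum, ← Finset.sum_add_distrib]
    exact Finset.sum_congr rfl fun i _ => (Nat.div_add_mod _ _).symm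
  have h4 : ∑ i, α i % q ≤ C0 * (q - 1) := by
    calc ∑ i, α i % q ≤ ∑ _i : Fin C0, (q - 1) :=
          Finset.sum_le_sum fun i _ => Nat.le_sub_one_of_lt (Nat.mod_lt _ hq)
      _ = C0 * (q - 1) := by
          rw [Finset.sum_const, Finset.card_univ, Fintype.card_fin, smul_eq_mul]
  by_contra hlt
  have h5 : (∑ i, α i / q) + 1 ≤ T := not_le.1 hlt
  have h6 : q * ((∑ i, α i / q) + 1) ≤ q * T := Nat.mul_le_mul_left q h5
  rw [mul_add, mul_one, mul_comm q T] at h6
  omega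

variable {p : ℕ} [Fact p.Prime] {R K : Type*} [CommRing R] [IsDomain R] [IsLocalRing R]
  [Field K] [Algebra R K] [IsFractionRing R K] {r : ℕ} {P : Fin r → Ideal R} {c : Fin r → ℚ}

/-- Proof. With `q = p ^ e`, `q' = p ^ e'`: for `a ∈ Dq P c q` and `b ∈ Dq P c q'` we have
`a ^ q' * b ∈ Dq P c (q * q')`, because ` (∏ P_j ^ n_j) ^ q' * ∏ P_j ^ m_j = ∏ P_j ^ (q' n_j + m_j)`
(`Finset.prod_pow`, `Finset.prod_mul_distrib`) and `⌈c (q q' - 1)⌉₊ ≤ q' ⌈c (q - 1)⌉₊ + ⌈c (q' -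
1)⌉₊`
(`Nat.ceil_le`, `Nat.le_ceil`, `c (q q' - 1) = q' (c (q - 1)) + c (q' - 1)`), so that
`Ideal.pow_le_pow_right` and `Ideal.prod_mono` apply.  Let `x · Dq P c (q q') ⊆ R`.  For
`a ∈ Dq P c q` the element `ψ x * a = ψ (a ^ q' * x)` is in `R` since ` (a ^ q' x) b ∈ R` for all
`b ∈ Dq P c q'`.  So `φ (ψ x) ∈ R`.  Linearity: `φ (ψ (a ^ (q q') x)) = φ (a ^ q ψ x) = a φ (ψ x)`
(`pow_add`, `pow_mul`). -/
theorem IsCart.comp {e e' : ℕ} {φ ψ : K →+ K} (hφ : IsCart p P c e φ) (hψ : IsCart p P c e' ψ) :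
    IsCart p P c (e + e') (φ.comp ψ) := by
  refine ⟨fun a x => ?_, fun x hx => ?_⟩
  · change φ (ψ (a ^ p ^ (e + e') * x)) = a * φ (ψ x)
    rw [pow_add, pow_mul, hψ.1, hφ.1]
  · refine hφ.2 (ψ x) fun a ha => ?_
    have h1 : ψ x * algebraMap R K a = ψ (algebraMap R K a ^ p ^ e' * x) := by
      rw [hψ.1, mul_comm]
    rw [h1]
    refine hψ.2 _ fun b hb => ?_
    have h2 := hx (a ^ p ^ e' * b) (by
      rw [pow_add]
      exact CalA_Dq ha hb)
    have h3 : algebraMap R K a ^ p ^ e' * x * algebraMap R K b =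
        x * algebraMap R K (a ^ p ^ e' * b) := by
      rw [map_mul, map_pow]
      ring
    rw [h3]
    exact h2

/-- The proof is in the definition of `Ie`. -/
theorem IsCart.mulLeft {e : ℕ} {φ : K →+ K} (hφ : IsCart p P c e φ) (s : R) :
    IsCart p P c e (φ.comp (AddMonoidHom.mulLeft (algebraMap R K s))) := by
  refine ⟨fun a x => ?_, fun x hx => ?_⟩
  · simp only [AddMonoidHom.coe_comp, Function.comp_apply, AddMonoidHom.coe_mulLeft]
    rw [← hφ.1]
    ring_nf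
  · refine hφ.2 _ fun a ha => ?_
    obtain ⟨b, hb⟩ := hx a ha
    exact ⟨s * b, by simp [hb]; ring⟩

theorem IsCart.map_R {e : ℕ} {φ : K →+ K} (hφ : IsCart p P c e φ) (a : R) :
    φ (algebraMap R K a) ∈ (algebraMap R K).range := by
  exact hφ.2 _ fun b _ => ⟨a * b, map_mul _ _ _⟩

/-- `φ (a ^ q * s) = a * φ s`. -/
theorem pow_mul_mem_Ie (e : ℕ) {a : R} (ha : a ∈ maximalIdeal R) (s : R) :
    a ^ p ^ e * s ∈ Ie p K (maximalIdeal R) P c e := by
  intro φ hφ
  obtain ⟨t, ht⟩ := hφ.map_R s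
  refine ⟨a * t, Ideal.mul_mem_right _ _ ha, ?_⟩
  rw [map_mul, map_pow, hφ.1, ← ht, map_mul]

/-- Proof. `𝔪 ^ (C0 q)` is spanned by the products of `C0 q` of the generators `g i`, and such a
product is a multiple of some `g i ^ q` (pigeonhole: if all exponents are at most `q - 1`, then the
degree is at most `C0 (q - 1) < C0 q`).  Use `pow_mul_mem_Ie`. -/
theorem maxPow_le_Ie {C0 : ℕ} (hC : 1 ≤ C0) (g : Fin C0 → R)
    (hg : Ideal.span (Set.range g) = maximalIdeal R) (e : ℕ) :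
    maximalIdeal R ^ (C0 * p ^ e) ≤ Ie p K (maximalIdeal R) P c e := by
  have hp : 0 < p ^ e := pow_pos (Fact.out : p.Prime).pos e
  rw [← hg]
  refine CalA_mon (T := 1) hp g _ (fun a ha s => ?_) ?_
  · rw [pow_one, hg] at ha
    rw [hg]
    exact pow_mul_mem_Ie e ha s
  · have h1 : C0 * (p ^ e - 1) < C0 * p ^ e :=
      Nat.mul_lt_mul_of_pos_left (by omega) (by omega)
    omega

/-- The same argument as for `maxPow_le_Ie`: a product of ` (T + C0) q` generators is a product of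
the `q`-th power of a product of `T` generators and of something.  The right side is the ideal
generated by the `q`-th powers of the elements of `𝔪 ^ T`. -/
theorem maxPow_le_frob {C0 : ℕ} [ExpChar R p] (g : Fin C0 → R)
    (hg : Ideal.span (Set.range g) = maximalIdeal R) (e T : ℕ) :
    maximalIdeal R ^ ((T + C0) * p ^ e) ≤
      (maximalIdeal R ^ T).map (iterateFrobenius R p e) := by
  have hp : 0 < p ^ e := pow_pos (Fact.out : p.Prime).pos e
  rw [← hg]
  refine CalA_mon (T := T) hp g _ (fun a ha s => ?_) ?_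
  · refine Ideal.mul_mem_right _ _ ?_
    rw [← iterateFrobenius_def]
    exact Ideal.mem_map_of_mem _ ha
  · have h1 : C0 * (p ^ e - 1) ≤ C0 * p ^ e := Nat.mul_le_mul_left _ (by omega)
    rw [add_mul]
    omega

/-- Take `φ = id`: `Dq P c 1 = ⊤`. -/
theorem Ie_zero_le : Ie p K (maximalIdeal R) P c 0 ≤ maximalIdeal R := by
  intro a ha
  have h1 : IsCart p P c 0 (AddMonoidHom.id K) := by
    refine ⟨fun a x => by simp, fun x hx => ?_⟩
    have h2 := hx 1 (by
      have h3 : Dq P c (p ^ 0) = ⊤ := by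
        unfold Dq
        simp
      rw [h3]
      exact Submodule.mem_top)
    rw [map_one, mul_one] at h2
    exact h2
  obtain ⟨b, hb, h2⟩ := ha _ h1
  have h3 : a = b := IsFractionRing.injective R K h2
  rw [h3]
  exact hb

/-- For `φ` of level `e'` the composition `φ ∘ ψ` has level `e' + e`, and
`φ (ψ (w ^ q)) = φ (w * ψ 1) = φ w`. -/
theorem mem_Ie_of_pow {e e' : ℕ} {ψ : K →+ K} (hψ : IsCart p P c e ψ) (h1 : ψ 1 = 1) {w : R}
    (hw : w ^ p ^ e ∈ Ie p K (maximalIdeal R) P c (e' + e)) :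
    w ∈ Ie p K (maximalIdeal R) P c e' := by
  intro φ hφ
  obtain ⟨b, hb, h2⟩ := hw _ (hφ.comp hψ)
  refine ⟨b, hb, ?_⟩
  rw [← h2]
  change φ (algebraMap R K w) = φ (ψ (algebraMap R K (w ^ p ^ e)))
  have h3 : ψ (algebraMap R K (w ^ p ^ e)) = algebraMap R K w := by
    have h4 := hψ.1 (algebraMap R K w) 1
    rw [mul_one, h1, mul_one, ← map_pow] at h4
    exact h4
  rw [h3]

/-- `x = x * ψ 1 = ψ (x ^ q)`, and `ψ` maps `R` into `R`. -/
theorem root_mem {e : ℕ} {ψ : K →+ K} (hψ : IsCart p P c e ψ) (h1 : ψ 1 = 1) {x : K}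
    (hx : x ^ p ^ e ∈ (algebraMap R K).range) : x ∈ (algebraMap R K).range := by
  obtain ⟨a, ha⟩ := hx
  have h2 := hψ.1 x 1
  rw [mul_one, h1, mul_one, ← ha] at h2
  rw [← h2]
  exact hψ.map_R a

end FU
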