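import Pool.Agent.Lib.MP_9e8926_ag_U.Defs

/-!
# The uniform data of a point of a variety over a finite field
-/

set_option autoImplicit false

noncomputable section

namespace FU

open Filter PowerSeries

/-- The uniform data of a closed point of a variety of dimension `n` over a finite field `κ`:
`R` is the local ring, `K` its field of fractions, `g` are `C0` generators of the maximal ideal, `y`
is a separating transcendence basis, `D i` are the Taylor maps `y_i ↦ y_i + X`, whose coefficients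
have poles bounded by `J`, `b` vanishes on the boundary and is in `𝔪²`, and `E` bounds the Hilbert
function of `R/(bJ)`. -/
structure Dat (p : ℕ) (κ : Type*) {R : Type*} (K : Type*) [Field κ] [CommRing R] [Field K]
    [Algebra κ R] [Algebra R K] (𝔪 : Ideal R) {r : ℕ} (P : Fin r → Ideal R) (n C0 : ℕ)
    (E : ℝ) where
  /-- generators of the maximal ideal -/
  g : Fin C0 → R
  span_g : Ideal.span (Set.range g) = 𝔪
  fin : ∀ L : ℕ, Module.Finite κ (R ⧸ 𝔪 ^ L)
  /-- a separating transcendence basis -/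
  y : Fin n → R
  /-- the Taylor maps -/
  D : Fin n → K →+* PowerSeries K
  D_zero : ∀ i a, constantCoeff (D i a) = a
  D_y : ∀ i j, D i (algebraMap R K (y j)) = C (algebraMap R K (y j)) + if i = j then X else 0
  D_const : ∀ i (a : κ), D i (algebraMap R K (algebraMap κ R a)) =
    C (algebraMap R K (algebraMap κ R a))
  basis : ∀ (e : ℕ) (z : K), ∃ u : (Fin n → Fin (p ^ e)) → K,
    z = ∑ α, (∏ i, algebraMap R K (y i) ^ (α i : ℕ)) * u α ^ p ^ e
  /-- the bound for the poles -/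
  J : R
  J_ne : J ≠ 0
  J_D : ∀ i k (a : R), algebraMap R K J ^ k * coeff k (D i (algebraMap R K a)) ∈
    (algebraMap R K).range
  /-- the element which vanishes on the boundary -/
  b : R
  b_ne : b ≠ 0
  b_mem : b ∈ 𝔪 ^ 2
  b_P : ∀ j, b ∈ P j
  E1 : ∀ L : ℕ, 1 ≤ L →
    (Module.finrank κ (R ⧸ (Ideal.span {b * J} ⊔ 𝔪 ^ L)) : ℝ) ≤ E * (L : ℝ) ^ (n - 1)
  E0 : ∃ B : ℝ, ∀ L : ℕ, 1 ≤ L → (Module.finrank κ (R ⧸ 𝔪 ^ L) : ℝ) ≤ B * (L : ℝ) ^ n

/-- `a ∈ R` is in `I_e` if `φ a ∈ 𝔪` for all `p^{-e}`-linear maps `φ` from `R(⌈(p^e - 1) Δ⌉)` to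
`R`. -/
def Ie (p : ℕ) {R : Type*} [CommRing R] (K : Type*) [Field K] [Algebra R K] (𝔪 : Ideal R) {r : ℕ}
    (P : Fin r → Ideal R) (c : Fin r → ℚ) (e : ℕ) : Ideal R where
  carrier := {a | ∀ φ : K →+ K, IsCart p P c e φ → ∃ b ∈ 𝔪, φ (algebraMap R K a) = algebraMap R K b}
  add_mem' := by
    intro a a' h h' φ hφ
    obtain ⟨b, hb, e1⟩ := h φ hφ
    obtain ⟨b', hb', e2⟩ := h' φ hφ
    exact ⟨b + b', 𝔪.add_mem hb hb', by rw [map_add, map_add, e1, e2, map_add]⟩
  zero_mem' := fun φ _ => ⟨0, 𝔪.zero_mem, by simp⟩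
  smul_mem' := by
    intro s a h φ hφ
    have h1 : IsCart p P c e (φ.comp (AddMonoidHom.mulLeft (algebraMap R K s))) := by
      refine ⟨fun a x => ?_, fun x hx => ?_⟩
      · simp only [AddMonoidHom.coe_comp, Function.comp_apply, AddMonoidHom.coe_mulLeft]
        rw [← hφ.1]
        ring_nf
      · refine hφ.2 _ fun a ha => ?_
        obtain ⟨b, hb⟩ := hx a ha
        exact ⟨s * b, by simp [hb]; ring⟩
    obtain ⟨b, hb, e1⟩ := h _ h1
    refine ⟨b, hb, ?_⟩
    rw [← e1]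
    simp

theorem mem_Ie {p : ℕ} {R : Type*} [CommRing R] {K : Type*} [Field K] [Algebra R K] {𝔪 : Ideal R}
    {r : ℕ} {P : Fin r → Ideal R} {c : Fin r → ℚ} {e : ℕ} {a : R} :
    a ∈ Ie p K 𝔪 P c e ↔ ∀ φ : K →+ K, IsCart p P c e φ →
      ∃ b ∈ 𝔪, φ (algebraMap R K a) = algebraMap R K b := Iff.rfl

/-- The ideal `b` behaves like the term of index `m` of a graded sequence of ideals with
`F`-pure threshold at most `S`: `b ^ i ⊆ I_e` for `m i ≥ S p^e`. -/
def Prp (p : ℕ) {R : Type*} [CommRing R] (K : Type*) [Field K] [Algebra R K] (𝔪 : Ideal R) {r : ℕ}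
    (P : Fin r → Ideal R) (c : Fin r → ℚ) (S : ℝ) (m : ℕ) (b : Ideal R) : Prop :=
  ∀ e i : ℕ, S * (p : ℝ) ^ e ≤ (m : ℝ) * i → b ^ i ≤ Ie p K 𝔪 P c e

end FU
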