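import Mathlib

/-!
# Frobenius volumes of pairs: the definitions

How the definitions of this file match the usual ones (Hara-Watanabe, Hara-Yoshida, Takagi).

* The pair. A pair of characteristic `p` is a local ring `R` with maximal ideal `𝔪`, its total ring
  of fractions `K` and a boundary `Δ = ∑ c_j P_j`, where the `c_j ≥ 0` are rational numbers and the
  `P_j` are distinct primes of height one of `R`. (The definitions make sense for any family of
  ideals; they are the usual ones for a normal domain `R` and such a family.)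

* The module `R(D)`. On a normal domain let `D = ∑ d_j P_j` with integers `d_j ≥ 0`. Then
  `R(D) = {x ∈ K | div x + D ≥ 0}` is equal to `{x ∈ K | x · ∏ P_j ^ d_j ⊆ R}`: a normal Noetherian
  domain is the intersection of its localizations at the primes of height one, and at such a prime
  both conditions read `v(x) + d_j ≥ 0` (at `P_j`) or `v(x) ≥ 0` (at the others). So there is no
  reflexive hull to take, although `∏ P_j ^ d_j` itself need not be a divisorial ideal. This is the
  set which occurs in `IsCart`, for `D = ⌈(p^e - 1) Δ⌉ = ∑ ⌈(p^e - 1) c_j⌉ P_j`.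

* The maps. A `p^{-e}`-linear map `R(D) → R` is an `R`-linear map `F^e_* R(D) → R`. It extends to
  exactly one `p^{-e}`-linear map `K → K`, as every element of `K` is `x / a^{p^e}` with `x ∈ R(D)`
  and `a ∈ R` a nonzerodivisor. So `IsCart` describes all elements of `Hom_R(F^e_* R(D), R)`.

* Strong `F`-regularity. The triple of `Spec R`, `Δ` and `I^t` is strongly `F`-regular if for every
  `d` of `R` outside the minimal primes there are `e ≥ 1` and `a ∈ I ^ ⌈t (p^e - 1)⌉` such that the
  map `R → F^e_* R(⌈(p^e - 1) Δ⌉)`, `1 ↦ d a`, splits. A left inverse is a `φ` as above with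
  `φ (d a) = 1`, and it exists as soon as some `φ (d a)` is a unit of `R`. (With `I^t` one may ask
  for the splitting of a sum of such maps; `R` is local, so one summand is enough.) This is `SFR`,
  where `d` runs over all `d ≠ 0`; for a domain that is the same. If `R` is not a domain, then `SFR`
  is false: if `d b = 0` and `φ (d a) = 1`, then `b = b φ (d a) = φ (b^{p^e} d a) = 0`, so `SFR`
  makes every `d ≠ 0` a nonzerodivisor. This agrees with the usual definition as well, as strongly
  `F`-regular local rings are (normal) domains.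

* Effective boundaries. The exponents `⌈…⌉₊` are the usual round-ups, since `c_j ≥ 0` and `t ≥ 0`
  wherever the definitions are used.

* The threshold and the volume. `fpt` is the supremum of the `t ≥ 0` for which the triple is
  strongly `F`-regular, as in the problem, and `FvolR` is the infimum of `e(I) fpt(I)ⁿ` over all
  `𝔪`-primary ideals `I`. For an `𝔪`-primary ideal of a Noetherian local ring of dimension `n ≥ 1`
  the set in the definition of `fpt` is bounded above. If the pair itself is not strongly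
  `F`-regular, the set is empty, `fpt = 0` for all ideals and the volume is `0`.

* The multiplicity. `emult κ n I` is the upper limit of `n! dim_κ (R / I^N) / N^n`. For an
  `𝔪`-primary ideal `I` of a Noetherian local ring `R` of dimension `n` with residue field `κ` the
  limit exists, and it is the Hilbert-Samuel multiplicity `e(I)`; the lengths of the `R / I^N` are
  their dimensions over `κ ⊆ R`.
-/

set_option autoImplicit false

noncomputable section

namespace FU

open Filter

/-! ## Ideals -/

/-- An ideal `I` which is primary to the maximal ideal `𝔪`. -/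
def IsPrim {R : Type*} [CommRing R] (𝔪 I : Ideal R) : Prop := I ≤ 𝔪 ∧ ∃ N : ℕ, 𝔪 ^ N ≤ I

/-- The Hilbert-Samuel multiplicity of an ideal in a ring of dimension `n` over `κ`. -/
def emult (κ : Type*) [CommRing κ] (n : ℕ) {R : Type*} [CommRing R] [Algebra κ R]
    (I : Ideal R) : ℝ :=
  limsup (fun N : ℕ => (n.factorial : ℝ) * (Module.finrank κ (R ⧸ I ^ N) : ℝ) / (N : ℝ) ^ n) atTop

/-! ## Characteristic `p` -/

section

variable {R : Type*} [CommRing R] {r : ℕ}

/-- The ideal `∏ P_j ^ ⌈c_j (q - 1)⌉`. -/
def Dq (P : Fin r → Ideal R) (c : Fin r → ℚ) (q : ℕ) : Ideal R :=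
  ∏ j, P j ^ ⌈(c j : ℝ) * ((q : ℝ) - 1)⌉₊

/-- `φ : K → K` is `p^{-e}`-linear and maps
`R(⌈(p^e - 1) Δ⌉) = {x ∈ K | x · ∏ P_j ^ ⌈c_j (p^e - 1)⌉ ⊆ R}` into `R`, where `Δ = ∑ c_j P_j`. -/
def IsCart (p : ℕ) {K : Type*} [CommRing K] [Algebra R K] (P : Fin r → Ideal R) (c : Fin r → ℚ)
    (e : ℕ) (φ : K →+ K) : Prop :=
  (∀ a x : K, φ (a ^ p ^ e * x) = a * φ x) ∧
  ∀ x : K, (∀ a ∈ Dq P c (p ^ e), x * algebraMap R K a ∈ (algebraMap R K).range) →
    φ x ∈ (algebraMap R K).range

/-- Strong `F`-regularity of the triple of `Spec R`, `∑ c_j P_j` and `I^t`, where `R` is a local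
ring with maximal ideal `𝔪` and total ring of fractions `K`: for every `d ≠ 0` there are `e ≥ 1`, a
`p^{-e}`-linear map `φ` from `R(⌈(p^e - 1) Δ⌉)` to `R` and `a ∈ I ^ ⌈t (p^e - 1)⌉` such that
`φ (d a)` is a unit. -/
def SFR (p : ℕ) (K : Type*) [CommRing K] [Algebra R K] (𝔪 : Ideal R) (P : Fin r → Ideal R)
    (c : Fin r → ℚ) (I : Ideal R) (t : ℝ) : Prop :=
  ∀ d : R, d ≠ 0 → ∃ e : ℕ, 1 ≤ e ∧ ∃ φ : K →+ K, IsCart p P c e φ ∧
    ∃ a ∈ I ^ ⌈t * ((p ^ e : ℕ) - 1 : ℝ)⌉₊, ∀ b ∈ 𝔪, φ (algebraMap R K (d * a)) ≠ algebraMap R K b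

/-- The `F`-pure threshold of `I` with respect to the pair of `Spec R` and `∑ c_j P_j`. -/
def fpt (p : ℕ) (K : Type*) [CommRing K] [Algebra R K] (𝔪 : Ideal R) (P : Fin r → Ideal R)
    (c : Fin r → ℚ) (I : Ideal R) : ℝ :=
  sSup {t : ℝ | 0 ≤ t ∧ SFR p K 𝔪 P c I t}

/-- The Frobenius volume of the pair of `Spec R` and `∑ c_j P_j`, of dimension `n`. -/
def FvolR (κ : Type*) [CommRing κ] [Algebra κ R] (n p : ℕ) (K : Type*) [CommRing K] [Algebra R K]
    (𝔪 : Ideal R) (P : Fin r → Ideal R) (c : Fin r → ℚ) : ℝ :=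
  sInf {v : ℝ | ∃ I : Ideal R, IsPrim 𝔪 I ∧ v = emult κ n I * fpt p K 𝔪 P c I ^ n}

end

end FU
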