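import Pool.Agent.Lib.MP_9e8926_ag_U.Th
import Pool.Agent.Lib.MP_9e8926_ag_U.Frob

/-!
# Extraction of coefficients from a stable ideal
-/

set_option autoImplicit false

noncomputable section

namespace FU

open IsLocalRing PowerSeries Finset

variable {p : ℕ} [Fact p.Prime] {κ R K : Type*} [Field κ] [CommRing R] [IsDomain R]
  [IsLocalRing R] [Field K] [CharP K p] [Algebra κ R] [Algebra R K] [IsFractionRing R K] {r : ℕ}
  {P : Fin r → Ideal R} {n C0 : ℕ} {E : ℝ}

/-- The operator `D_i^[p^e - 1]`. -/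
def Dat.Dt (d : Dat p κ K (maximalIdeal R) P n C0 E) (i : Fin n) (e : ℕ) : K →+ K where
  toFun a := coeff (p ^ e - 1) (d.D i a)
  map_zero' := by simp
  map_add' a b := by simp

/-- `D (a ^ q x) = (D a) ^ q D x`, and the coefficients of ` (D a) ^ q` in degrees `0 < m < q`
vanish
(`coeff_pow_frob`). -/
theorem Dat.Dt_pow_mul (d : Dat p κ K (maximalIdeal R) P n C0 E) (i : Fin n) (e : ℕ) (a x : K) :
    d.Dt i e (a ^ p ^ e * x) = a ^ p ^ e * d.Dt i e x := by
  have hq : 0 < p ^ e := pow_pos (Fact.out : p.Prime).pos e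
  change coeff (p ^ e - 1) (d.D i (a ^ p ^ e * x)) = a ^ p ^ e * coeff (p ^ e - 1) (d.D i x)
  rw [map_mul, map_pow, coeff_mul, Finset.sum_eq_single (0, p ^ e - 1)]
  · rw [coeff_pow_frob, if_pos (dvd_zero _), Nat.zero_div, coeff_zero_eq_constantCoeff_apply,
      d.D_zero]
  · intro w hw hne
    have hw' := Finset.HasAntidiagonal.mem_antidiagonal.1 hw
    have h0 : w.1 ≠ 0 := by
      intro h0
      apply hne
      ext
      · exact h0
      · change w.2 = p ^ e - 1
        omega
    have h1 : ¬ p ^ e ∣ w.1 := Nat.not_dvd_of_pos_of_lt (Nat.pos_of_ne_zero h0) (by omega)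
    rw [coeff_pow_frob, if_neg h1, zero_mul]
  · intro h
    exact absurd (Finset.HasAntidiagonal.mem_antidiagonal.2 (by simp)) h

/-- The composition of the operators `Dt i e` for `i` in the list `l`. -/
def Dat.Dl (d : Dat p κ K (maximalIdeal R) P n C0 E) (e : ℕ) (l : List (Fin n)) (x : K) : K :=
  l.foldr (fun i y => d.Dt i e y) x

/-- Proof. By induction on the list; in one step, with `q = p ^ e`: if `x` is the image of an
element `a ∈ b`, then `H ^ q Dt i x = H * th i (q - 1) x` is the image of `H * thR i (q - 1) a ∈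
b`, and
`H ^ (j q) * Dt i y = Dt i (H ^ (j q) * y)` by `Dt_pow_mul`. -/
theorem Dat.Dl_mem (d : Dat p κ K (maximalIdeal R) P n C0 E) {b : Ideal R}
    (hb : ∀ i, d.Stab i b) (e : ℕ) (l : List (Fin n)) {a : R} (ha : a ∈ b) :
    ∃ a' ∈ b, algebraMap R K a' =
      algebraMap R K d.H ^ (l.length * p ^ e) * d.Dl e l (algebraMap R K a) := by
  have hq : 0 < p ^ e := pow_pos (Fact.out : p.Prime).pos e
  induction l with
  | nil => exact ⟨a, ha, by simp [Dat.Dl]⟩
  | cons i l ih =>
    obtain ⟨a1, ha1, h1⟩ := ih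
    refine ⟨d.H * d.thR i (p ^ e - 1) a1, b.mul_mem_left _ (hb i _ a1 ha1), ?_⟩
    have h2 : d.Dl e (i :: l) (algebraMap R K a) = d.Dt i e (d.Dl e l (algebraMap R K a)) := rfl
    have h3 : d.th i (p ^ e - 1) (algebraMap R K a1) =
        algebraMap R K d.H ^ (p ^ e - 1) * d.Dt i e (algebraMap R K a1) := d.th_apply i _ _
    rw [map_mul, d.coe_thR, h3, h1, pow_mul, d.Dt_pow_mul, h2, ← mul_assoc, ← pow_succ',
      Nat.sub_add_cancel hq, List.length_cons, Nat.succ_mul, pow_add, pow_mul]
    ring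

private theorem Dat.Dl_sum (d : Dat p κ K (maximalIdeal R) P n C0 E) (e : ℕ) (l : List (Fin n))
    {ι : Type*} (s : Finset ι) (f : ι → K) :
    d.Dl e l (∑ x ∈ s, f x) = ∑ x ∈ s, d.Dl e l (f x) := by
  induction l with
  | nil => rfl
  | cons i l ih =>
    change d.Dt i e (d.Dl e l (∑ x ∈ s, f x)) = ∑ x ∈ s, d.Dt i e (d.Dl e l (f x))
    rw [ih, map_sum]

/-- One step for monomials. -/
private theorem Dat.Dt_monomial (d : Dat p κ K (maximalIdeal R) P n C0 E) (e : ℕ) (i : Fin n)
    (m : Fin n → ℕ) (hm : m i < 2 * p ^ e - 1) (u : K) (s : Finset (Fin n)) (hi : i ∉ s) :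
    d.Dt i e ((algebraMap R K (d.y i) ^ m i * ∏ j ∈ s, algebraMap R K (d.y j) ^ m j) *
      u ^ p ^ e) =
      if m i = p ^ e - 1 then (∏ j ∈ s, algebraMap R K (d.y j) ^ m j) * u ^ p ^ e else 0 := by
  rw [mul_comm (_ * _) (u ^ p ^ e), d.Dt_pow_mul]
  have h1 : d.D i (∏ j ∈ s, algebraMap R K (d.y j) ^ m j) =
      C (∏ j ∈ s, algebraMap R K (d.y j) ^ m j) := by
    rw [map_prod, map_prod]
    refine Finset.prod_congr rfl fun j hj => ?_
    have hij : i ≠ j := fun h => hi (h ▸ hj)
    rw [map_pow, map_pow, d.D_y, if_neg hij, add_zero]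
  have h2 : d.Dt i e (algebraMap R K (d.y i) ^ m i * ∏ j ∈ s, algebraMap R K (d.y j) ^ m j) =
      (if m i = p ^ e - 1 then 1 else 0) * ∏ j ∈ s, algebraMap R K (d.y j) ^ m j := by
    change coeff (p ^ e - 1) (d.D i _) = _
    rw [map_mul, h1, coeff_mul_C, map_pow, d.D_y, if_pos rfl, coeff_add_X_pow e (m i) _ hm]
  rw [h2]
  split_ifs <;> ring

private theorem Dat.Dl_monomial_aux (d : Dat p κ K (maximalIdeal R) P n C0 E) (e : ℕ)
    (m : Fin n → ℕ) (hm : ∀ i, m i < 2 * p ^ e - 1) (u : K) (l : List (Fin n)) (hl : l.Nodup) :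
    d.Dl e l ((∏ i, algebraMap R K (d.y i) ^ m i) * u ^ p ^ e) =
      if ∀ i ∈ l, m i = p ^ e - 1 then
        (∏ j ∈ univ.filter (fun j => j ∉ l), algebraMap R K (d.y j) ^ m j) * u ^ p ^ e else 0 := by
  induction l with
  | nil =>
    simp [Dat.Dl]
  | cons i l ih =>
    obtain ⟨hil, hl'⟩ := List.nodup_cons.1 hl
    change d.Dt i e (d.Dl e l _) = _
    rw [ih hl']
    have h1 : univ.filter (fun j => j ∉ l) =
        insert i (univ.filter (fun j => j ∉ (i :: l))) := by
      ext j
      simp only [mem_filter, mem_univ, true_and, mem_insert, List.mem_cons]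
      constructor
      · intro h
        by_cases hj : j = i
        · exact Or.inl hj
        · exact Or.inr fun h' => h'.elim hj h
      · rintro (rfl | h)
        · exact hil
        · exact fun h' => h (Or.inr h')
    have h2 : i ∉ univ.filter (fun j => j ∉ (i :: l)) := by
      simp
    by_cases hc : ∀ j ∈ l, m j = p ^ e - 1
    · rw [if_pos hc, h1, Finset.prod_insert h2, d.Dt_monomial e i m (hm i) u _ h2]
      by_cases hi : m i = p ^ e - 1
      · rw [if_pos hi, if_pos]
        intro j hj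
        rcases List.mem_cons.1 hj with rfl | hj
        · exact hi
        · exact hc j hj
      · rw [if_neg hi, if_neg]
        intro h
        exact hi (h i List.mem_cons_self)
    · rw [if_neg hc, map_zero, if_neg]
      intro h
      exact hc fun j hj => h j (List.mem_cons_of_mem _ hj)

/-- The operator `D_1^[q-1] ⋯ D_n^[q-1]` on `y^m u^q`.
Proof. `D i` maps `y_j ^ m` to `C (y_j ^ m)` for `j ≠ i` and to ` (C y_i + X) ^ m` for `j = i`, so
`Dt i` of ` (∏ y_j ^ (m j)) * u ^ q` is zero if `m i ≠ q - 1`, and is ` (∏_{j ≠ i} y_j ^ (m j)) * u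
^ q` if
`m i = q - 1` (`coeff_add_X_pow`, `Dt_pow_mul`); here `m j < 2 q - 1`.  Apply this for `i` in
`List.finRange n` (no repetitions). -/
theorem Dat.Dl_monomial (d : Dat p κ K (maximalIdeal R) P n C0 E) (e : ℕ) (m : Fin n → ℕ)
    (hm : ∀ i, m i < 2 * p ^ e - 1) (u : K) :
    d.Dl e (List.finRange n) ((∏ i, algebraMap R K (d.y i) ^ m i) * u ^ p ^ e) =
      if ∀ i, m i = p ^ e - 1 then u ^ p ^ e else 0 := by
  rw [d.Dl_monomial_aux e m hm u _ (List.nodup_finRange n)]
  simp

/-- Proof. Let `q = p ^ e` and `z = ∑_α y^α u_α ^ q` (`Dat.basis`).  For every `α` the element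
` (∏ y_i ^ (q - 1 - α_i)) z` is in `b`, and by `Dl_monomial` (additivity of `Dl`)
`Dl (List.finRange n)` of it is `u_α ^ q` (`q - 1 - α_i + β_i = q - 1` iff `β_i = α_i`).  By
`Dl_mem`
`H ^ (n q) u_α ^ q = (H ^ n u_α) ^ q` is the image of an element of `b`.  By the hypothesis `hroot`
`H ^ n u_α` is the image of some `w_α ∈ R`, `w_α ∈ b.comap Frob`, and
`H ^ (n q) z = ∑ y^α w_α ^ q`. -/
theorem Dat.extract [ExpChar R p] (d : Dat p κ K (maximalIdeal R) P n C0 E) (e : ℕ)
    (hroot : ∀ x : K, x ^ p ^ e ∈ (algebraMap R K).range → x ∈ (algebraMap R K).range)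
    {b : Ideal R} (hb : ∀ i, d.Stab i b) {z : R} (hz : z ∈ b) :
    d.H ^ (n * p ^ e) * z ∈
      (b.comap (iterateFrobenius R p e)).map (iterateFrobenius R p e) := by
  have hq : 0 < p ^ e := pow_pos (Fact.out : p.Prime).pos e
  have hinj : Function.Injective (algebraMap R K) := IsFractionRing.injective R K
  obtain ⟨u, hu⟩ := d.basis e (algebraMap R K z)
  have hw : ∀ α, ∃ w : R, w ∈ b.comap (iterateFrobenius R p e) ∧
      algebraMap R K w = algebraMap R K d.H ^ n * u α := by
    intro α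
    have h1 : (∏ i, d.y i ^ (p ^ e - 1 - (α i : ℕ))) * z ∈ b := b.mul_mem_left _ hz
    obtain ⟨a', ha', h2⟩ := d.Dl_mem hb e (List.finRange n) h1
    have h3 : d.Dl e (List.finRange n)
        (algebraMap R K ((∏ i, d.y i ^ (p ^ e - 1 - (α i : ℕ))) * z)) = u α ^ p ^ e := by
      rw [map_mul, hu, Finset.mul_sum, d.Dl_sum, Finset.sum_eq_single α]
      · have h4 : algebraMap R K (∏ i, d.y i ^ (p ^ e - 1 - (α i : ℕ))) *
            ((∏ i, algebraMap R K (d.y i) ^ (α i : ℕ)) * u α ^ p ^ e) =
            (∏ i, algebraMap R K (d.y i) ^ (p ^ e - 1 - (α i : ℕ) + (α i : ℕ))) *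
              u α ^ p ^ e := by
          rw [← mul_assoc, map_prod, ← Finset.prod_mul_distrib]
          congr 1
          refine Finset.prod_congr rfl fun i _ => ?_
          rw [map_pow, pow_add]
        rw [h4, d.Dl_monomial, if_pos]
        · intro i
          have := (α i).2
          omega
        · intro i
          have := (α i).2
          omega
      · intro β _ hβ
        have h4 : algebraMap R K (∏ i, d.y i ^ (p ^ e - 1 - (α i : ℕ))) *
            ((∏ i, algebraMap R K (d.y i) ^ (β i : ℕ)) * u β ^ p ^ e) =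
            (∏ i, algebraMap R K (d.y i) ^ (p ^ e - 1 - (α i : ℕ) + (β i : ℕ))) *
              u β ^ p ^ e := by
          rw [← mul_assoc, map_prod, ← Finset.prod_mul_distrib]
          congr 1
          refine Finset.prod_congr rfl fun i _ => ?_
          rw [map_pow, pow_add]
        rw [h4, d.Dl_monomial, if_neg]
        · intro h
          apply hβ
          funext i
          have h5 := h i
          have h6 := (α i).2
          apply Fin.ext
          omega
        · intro i
          have h5 := (α i).2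
          have h6 := (β i).2
          omega
      · intro h
        exact absurd (Finset.mem_univ _) h
    have h4 : algebraMap R K a' = (algebraMap R K d.H ^ n * u α) ^ p ^ e := by
      rw [h2, h3, List.length_finRange, mul_pow, ← pow_mul]
    obtain ⟨w, hw⟩ := hroot _ ⟨a', h4⟩
    refine ⟨w, ?_, hw⟩
    rw [Ideal.mem_comap, iterateFrobenius_def]
    have h5 : w ^ p ^ e = a' := by
      apply hinj
      rw [map_pow, hw, h4]
    rw [h5]
    exact ha'
  choose w hwb hw using hw
  have h1 : d.H ^ (n * p ^ e) * z =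
      ∑ α, (∏ i, d.y i ^ (α i : ℕ)) * iterateFrobenius R p e (w α) := by
    apply hinj
    rw [map_mul, map_pow, hu, Finset.mul_sum, map_sum]
    refine Finset.sum_congr rfl fun α _ => ?_
    rw [map_mul, iterateFrobenius_def, map_pow, hw, mul_pow, ← pow_mul, map_prod]
    simp only [map_pow]
    ring
  rw [h1]
  refine Ideal.sum_mem _ fun α _ => Ideal.mul_mem_left _ _ ?_
  exact Ideal.mem_map_of_mem _ (hwb α)

end FU
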