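import Mathlib

/-!
# A Hensel lemma with a bounded denominator in a ring of power series
-/

set_option autoImplicit false

namespace FU

open PowerSeries

/-- A contraction of the `X`-adic topology has a fixed point.
Proof. Put `Z_0 = c`, `Z_{k+1} = c + X Q(Z_k)`.  By induction `X ^ (k + 1) ∣ Z_{k+1} - Z_k`
(`Polynomial.sub_dvd_eval_sub`).  Let `Z` be the series with `coeff m Z = coeff m Z_m`; then
`X ^ (k + 1) ∣ Z - Z_k`, so `X ^ (k + 1)` divides `Z - c - X Q(Z)` for all `k`
(`PowerSeries.X_pow_dvd_iff`), and this is zero. -/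
theorem exists_fix {T : Type*} [CommRing T] (c : PowerSeries T)
    (Q : Polynomial (PowerSeries T)) : ∃ Z : PowerSeries T, Z = c + X * Q.eval Z := by
  classical
  let Zs : ℕ → PowerSeries T := fun k => Nat.rec c (fun _ z => c + X * Q.eval z) k
  have hs : ∀ k, Zs (k + 1) = c + X * Q.eval (Zs k) := fun k => rfl
  have h1 : ∀ k, (X : PowerSeries T) ^ (k + 1) ∣ Zs (k + 1) - Zs k := by
    intro k
    induction k with
    | zero =>
      refine ⟨Q.eval c, ?_⟩
      show c + X * Q.eval c - c = _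
      ring
    | succ k ih =>
      have e : Zs (k + 1 + 1) - Zs (k + 1) = X * (Q.eval (Zs (k + 1)) - Q.eval (Zs k)) := by
        rw [hs (k + 1), hs k]
        ring
      rw [e, pow_succ' _ (k + 1)]
      exact mul_dvd_mul_left _ (ih.trans (Polynomial.sub_dvd_eval_sub _ _ _))
  have h2 : ∀ m j, (X : PowerSeries T) ^ (m + 1) ∣ Zs (m + j) - Zs m := by
    intro m j
    induction j with
    | zero => simp
    | succ j ih =>
      have e : Zs (m + (j + 1)) - Zs m = (Zs (m + j + 1) - Zs (m + j)) + (Zs (m + j) - Zs m) := by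
        rw [show m + (j + 1) = m + j + 1 by ring]
        ring
      rw [e]
      exact dvd_add ((pow_dvd_pow _ (by omega)).trans (h1 (m + j))) ih
  let Z : PowerSeries T := PowerSeries.mk fun m => coeff m (Zs m)
  have h3 : ∀ k, (X : PowerSeries T) ^ (k + 1) ∣ Z - Zs k := by
    intro k
    rw [X_pow_dvd_iff]
    intro m hm
    obtain ⟨j, rfl⟩ := Nat.exists_eq_add_of_le (Nat.lt_succ_iff.1 hm)
    have h4 := X_pow_dvd_iff.1 (h2 m j) m (Nat.lt_succ_self m)
    rw [map_sub, sub_eq_zero] at h4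
    rw [map_sub, h4]
    show coeff m (PowerSeries.mk fun m => coeff m (Zs m)) - coeff m (Zs m) = 0
    rw [coeff_mk, sub_self]
  refine ⟨Z, ?_⟩
  rw [← sub_eq_zero]
  ext n
  have h5 : (X : PowerSeries T) ^ (n + 1) ∣ Z - (c + X * Q.eval Z) := by
    have e : Z - (c + X * Q.eval Z) = (Z - Zs (n + 1)) + X * (Q.eval (Zs n) - Q.eval Z) := by
      rw [hs n]
      ring
    rw [e]
    refine dvd_add ((pow_dvd_pow _ (by omega)).trans (h3 (n + 1))) (Dvd.dvd.mul_left ?_ _)
    have h6 : Zs n - Z ∣ Q.eval (Zs n) - Q.eval Z := Polynomial.sub_dvd_eval_sub _ _ _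
    exact (((dvd_neg.2 (h3 n)).trans (by rw [neg_sub])).trans h6)
  rw [X_pow_dvd_iff.1 h5 n (Nat.lt_succ_self n), map_zero]

/-- second order Taylor expansion -/
private theorem taylor_two {P : Type*} [CommRing P] (p : Polynomial P) (a : P) :
    ∃ R : Polynomial P, ∀ h, p.eval (a + h) =
      p.eval a + p.derivative.eval a * h + h ^ 2 * R.eval h := by
  refine ⟨(Polynomial.taylor a p).divX.divX, fun h => ?_⟩
  have h1 : (Polynomial.taylor a p).eval h = p.eval (a + h) := by
    rw [Polynomial.taylor_eval, add_comm]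
  have h2 := congrArg (Polynomial.eval h) (Polynomial.divX_mul_X_add (Polynomial.taylor a p))
  have h3 := congrArg (Polynomial.eval h)
    (Polynomial.divX_mul_X_add (Polynomial.taylor a p).divX)
  simp only [Polynomial.eval_add, Polynomial.eval_mul, Polynomial.eval_X,
    Polynomial.eval_C] at h2 h3
  rw [Polynomial.coeff_divX, zero_add, Polynomial.taylor_coeff_one] at h3
  rw [Polynomial.taylor_coeff_zero] at h2
  rw [← h1, ← h2, ← h3]
  ring

/-- Hensel's lemma with denominator.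
Proof. Let `G' = G.map τ ∈ T⟦X⟧[W]`, and let `R = (G'.taylor (C z)).divX.divX`, so that
`G'(C z + h) = G'(C z) + G''(C z) h + h ^ 2 R(h)` for all `h` (`Polynomial.taylor_eval`,
`Polynomial.divX_mul_X_add`, `taylor_coeff_zero`, `taylor_coeff_one`).  By `hτ`
(`hτ` gives that the two homomorphisms `τ` and `C ∘ τ0` agree modulo `C f ^ 3 * X`, so the values
of a polynomial at `C z` agree modulo `C f ^ 3 * X`) there are `a, b ∈ T⟦X⟧` with
`G'(C z) = f ^ 3 X a` and ` (derivative G')(C z) = g + f ^ 3 X b` (writing `f` for `C f` etc.).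
By `exists_fix` with `c = - δ ^ 2 a` and `Q(W) = - (δ f ^ 2 b W + f W ^ 2 R(g f X W))` there is `Z`
with
`Z = - δ ^ 2 a - X (δ f ^ 2 b Z + f Z ^ 2 R(g f X Z))`.  Put `W = z + g f X Z`.  Then
`G'(W) = f ^ 3 X a + (g + f ^ 3 X b) g f X Z + g ^ 2 f ^ 2 X ^ 2 Z ^ 2 R(g f X Z)
 = g ^ 2 f X (δ ^ 2 a + Z + X (δ f ^ 2 b Z + f Z ^ 2 R(g f X Z))) = 0`, using `f = g δ`. -/
theorem hensel_root {S T : Type*} [CommRing S] [CommRing T] (τ0 : S →+* T)
    (τ : S →+* PowerSeries T) (f : T)
    (hτ : ∀ s, ∃ c : PowerSeries T, τ s = C (τ0 s) + C f ^ 3 * X * c) (G : Polynomial S)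
    (z g δ : T) (hg : g = G.derivative.eval₂ τ0 z) (hf : f = g * δ)
    (hG : G.eval₂ τ0 z = 0) :
    ∃ W : PowerSeries T, G.eval₂ τ W = 0 ∧ ∃ c, W = C z + C f * X * c := by
  subst hf
  have key : ∀ p : Polynomial S, ∃ a : PowerSeries T,
      p.eval₂ τ (C z) = C (p.eval₂ τ0 z) + C (g * δ) ^ 3 * X * a := by
    intro p
    let I : Ideal (PowerSeries T) := Ideal.span {C (g * δ) ^ 3 * X}
    have h1 : (Ideal.Quotient.mk I).comp (Polynomial.eval₂RingHom τ (C z)) =
        (Ideal.Quotient.mk I).comp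
          ((C : T →+* PowerSeries T).comp (Polynomial.eval₂RingHom τ0 z)) := by
      refine Polynomial.ringHom_ext (fun s => ?_) ?_
      · obtain ⟨c, hc⟩ := hτ s
        simp only [RingHom.comp_apply, Polynomial.coe_eval₂RingHom, Polynomial.eval₂_C]
        rw [Ideal.Quotient.eq, hc, add_sub_cancel_left]
        exact Ideal.mem_span_singleton.2 (Dvd.intro _ rfl)
      · simp only [RingHom.comp_apply, Polynomial.coe_eval₂RingHom, Polynomial.eval₂_X]
    have h2 := DFunLike.congr_fun h1 p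
    simp only [RingHom.comp_apply, Polynomial.coe_eval₂RingHom] at h2
    rw [Ideal.Quotient.eq, Ideal.mem_span_singleton] at h2
    obtain ⟨a, ha⟩ := h2
    exact ⟨a, by rw [← ha]; ring⟩
  obtain ⟨a, ha⟩ := key G
  obtain ⟨b, hb⟩ := key G.derivative
  rw [hG, map_zero, zero_add, map_mul] at ha
  rw [← hg, map_mul] at hb
  obtain ⟨R, hR⟩ := taylor_two (G.map τ) (C z)
  let Q : Polynomial (PowerSeries T) :=
    -(Polynomial.C (C δ * (C g * C δ) ^ 2 * b) * Polynomial.X +
      Polynomial.C (C g * C δ) * Polynomial.X ^ 2 *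
        R.comp (Polynomial.C (C g * (C g * C δ) * X) * Polynomial.X))
  obtain ⟨Z, hZ⟩ := exists_fix (-(C δ ^ 2 * a)) Q
  have hQ : Q.eval Z = -(C δ * (C g * C δ) ^ 2 * b * Z + (C g * C δ) * Z ^ 2 *
      R.eval (C g * (C g * C δ) * X * Z)) := by
    simp only [Q, Polynomial.eval_neg, Polynomial.eval_add, Polynomial.eval_mul,
      Polynomial.eval_C, Polynomial.eval_X, Polynomial.eval_pow, Polynomial.eval_comp]
  refine ⟨C z + C g * (C g * C δ) * X * Z, ?_, C g * Z, ?_⟩
  · rw [← Polynomial.eval_map, hR, Polynomial.derivative_map, Polynomial.eval_map,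
      Polynomial.eval_map, ha, hb]
    rw [hQ] at hZ
    linear_combination (C g ^ 2 * (C g * C δ) * X) * hZ
  · rw [map_mul]
    ring

end FU
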