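import Mathlib

/-!
# Extension of a Taylor map
-/

set_option autoImplicit false

namespace FU

open PowerSeries

/-- Proof. Let `ev β = β.eval₂ τ0 z` and `Θ β = β.eval₂ τ W` for `β ∈ S[W]`.
(1) `Θ β` depends only on `ev β`: if `ev β = 0`, divide by the monic `G`: `β = G q + ρ`
(`Polynomial.modByMonic_add_div`), `deg ρ < deg G`, `ev ρ = 0`, so `ρ = 0` by `hind` and
`Θ β = Θ G * Θ q = 0`.
(2) `Θ β = C (ev β) + C f * X * c` for some `c` (both sides modulo `C f * X` are ring homomorphisms
which agree on `S` and on `W`; `C f ^ 3 * X` is a multiple of `C f * X`).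
(3) `Θ (C F) = τ F = C f + C f ^ 3 * X * c = C f * U` with `U = 1 + C f ^ 2 * X * c` a unit.
(4) For `t ∈ T` choose `β` with `f * t = ev β`.  By (2) `Θ β = C f * (C t + X * c)`.  So there is
`ψ t` with `Θ β = C f * U * ψ t` and `constantCoeff (ψ t) = t`
(`ψ t = U⁻¹ (C t + X c)`, `U⁻¹` has constant coefficient `1`).  `C f * U` is not a zero divisor
in `T⟦X⟧` (`hnzd` coefficientwise), so `ψ t` is unique and does not depend on `β` by (1).
(5) `ψ` is additive, and multiplicative: if `f t = ev β`, `f t' = ev β'`, `f t t' = ev β''`, then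
`ev (F β'') = f ^ 2 t t' = ev (β β')`, so `C f U Θ β'' = Θ β Θ β'`, i.e.
` (C f U) ^ 2 ψ (t t') = (C f U) ^ 2 ψ t ψ t'`.  `ψ 1 = 1`: `β = C F`.
(6) `ψ (τ0 s) = τ s`: take `β = C (F * s)`. -/
theorem exists_taylor {S T : Type*} [CommRing S] [CommRing T] (τ0 : S →+* T)
    (τ : S →+* PowerSeries T) (f : T)
    (hτ : ∀ s, ∃ c : PowerSeries T, τ s = C (τ0 s) + C f ^ 3 * X * c) (F : S) (hF : τ0 F = f)
    (G : Polynomial S) (hGm : G.Monic) (z : T)
    (hind : ∀ β : Polynomial S, β.degree < G.degree → β.eval₂ τ0 z = 0 → β = 0)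
    (hnzd : ∀ t : T, f * t = 0 → t = 0)
    (hspan : ∀ t : T, ∃ β : Polynomial S, f * t = β.eval₂ τ0 z)
    (W : PowerSeries T) (hW : G.eval₂ τ W = 0) (hWc : ∃ c, W = C z + C f * X * c) :
    ∃ ψ : T →+* PowerSeries T, (∀ t, constantCoeff (ψ t) = t) ∧ ∀ s, ψ (τ0 s) = τ s := by
  classical
  set Θ : Polynomial S →+* PowerSeries T := Polynomial.eval₂RingHom τ W with hΘ
  set ev : Polynomial S →+* T := Polynomial.eval₂RingHom τ0 z with hev
  have hΘC : ∀ s, Θ (Polynomial.C s) = τ s := fun s => Polynomial.eval₂_C _ _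
  have hevC : ∀ s, ev (Polynomial.C s) = τ0 s := fun s => Polynomial.eval₂_C _ _
  have hΘX : Θ Polynomial.X = W := Polynomial.eval₂_X _ _
  have hevX : ev Polynomial.X = z := Polynomial.eval₂_X _ _
  -- step (2)
  have h2 : ∀ β : Polynomial S, ∃ c : PowerSeries T, Θ β = C (ev β) + C f * X * c := by
    intro β
    set I : Ideal (PowerSeries T) := Ideal.span {C f * X} with hI
    have hh : (Ideal.Quotient.mk I).comp Θ =
        ((Ideal.Quotient.mk I).comp (C : T →+* PowerSeries T)).comp ev := by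
      refine Polynomial.ringHom_ext ?_ ?_
      · intro a
        obtain ⟨c, hc⟩ := hτ a
        simp only [RingHom.comp_apply]
        rw [hΘC, hevC, Ideal.Quotient.mk_eq_mk_iff_sub_mem, hc, add_sub_cancel_left, hI,
          Ideal.mem_span_singleton]
        exact ⟨C f ^ 2 * c, by ring⟩
      · obtain ⟨c, hc⟩ := hWc
        simp only [RingHom.comp_apply]
        rw [hΘX, hevX, Ideal.Quotient.mk_eq_mk_iff_sub_mem, hc, add_sub_cancel_left, hI,
          Ideal.mem_span_singleton]
        exact ⟨c, rfl⟩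
    have h3 := congrArg (fun g : Polynomial S →+* _ => g β) hh
    simp only [RingHom.comp_apply] at h3
    rw [Ideal.Quotient.mk_eq_mk_iff_sub_mem, hI, Ideal.mem_span_singleton] at h3
    obtain ⟨c, hc⟩ := h3
    exact ⟨c, by rw [← hc]; ring⟩
  have hcc : ∀ β : Polynomial S, constantCoeff (Θ β) = ev β := by
    intro β
    obtain ⟨c, hc⟩ := h2 β
    rw [hc]
    simp
  have hGT : Θ G = 0 := hW
  have hGe : ev G = 0 := by rw [← hcc, hGT, map_zero]
  -- step (1)
  have h1 : ∀ β : Polynomial S, ev β = 0 → Θ β = 0 := by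
    intro β hβ
    rcases subsingleton_or_nontrivial S with hS | hS
    · rw [Subsingleton.elim β 0, map_zero]
    · have hd := Polynomial.modByMonic_add_div β G
      have hdeg := Polynomial.degree_modByMonic_lt β hGm
      have hρ : ev (β %ₘ G) = 0 := by
        have h4 := congrArg ev hd
        rw [map_add, map_mul, hGe, zero_mul, add_zero, hβ] at h4
        exact h4
      have hρ0 : β %ₘ G = 0 := hind _ hdeg hρ
      rw [← hd, hρ0, zero_add, map_mul, hGT, zero_mul]
  have h1' : ∀ β β' : Polynomial S, ev β = ev β' → Θ β = Θ β' := by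
    intro β β' h
    have := h1 (β - β') (by rw [map_sub, h, sub_self])
    rw [map_sub] at this
    exact sub_eq_zero.1 this
  -- step (3)
  obtain ⟨cF, hcF⟩ := hτ F
  rw [hF] at hcF
  set U : PowerSeries T := 1 + C f ^ 2 * X * cF with hU
  have hτF : τ F = C f * U := by rw [hcF, hU]; ring
  have hUc : constantCoeff U = 1 := by rw [hU]; simp
  obtain ⟨V, hV⟩ : ∃ V, U * V = 1 := by
    have hu : IsUnit U := by
      rw [PowerSeries.isUnit_iff_constantCoeff, hUc]
      exact isUnit_one
    exact hu.exists_right_inv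
  have hVc : constantCoeff V = 1 := by
    have := congrArg constantCoeff hV
    rw [map_mul, hUc, one_mul, map_one] at this
    exact this
  -- cancellation
  have hcan0 : ∀ p : PowerSeries T, C f * U * p = 0 → p = 0 := by
    intro p hp
    have h5 : U * p = 0 := by
      ext n
      rw [map_zero]
      refine hnzd _ ?_
      have h6 := congrArg (coeff n) hp
      rw [mul_assoc, coeff_C_mul, map_zero] at h6
      exact h6
    calc p = V * (U * p) := by rw [← mul_assoc, mul_comm V U, hV, one_mul]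
      _ = 0 := by rw [h5, mul_zero]
  have hcan : ∀ p q : PowerSeries T, C f * U * p = C f * U * q → p = q := by
    intro p q h
    have := hcan0 (p - q) (by rw [mul_sub, h, sub_self])
    exact sub_eq_zero.1 this
  -- step (4)
  have h4 : ∀ t : T, ∃ p : PowerSeries T, constantCoeff p = t ∧
      ∀ β : Polynomial S, ev β = f * t → Θ β = C f * U * p := by
    intro t
    obtain ⟨β, hβ⟩ := hspan t
    obtain ⟨c, hc⟩ := h2 β
    have hβ' : ev β = f * t := hβ.symm
    refine ⟨V * (C t + X * c), ?_, ?_⟩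
    · rw [map_mul, hVc, one_mul]
      simp
    · intro β1 hβ1
      rw [h1' β1 β (by rw [hβ1, hβ']), hc, hβ', map_mul]
      calc C f * C t + C f * X * c = C f * (1 * (C t + X * c)) := by ring
        _ = C f * ((U * V) * (C t + X * c)) := by rw [hV]
        _ = C f * U * (V * (C t + X * c)) := by ring
  choose ψ hψc hψ using h4
  have hone : ψ 1 = 1 := by
    refine hcan _ _ ?_
    rw [← hψ 1 (Polynomial.C F) (by rw [hevC, hF, mul_one]), hΘC, hτF, mul_one]
  have hmul : ∀ t t', ψ (t * t') = ψ t * ψ t' := by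
    intro t t'
    obtain ⟨β, hβ⟩ := hspan t
    obtain ⟨β', hβ'⟩ := hspan t'
    obtain ⟨β'', hβ''⟩ := hspan (t * t')
    have e1 : ev β = f * t := hβ.symm
    have e2 : ev β' = f * t' := hβ'.symm
    have e3 : ev β'' = f * (t * t') := hβ''.symm
    have h7 : Θ (Polynomial.C F * β'') = Θ (β * β') :=
      h1' _ _ (by rw [map_mul, map_mul, hevC, hF, e1, e2, e3]; ring)
    rw [map_mul, map_mul, hΘC, hτF, hψ _ _ e1, hψ _ _ e2, hψ _ _ e3] at h7
    refine hcan _ _ (hcan _ _ ?_)
    rw [h7]
    ring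
  have hzero : ψ 0 = 0 := by
    refine hcan _ _ ?_
    rw [← hψ 0 0 (by rw [map_zero, mul_zero]), map_zero, mul_zero]
  have hadd : ∀ t t', ψ (t + t') = ψ t + ψ t' := by
    intro t t'
    obtain ⟨β, hβ⟩ := hspan t
    obtain ⟨β', hβ'⟩ := hspan t'
    have e1 : ev β = f * t := hβ.symm
    have e2 : ev β' = f * t' := hβ'.symm
    refine hcan _ _ ?_
    rw [← hψ _ (β + β') (by rw [map_add, e1, e2, mul_add]), map_add, hψ _ _ e1, hψ _ _ e2]
    ring
  refine ⟨{ toFun := ψ, map_one' := hone, map_mul' := hmul, map_zero' := hzero,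
            map_add' := hadd }, hψc, ?_⟩
  intro s
  change ψ (τ0 s) = τ s
  refine hcan _ _ ?_
  rw [← hψ _ (Polynomial.C (F * s)) (by rw [hevC, map_mul, hF]), hΘC, map_mul, hτF]

end FU
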