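import Pool.Agent.Lib.MP_9e8926_ag_U.AHDat
import Pool.Agent.Lib.MP_9e8926_ag_U.HA
import Pool.Agent.Lib.MP_9e8926_ag_U.HB

/-!
# Taylor maps of a scheme with elementary data
-/

set_option autoImplicit false

noncomputable section

namespace FU

open MvPolynomial

/-- One Taylor map, with the quotient replaced by a ring `T`. -/
private theorem hc_one {N r : ℕ} {A : Type} [CommRing A] {J : Ideal (MvPolynomial (Fin N) A)}
    {P : Fin r → Ideal (MvPolynomial (Fin N) A)} {n D : ℕ} (d : EDat J P n D)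
    (hind : ∀ β : Polynomial (MvPolynomial (Fin n) A), β.degree < d.G.degree →
      ev d.y d.z β ∈ J → β = 0)
    (hnzd : ∀ t, aeval d.y d.F * t ∈ J → t ∈ J)
    {T : Type*} [CommRing T] (π : MvPolynomial (Fin N) A →+* T)
    (hπ : Function.Surjective π) (hker : ∀ x, π x = 0 ↔ x ∈ J) (i : Fin n) :
    ∃ ψ : MvPolynomial (Fin N) A →ₐ[A] PowerSeries (MvPolynomial (Fin N) A),
      (∀ t, PowerSeries.constantCoeff (ψ t) - t ∈ J) ∧
      (∀ t ∈ J, ∀ m, PowerSeries.coeff m (ψ t) ∈ J) ∧
      ∀ l m, PowerSeries.coeff m (ψ (d.y l) - (PowerSeries.C (d.y l) +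
        if i = l then PowerSeries.C (aeval d.y d.F ^ 3) * PowerSeries.X else 0)) ∈ J := by
  classical
  let τ0 : MvPolynomial (Fin n) A →+* T :=
    π.comp (aeval d.y : MvPolynomial (Fin n) A →ₐ[A] MvPolynomial (Fin N) A).toRingHom
  have hτ0 : ∀ s, τ0 s = π (aeval d.y s) := fun s => rfl
  let f : T := π (aeval d.y d.F)
  let τ : MvPolynomial (Fin n) A →+* PowerSeries T :=
    eval₂Hom ((PowerSeries.C (R := T)).comp (π.comp C))
      (fun l => PowerSeries.C (π (d.y l)) +
        if i = l then PowerSeries.C f ^ 3 * PowerSeries.X else 0)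
  have hτC : ∀ a, τ (C a) = PowerSeries.C (π (C a)) := fun a => by
    simp only [τ, coe_eval₂Hom, eval₂_C]
    rfl
  have hτX : ∀ l, τ (X l) = PowerSeries.C (π (d.y l)) +
      if i = l then PowerSeries.C f ^ 3 * PowerSeries.X else 0 := fun l => by
    simp only [τ, coe_eval₂Hom, eval₂_X]
  have hτ : ∀ s, ∃ c : PowerSeries T,
      τ s = PowerSeries.C (τ0 s) + PowerSeries.C f ^ 3 * PowerSeries.X * c := by
    intro s
    induction s using MvPolynomial.induction_on with
    | C a =>
      refine ⟨0, ?_⟩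
      rw [hτC, hτ0, aeval_C, mul_zero, add_zero]
      rfl
    | add p q hp hq =>
      obtain ⟨c, hc⟩ := hp
      obtain ⟨c', hc'⟩ := hq
      refine ⟨c + c', ?_⟩
      rw [map_add, hc, hc', map_add, map_add]
      ring
    | mul_X p l hp =>
      obtain ⟨c, hc⟩ := hp
      have h1 : τ0 (X l) = π (d.y l) := by rw [hτ0, aeval_X]
      by_cases hil : i = l
      · refine ⟨PowerSeries.C (τ0 p) + c * (PowerSeries.C (π (d.y l)) +
          PowerSeries.C f ^ 3 * PowerSeries.X), ?_⟩
        rw [map_mul, hc, hτX, if_pos hil, map_mul τ0, h1, map_mul]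
        ring
      · refine ⟨c * PowerSeries.C (π (d.y l)), ?_⟩
        rw [map_mul, hc, hτX, if_neg hil, map_mul τ0, h1, map_mul]
        ring
  have hev : ∀ β : Polynomial (MvPolynomial (Fin n) A),
      β.eval₂ τ0 (π d.z) = π (ev d.y d.z β) := by
    intro β
    rw [ev, Polynomial.hom_eval₂]
  have hind' : ∀ β : Polynomial (MvPolynomial (Fin n) A), β.degree < d.G.degree →
      β.eval₂ τ0 (π d.z) = 0 → β = 0 := by
    intro β h1 h2
    rw [hev, hker] at h2
    exact hind β h1 h2
  have hnzd' : ∀ t : T, f * t = 0 → t = 0 := by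
    intro t ht
    obtain ⟨t, rfl⟩ := hπ t
    rw [← map_mul, hker] at ht
    exact (hker t).2 (hnzd t ht)
  have hker' : ∀ x x', π x = π x' ↔ x - x' ∈ J := fun x x' => by
    rw [← hker, map_sub, sub_eq_zero]
  have hspan : ∀ t : T, ∃ β : Polynomial (MvPolynomial (Fin n) A),
      f * t = β.eval₂ τ0 (π d.z) := by
    intro t
    obtain ⟨t, rfl⟩ := hπ t
    obtain ⟨β, hβ⟩ := d.F_span t
    refine ⟨β, ?_⟩
    rw [hev, ← map_mul]
    exact (hker' _ _).2 hβ
  obtain ⟨δ, hδ⟩ := d.F_der
  have hf : f = d.G.derivative.eval₂ τ0 (π d.z) * π (ev d.y d.z δ) := by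
    rw [hev, ← map_mul]
    exact (hker' _ _).2 hδ
  have hG : d.G.eval₂ τ0 (π d.z) = 0 := by
    rw [hev, hker]
    exact d.G_z
  obtain ⟨W, hW, hWc⟩ := hensel_root τ0 τ f hτ d.G (π d.z) _ _ rfl hf hG
  obtain ⟨ψ, hψ0, hψ⟩ := exists_taylor τ0 τ f hτ d.F rfl d.G d.G_monic (π d.z) hind' hnzd' hspan
    W hW hWc
  -- the lift
  have hlift : ∀ k : Fin N, ∃ Q : PowerSeries (MvPolynomial (Fin N) A),
      PowerSeries.map π Q = ψ (π (X k)) := by
    intro k
    choose g hg using fun m => hπ (PowerSeries.coeff m (ψ (π (X k))))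
    refine ⟨PowerSeries.mk g, ?_⟩
    ext m
    rw [PowerSeries.coeff_map, PowerSeries.coeff_mk, hg]
  choose Q hQ using hlift
  have hkey : ∀ t : MvPolynomial (Fin N) A, PowerSeries.map π (aeval Q t) = ψ (π t) := by
    have h1 : (PowerSeries.map π).comp (aeval Q : MvPolynomial (Fin N) A →ₐ[A]
        PowerSeries (MvPolynomial (Fin N) A)).toRingHom = ψ.comp π := by
      refine MvPolynomial.ringHom_ext (fun a => ?_) (fun k => ?_)
      · have h2 : ψ (π (C a)) = PowerSeries.C (π (C a)) := by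
          have h3 : π (C a) = τ0 (C a) := by
            rw [hτ0, aeval_C]
            rfl
          rw [h3, hψ, hτC, ← h3]
        have h4 : (aeval Q (C a : MvPolynomial (Fin N) A)) =
            PowerSeries.C (C a : MvPolynomial (Fin N) A) := by
          rw [aeval_C, PowerSeries.algebraMap_apply]
          rfl
        change PowerSeries.map π (aeval Q (C a)) = ψ (π (C a))
        rw [h4, PowerSeries.map_C, h2]
      · change PowerSeries.map π (aeval Q (X k)) = ψ (π (X k))
        rw [aeval_X, hQ]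
    exact fun t => DFunLike.congr_fun h1 t
  have hcoeff : ∀ (u : PowerSeries (MvPolynomial (Fin N) A)) m,
      π (PowerSeries.coeff m u) = PowerSeries.coeff m (PowerSeries.map π u) := fun u m => by
    rw [PowerSeries.coeff_map]
  refine ⟨aeval Q, fun t => ?_, fun t ht m => ?_, fun l m => ?_⟩
  · rw [← hker', ← PowerSeries.coeff_zero_eq_constantCoeff_apply, hcoeff, hkey,
      PowerSeries.coeff_zero_eq_constantCoeff_apply, hψ0]
  · rw [← hker, hcoeff, hkey, (hker t).2 ht, map_zero, map_zero]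
  · rw [← hker, hcoeff, map_sub, hkey, map_add, PowerSeries.map_C]
    have h1 : ψ (π (d.y l)) = PowerSeries.C (π (d.y l)) +
        if i = l then PowerSeries.C f ^ 3 * PowerSeries.X else 0 := by
      have h3 : π (d.y l) = τ0 (X l) := by rw [hτ0, aeval_X]
      rw [h3, hψ, hτX, ← h3]
    have h2 : PowerSeries.map π (if i = l then
        PowerSeries.C (aeval d.y d.F ^ 3) * PowerSeries.X else 0) =
        if i = l then PowerSeries.C f ^ 3 * PowerSeries.X else 0 := by
      split_ifs
      · rw [map_mul, PowerSeries.map_C, PowerSeries.map_X, map_pow, map_pow]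
      · rw [map_zero]
    rw [h1, h2, sub_self, map_zero]

/-- Proof. Let `T = A[x]/J`, `S = A[Y]`, `τ0 = aeval (mk ∘ y)`, `f = τ0 F`, and for fixed `i` let
`τ : S →+* T⟦X⟧` be `aeval` of `l ↦ C (mk (y l)) + if i = l then C (f ^ 3) * X else 0`; it satisfies
`hτ` of `hensel_root` (the set of `s` for which it holds is a subalgebra which contains the
variables).  `mk (ev y z β) = β.eval₂ τ0 (mk z)`.  With `g = G'(y, z)` and `δ` of `F_der` apply
`hensel_root` and then `exists_taylor` (`hind`, `hnzd`, `F_span`): `ψ : T →+* T⟦X⟧` with constant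
coefficient the identity, `ψ (mk (y l)) = C (mk (y l)) + …` and `ψ` is the constant series on `A`.
Lift: choose for every variable `x_k` a power series `P_k` with coefficients in `A[x]` which
is mapped to `ψ (mk x_k)` by `PowerSeries.map mk` and put `ψ_i = aeval P`.  Then
`PowerSeries.map mk (ψ_i t) = ψ (mk t)` for all `t`, which gives `ψ_zero`, `ψ_J`, `ψ_y`. -/
theorem exists_HDat' {N r : ℕ} {A : Type} [CommRing A] {J : Ideal (MvPolynomial (Fin N) A)}
    {P : Fin r → Ideal (MvPolynomial (Fin N) A)} {n D : ℕ} (d : EDat J P n D)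
    (hind : ∀ β : Polynomial (MvPolynomial (Fin n) A), β.degree < d.G.degree →
      ev d.y d.z β ∈ J → β = 0)
    (hnzd : ∀ t, aeval d.y d.F * t ∈ J → t ∈ J) :
    ∃ e : HDat J P n D, e.toEDat = d := by
  choose ψ h1 h2 h3 using hc_one d hind hnzd (Ideal.Quotient.mk J) Ideal.Quotient.mk_surjective
    fun _ => Ideal.Quotient.eq_zero_iff_mem
  exact ⟨⟨d, ψ, h1, h2, h3⟩, rfl⟩

end FU
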