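import Pool.Agent.Lib.MP_9e8926_ag_U.AHDat
import Pool.Agent.Lib.MP_9e8926_ag_U.ALoc

/-!
# The Taylor maps of the field of fractions of the local ring
-/

set_option autoImplicit false

noncomputable section

namespace FU

open MvPolynomial

private theorem he_lift {A O : Type*} [CommRing A] [CommRing O] [Algebra A O] (M : Submonoid A)
    [IsLocalization M O] (φ : A →+* PowerSeries O)
    (h : ∀ a, PowerSeries.constantCoeff (φ a) = algebraMap A O a) :
    ∃ ψ : O →+* PowerSeries O, (∀ a, ψ (algebraMap A O a) = φ a) ∧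
      ∀ a, PowerSeries.constantCoeff (ψ a) = a := by
  have hu : ∀ y : M, IsUnit (φ y) := by
    intro y
    rw [PowerSeries.isUnit_iff_constantCoeff, h]
    exact IsLocalization.map_units O y
  refine ⟨IsLocalization.lift hu, fun a => IsLocalization.lift_eq hu a, fun a => ?_⟩
  have h1 : (PowerSeries.constantCoeff (R := O)).comp (IsLocalization.lift hu) =
      RingHom.id O := by
    refine IsLocalization.ringHom_ext M (RingHom.ext fun t => ?_)
    rw [RingHom.comp_apply, RingHom.comp_apply, IsLocalization.lift_eq, h]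
    rfl
  exact congrArg (fun g : O →+* O => g a) h1

/-- The Taylor maps of the local ring.
Proof. Let `φ : κ[x] → O⟦X⟧` be `PowerSeries.map (toO κ J) ∘ ψ i`.  It kills `J` (`ψ_J`), so it
factors over `κ[x]/J`.  For a polynomial `u` with unit constant coefficient
`constantCoeff (φ u) = toO u` (`ψ_zero`) is a unit, so `φ u` is a unit
(`PowerSeries.isUnit_iff_constantCoeff`).  `IsLocalization.lift` gives `ψO`; on `toO t` it is
`φ t`, and the two homomorphisms `constantCoeff ∘ ψO` and `id` agree on the image of `toO`, so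
they are equal.  `ψ_y` gives the values on the `y l`, and `ψ i` is constant on `κ` (`commutes`). -/
theorem HDat.exists_O {N r : ℕ} {κ : Type} [Field κ] {J : Ideal (MvPolynomial (Fin N) κ)}
    {P : Fin r → Ideal (MvPolynomial (Fin N) κ)} {n D : ℕ} (d : HDat J P n D) (i : Fin n) :
    ∃ ψO : Oc κ J →+* PowerSeries (Oc κ J),
      (∀ a, PowerSeries.constantCoeff (ψO a) = a) ∧
      (∀ l, ψO (toO κ J (d.y l)) = PowerSeries.C (toO κ J (d.y l)) +
        if i = l then PowerSeries.C (toO κ J (aeval d.y d.F) ^ 3) * PowerSeries.X else 0) ∧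
      ∀ a : κ, ψO (algebraMap κ (Oc κ J) a) = PowerSeries.C (algebraMap κ (Oc κ J) a) := by
  have hJ0 : ∀ t ∈ J, toO κ J t = 0 := by
    intro t ht
    change algebraMap (MvPolynomial (Fin N) κ ⧸ J) (Oc κ J) (Ideal.Quotient.mk J t) = 0
    rw [Ideal.Quotient.eq_zero_iff_mem.2 ht, map_zero]
  have hc : ∀ s t, s - t ∈ J → toO κ J s = toO κ J t := by
    intro s t h
    rw [← sub_eq_zero, ← map_sub]
    exact hJ0 _ h
  obtain ⟨φ0, hφ⟩ : ∃ φ0 : MvPolynomial (Fin N) κ →+* PowerSeries (Oc κ J),
      ∀ t, φ0 t = PowerSeries.map (toO κ J) (d.ψ i t) :=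
    ⟨(PowerSeries.map (toO κ J)).comp (d.ψ i : MvPolynomial (Fin N) κ →+* _), fun t => rfl⟩
  have hφJ : ∀ t ∈ J, φ0 t = 0 := by
    intro t ht
    rw [hφ]
    ext m
    rw [PowerSeries.coeff_map, hJ0 _ (d.ψ_J i t ht m), map_zero]
  have hφc : ∀ t, PowerSeries.constantCoeff (φ0 t) = toO κ J t := by
    intro t
    rw [hφ, ← PowerSeries.coeff_zero_eq_constantCoeff_apply, PowerSeries.coeff_map,
      PowerSeries.coeff_zero_eq_constantCoeff_apply]
    exact hc _ _ (d.ψ_zero i t)
  obtain ⟨φ1, hφ1'⟩ : ∃ φ1 : (MvPolynomial (Fin N) κ ⧸ J) →+* PowerSeries (Oc κ J),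
      ∀ t, φ1 (Ideal.Quotient.mk J t) = φ0 t := ⟨Ideal.Quotient.lift J φ0 hφJ, fun t => rfl⟩
  have hh : ∀ a, PowerSeries.constantCoeff (φ1 a) =
      algebraMap (MvPolynomial (Fin N) κ ⧸ J) (Oc κ J) a := by
    intro a
    obtain ⟨t, rfl⟩ := Ideal.Quotient.mk_surjective a
    rw [hφ1', hφc]
    rfl
  have key := he_lift (A := MvPolynomial (Fin N) κ ⧸ J) (O := Oc κ J) (nv κ J) φ1 hh
  obtain ⟨ψO, hψO⟩ := key
  have hl' := hψO.1
  have h1 := hψO.2
  have hl : ∀ t, ψO (toO κ J t) = φ0 t := fun t =>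
    (hl' (Ideal.Quotient.mk J t)).trans (hφ1' t)
  refine ⟨ψO, h1, ?_, ?_⟩
  · intro l
    rw [hl, hφ]
    have h1 : PowerSeries.map (toO κ J) (d.ψ i (d.y l)) =
        PowerSeries.map (toO κ J) (PowerSeries.C (d.y l) +
          if i = l then PowerSeries.C (aeval d.y d.F ^ 3) * PowerSeries.X else 0) := by
      ext m
      rw [PowerSeries.coeff_map, PowerSeries.coeff_map]
      refine hc _ _ ?_
      rw [← map_sub]
      exact d.ψ_y i l m
    rw [h1, map_add, PowerSeries.map_C]
    congr 1
    split_ifs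
    · rw [map_mul, PowerSeries.map_C, PowerSeries.map_X, map_pow]
    · rw [map_zero]
  · intro a
    rw [algebraMap_Oc, hl, hφ]
    have h1 : d.ψ i (C a) = PowerSeries.C (C a) := by
      have h2 := (d.ψ i).commutes a
      rw [PowerSeries.algebraMap_apply, MvPolynomial.algebraMap_eq] at h2
      exact h2
    rw [h1, PowerSeries.map_C]

/-- Extension to the field of fractions.
Proof. For `s ≠ 0` in `O` the series `map (algebraMap O K) (ψO s)` has constant coefficient `s ≠
0`, so
it is a unit of `K⟦X⟧`; use `IsLocalization.lift` (or `IsFractionRing.lift`). -/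
theorem exists_K {O K : Type*} [CommRing O] [IsDomain O] [Field K] [Algebra O K]
    [IsFractionRing O K] (ψO : O →+* PowerSeries O)
    (h0 : ∀ a, PowerSeries.constantCoeff (ψO a) = a) :
    ∃ ψK : K →+* PowerSeries K,
      (∀ a, ψK (algebraMap O K a) = PowerSeries.map (algebraMap O K) (ψO a)) ∧
      ∀ a, PowerSeries.constantCoeff (ψK a) = a := by
  have hc : ∀ a, PowerSeries.constantCoeff (PowerSeries.map (algebraMap O K) (ψO a)) =
      algebraMap O K a := by
    intro a
    rw [← PowerSeries.coeff_zero_eq_constantCoeff_apply, PowerSeries.coeff_map,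
      PowerSeries.coeff_zero_eq_constantCoeff_apply, h0]
  have hu : ∀ y : nonZeroDivisors O,
      IsUnit (((PowerSeries.map (algebraMap O K)).comp ψO) y) := by
    intro y
    rw [RingHom.comp_apply, PowerSeries.isUnit_iff_constantCoeff, hc]
    exact IsLocalization.map_units K y
  refine ⟨IsLocalization.lift hu, fun a => ?_, fun a => ?_⟩
  · rw [IsLocalization.lift_eq]
    rfl
  · have h1 : (PowerSeries.constantCoeff (R := K)).comp (IsLocalization.lift hu) =
        RingHom.id K := by
      refine IsLocalization.ringHom_ext (nonZeroDivisors O) (RingHom.ext fun t => ?_)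
      rw [RingHom.comp_apply, RingHom.comp_apply, IsLocalization.lift_eq, RingHom.comp_apply, hc]
      rfl
    exact congrArg (fun g : K →+* K => g a) h1

/-- The Taylor maps `y_i ↦ y_i + X` of the field of fractions.
Proof. `D i = (rescale (f ^ 3)⁻¹) ∘ ψK` with `ψK` of `exists_K` for `ψO i`; the
coefficients are `coeff k (D i a) = (f ^ 3)⁻¹ ^ k * coeff k (ψK a)`. -/
theorem exists_D {O K : Type*} [CommRing O] [IsDomain O] [Field K] [Algebra O K]
    [IsFractionRing O K] {n : ℕ} (ψO : Fin n → O →+* PowerSeries O)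
    (h0 : ∀ i a, PowerSeries.constantCoeff (ψO i a) = a) (f : O) (hf : f ≠ 0) (y : Fin n → O)
    (hy : ∀ i l, ψO i (y l) = PowerSeries.C (y l) +
      if i = l then PowerSeries.C (f ^ 3) * PowerSeries.X else 0) :
    ∃ Dm : Fin n → K →+* PowerSeries K,
      (∀ i a, PowerSeries.constantCoeff (Dm i a) = a) ∧
      (∀ i j, Dm i (algebraMap O K (y j)) = PowerSeries.C (algebraMap O K (y j)) +
        if i = j then PowerSeries.X else 0) ∧
      (∀ i (a : O), ψO i a = PowerSeries.C a →
        Dm i (algebraMap O K a) = PowerSeries.C (algebraMap O K a)) ∧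
      ∀ i k (a : O), algebraMap O K (f ^ 3) ^ k * PowerSeries.coeff k (Dm i (algebraMap O K a)) ∈
        (algebraMap O K).range := by
  choose ψK h1 h2 using fun i => exists_K (K := K) (ψO i) (h0 i)
  have hg : algebraMap O K (f ^ 3) ≠ 0 := by
    rw [Ne, IsFractionRing.to_map_eq_zero_iff]
    exact pow_ne_zero 3 hf
  set g : K := algebraMap O K (f ^ 3) with hgdef
  have hC : ∀ r : K, PowerSeries.rescale g⁻¹ (PowerSeries.C r) = PowerSeries.C r := by
    intro r
    ext m
    rw [PowerSeries.coeff_rescale, PowerSeries.coeff_C]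
    split_ifs with hm
    · rw [hm, pow_zero, one_mul]
    · rw [mul_zero]
  refine ⟨fun i => (PowerSeries.rescale g⁻¹).comp (ψK i), ?_, ?_, ?_, ?_⟩
  · intro i a
    rw [RingHom.comp_apply, ← PowerSeries.coeff_zero_eq_constantCoeff_apply,
      PowerSeries.coeff_rescale, pow_zero, one_mul,
      PowerSeries.coeff_zero_eq_constantCoeff_apply, h2]
  · intro i j
    rw [RingHom.comp_apply, h1, hy, map_add, map_add, PowerSeries.map_C, hC]
    congr 1
    split_ifs
    · rw [map_mul, map_mul, PowerSeries.map_C, PowerSeries.map_X, hC, PowerSeries.rescale_X,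
        ← mul_assoc, ← map_mul, mul_inv_cancel₀ hg, map_one, one_mul]
    · rw [map_zero, map_zero]
  · intro i a ha
    rw [RingHom.comp_apply, h1, ha, PowerSeries.map_C, hC]
  · intro i k a
    refine ⟨PowerSeries.coeff k (ψO i a), ?_⟩
    rw [RingHom.comp_apply, h1, PowerSeries.coeff_rescale, PowerSeries.coeff_map, ← mul_assoc,
      ← mul_pow, mul_inv_cancel₀ hg, one_pow, one_mul]

end FU
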