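import Pool.Agent.Lib.MP_9e8926_ag_U.AHDat
import Pool.Agent.Lib.MP_9e8926_ag_U.ALoc

/-!
# The coordinates are a `p`-basis
-/

set_option autoImplicit false

noncomputable section

namespace FU

open MvPolynomial

/-- The set of the sums `∑_α y^α u_α ^ q`. -/
private def hfS {K : Type*} [Field K] {n : ℕ} (y : Fin n → K) (q : ℕ) : Set K :=
  {v | ∃ u : (Fin n → Fin q) → K, v = ∑ α, (∏ i, y i ^ (α i : ℕ)) * u α ^ q}

private theorem hfS_mono {K : Type*} [Field K] {n : ℕ} (y : Fin n → K) {q : ℕ} (hq : 0 < q)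
    (m : Fin n → ℕ) (w : K) : (∏ i, y i ^ m i) * w ^ q ∈ hfS y q := by
  classical
  let α0 : Fin n → Fin q := fun i => ⟨m i % q, Nat.mod_lt _ hq⟩
  refine ⟨Pi.single α0 ((∏ i, y i ^ (m i / q)) * w), ?_⟩
  rw [Finset.sum_eq_single α0]
  · rw [Pi.single_eq_same, mul_pow, ← Finset.prod_pow, ← mul_assoc, ← Finset.prod_mul_distrib]
    congr 1
    refine Finset.prod_congr rfl fun i _ => ?_
    show y i ^ m i = y i ^ (m i % q) * (y i ^ (m i / q)) ^ q
    rw [← pow_mul, ← pow_add, mul_comm (m i / q) q, Nat.mod_add_div]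
  · intro α _ hα
    rw [Pi.single_eq_of_ne hα, zero_pow hq.ne', mul_zero]
  · intro h
    exact absurd (Finset.mem_univ _) h

private theorem hfS_pow {K : Type*} [Field K] {n : ℕ} (y : Fin n → K) {q : ℕ} (hq : 0 < q)
    (w : K) : w ^ q ∈ hfS y q := by
  have h := hfS_mono y hq 0 w
  simpa using h

/-- The sums form a subfield. -/
private def hfK {K : Type*} [Field K] (p : ℕ) [Fact p.Prime] [CharP K p] {n : ℕ}
    (y : Fin n → K) (e : ℕ) : Subfield K :=
  have hq : 0 < p ^ e := pow_pos (Fact.out : p.Prime).pos e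
  have hz : (0 : K) ∈ hfS y (p ^ e) := by
    have h := hfS_pow y hq 0
    rwa [zero_pow hq.ne'] at h
  have ho : (1 : K) ∈ hfS y (p ^ e) := by
    have h := hfS_pow y hq 1
    rwa [one_pow] at h
  have hadd : ∀ {a b : K}, a ∈ hfS y (p ^ e) → b ∈ hfS y (p ^ e) → a + b ∈ hfS y (p ^ e) := by
    rintro a b ⟨u, rfl⟩ ⟨u', rfl⟩
    refine ⟨fun α => u α + u' α, ?_⟩
    rw [← Finset.sum_add_distrib]
    exact Finset.sum_congr rfl fun α _ => by rw [add_pow_char_pow, mul_add]
  have hsum : ∀ {ι : Type} (s : Finset ι) (f : ι → K), (∀ i ∈ s, f i ∈ hfS y (p ^ e)) →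
      ∑ i ∈ s, f i ∈ hfS y (p ^ e) := fun s f hf =>
    Finset.sum_induction f (fun v => v ∈ hfS y (p ^ e)) (fun _ _ => hadd) hz hf
  have hmul : ∀ {a b : K}, a ∈ hfS y (p ^ e) → b ∈ hfS y (p ^ e) → a * b ∈ hfS y (p ^ e) := by
    rintro a b ⟨u, rfl⟩ ⟨u', rfl⟩
    rw [Finset.sum_mul_sum]
    refine hsum _ _ fun α _ => hsum _ _ fun β _ => ?_
    have h := hfS_mono y hq (fun i => (α i : ℕ) + (β i : ℕ)) (u α * u' β)
    have he : (∏ i, y i ^ ((α i : ℕ) + (β i : ℕ))) * (u α * u' β) ^ p ^ e =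
        (∏ i, y i ^ (α i : ℕ)) * u α ^ p ^ e * ((∏ i, y i ^ (β i : ℕ)) * u' β ^ p ^ e) := by
      simp only [pow_add, Finset.prod_mul_distrib]
      rw [mul_pow]
      ring
    rwa [he] at h
  have hpow : ∀ {a : K} (m : ℕ), a ∈ hfS y (p ^ e) → a ^ m ∈ hfS y (p ^ e) := by
    intro a m ha
    induction m with
    | zero => rwa [pow_zero]
    | succ m ih =>
      rw [pow_succ]
      exact hmul ih ha
  { carrier := hfS y (p ^ e)
    mul_mem' := hmul
    one_mem' := ho
    add_mem' := hadd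
    zero_mem' := hz
    neg_mem' := by
      rintro a ⟨u, rfl⟩
      refine ⟨fun α => -u α, ?_⟩
      rw [← Finset.sum_neg_distrib]
      refine Finset.sum_congr rfl fun α _ => ?_
      have h : (-u α) ^ p ^ e = -(u α ^ p ^ e) := by
        have h := map_neg (iterateFrobenius K p e) (u α)
        rwa [iterateFrobenius_def, iterateFrobenius_def] at h
      rw [h, mul_neg]
    inv_mem' := by
      intro a ha
      by_cases h0 : a = 0
      · rwa [h0, inv_zero]
      · have h1 := hmul (hpow (p ^ e - 1) ha) (hfS_pow y hq a⁻¹)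
        have h2 : a ^ (p ^ e - 1) * a⁻¹ ^ p ^ e = a⁻¹ := by
          rw [inv_pow]
          field_simp
          rw [← pow_succ, Nat.sub_add_cancel hq]
        rwa [h2] at h1 }

private theorem mem_hfK {K : Type*} [Field K] (p : ℕ) [Fact p.Prime] [CharP K p] {n : ℕ}
    (y : Fin n → K) (e : ℕ) (v : K) : v ∈ hfK p y e ↔
      ∃ u : (Fin n → Fin (p ^ e)) → K, v = ∑ α, (∏ i, y i ^ (α i : ℕ)) * u α ^ p ^ e := Iff.rfl

private theorem hfK_pow {K : Type*} [Field K] (p : ℕ) [Fact p.Prime] [CharP K p] {n : ℕ}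
    (y : Fin n → K) (e : ℕ) (w : K) : w ^ p ^ e ∈ hfK p y e :=
  hfS_pow y (pow_pos (Fact.out : p.Prime).pos e) w

private theorem hfK_y {K : Type*} [Field K] (p : ℕ) [Fact p.Prime] [CharP K p] {n : ℕ}
    (y : Fin n → K) (e : ℕ) (i : Fin n) : y i ∈ hfK p y e := by
  classical
  have h := hfS_mono y (pow_pos (Fact.out : p.Prime).pos e : 0 < p ^ e) (Pi.single i 1) 1
  rw [one_pow, mul_one, Finset.prod_eq_single i] at h
  · rwa [Pi.single_eq_same, pow_one] at h
  · intro j _ hj
    rw [Pi.single_eq_of_ne hj, pow_zero]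
  · intro h
    exact absurd (Finset.mem_univ _) h

private theorem hfK_C {κ K : Type*} [Field κ] [Finite κ] [Field K] [Algebra κ K] (p : ℕ)
    [Fact p.Prime] [CharP K p] {n : ℕ} (y : Fin n → K) (e : ℕ) (a : κ) :
    algebraMap κ K a ∈ hfK p y e := by
  have hκ : CharP κ p :=
    ((algebraMap κ K).charP_iff (algebraMap κ K).injective p).2 inferInstance
  have hs : Function.Surjective (iterateFrobenius κ p e) :=
    Finite.surjective_of_injective (iterateFrobenius κ p e).injective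
  obtain ⟨b, rfl⟩ := hs a
  rw [iterateFrobenius_def, map_pow]
  exact hfK_pow p y e _

private theorem hfK_aeval {κ K : Type*} [Field κ] [Finite κ] [Field K] [Algebra κ K] (p : ℕ)
    [Fact p.Prime] [CharP K p] {n : ℕ} (y : Fin n → K) (e : ℕ) (a : MvPolynomial (Fin n) κ) :
    aeval y a ∈ hfK p y e := by
  induction a using MvPolynomial.induction_on with
  | C a =>
    rw [aeval_C]
    exact hfK_C p y e a
  | add f g hf hg =>
    rw [map_add]
    exact add_mem hf hg
  | mul_X f i hf =>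
    rw [map_mul, aeval_X]
    exact mul_mem hf (hfK_y p y e i)

private theorem hfK_ev {κ K : Type*} [Field κ] [Finite κ] [Field K] [Algebra κ K] (p : ℕ)
    [Fact p.Prime] [CharP K p] {n : ℕ} (y : Fin n → K) (e : ℕ) {z : K} (hz : z ∈ hfK p y e)
    (β : Polynomial (MvPolynomial (Fin n) κ)) : ev y z β ∈ hfK p y e := by
  rw [ev, Polynomial.eval₂_eq_sum_range]
  exact sum_mem fun k _ => mul_mem (hfK_aeval p y e _) (pow_mem hz k)

/-- The element `z` is in the subfield. -/
private theorem hfK_z {κ K : Type*} [Field κ] [Finite κ] [Field K] [Algebra κ K] (p : ℕ)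
    [Fact p.Prime] [CharP K p] {n : ℕ} (y : Fin n → K) (z : K)
    (G : Polynomial (MvPolynomial (Fin n) κ)) (hG : ev y z G = 0)
    (hG' : ev y z G.derivative ≠ 0) (e : ℕ) : z ∈ hfK p y e := by
  let ρ : MvPolynomial (Fin n) κ →+* hfK p y e :=
    (aeval y : MvPolynomial (Fin n) κ →ₐ[κ] K).toRingHom.codRestrict (hfK p y e).toSubring
      fun a => hfK_aeval p y e a
  have hρ : (algebraMap (hfK p y e) K).comp ρ =
      (aeval y : MvPolynomial (Fin n) κ →ₐ[κ] K).toRingHom := RingHom.ext fun a => rfl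
  have hev : ∀ β : Polynomial (MvPolynomial (Fin n) κ),
      Polynomial.aeval z (β.map ρ) = ev y z β := fun β => by
    rw [Polynomial.aeval_def, Polynomial.eval₂_map, hρ]
    rfl
  have hint : IsIntegral (hfK p y e) z := by
    refine ⟨Polynomial.X ^ p ^ e - Polynomial.C ⟨z ^ p ^ e, hfK_pow p y e z⟩,
      Polynomial.monic_X_pow_sub_C _ (pow_pos (Fact.out : p.Prime).pos e).ne', ?_⟩
    rw [Polynomial.eval₂_sub, Polynomial.eval₂_pow, Polynomial.eval₂_X, Polynomial.eval₂_C]
    exact sub_self _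
  have hsep : IsSeparable (hfK p y e) z := by
    have hirr := minpoly.irreducible hint
    refine (Polynomial.separable_iff_derivative_ne_zero hirr).2 fun h0 => hG' ?_
    obtain ⟨h, hh⟩ := minpoly.dvd (hfK p y e) z (p := G.map ρ) (by rw [hev, hG])
    rw [← hev, ← Polynomial.derivative_map, hh, Polynomial.derivative_mul, h0, zero_mul, zero_add,
      map_mul, minpoly.aeval, zero_mul]
  have : CharP (hfK p y e) p := ((algebraMap (hfK p y e) K).charP_iff
    (algebraMap (hfK p y e) K).injective p).2 inferInstance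
  have : ExpChar (hfK p y e) p := expChar_prime _ p
  have hin : z ∈ separableClosure (hfK p y e) K ⊓ perfectClosure (hfK p y e) K :=
    ⟨mem_separableClosure_iff.2 hsep, (mem_perfectClosure_iff_pow_mem p).2
      ⟨e, ⟨⟨z ^ p ^ e, hfK_pow p y e z⟩, rfl⟩⟩⟩
  rw [separableClosure_inf_perfectClosure] at hin
  obtain ⟨w, hw⟩ := IntermediateField.mem_bot.1 hin
  rw [← hw]
  exact w.2

/-- Proof. Let `q = p ^ e` and let `𝒦 ⊆ K` be the set of the elements `∑_α y^α u_α ^ q`, `α ∈ [0,
q)^n`.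
For `q = 1` it is `K`.  Let `q > 1`.
(1) `𝒦` is closed under addition (`add_pow_char_pow`) and contains all `w ^ q`, and
`y^m w ^ q ∈ 𝒦` for all `m ∈ ℕ^n` (divide the exponents by `q`), so it is closed under products.
It contains the inverses: `v⁻¹ = v ^ (q - 1) * (v⁻¹) ^ q`.  So it is a subfield.
(2) It contains the image of `κ` (every element of the finite field `κ` is a `q`-th power) and the
`y i`, so all values `aeval y a`.
(3) `z ∈ 𝒦`: `z ^ q ∈ 𝒦`, and `z` is a root of the image `G1 ∈ 𝒦[W]` of `G` with `G1'(z) ≠ 0`,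
so `z` is separable over `𝒦` and purely inseparable over `𝒦` (` (W - z) ^ q = W ^ q - z ^ q` is
divisible by `minpoly 𝒦 z`, which is squarefree; `IsPurelyInseparable`; or directly: the gcd
in `K[W]` of ` (W - z) ^ q` and `G1` is `W - z`, and the gcd has coefficients in `𝒦`).
(4) By `hK` every element of `K` is in `𝒦`. -/
theorem basis_of_gen {κ K : Type*} [Field κ] [Finite κ] [Field K] [Algebra κ K] (p : ℕ)
    [Fact p.Prime] [CharP K p] {n : ℕ} (y : Fin n → K) (z : K)
    (G : Polynomial (MvPolynomial (Fin n) κ)) (hG : ev y z G = 0)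
    (hG' : ev y z G.derivative ≠ 0)
    (hK : ∀ v : K, ∃ β γ : Polynomial (MvPolynomial (Fin n) κ), ev y z γ ≠ 0 ∧
      v * ev y z γ = ev y z β) (e : ℕ) (v : K) :
    ∃ u : (Fin n → Fin (p ^ e)) → K, v = ∑ α, (∏ i, y i ^ (α i : ℕ)) * u α ^ p ^ e := by
  rw [← mem_hfK]
  have hz := hfK_z p y z G hG hG' e
  obtain ⟨β, γ, hγ, hv⟩ := hK v
  rw [eq_div_of_mul_eq hγ hv]
  exact div_mem (hfK_ev p y e hz β) (hfK_ev p y e hz γ)

/-- Evaluation commutes with homomorphisms.
Proof. `Polynomial.hom_eval₂` and `MvPolynomial.map_aeval` / uniqueness of homomorphisms from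
`MvPolynomial`. -/
theorem ev_hom {A T T' : Type*} [CommRing A] [CommRing T] [CommRing T'] [Algebra A T]
    [Algebra A T'] (φ : T →+* T') (hφ : ∀ a, φ (algebraMap A T a) = algebraMap A T' a) {n : ℕ}
    (y : Fin n → T) (z : T) (β : Polynomial (MvPolynomial (Fin n) A)) :
    φ (ev y z β) = ev (fun i => φ (y i)) (φ z) β := by
  rw [ev, ev, Polynomial.hom_eval₂]
  congr 1
  refine MvPolynomial.ringHom_ext (fun a => ?_) fun i => ?_
  · show φ (aeval y (C a)) = aeval (fun i => φ (y i)) (C a)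
    rw [aeval_C, aeval_C, hφ]
  · show φ (aeval y (X i)) = aeval (fun i => φ (y i)) (X i)
    rw [aeval_X, aeval_X]

/-- The hypothesis `hK` for the field of fractions of the local ring.
Proof. An element of `K` is `a / b` with `a, b ∈ O`, `b ≠ 0`, and `a * π u = π t`,
`b * π u' = π t'` with units `π u`, `π u'`; so it is `π s / π s'` with
polynomials `s, s'`, `π s' ≠ 0`.  By `F_span`, `F(y) s` and `F(y) s'` are values `ev y z β`,
`ev y z γ` modulo `J`; use `ev_hom`. -/
theorem EDat.exists_ev {N r : ℕ} {κ : Type} [Field κ] {J : Ideal (MvPolynomial (Fin N) κ)}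
    {P : Fin r → Ideal (MvPolynomial (Fin N) κ)} {n D : ℕ} (d : EDat J P n D)
    {O K : Type*} [CommRing O] [IsDomain O] [Field K] [Algebra O K] [IsFractionRing O K]
    [Algebra κ K] (π : MvPolynomial (Fin N) κ →+* O) (hJ : ∀ t ∈ J, π t = 0)
    (hπ : ∀ a : O, ∃ t u, IsUnit (π u) ∧ a * π u = π t)
    (hκ : ∀ a : κ, algebraMap O K (π (C a)) = algebraMap κ K a)
    (hf : π (aeval d.y d.F) ≠ 0) (v : K) :
    ∃ β γ : Polynomial (MvPolynomial (Fin n) κ),
      ev (fun i => algebraMap O K (π (d.y i))) (algebraMap O K (π d.z)) γ ≠ 0 ∧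
      v * ev (fun i => algebraMap O K (π (d.y i))) (algebraMap O K (π d.z)) γ =
        ev (fun i => algebraMap O K (π (d.y i))) (algebraMap O K (π d.z)) β := by
  obtain ⟨a, b, hb, rfl⟩ := IsFractionRing.div_surjective O v
  obtain ⟨t, u, hu, ht⟩ := hπ a
  obtain ⟨t', u', hu', ht'⟩ := hπ b
  obtain ⟨β, hβ⟩ := d.F_span (t * u')
  obtain ⟨γ, hγ⟩ := d.F_span (t' * u)
  have hinj : Function.Injective (algebraMap O K) := IsFractionRing.injective O K
  have hev : ∀ β : Polynomial (MvPolynomial (Fin n) κ),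
      ev (fun i => algebraMap O K (π (d.y i))) (algebraMap O K (π d.z)) β =
        algebraMap O K (π (ev d.y d.z β)) := fun β =>
    (ev_hom ((algebraMap O K).comp π) (fun a => hκ a) d.y d.z β).symm
  have hβ' : π (ev d.y d.z β) = π (aeval d.y d.F) * π (t * u') := by
    have h := hJ _ hβ
    rw [map_sub, map_mul, sub_eq_zero] at h
    exact h.symm
  have hγ' : π (ev d.y d.z γ) = π (aeval d.y d.F) * π (t' * u) := by
    have h := hJ _ hγ
    rw [map_sub, map_mul, sub_eq_zero] at h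
    exact h.symm
  have hb0 : b ≠ 0 := nonZeroDivisors.ne_zero hb
  have hb1 : algebraMap O K b ≠ 0 := fun h => hb0 (hinj (by rw [h, map_zero]))
  refine ⟨β, γ, ?_, ?_⟩
  · rw [hev, hγ']
    intro h
    have h1 : π (aeval d.y d.F) * π (t' * u) = 0 := hinj (by rw [h, map_zero])
    rw [map_mul, ← ht'] at h1
    exact mul_ne_zero hf (mul_ne_zero (mul_ne_zero hb0 hu'.ne_zero) hu.ne_zero) h1
  · rw [hev, hev, hγ', hβ', map_mul π t' u, map_mul π t u', ← ht, ← ht', map_mul, map_mul, map_mul,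
      map_mul, map_mul, map_mul]
    field_simp

end FU
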