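import Pool.Agent.Lib.MP_9e8926_ag_U.Stmt

/-!
# Hilbert functions of hypersurfaces in affine space
-/

set_option autoImplicit false

noncomputable section

namespace FU

open MvPolynomial

private def HG_f {n : ℕ} {κ : Type*} [Field κ] (I : Ideal (MvPolynomial (Fin n) κ))
    (β : Fin n → ℕ) : MvPolynomial (Fin n) κ ⧸ I :=
  Ideal.Quotient.mkₐ κ I (monomial (Finsupp.equivFunOnFinite.symm β) 1)

private theorem HG_f_coe {n : ℕ} {κ : Type*} [Field κ] (I : Ideal (MvPolynomial (Fin n) κ))
    (α : Fin n →₀ ℕ) : HG_f I α = Ideal.Quotient.mkₐ κ I (monomial α 1) := by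
  have h : Finsupp.equivFunOnFinite.symm (α : Fin n → ℕ) = α :=
    Finsupp.equivFunOnFinite.symm_apply_apply α
  unfold HG_f
  rw [h]

private theorem HG_card {n : ℕ} {κ : Type*} [Field κ] (I : Ideal (MvPolynomial (Fin n) κ))
    (B : Finset (Fin n → ℕ))
    (h : ∀ α : Fin n →₀ ℕ, Ideal.Quotient.mkₐ κ I (monomial α 1) ∈
      Submodule.span κ (HG_f I '' (B : Set (Fin n → ℕ)))) :
    Module.Finite κ (MvPolynomial (Fin n) κ ⧸ I) ∧
      Module.finrank κ (MvPolynomial (Fin n) κ ⧸ I) ≤ B.card := by
  classical
  have h1 : Submodule.span κ ((B.image (HG_f I) : Finset (MvPolynomial (Fin n) κ ⧸ I)) :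
      Set (MvPolynomial (Fin n) κ ⧸ I)) = ⊤ := by
    rw [Finset.coe_image, eq_top_iff]
    rintro x -
    obtain ⟨p, rfl⟩ := Ideal.Quotient.mk_surjective x
    induction p using MvPolynomial.induction_on' with
    | monomial α c =>
      have h2 : (monomial α c : MvPolynomial (Fin n) κ) = c • monomial α 1 := by
        rw [smul_monomial, smul_eq_mul, mul_one]
      rw [h2, ← Ideal.Quotient.mkₐ_eq_mk κ, map_smul]
      exact Submodule.smul_mem _ _ (h α)
    | add p q hp hq =>
      rw [map_add]
      exact Submodule.add_mem _ hp hq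
  refine ⟨⟨⟨_, h1⟩⟩, ?_⟩
  have h2 := finrank_span_finset_le_card (R := κ) (B.image (HG_f I))
  rw [Set.finrank, h1, finrank_top] at h2
  exact h2.trans Finset.card_image_le

private theorem HG_mem {n : ℕ} {κ : Type*} [Field κ] {L : ℕ} {α : Fin n →₀ ℕ}
    (h : L ≤ ∑ i, α i) : (monomial α (1 : κ)) ∈ mX n κ ^ L := by
  have h1 : (monomial α (1 : κ)) = ∏ i, (X i : MvPolynomial (Fin n) κ) ^ α i := by
    rw [monomial_eq, Finsupp.prod_fintype _ _ (by simp), C_1, one_mul]
  rw [h1]
  refine Ideal.pow_le_pow_right h ?_
  rw [← Finset.prod_pow_eq_pow_sum]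
  exact Ideal.prod_mem_prod fun i _ =>
    Ideal.pow_mem_pow (Ideal.subset_span (Set.mem_range_self i)) _

private theorem HG_box {n L : ℕ} (i : Fin n) (m : ℕ) :
    (Fintype.piFinset fun j : Fin n => if j = i then Finset.range m else Finset.range L).card =
      m * L ^ (n - 1) := by
  classical
  rw [Fintype.card_piFinset, ← Finset.mul_prod_erase _ _ (Finset.mem_univ i), if_pos rfl,
    Finset.card_range]
  congr 1
  rw [Finset.prod_congr rfl (g := fun _ => L)]
  · rw [Finset.prod_const, Finset.card_erase_of_mem (Finset.mem_univ i), Finset.card_univ,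
      Fintype.card_fin]
  · intro j hj
    rw [if_neg (Finset.ne_of_mem_erase hj), Finset.card_range]

/-- The initial exponent for the local order. -/
private theorem HG_init {n : ℕ} {κ : Type*} [Field κ] {Q : MvPolynomial (Fin n) κ} (hQ : Q ≠ 0) :
    ∃ μ ∈ Q.support, ∀ ν ∈ Q.support, ν ≠ μ →
      ∑ i, μ i < ∑ i, ν i ∨ (∑ i, ν i = ∑ i, μ i ∧ toLex ν < toLex μ) := by
  classical
  have hne : Q.support.Nonempty := MvPolynomial.support_nonempty.2 hQ
  obtain ⟨μ0, h0, hmin⟩ := Finset.exists_min_image Q.support (fun α => ∑ i, α i) hne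
  have hne' : (Q.support.filter fun α => ∑ i, α i = ∑ i, μ0 i).Nonempty :=
    ⟨μ0, Finset.mem_filter.2 ⟨h0, rfl⟩⟩
  obtain ⟨μ, h1, hmax⟩ := Finset.exists_max_image _ (fun α => toLex α) hne'
  rw [Finset.mem_filter] at h1
  refine ⟨μ, h1.1, fun ν hν hne => ?_⟩
  rcases lt_or_eq_of_le (hmin ν hν) with h2 | h2
  · left
    rw [h1.2]
    exact h2
  · right
    refine ⟨by rw [h1.2, h2], lt_of_le_of_ne (hmax ν (Finset.mem_filter.2 ⟨hν, h2.symm⟩)) ?_⟩
    exact fun h => hne (toLex.injective h)

/-- The number of monomials of degree less than `L` is at most `L ^ n` (all exponents are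
less than `L`). -/
theorem finrank_mX_pow (n L : ℕ) (κ : Type*) [Field κ] :
    Module.Finite κ (MvPolynomial (Fin n) κ ⧸ mX n κ ^ L) ∧
      Module.finrank κ (MvPolynomial (Fin n) κ ⧸ mX n κ ^ L) ≤ L ^ n := by
  classical
  have h := HG_card (mX n κ ^ L) (Fintype.piFinset fun _ : Fin n => Finset.range L)
    (fun α => by
      by_cases hα : ∀ i, α i < L
      · rw [← HG_f_coe]
        refine Submodule.subset_span ⟨α, ?_, rfl⟩
        rw [Finset.mem_coe, Fintype.mem_piFinset]
        exact fun i => Finset.mem_range.2 (hα i)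
      · push Not at hα
        obtain ⟨i, hi⟩ := hα
        have h1 : (monomial α (1 : κ)) ∈ mX n κ ^ L :=
          HG_mem (hi.trans (Finset.single_le_sum (fun j _ => Nat.zero_le (α j))
            (Finset.mem_univ i)))
        rw [Ideal.Quotient.mkₐ_eq_mk, Ideal.Quotient.eq_zero_iff_mem.2 h1]
        exact Submodule.zero_mem _)
  rw [Fintype.card_piFinset_const, Finset.card_range] at h
  exact h

/-- Proof. ` (Y)^L` is the set of the polynomials all of whose monomials have degree `≥ L`.  For a
polynomial `h` let `h(TY) ∈ κ[Y][T]` and let `ord h` be its `natTrailingDegree`; then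
`h ∈ (Y)^L` iff `h = 0` or `ord h ≥ L`, and `ord` is additive on products of non-zero polynomials
(`Polynomial.natTrailingDegree_mul`).  Let `o = ord Q ≤ Q.totalDegree ≤ w`.
So multiplication by `Q` induces an injection `κ[Y]/(Y)^(L - o) → κ[Y]/(Y)^L` (natural
subtraction), with image in ` ((Q) + (Y)^L)/(Y)^L`; so the dimension in question is at most
`N(L) - N(L - o)`, `N(L)` the number of monomials of degree `< L`.  The number of
monomials of degree `m < L` is at most `L ^ (n - 1)` (the last exponent is determined by the
others, which are less than `L`), so `N(L) - N(L - o) ≤ o L ^ (n - 1)`.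
(Alternative: let `μ` be the exponent of a monomial of `Q` of the smallest degree `o`,
lexicographically
largest among those of this degree.  By induction (degree upwards to `L`, lexicographic order
downwards) the monomials `Y^α`, `|α| < L`, `¬ μ ≤ α`, span the quotient; for each `i` there are at
most
`μ_i L ^ (n - 1)` exponents with `α_i < μ_i` and all `α_j < L`, so at most `o L ^ (n - 1)` in all.)
-/
theorem finrank_hyp (n L w : ℕ) (hn : 1 ≤ n) (κ : Type*) [Field κ]
    (Q : MvPolynomial (Fin n) κ) (hQ : Q ≠ 0) (hw : Q.totalDegree ≤ w) :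
    Module.finrank κ (MvPolynomial (Fin n) κ ⧸ (Ideal.span {Q} ⊔ mX n κ ^ L)) ≤
      w * L ^ (n - 1) := by
  classical
  obtain ⟨μ, hμ, hloc⟩ := HG_init hQ
  set I : Ideal (MvPolynomial (Fin n) κ) := Ideal.span {Q} ⊔ mX n κ ^ L with hI
  set B : Finset (Fin n → ℕ) := Finset.univ.biUnion fun i : Fin n =>
    Fintype.piFinset fun j : Fin n => if j = i then Finset.range (μ i) else Finset.range L with hB
  have hc : coeff μ Q ≠ 0 := mem_support_iff.1 hμ
  have key : ∀ (k : ℕ) (β : Lex (Fin n →₀ ℕ)), L - ∑ i, (ofLex β) i = k →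
      Ideal.Quotient.mkₐ κ I (monomial (ofLex β) 1) ∈
        Submodule.span κ (HG_f I '' (B : Set (Fin n → ℕ))) := by
    intro k
    induction k using Nat.strong_induction_on with
    | _ k ih1 =>
      intro β
      induction β using WellFoundedLT.induction with
      | ind β ih2 =>
        intro hβ
        set α : Fin n →₀ ℕ := ofLex β with hα
        by_cases hL : L ≤ ∑ i, α i
        · have h1 : (monomial α (1 : κ)) ∈ I := Ideal.mem_sup_right (HG_mem hL)
          rw [Ideal.Quotient.mkₐ_eq_mk, Ideal.Quotient.eq_zero_iff_mem.2 h1]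
          exact Submodule.zero_mem _
        · rw [not_le] at hL
          by_cases hle : μ ≤ α
          · obtain ⟨γ, hγ⟩ := exists_add_of_le hle
            have h1 : Ideal.Quotient.mkₐ κ I (Q * monomial γ 1) = 0 := by
              rw [Ideal.Quotient.mkₐ_eq_mk, Ideal.Quotient.eq_zero_iff_mem]
              exact Ideal.mem_sup_left (Ideal.mul_mem_right _ _
                (Ideal.subset_span (Set.mem_singleton Q)))
            have h2 : Q * monomial γ 1 = ∑ ν ∈ Q.support,
                coeff ν Q • (monomial (ν + γ) (1 : κ) : MvPolynomial (Fin n) κ) := by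
              conv_lhs => rw [Q.as_sum, Finset.sum_mul]
              refine Finset.sum_congr rfl fun ν _ => ?_
              rw [monomial_mul, smul_monomial, smul_eq_mul]
            rw [h2, map_sum, ← Finset.add_sum_erase _ _ hμ, map_smul, ← hγ] at h1
            have h3 : Ideal.Quotient.mkₐ κ I (monomial α 1) =
                -((coeff μ Q)⁻¹ • ∑ ν ∈ Q.support.erase μ, Ideal.Quotient.mkₐ κ I
                  (coeff ν Q • (monomial (ν + γ) (1 : κ)))) := by
              have h4 := congrArg (fun z => (coeff μ Q)⁻¹ • z) h1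
              simp only [smul_add, smul_smul, inv_mul_cancel₀ hc, one_smul, smul_zero] at h4
              exact eq_neg_of_add_eq_zero_left h4
            rw [h3]
            refine Submodule.neg_mem _ (Submodule.smul_mem _ _ (Submodule.sum_mem _
              fun ν hν => ?_))
            rw [map_smul]
            refine Submodule.smul_mem _ _ ?_
            have h5 := hloc ν (Finset.mem_of_mem_erase hν) (Finset.ne_of_mem_erase hν)
            have h6 : ∑ i, (ν + γ) i = ∑ i, ν i + ∑ i, γ i := by
              rw [← Finset.sum_add_distrib]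
              rfl
            have h7 : ∑ i, α i = ∑ i, μ i + ∑ i, γ i := by
              rw [hγ, ← Finset.sum_add_distrib]
              rfl
            rcases h5 with h5 | ⟨h5, h8⟩
            · exact ih1 (L - ∑ i, (ν + γ) i) (by omega) (toLex (ν + γ)) rfl
            · refine ih2 (toLex (ν + γ)) ?_ ?_
              · have h9 : toLex (ν + γ) < toLex (μ + γ) := by
                  rw [toLex_add, toLex_add]
                  exact add_lt_add_left h8 _
                rw [← hγ] at h9
                exact h9
              · show L - ∑ i, (ν + γ) i = k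
                omega
          · have h1 : ∃ i, α i < μ i := by
              by_contra hcon
              push Not at hcon
              exact hle hcon
            obtain ⟨i, hi⟩ := h1
            rw [← HG_f_coe]
            refine Submodule.subset_span ⟨α, ?_, rfl⟩
            rw [Finset.mem_coe, hB, Finset.mem_biUnion]
            refine ⟨i, Finset.mem_univ i, ?_⟩
            rw [Fintype.mem_piFinset]
            intro j
            split_ifs with hj
            · rw [hj]
              exact Finset.mem_range.2 hi
            · exact Finset.mem_range.2 ((Finset.single_le_sum (fun j _ => Nat.zero_le (α j))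
                (Finset.mem_univ j)).trans_lt hL)
  have h := (HG_card I B fun α => key _ (toLex α) rfl).2
  refine h.trans ?_
  have h1 : B.card ≤ ∑ i, μ i * L ^ (n - 1) :=
    Finset.card_biUnion_le.trans (Finset.sum_le_sum fun i _ => (HG_box i (μ i)).le)
  rw [← Finset.sum_mul] at h1
  refine h1.trans (Nat.mul_le_mul_right _ (le_trans ?_ hw))
  have h2 := le_totalDegree hμ
  rw [Finsupp.sum_fintype _ _ (by simp)] at h2
  exact h2

end FU
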