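import Pool.Agent.Lib.MP_9e8926_ag_U.AHDat
import Pool.Agent.Lib.MP_9e8926_ag_U.ALoc
import Pool.Agent.Lib.MP_9e8926_ag_U.HG

/-!
# Hilbert functions of the local ring
-/

set_option autoImplicit false

noncomputable section

namespace FU

open MvPolynomial

variable {N r : ℕ} {κ : Type} [Field κ] {J : Ideal (MvPolynomial (Fin N) κ)}
  {P : Fin r → Ideal (MvPolynomial (Fin N) κ)} {n D : ℕ}

/-- Proof. The linear map from `Fin D → κ[Y] ⧸ I` to `κ[x] ⧸ (J ⊔ I')` which sends the class of `a`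
to the
class of `∑ a_v(y) h_v` is well defined (`hI`) and surjective (`h_span`). -/
theorem EDat.finrank_le (d : EDat J P n D) (I : Ideal (MvPolynomial (Fin n) κ))
    [Module.Finite κ (MvPolynomial (Fin n) κ ⧸ I)] (I' : Ideal (MvPolynomial (Fin N) κ))
    (hI : I ≤ I'.comap (aeval d.y : MvPolynomial (Fin n) κ →ₐ[κ] MvPolynomial (Fin N) κ)) :
    Module.finrank κ (MvPolynomial (Fin N) κ ⧸ (J ⊔ I')) ≤
      D * Module.finrank κ (MvPolynomial (Fin n) κ ⧸ I) := by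
  let g : (MvPolynomial (Fin n) κ ⧸ I) →ₐ[κ] (MvPolynomial (Fin N) κ ⧸ (J ⊔ I')) :=
    Ideal.Quotient.liftₐ I ((Ideal.Quotient.mkₐ κ (J ⊔ I')).comp (aeval d.y)) (fun a ha => by
      rw [AlgHom.comp_apply, Ideal.Quotient.mkₐ_eq_mk, Ideal.Quotient.eq_zero_iff_mem]
      exact Ideal.mem_sup_right (hI ha))
  let φ : (Fin D → MvPolynomial (Fin n) κ ⧸ I) →ₗ[κ] (MvPolynomial (Fin N) κ ⧸ (J ⊔ I')) :=
    ∑ v, (LinearMap.mulRight κ (Ideal.Quotient.mk (J ⊔ I') (d.h v))).comp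
      (g.toLinearMap.comp (LinearMap.proj v))
  have hφ : Function.Surjective φ := by
    intro b
    obtain ⟨t, rfl⟩ := Ideal.Quotient.mk_surjective b
    obtain ⟨a, ha⟩ := d.h_span t
    refine ⟨fun v => Ideal.Quotient.mk I (a v), ?_⟩
    have h1 : Ideal.Quotient.mk (J ⊔ I') t =
        Ideal.Quotient.mk (J ⊔ I') (∑ v, aeval d.y (a v) * d.h v) :=
      Ideal.Quotient.eq.2 (Ideal.mem_sup_left ha)
    rw [h1, map_sum, LinearMap.sum_apply]
    refine Finset.sum_congr rfl fun v _ => ?_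
    rw [map_mul]
    rfl
  have h1 := LinearMap.finrank_le_finrank_of_surjective hφ
  rw [Module.finrank_pi_fintype, Finset.sum_const, Finset.card_univ, Fintype.card_fin,
    smul_eq_mul] at h1
  exact h1

private theorem hh_y (d : EDat J P n D) (L : ℕ) :
    mX n κ ^ L ≤ (mX N κ ^ L).comap
      (aeval d.y : MvPolynomial (Fin n) κ →ₐ[κ] MvPolynomial (Fin N) κ) := by
  rw [← Ideal.map_le_iff_le_comap, Ideal.map_pow]
  refine Ideal.pow_right_mono ?_ L
  rw [mX, Ideal.map_span, Ideal.span_le]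
  rintro _ ⟨_, ⟨k, rfl⟩, rfl⟩
  rw [SetLike.mem_coe]
  have h := d.y_mem k
  simpa using h

private theorem hh_pow (L : ℕ) : mO κ J ^ L = Ideal.map (toO κ J) (mX N κ ^ L) := by
  symm
  exact Ideal.map_pow (toO κ J) (mX N κ) L

/-- Proof. `mO ^ L = (mX ^ L).map toO`; `finrank_Oc`, `EDat.finrank_le` for `I = (Y) ^ L`,
`I' = (x) ^ L` (`y_mem`) and `finrank_mX_pow`. -/
theorem EDat.E0 (d : EDat J P n D) (L : ℕ) :
    Module.finrank κ (Oc κ J ⧸ mO κ J ^ L) ≤ D * L ^ n := by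
  obtain ⟨hfin, h1⟩ := finrank_mX_pow n L κ
  rw [hh_pow, finrank_Oc J (mX N κ ^ L) L le_rfl]
  exact (d.finrank_le _ _ (hh_y d L)).trans (Nat.mul_le_mul_left D h1)

/-- Proof. The ideal is the image of `I' = (F(y) ^ 5) + (x) ^ L`; `finrank_Oc`, `EDat.finrank_le`
for `I = (F ^ 5) + (Y) ^ L`, and `finrank_hyp` (`F ^ 5 ≠ 0` has total degree at most `5 w`). -/
theorem EDat.E1 (d : EDat J P n D) (hn : 1 ≤ n) (w : ℕ) (hw : d.F.totalDegree ≤ w)
    (hF : d.F ≠ 0) (L : ℕ) :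
    Module.finrank κ (Oc κ J ⧸
      (Ideal.span {toO κ J (aeval d.y d.F) ^ 2 * toO κ J (aeval d.y d.F) ^ 3} ⊔ mO κ J ^ L)) ≤
      D * (5 * w * L ^ (n - 1)) := by
  obtain ⟨hfin, -⟩ := finrank_mX_pow n L κ
  have hI : Ideal.span {toO κ J (aeval d.y d.F) ^ 2 * toO κ J (aeval d.y d.F) ^ 3} ⊔ mO κ J ^ L =
      (Ideal.span {aeval d.y d.F ^ 5} ⊔ mX N κ ^ L).map (toO κ J) := by
    rw [Ideal.map_sup, Ideal.map_span, Set.image_singleton, map_pow, ← pow_add, hh_pow]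
  rw [hI, finrank_Oc J _ L le_sup_right]
  have hle : mX n κ ^ L ≤ Ideal.span {d.F ^ 5} ⊔ mX n κ ^ L := le_sup_right
  have hfin2 : Module.Finite κ (MvPolynomial (Fin n) κ ⧸ (Ideal.span {d.F ^ 5} ⊔ mX n κ ^ L)) :=
    Module.Finite.of_surjective (Ideal.Quotient.factorₐ κ hle).toLinearMap
      (Ideal.Quotient.factor_surjective hle)
  refine (d.finrank_le (Ideal.span {d.F ^ 5} ⊔ mX n κ ^ L) _ ?_).trans
    (Nat.mul_le_mul_left D (finrank_hyp n L (5 * w) hn κ (d.F ^ 5) (pow_ne_zero 5 hF) ?_))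
  · refine sup_le ?_ ((hh_y d L).trans (Ideal.comap_mono le_sup_right))
    rw [Ideal.span_singleton_le_iff_mem, Ideal.mem_comap, map_pow]
    exact Ideal.mem_sup_left (Ideal.mem_span_singleton_self _)
  · exact (totalDegree_pow _ _).trans (Nat.mul_le_mul_left 5 hw)

end FU
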