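import Pool.Agent.Lib.MP_9e8926_ag_U.HC
import Pool.Agent.Lib.MP_9e8926_ag_U.HE
import Pool.Agent.Lib.MP_9e8926_ag_U.HF
import Pool.Agent.Lib.MP_9e8926_ag_U.HH
import Pool.Agent.Lib.MP_9e8926_ag_U.Dat

/-!
# The data `Dat` at a closed point
-/

set_option autoImplicit false

noncomputable section

namespace FU

open MvPolynomial

private theorem hi_dat {N r : ℕ} {κ : Type} [Field κ] [Finite κ] (p : ℕ) [Fact p.Prime]
    [CharP κ p] {J : Ideal (MvPolynomial (Fin N) κ)} {P : Fin r → Ideal (MvPolynomial (Fin N) κ)}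
    {n D : ℕ} (d : HDat J P n D) (hn : 0 < n) {O K : Type} [CommRing O] [IsDomain O]
    [Algebra κ O] [Field K] [Algebra O K] [IsFractionRing O K] (π : MvPolynomial (Fin N) κ →+* O)
    (hJ0 : ∀ t ∈ J, π t = 0)
    (hπ : ∀ a : O, ∃ t u : MvPolynomial (Fin N) κ, IsUnit (π u) ∧ a * π u = π t)
    (hC : ∀ a : κ, algebraMap κ O a = π (C a)) (hf : π (aeval d.y d.F) ≠ 0) (m : Ideal O)
    (hm : m = (mX N κ).map π) (hfin : ∀ L : ℕ, Module.Finite κ (O ⧸ m ^ L))
    (ψO : Fin n → O →+* PowerSeries O)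
    (h0 : ∀ i a, PowerSeries.constantCoeff (ψO i a) = a)
    (hy : ∀ i l, ψO i (π (d.y l)) = PowerSeries.C (π (d.y l)) +
      if i = l then PowerSeries.C (π (aeval d.y d.F) ^ 3) * PowerSeries.X else 0)
    (hc : ∀ i (a : κ), ψO i (algebraMap κ O a) = PowerSeries.C (algebraMap κ O a)) (w : ℕ)
    (hE0 : ∀ L : ℕ, Module.finrank κ (O ⧸ m ^ L) ≤ D * L ^ n)
    (hE1 : ∀ L : ℕ, Module.finrank κ (O ⧸
      (Ideal.span {π (aeval d.y d.F) ^ 2 * π (aeval d.y d.F) ^ 3} ⊔ m ^ L)) ≤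
      D * (5 * w * L ^ (n - 1))) :
    Nonempty (Dat p κ K m (fun j => (P j).map π) n N ((D : ℝ) * (5 * w))) := by
  classical
  let _ : Algebra κ K := ((algebraMap O K).comp (algebraMap κ O)).toAlgebra
  have hκ : ∀ a : κ, algebraMap O K (π (C a)) = algebraMap κ K a := by
    intro a
    rw [← hC]
    rfl
  have hchar : CharP K p :=
    ((algebraMap κ K).charP_iff (algebraMap κ K).injective p).1 inferInstance
  have hinj : Function.Injective (algebraMap O K) := IsFractionRing.injective O K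
  obtain ⟨Dm, D0, Dy, Dc, DJ⟩ := exists_D (K := K) ψO h0 (π (aeval d.y d.F)) hf
    (fun i => π (d.y i)) hy
  have hev : ∀ β : Polynomial (MvPolynomial (Fin n) κ),
      ev (fun i => algebraMap O K (π (d.y i))) (algebraMap O K (π d.z)) β =
        algebraMap O K (π (ev d.y d.z β)) := fun β =>
    (ev_hom ((algebraMap O K).comp π) (fun a => hκ a) d.y d.z β).symm
  have hG : ev (fun i => algebraMap O K (π (d.y i))) (algebraMap O K (π d.z)) d.G = 0 := by
    rw [hev, hJ0 _ d.G_z, map_zero]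
  have hG' : ev (fun i => algebraMap O K (π (d.y i))) (algebraMap O K (π d.z))
      d.G.derivative ≠ 0 := by
    intro h
    obtain ⟨δ, hδ⟩ := d.F_der
    rw [hev] at h
    have h1 : π (ev d.y d.z d.G.derivative) = 0 := hinj (by rw [h, map_zero])
    have h2 := hJ0 _ hδ
    rw [map_sub, map_mul, h1, zero_mul, sub_zero] at h2
    exact hf h2
  have hfm : π (aeval d.y d.F) ∈ m := by
    rw [hm]
    exact Ideal.mem_map_of_mem _ (d.F_mem hn)
  have hfP : ∀ j, π (aeval d.y d.F) ∈ (P j).map π := by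
    intro j
    obtain ⟨s, hs, t, ht, hst⟩ := Submodule.mem_sup.1 (d.F_P j)
    rw [← hst, map_add, hJ0 t ht, add_zero]
    exact Ideal.mem_map_of_mem _ hs
  have hspan : Ideal.span (Set.range fun k : Fin N => π (X k)) = m := by
    rw [hm]
    unfold mX
    rw [Ideal.map_span, ← Set.range_comp]
    rfl
  exact ⟨{
    g := fun k => π (X k)
    span_g := hspan
    fin := hfin
    y := fun i => π (d.y i)
    D := Dm
    D_zero := D0
    D_y := Dy
    D_const := fun i a => Dc i _ (hc i a)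
    basis := fun e z => basis_of_gen p _ _ d.G hG hG'
      (fun v => d.toEDat.exists_ev π hJ0 hπ hκ hf v) e z
    J := π (aeval d.y d.F) ^ 3
    J_ne := pow_ne_zero 3 hf
    J_D := DJ
    b := π (aeval d.y d.F) ^ 2
    b_ne := pow_ne_zero 2 hf
    b_mem := Ideal.pow_mem_pow hfm 2
    b_P := fun j => Ideal.pow_mem_of_mem _ (hfP j) 2 (by norm_num)
    E1 := by
      intro L _
      have h2 : (Module.finrank κ (O ⧸ (Ideal.span {π (aeval d.y d.F) ^ 2 *
          π (aeval d.y d.F) ^ 3} ⊔ m ^ L)) : ℝ) ≤ ((D * (5 * w * L ^ (n - 1)) : ℕ) : ℝ) := by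
        exact_mod_cast hE1 L
      refine h2.trans (le_of_eq ?_)
      push_cast
      ring
    E0 := ⟨D, fun L _ => by exact_mod_cast hE0 L⟩ }⟩

/-- Proof. Assembly.  `g` = the classes of the coordinates (`mO = map of (x)`, `Ideal.map_span`);
`fin` from `finite_Oc`; `y i = toO (d.y i)`; the Taylor maps of `HDat.exists_D` with
`J = f ^ 3`, `f = toO (aeval d.y d.F)`; `basis` from `basis_of_gen`, `EDat.exists_ev` and `ev_hom`
(`G'(y, z)` divides `f ≠ 0` by `F_der`); `b = f ^ 2`, `f ∈ mO` (`F_mem`, `n > 0`) and `f ∈ P_j`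
(`F_P`, `J` goes to zero); `E0`, `E1` from `HH` (casts). -/
theorem HDat.dat' {N r : ℕ} {κ : Type} [Field κ] [Finite κ] (p : ℕ) [Fact p.Prime] [CharP κ p]
    {J : Ideal (MvPolynomial (Fin N) κ)} {P : Fin r → Ideal (MvPolynomial (Fin N) κ)} {n D : ℕ}
    (d : HDat J P n D) (hn : 1 ≤ n) (w : ℕ) (hw : d.F.totalDegree ≤ w) (hF : d.F ≠ 0)
    [IsDomain (Oc κ J)] (hf : toO κ J (aeval d.y d.F) ≠ 0) :
    Nonempty (Dat p κ (FractionRing (Oc κ J)) (mO κ J) (fun j => (P j).map (toO κ J)) n N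
      ((D : ℝ) * (5 * w))) := by
  have hJ0 : ∀ t ∈ J, toO κ J t = 0 := by
    intro t ht
    change algebraMap (MvPolynomial (Fin N) κ ⧸ J) (Oc κ J) (Ideal.Quotient.mk J t) = 0
    rw [Ideal.Quotient.eq_zero_iff_mem.2 ht, map_zero]
  have hπ : ∀ a : Oc κ J, ∃ t u : MvPolynomial (Fin N) κ, IsUnit (toO κ J u) ∧
      a * toO κ J u = toO κ J t := by
    intro a
    obtain ⟨t, u, hu, h⟩ := exists_toO J a
    exact ⟨t, u, isUnit_toO J u (by rw [hu]; exact one_ne_zero), h⟩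
  choose ψO h0 hy hc using d.exists_O
  have hE0 : ∀ L : ℕ, Module.finrank κ (Oc κ J ⧸ mO κ J ^ L) ≤ D * L ^ n :=
    fun L => d.toEDat.E0 L
  have hE1 : ∀ L : ℕ, Module.finrank κ (Oc κ J ⧸ (Ideal.span {toO κ J (aeval d.y d.F) ^ 2 *
      toO κ J (aeval d.y d.F) ^ 3} ⊔ mO κ J ^ L)) ≤ D * (5 * w * L ^ (n - 1)) :=
    fun L => d.toEDat.E1 hn w hw hF L
  have hfin : ∀ L : ℕ, Module.Finite κ (Oc κ J ⧸ mO κ J ^ L) :=
    fun L => finite_Oc J (mO κ J ^ L) L le_rfl
  refine hi_dat (O := Oc κ J) (K := FractionRing (Oc κ J)) p d hn (toO κ J) hJ0 hπ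
    (fun a => algebraMap_Oc J a) hf (mO κ J) rfl ?_ ψO ?_ hy hc w ?_ ?_
  · exact hfin
  · exact h0
  · exact hE0
  · exact hE1

end FU
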