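import Pool.Agent.Lib.MP_9e8926_ag_U.CalB
import Pool.Agent.Lib.MP_9e8926_ag_U.BorD
import Pool.Agent.Lib.MP_9e8926_ag_U.Ext
import Pool.Agent.Lib.MP_9e8926_ag_U.Len

/-!
# The ideal of bounded level
-/

set_option autoImplicit false

noncomputable section

namespace FU

open IsLocalRing Finset

variable {p : ℕ} [Fact p.Prime] {κ R K : Type*} [Field κ] [CommRing R] [IsDomain R]
  [IsLocalRing R] [Field K] [CharP K p] [CharP R p] [Algebra κ R] [Algebra R K]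
  [IsFractionRing R K] {r : ℕ} {P : Fin r → Ideal R} {c : Fin r → ℚ} {n C0 : ℕ} {E : ℝ}

/-- For `a ∈ 𝔪 ^ T` we have `a ^ q ∈ 𝔪 ^ (T q)`. -/
theorem le_comap_frob {b : Ideal R} {T e : ℕ} (hb : maximalIdeal R ^ (T * p ^ e) ≤ b) :
    maximalIdeal R ^ T ≤ b.comap (iterateFrobenius R p e) := by
  intro a ha
  rw [Ideal.mem_comap, iterateFrobenius_def]
  refine hb ?_
  rw [pow_mul]
  exact Ideal.pow_mem_pow ha _

/-- For `w ∈ C ^ i`, `C = b.comap Frob`, the power `w ^ q` is in ` (C.map Frob) ^ i ≤ b ^ i ≤ I_{e'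
+ e}`
if `S p ^ e' ≤ M i`; use `mem_Ie_of_pow`. -/
theorem Prp_comap_frob {e : ℕ} {ψ : K →+ K} (hψ : IsCart p P c e ψ) (h1 : ψ 1 = 1) {S : ℝ} {M : ℕ}
    {b : Ideal R} (hP : Prp p K (maximalIdeal R) P c S (M * p ^ e) b) :
    Prp p K (maximalIdeal R) P c S M (b.comap (iterateFrobenius R p e)) := by
  intro e' i hi w hw
  refine mem_Ie_of_pow hψ h1 (hP (e' + e) i ?_ ?_)
  · have h2 : (0 : ℝ) ≤ (p : ℝ) ^ e := by positivity
    have h3 := mul_le_mul_of_nonneg_right hi h2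
    rw [pow_add]
    push_cast
    calc S * ((p : ℝ) ^ e' * (p : ℝ) ^ e) = S * (p : ℝ) ^ e' * (p : ℝ) ^ e := by ring
      _ ≤ (M : ℝ) * i * (p : ℝ) ^ e := h3
      _ = (M : ℝ) * (p : ℝ) ^ e * i := by ring
  · have h2 : iterateFrobenius R p e w ∈
        ((b.comap (iterateFrobenius R p e)) ^ i).map (iterateFrobenius R p e) :=
      Ideal.mem_map_of_mem _ hw
    rw [Ideal.map_pow, iterateFrobenius_def] at h2
    exact Ideal.pow_right_mono Ideal.map_comap_le i h2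

private theorem Level_fin {κ R : Type*} [Field κ] [CommRing R] [Algebra κ R] {I J : Ideal R}
    (h : I ≤ J) (hI : Module.Finite κ (R ⧸ I)) : Module.Finite κ (R ⧸ J) :=
  Module.Finite.of_surjective (Ideal.Quotient.factorₐ κ h).toLinearMap
    (Ideal.Quotient.factor_surjective h)

/-- Proof. `C' = C.map Frob ≤ C ^ q`, and `𝔪 ^ ((T + C0) q) ≤ C'` by `maxPow_le_frob` and
`le_comap_frob`.  By `Dat.extract` (`root_mem`) `H ^ (n q) z ∈ C'` for `z ∈ b`.  By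
`finrank_quot_le`
`finrank (R ⧸ C') ≤ finrank (R ⧸ b) + n q finrank (R ⧸ (span {H} ⊔ C'))`, and
`finrank (R ⧸ (span {H} ⊔ C')) ≤ finrank (R ⧸ (span {H} ⊔ 𝔪 ^ ((T + C0) q))) ≤ E ((T + C0) q) ^ (n
- 1)`
(`Dat.E1`, `Dat.fin` for the finiteness). -/
theorem Dat.finrank_comap_frob (hC : 1 ≤ C0) (d : Dat p κ K (maximalIdeal R) P n C0 E) {e : ℕ}
    {ψ : K →+ K} (hψ : IsCart p P c e ψ) (h1 : ψ 1 = 1) (T : ℕ) {b : Ideal R}
    (hb : maximalIdeal R ^ (T * p ^ e) ≤ b) (hs : ∀ i, d.Stab i b) :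
    (Module.finrank κ (R ⧸ (b.comap (iterateFrobenius R p e)) ^ p ^ e) : ℝ) ≤
      (Module.finrank κ (R ⧸ b) : ℝ) +
        (n : ℝ) * (p : ℝ) ^ e * (E * (((T : ℝ) + C0) * (p : ℝ) ^ e) ^ (n - 1)) := by
  have hp : 0 < p ^ e := pow_pos (Nat.Prime.pos Fact.out) e
  set C' : Ideal R := (b.comap (iterateFrobenius R p e)).map (iterateFrobenius R p e) with hC'
  have hle : maximalIdeal R ^ ((T + C0) * p ^ e) ≤ C' :=
    (maxPow_le_frob d.g d.span_g e T).trans (Ideal.map_mono (le_comap_frob hb))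
  have hCq : C' ≤ (b.comap (iterateFrobenius R p e)) ^ p ^ e := by
    rw [hC', Ideal.map_le_iff_le_comap]
    intro a ha
    rw [Ideal.mem_comap, iterateFrobenius_def]
    exact Ideal.pow_mem_pow ha _
  have f1 : Module.Finite κ (R ⧸ C') := Level_fin hle (d.fin _)
  have f2 : Module.Finite κ (R ⧸ b) := Level_fin hb (d.fin _)
  have f3 : Module.Finite κ (R ⧸ (Ideal.span {d.H} ⊔ maximalIdeal R ^ ((T + C0) * p ^ e))) :=
    Level_fin le_sup_right (d.fin _)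
  have h2 : Module.finrank κ (R ⧸ (b.comap (iterateFrobenius R p e)) ^ p ^ e) ≤
      Module.finrank κ (R ⧸ C') := finrank_quot_anti hCq
  have h3 : Module.finrank κ (R ⧸ C') ≤ Module.finrank κ (R ⧸ b) +
      (n * p ^ e) * Module.finrank κ (R ⧸ (Ideal.span {d.H} ⊔ C')) :=
    finrank_quot_le d.H (n * p ^ e) fun z hz =>
      d.extract e (fun x hx => root_mem hψ h1 hx) hs hz
  have h4 : Module.finrank κ (R ⧸ (Ideal.span {d.H} ⊔ C')) ≤ Module.finrank κ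
      (R ⧸ (Ideal.span {d.H} ⊔ maximalIdeal R ^ ((T + C0) * p ^ e))) :=
    finrank_quot_anti (sup_le_sup_left hle _)
  have h5 := d.E1 ((T + C0) * p ^ e) (Nat.mul_pos (by omega) hp)
  change (Module.finrank κ (R ⧸ (Ideal.span {d.H} ⊔ maximalIdeal R ^ ((T + C0) * p ^ e))) : ℝ) ≤
    E * (((T + C0) * p ^ e : ℕ) : ℝ) ^ (n - 1) at h5
  have h6 : (Module.finrank κ (R ⧸ (Ideal.span {d.H} ⊔ C')) : ℝ) ≤
      E * (((T : ℝ) + C0) * (p : ℝ) ^ e) ^ (n - 1) := by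
    refine (Nat.cast_le.2 h4).trans (h5.trans (le_of_eq ?_))
    push_cast
    ring
  have h7 : (Module.finrank κ (R ⧸ (b.comap (iterateFrobenius R p e)) ^ p ^ e) : ℝ) ≤
      (Module.finrank κ (R ⧸ b) : ℝ) +
        (n : ℝ) * (p : ℝ) ^ e * (Module.finrank κ (R ⧸ (Ideal.span {d.H} ⊔ C')) : ℝ) := by
    exact_mod_cast h2.trans h3
  have h8 : (0 : ℝ) ≤ (n : ℝ) * (p : ℝ) ^ e := by positivity
  linarith [mul_le_mul_of_nonneg_left h6 h8]

end FU
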