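import Pool.Agent.Lib.MP_9e8926_ag_U.Defs

/-!
# Frobenius volumes of pairs: affine models, reductions and the two limits

The characteristic zero pair is spread out over a domain `A ⊆ ℂ` which is finitely generated over
`ℤ`: a closed subscheme `X = V(J)` of `𝔸^N` over `A` which contains the zero section `x`, and ideals
`P_j` of `A[x_1, …, x_N]`, with `Δ = ∑ c_j P_j`. For a klt pair `P_j` is the ideal of a prime
divisor `D_j` and `c_j ≥ 0` its coefficient. (A pair over a field `k` of characteristic zero and a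
closed point of it, `k` replaced by the residue field of the point, are defined over a finitely
generated field, which embeds into `ℂ`.)

The residue fields of the closed points `θ` of `Spec A` are finite, and the reduction of the pair
at `θ : A → κ` is given by the ideals `bc θ J` and `bc θ (P j)` of `κ[x_1, …, x_N]`. If it is not
strongly `F`-regular, its thresholds and its Frobenius volume are `0`; if the pair is klt, almost
all reductions are strongly `F`-regular.
-/

set_option autoImplicit false

noncomputable section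

namespace FU

open Filter MvPolynomial

/-! ## The local ring of an affine scheme at the origin -/

section

variable {N : ℕ}

/-- The ideal `(x_1, …, x_N)` of the origin in `k[x_1, …, x_N]`. -/
def mX (N : ℕ) (k : Type*) [CommRing k] : Ideal (MvPolynomial (Fin N) k) :=
  Ideal.span (Set.range (X : Fin N → MvPolynomial (Fin N) k))

/-- The functions on `V(J)` which do not vanish at the origin. -/
def nv (k : Type*) [CommRing k] (J : Ideal (MvPolynomial (Fin N) k)) :
    Submonoid (MvPolynomial (Fin N) k ⧸ J) :=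
  ((IsUnit.submonoid k).comap (constantCoeff : MvPolynomial (Fin N) k →+* k)).map
    (Ideal.Quotient.mk J)

/-- The local ring of `V(J)` at the origin (for a field `k`). -/
abbrev Oc (k : Type*) [CommRing k] (J : Ideal (MvPolynomial (Fin N) k)) : Type _ :=
  Localization (nv k J)

/-- The map from the polynomial ring to the local ring. -/
def toO (k : Type*) [CommRing k] (J : Ideal (MvPolynomial (Fin N) k)) :
    MvPolynomial (Fin N) k →+* Oc k J :=
  (algebraMap (MvPolynomial (Fin N) k ⧸ J) (Oc k J)).comp (Ideal.Quotient.mk J)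

/-- The maximal ideal of the local ring at the origin. -/
def mO (k : Type*) [CommRing k] (J : Ideal (MvPolynomial (Fin N) k)) : Ideal (Oc k J) :=
  (mX N k).map (toO k J)

variable {r : ℕ}

/-- The Frobenius volume at the origin of the pair of `V(J)` and `Δ = ∑ c_j P_j`, of
dimension `n`. -/
def Fvol (n : ℕ) (k : Type*) [CommRing k] (J : Ideal (MvPolynomial (Fin N) k))
    (P : Fin r → Ideal (MvPolynomial (Fin N) k)) (c : Fin r → ℚ) : ℝ :=
  FvolR k n (ringChar k) (FractionRing (Oc k J)) (mO k J) (fun j => (P j).map (toO k J)) c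

/-- The `F`-pure threshold at the origin of the ideal `I` on the pair of `V(J)` and
`Δ = ∑ c_j P_j`. -/
def fptAt (k : Type*) [CommRing k] (J : Ideal (MvPolynomial (Fin N) k))
    (P : Fin r → Ideal (MvPolynomial (Fin N) k)) (c : Fin r → ℚ)
    (I : Ideal (MvPolynomial (Fin N) k)) : ℝ :=
  fpt (ringChar k) (FractionRing (Oc k J)) (mO k J) (fun j => (P j).map (toO k J)) c
    (I.map (toO k J))

/-- The Hilbert-Samuel multiplicity at the origin of the ideal `I` on `V(J)`. -/
def multAt (n : ℕ) (k : Type*) [CommRing k] (J : Ideal (MvPolynomial (Fin N) k))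
    (I : Ideal (MvPolynomial (Fin N) k)) : ℝ :=
  emult k n (I.map (toO k J))

end

/-! ## Limits over the closed points of a domain

The residue fields of the closed points of a finitely generated `ℤ`-algebra are finite, and the
closed points of `Spec A` are the surjective homomorphisms from `A` to finite fields. -/

/-- The property `Q` holds for almost all closed points `θ : A → κ` of `Spec A`, that is, for all
closed points of a non-empty open subset. -/
def Almost {A : Type} [CommRing A]
    (Q : ∀ (κ : Type) [Field κ] [Finite κ], (A →+* κ) → Prop) : Prop :=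
  ∃ s : A, s ≠ 0 ∧ ∀ (κ : Type) [Field κ] [Finite κ] (θ : A →+* κ), Function.Surjective θ →
    θ s ≠ 0 → Q κ θ

/-- The lower limit of a function on the closed points of `Spec A`. -/
def liminfPts {A : Type} [CommRing A]
    (f : ∀ (κ : Type) [Field κ] [Finite κ], (A →+* κ) → ℝ) : ℝ :=
  sSup {v : ℝ | Almost fun κ _ _ (θ : A →+* κ) => v ≤ f κ θ}

/-- The upper limit of a function on the closed points of `Spec A`. -/
def limsupPts {A : Type} [CommRing A]
    (f : ∀ (κ : Type) [Field κ] [Finite κ], (A →+* κ) → ℝ) : ℝ :=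
  sInf {v : ℝ | Almost fun κ _ _ (θ : A →+* κ) => f κ θ ≤ v}

/-- The function `f` on the closed points of `Spec A` converges to `L`: for every `ε > 0` one has
`|f - L| ≤ ε` for almost all closed points. -/
def TendstoPts {A : Type} [CommRing A]
    (f : ∀ (κ : Type) [Field κ] [Finite κ], (A →+* κ) → ℝ) (L : ℝ) : Prop :=
  ∀ ε > 0, Almost fun κ _ _ (θ : A →+* κ) => |f κ θ - L| ≤ ε

/-! ## The two limits of Frobenius volumes -/

section

variable {N r : ℕ}

/-- The base change of an ideal of `A[x_1, …, x_N]`. -/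
abbrev bc {A B : Type*} [CommRing A] [CommRing B] (φ : A →+* B)
    (J : Ideal (MvPolynomial (Fin N) A)) : Ideal (MvPolynomial (Fin N) B) :=
  J.map (MvPolynomial.map φ)

/-- A model over a domain `B` (finitely generated over `ℤ`, with `A ⊆ B ⊆ ℂ`) of an ideal which is
primary to the ideal of the origin: an ideal `I` of `B[x_1, …, x_N]` with
`(x_1, …, x_N) ^ M ⊆ I ⊆ (x_1, …, x_N)`. Every ideal of the local ring of `V(J)` over `ℂ` at the
origin which is primary to the maximal ideal is the extension of `I` for some model of this form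
(`HasMod`, which is a part of the result). -/
structure Mod (N : ℕ) {A : Type} [CommRing A] (ι : A →+* ℂ) where
  /-- the base ring -/
  B : Type
  [cr : CommRing B]
  [dom : IsDomain B]
  [ft : Algebra.FiniteType ℤ B]
  /-- the inclusion `A ⊆ B` -/
  φ : A →+* B
  /-- the inclusion `B ⊆ ℂ` -/
  ψ : B →+* ℂ
  inj : Function.Injective ψ
  comp : ψ.comp φ = ι
  /-- the ideal -/
  I : Ideal (MvPolynomial (Fin N) B)
  le : I ≤ mX N B
  ge : ∃ M : ℕ, mX N B ^ M ≤ I

attribute [instance] Mod.cr Mod.dom Mod.ft

/-- Every ideal `𝔟` of the local ring of `V(J)` over `ℂ` at the origin which is primary to the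
maximal ideal has a model. -/
def HasMod {A : Type} [CommRing A] (ι : A →+* ℂ) (J : Ideal (MvPolynomial (Fin N) A)) : Prop :=
  ∀ 𝔟 : Ideal (Oc ℂ (bc ι J)), IsPrim (R := Oc ℂ (bc ι J)) (mO ℂ (bc ι J)) 𝔟 →
    ∃ 𝔞 : Mod N ι, (bc 𝔞.ψ 𝔞.I).map (toO ℂ (bc ι J)) = 𝔟

/-- The `F`-pure thresholds of the reductions of the model `𝔞` of an ideal. -/
def fptMod {A : Type} [CommRing A] (ι : A →+* ℂ) (J : Ideal (MvPolynomial (Fin N) A))
    (P : Fin r → Ideal (MvPolynomial (Fin N) A)) (c : Fin r → ℚ) (𝔞 : Mod N ι)
    (κ : Type) [Field κ] (ν : 𝔞.B →+* κ) : ℝ :=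
  fptAt κ (bc (ν.comp 𝔞.φ) J) (fun j => bc (ν.comp 𝔞.φ) (P j)) c (bc ν 𝔞.I)

/-- The infimum of `e(𝔞) (lim inf fpt(𝔞_ν))ⁿ` over all models of ideals `𝔞` of the local ring
of `V(J)` over `ℂ` which are primary to the maximal ideal; `e(𝔞)` is the multiplicity of the ideal
`𝔞` over `ℂ`, and `ν` runs over the closed points of the base `B` of the model. -/
def Vlow (n : ℕ) {A : Type} [CommRing A] (ι : A →+* ℂ) (J : Ideal (MvPolynomial (Fin N) A))
    (P : Fin r → Ideal (MvPolynomial (Fin N) A)) (c : Fin r → ℚ) : ℝ :=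
  sInf {v : ℝ | ∃ 𝔞 : Mod N ι, v = multAt n ℂ (bc ι J) (bc 𝔞.ψ 𝔞.I) *
    liminfPts (fun κ _ _ (ν : 𝔞.B →+* κ) => fptMod ι J P c 𝔞 κ ν) ^ n}

/-- The infimum of `e(𝔞) (lim sup fpt(𝔞_ν))ⁿ` over all models of ideals `𝔞` of the local ring
of `V(J)` over `ℂ` which are primary to the maximal ideal. -/
def Vup (n : ℕ) {A : Type} [CommRing A] (ι : A →+* ℂ) (J : Ideal (MvPolynomial (Fin N) A))
    (P : Fin r → Ideal (MvPolynomial (Fin N) A)) (c : Fin r → ℚ) : ℝ :=
  sInf {v : ℝ | ∃ 𝔞 : Mod N ι, v = multAt n ℂ (bc ι J) (bc 𝔞.ψ 𝔞.I) *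
    limsupPts (fun κ _ _ (ν : 𝔞.B →+* κ) => fptMod ι J P c 𝔞 κ ν) ^ n}

/-- The Frobenius volumes of the reductions `θ ↦ Fvol(x_θ, X_θ, Δ_θ)` (infima over all ideals of the
local ring of `X_θ` which are primary to the maximal ideal). -/
def FvolRed (n : ℕ) {A : Type} [CommRing A] (J : Ideal (MvPolynomial (Fin N) A))
    (P : Fin r → Ideal (MvPolynomial (Fin N) A)) (c : Fin r → ℚ) (κ : Type) [Field κ]
    (θ : A →+* κ) : ℝ :=
  Fvol n κ (bc θ J) (fun j => bc θ (P j)) c

end

end FU
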