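import Pool.Agent.Lib.MP_9e8926_ag_U.CalA

/-!
# The Taylor maps with bounded poles
-/

set_option autoImplicit false

noncomputable section

namespace FU

open IsLocalRing PowerSeries Finset

variable {p : ℕ} {κ R K : Type*} [Field κ] [CommRing R] [IsDomain R] [IsLocalRing R]
  [Field K] [Algebra κ R] [Algebra R K] [IsFractionRing R K] {r : ℕ} {P : Fin r → Ideal R}
  {n C0 : ℕ} {E : ℝ}

/-- The element `H = b J`. -/
def Dat.H (d : Dat p κ K (maximalIdeal R) P n C0 E) : R := d.b * d.J

/-- The Taylor map `y_i ↦ y_i + H X`. -/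
def Dat.phi (d : Dat p κ K (maximalIdeal R) P n C0 E) (i : Fin n) : K →+* PowerSeries K :=
  (rescale (algebraMap R K d.H)).comp (d.D i)

/-- The coefficients of the Taylor map. -/
def Dat.th (d : Dat p κ K (maximalIdeal R) P n C0 E) (i : Fin n) (k : ℕ) : K →+ K where
  toFun a := coeff k (d.phi i a)
  map_zero' := by simp
  map_add' a b := by simp

variable (d : Dat p κ K (maximalIdeal R) P n C0 E)

theorem Dat.H_ne : d.H ≠ 0 := mul_ne_zero d.b_ne d.J_ne

theorem Dat.th_def (i : Fin n) (k : ℕ) (a : K) : d.th i k a = coeff k (d.phi i a) := rfl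

theorem Dat.th_apply (i : Fin n) (k : ℕ) (a : K) :
    d.th i k a = algebraMap R K d.H ^ k * coeff k (d.D i a) := by
  rw [Dat.th_def]
  exact coeff_rescale _ _ _

theorem Dat.th_zero (i : Fin n) (a : K) : d.th i 0 a = a := by
  rw [Dat.th_apply, pow_zero, one_mul, coeff_zero_eq_constantCoeff_apply, d.D_zero]

theorem Dat.th_mul (i : Fin n) (k : ℕ) (a b : K) :
    d.th i k (a * b) = ∑ x ∈ antidiagonal k, d.th i x.1 a * d.th i x.2 b := by
  rw [Dat.th_def, map_mul, coeff_mul]
  rfl

private theorem Dat.inj_RK : Function.Injective (algebraMap R K) := IsFractionRing.injective R K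

private theorem Dat.th_const (i : Fin n) (k : ℕ) (c : κ) (a : K) :
    d.th i k (algebraMap R K (algebraMap κ R c) * a) =
      algebraMap R K (algebraMap κ R c) * d.th i k a := by
  rw [Dat.th_apply, Dat.th_apply, map_mul, d.D_const, coeff_C_mul]
  ring

private theorem Dat.exists_s (i : Fin n) (k : ℕ) (a : R) : ∃ s : R,
    algebraMap R K s = algebraMap R K d.J ^ k * coeff k (d.D i (algebraMap R K a)) :=
  d.J_D i k a

private theorem Dat.th_s {i : Fin n} {k : ℕ} {a s : R}
    (h : algebraMap R K s = algebraMap R K d.J ^ k * coeff k (d.D i (algebraMap R K a))) :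
    algebraMap R K (d.b ^ k * s) = d.th i k (algebraMap R K a) := by
  rw [Dat.th_apply, map_mul, h, map_pow, Dat.H, map_mul]
  ring

/-- Existence of the restriction of `th` to `R`; the maps are `κ`-linear by `D_const`. -/
theorem Dat.exists_thR (i : Fin n) (k : ℕ) :
    ∃ f : R →ₗ[κ] R, ∀ a, algebraMap R K (f a) = d.th i k (algebraMap R K a) := by
  have h : ∀ a : R, ∃ s : R, algebraMap R K s = d.th i k (algebraMap R K a) := by
    intro a
    obtain ⟨s, hs⟩ := d.exists_s i k a
    exact ⟨d.b ^ k * s, d.th_s hs⟩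
  choose f hf using h
  refine ⟨{ toFun := f
            map_add' := ?_
            map_smul' := ?_ }, hf⟩
  · intro a b
    apply Dat.inj_RK (K := K)
    rw [hf, map_add, map_add, map_add, hf, hf]
  · intro c a
    apply Dat.inj_RK (K := K)
    have e1 : algebraMap R K (algebraMap κ R c * a) =
        algebraMap R K (algebraMap κ R c) * algebraMap R K a := map_mul _ _ _
    have e2 : algebraMap R K (algebraMap κ R c * f a) =
        algebraMap R K (algebraMap κ R c) * algebraMap R K (f a) := map_mul _ _ _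
    rw [hf, RingHom.id_apply, Algebra.smul_def, Algebra.smul_def, e1, e2, Dat.th_const, hf]

/-- The restriction of `th` to `R`. -/
def Dat.thR (i : Fin n) (k : ℕ) : R →ₗ[κ] R := (d.exists_thR i k).choose

theorem Dat.coe_thR (i : Fin n) (k : ℕ) (a : R) :
    algebraMap R K (d.thR i k a) = d.th i k (algebraMap R K a) := (d.exists_thR i k).choose_spec a

theorem Dat.thR_zero (i : Fin n) (a : R) : d.thR i 0 a = a := by
  apply Dat.inj_RK (K := K)
  rw [Dat.coe_thR, Dat.th_zero]

theorem Dat.thR_mul (i : Fin n) (k : ℕ) (a b : R) :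
    d.thR i k (a * b) = ∑ x ∈ antidiagonal k, d.thR i x.1 a * d.thR i x.2 b := by
  apply Dat.inj_RK (K := K)
  rw [Dat.coe_thR, map_mul, Dat.th_mul, map_sum]
  refine Finset.sum_congr rfl fun x _ => ?_
  rw [map_mul, Dat.coe_thR, Dat.coe_thR]

/-- `th = b ^ k * (J ^ k D^[k])`. -/
theorem Dat.thR_dvd (i : Fin n) (k : ℕ) (a : R) : d.b ^ k ∣ d.thR i k a := by
  obtain ⟨s, hs⟩ := d.exists_s i k a
  refine ⟨s, ?_⟩
  apply Dat.inj_RK (K := K)
  rw [Dat.coe_thR, d.th_s hs]

/-- Proof. `s_k := J ^ k D^[k] : R → R` satisfies the Leibniz rule, and `s_k (𝔪 ^ l) ⊆ 𝔪 ^ (l - k)`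
(natural subtraction) by induction on `l`: for `a ∈ 𝔪`, `a' ∈ 𝔪 ^ l`, the term
`s_u a * s_v a'` with `u + v = k` is in `𝔪 * 𝔪 ^ (l - k)` if `u = 0` and in `𝔪 ^ (l - v)`,
`l - v ≥ l + 1 - k`, if `u ≥ 1`.  Since `b ^ k ∈ 𝔪 ^ (2 k)`, `th = b ^ k s_k` maps `𝔪 ^ l` into
`𝔪 ^ (2 k + (l - k)) ⊆ 𝔪 ^ (l + k)`. -/
theorem Dat.thR_mem_max (i : Fin n) (k l : ℕ) {a : R} (ha : a ∈ maximalIdeal R ^ l) :
    d.thR i k a ∈ maximalIdeal R ^ (l + k) := by
  have hch : ∀ (k : ℕ) (a : R), ∃ s : R,
      algebraMap R K s = algebraMap R K d.J ^ k * coeff k (d.D i (algebraMap R K a)) :=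
    fun k a => d.exists_s i k a
  choose s hs using hch
  have hadd : ∀ k a b, s k (a + b) = s k a + s k b := by
    intro k a b
    apply Dat.inj_RK (K := K)
    rw [hs, map_add, map_add, map_add, map_add, hs, hs]
    ring
  have hzero : ∀ a, s 0 a = a := by
    intro a
    apply Dat.inj_RK (K := K)
    rw [hs, pow_zero, one_mul, coeff_zero_eq_constantCoeff_apply, d.D_zero]
  have hmul : ∀ k a b, s k (a * b) = ∑ x ∈ antidiagonal k, s x.1 a * s x.2 b := by
    intro k a b
    apply Dat.inj_RK (K := K)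
    rw [hs, map_mul, map_mul, coeff_mul, map_sum, Finset.mul_sum]
    refine Finset.sum_congr rfl fun x hx => ?_
    rw [map_mul, hs, hs, ← Finset.HasAntidiagonal.mem_antidiagonal.1 hx, pow_add]
    ring
  have key : ∀ l k : ℕ, ∀ a ∈ maximalIdeal R ^ l, s k a ∈ maximalIdeal R ^ (l - k) := by
    intro l
    induction l with
    | zero =>
      intro k a _
      rw [Nat.zero_sub, pow_zero, Ideal.one_eq_top]
      exact Submodule.mem_top
    | succ l ih =>
      intro k a ha
      rw [pow_succ'] at ha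
      refine Submodule.mul_induction_on ha ?_ ?_
      · intro x hx y hy
        rw [hmul]
        refine Ideal.sum_mem _ fun w hw => ?_
        have hw' := Finset.HasAntidiagonal.mem_antidiagonal.1 hw
        rcases Nat.eq_zero_or_pos w.1 with h0 | h0
        · have h1 : w.2 = k := by omega
          rw [h0, h1, hzero]
          have h2 : x * s k y ∈ maximalIdeal R * maximalIdeal R ^ (l - k) :=
            Ideal.mul_mem_mul hx (ih k y hy)
          rw [← pow_succ'] at h2
          exact Ideal.pow_le_pow_right (by omega) h2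
        · have h2 : s w.1 x * s w.2 y ∈ maximalIdeal R ^ (l - w.2) :=
            Ideal.mul_mem_left _ _ (ih w.2 y hy)
          exact Ideal.pow_le_pow_right (by omega) h2
      · intro x y hx hy
        rw [hadd]
        exact Ideal.add_mem _ hx hy
  have h1 : d.thR i k a = d.b ^ k * s k a := by
    apply Dat.inj_RK (K := K)
    rw [Dat.coe_thR, d.th_s (hs k a)]
  have h2 : d.b ^ k ∈ maximalIdeal R ^ (2 * k) := by
    rw [pow_mul]
    exact Ideal.pow_mem_pow d.b_mem k
  rw [h1]
  have h3 := Ideal.mul_mem_mul h2 (key l k a ha)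
  rw [← pow_add] at h3
  exact Ideal.pow_le_pow_right (by omega) h3

/-- The ideal `I` is stable under the maps `thR i k`. -/
def Dat.Stab (i : Fin n) (I : Ideal R) : Prop := ∀ k, ∀ a ∈ I, d.thR i k a ∈ I

theorem Dat.Stab.mul {i : Fin n} {I I' : Ideal R} (h : d.Stab i I) (h' : d.Stab i I') :
    d.Stab i (I * I') := by
  intro k a ha
  refine Submodule.mul_induction_on ha ?_ ?_
  · intro x hx y hy
    rw [Dat.thR_mul]
    refine Ideal.sum_mem _ fun w _ => ?_
    exact Ideal.mul_mem_mul (h _ _ hx) (h' _ _ hy)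
  · intro x y hx hy
    rw [map_add]
    exact Ideal.add_mem _ hx hy

private theorem Dat.stab_one (i : Fin n) : d.Stab i (1 : Ideal R) := by
  intro k a _
  rw [Ideal.one_eq_top]
  exact Submodule.mem_top

theorem Dat.Stab.pow {i : Fin n} {I : Ideal R} (h : d.Stab i I) (m : ℕ) : d.Stab i (I ^ m) := by
  induction m with
  | zero =>
    rw [pow_zero]
    exact d.stab_one i
  | succ m ih =>
    rw [pow_succ]
    exact Dat.Stab.mul d ih h

theorem Dat.stab_max (i : Fin n) (l : ℕ) : d.Stab i (maximalIdeal R ^ l) := by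
  intro k a ha
  exact Ideal.pow_le_pow_right (Nat.le_add_right _ _) (d.thR_mem_max i k l ha)

/-- For `k = 0` the map is the identity; for `k ≥ 1` its values are multiples of `b ∈ P_j`.
Products and powers: `Stab.mul`, `Stab.pow`, `Finset.prod_induction`. -/
theorem Dat.stab_Dq (i : Fin n) (c : Fin r → ℚ) (q : ℕ) : d.Stab i (Dq P c q) := by
  have hP : ∀ j, d.Stab i (P j) := by
    intro j k a ha
    rcases Nat.eq_zero_or_pos k with h0 | h0
    · rw [h0, Dat.thR_zero]
      exact ha
    · obtain ⟨w, hw⟩ := d.thR_dvd i k a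
      rw [hw]
      exact Ideal.mul_mem_right _ _ (Ideal.pow_mem_of_mem _ (d.b_P j) k h0)
  unfold Dq
  refine Finset.prod_induction _ (d.Stab i) ?_ ?_ ?_
  · intro I I' h h'
    exact Dat.Stab.mul d h h'
  · exact d.stab_one i
  · intro j _
    exact Dat.Stab.pow d (hP j) _

end FU
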