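import Pool.Agent.Lib.MP_9e8926_ag_U.Level

/-!
# Theorem 1, version for graded sequences
-/

set_option autoImplicit false

noncomputable section

namespace FU

open IsLocalRing Finset Filter

variable {p : ℕ} [Fact p.Prime] {κ R K : Type*} [Field κ] [Finite κ] [CommRing R] [IsDomain R]
  [IsLocalRing R] [Field K] [CharP K p] [CharP R p] [Algebra κ R] [Algebra R K]
  [IsFractionRing R K] {r : ℕ} {P : Fin r → Ideal R} {c : Fin r → ℚ} {n C0 : ℕ} {E : ℝ}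

/-- Proof. Let `e0` be as in `exists_split`.  For every `k` with
`finrank (R ⧸ z (M p ^ (k e0))) ≤ B (M p ^ (k e0)) ^ n` (frequently), put `e = k e0`, `q = p ^ e`,
and let
`b` be the stable ideal of `exists_stable` for `b0 = z (M q)`, `m = M q`, `L = Kk (M q)`, and
`C_k = b.comap Frob`.  Then `𝔪 ^ (Kk M) ≤ C_k` (`le_comap_frob`, `Kk (M q) = (Kk M) q`),
`Prp S M C_k` (`Prp_comap_frob`) and
`finrank (R ⧸ C_k ^ q) ≤ B (M q) ^ n + n q E ((Kk M + C0) q) ^ (n - 1)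
  = (B M ^ n + n E (Kk M + C0) ^ (n - 1)) q ^ n` (`Dat.finrank_comap_frob`, `n ≥ 1`).
By `finite_ideals` one ideal `C` is `C_k` for infinitely many of these `k`
(`Filter.Frequently` and finiteness: `Filter.frequently_bex_finite` or a pigeonhole argument).
`C ≤ 𝔪` by `le_max_of_Prp`, so `IsPrim 𝔪 C`, and `emult_le_of_frequently` with
`f k = p ^ (k e0)` gives the bound for `emult`. -/
theorem Dat.thmG (hn : 1 ≤ n) (hC : 1 ≤ C0) (d : Dat p κ K (maximalIdeal R) P n C0 E)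
    (hS : SFR p K (maximalIdeal R) P c ⊤ 0)
    (hlim : ∀ C : Ideal R, IsPrim (maximalIdeal R) C → ∃ L : ℝ, Tendsto (fun N : ℕ =>
      (n.factorial : ℝ) * (Module.finrank κ (R ⧸ C ^ N) : ℝ) / (N : ℝ) ^ n) atTop (nhds L))
    (Kk M : ℕ) (hM : 1 ≤ M) (S : ℝ) (z : ℕ → Ideal R)
    (hz : ∀ m, maximalIdeal R ^ (Kk * m) ≤ z m)
    (hzP : ∀ m, Prp p K (maximalIdeal R) P c S m (z m)) (B : ℝ)
    (hB : ∀ e0 : ℕ, 1 ≤ e0 → ∃ᶠ k : ℕ in atTop,
      (Module.finrank κ (R ⧸ z (M * p ^ (k * e0))) : ℝ) ≤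
        B * ((M : ℝ) * (p : ℝ) ^ (k * e0)) ^ n) :
    ∃ C : Ideal R, maximalIdeal R ^ (Kk * M) ≤ C ∧ C ≤ maximalIdeal R ∧
      Prp p K (maximalIdeal R) P c S M C ∧
      emult κ n C ≤ (n.factorial : ℝ) *
        (B * (M : ℝ) ^ n + n * E * ((Kk : ℝ) * M + C0) ^ (n - 1)) := by
  classical
  obtain ⟨e0, he0, hsp⟩ := exists_split hS
  choose ψ hψ hψ1 using hsp
  have hst : ∀ k : ℕ, ∃ b : Ideal R, maximalIdeal R ^ (Kk * (M * p ^ (k * e0))) ≤ b ∧
      Module.finrank κ (R ⧸ b) ≤ Module.finrank κ (R ⧸ z (M * p ^ (k * e0))) ∧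
      Prp p K (maximalIdeal R) P c S (M * p ^ (k * e0)) b ∧ ∀ i, d.Stab i b := fun k =>
    d.exists_stable hC c S (M * p ^ (k * e0)) (Kk * (M * p ^ (k * e0))) (z (M * p ^ (k * e0)))
      (hz _) (hzP _)
  choose b hb1 hb2 hb3 hb4 using hst
  set Ck : ℕ → Ideal R := fun k => (b k).comap (iterateFrobenius R p (k * e0)) with hCk
  have hb1' : ∀ k, maximalIdeal R ^ (Kk * M * p ^ (k * e0)) ≤ b k := fun k => by
    rw [mul_assoc]
    exact hb1 k
  have h1 : ∀ k, maximalIdeal R ^ (Kk * M) ≤ Ck k := fun k => le_comap_frob (hb1' k)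
  have h2 : ∀ k, Prp p K (maximalIdeal R) P c S M (Ck k) := fun k =>
    Prp_comap_frob (hψ k) (hψ1 k) (hb3 k)
  set A : ℝ := B * (M : ℝ) ^ n + n * E * ((Kk : ℝ) * M + C0) ^ (n - 1) with hA
  have h3 : ∃ᶠ k : ℕ in atTop, (n.factorial : ℝ) *
      (Module.finrank κ (R ⧸ Ck k ^ p ^ (k * e0)) : ℝ) ≤
        (n.factorial : ℝ) * A * ((p ^ (k * e0) : ℕ) : ℝ) ^ n := by
    refine (hB e0 he0).mono fun k hk => ?_
    have h4 := d.finrank_comap_frob hC (hψ k) (hψ1 k) (Kk * M) (hb1' k) (hb4 k)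
    have h5 : (Module.finrank κ (R ⧸ b k) : ℝ) ≤ B * ((M : ℝ) * (p : ℝ) ^ (k * e0)) ^ n :=
      le_trans (by exact_mod_cast hb2 k) hk
    have h6 : (Module.finrank κ (R ⧸ Ck k ^ p ^ (k * e0)) : ℝ) ≤ A * ((p : ℝ) ^ (k * e0)) ^ n := by
      refine h4.trans ((add_le_add_left h5 _).trans (le_of_eq ?_))
      obtain ⟨n', rfl⟩ : ∃ n', n = n' + 1 := ⟨n - 1, by omega⟩
      rw [hA, Nat.add_sub_cancel]
      push_cast
      rw [mul_pow, mul_pow]
      ring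
    rw [mul_assoc]
    refine mul_le_mul_of_nonneg_left ?_ (Nat.cast_nonneg _)
    rw [Nat.cast_pow]
    exact h6
  have hfin := d.finite_ideals (Kk * M)
  have h7 : ∃ C : Ideal R, ∃ᶠ k : ℕ in atTop, Ck k = C ∧ (n.factorial : ℝ) *
      (Module.finrank κ (R ⧸ Ck k ^ p ^ (k * e0)) : ℝ) ≤
        (n.factorial : ℝ) * A * ((p ^ (k * e0) : ℕ) : ℝ) ^ n := by
    by_contra hcon
    push Not at hcon
    have h8 : ∀ C : {b : Ideal R // maximalIdeal R ^ (Kk * M) ≤ b}, ∀ᶠ k : ℕ in atTop,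
        ¬ (Ck k = C.1 ∧ (n.factorial : ℝ) *
          (Module.finrank κ (R ⧸ Ck k ^ p ^ (k * e0)) : ℝ) ≤
            (n.factorial : ℝ) * A * ((p ^ (k * e0) : ℕ) : ℝ) ^ n) := fun C => by
      have h9 := hcon C.1
      filter_upwards [h9] with k hk h10
      exact not_le.2 (hk h10.1) h10.2
    have h11 := Filter.eventually_all.2 h8
    refine h3 ?_
    filter_upwards [h11] with k hk h12
    exact hk ⟨Ck k, h1 k⟩ ⟨rfl, h12⟩
  obtain ⟨C, hC1⟩ := h7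
  obtain ⟨k0, hk0, -⟩ := hC1.exists
  have hC2 : maximalIdeal R ^ (Kk * M) ≤ C := hk0 ▸ h1 k0
  have hC3 : Prp p K (maximalIdeal R) P c S M C := hk0 ▸ h2 k0
  have hC4 : C ≤ maximalIdeal R := le_max_of_Prp hM hC3
  obtain ⟨L, hL⟩ := hlim C ⟨hC4, _, hC2⟩
  refine ⟨C, hC2, hC4, hC3, ?_⟩
  refine emult_le_of_frequently hL (f := fun k => p ^ (k * e0)) ?_ ?_
  · exact (tendsto_pow_atTop_atTop_of_one_lt (Fact.out : p.Prime).one_lt).comp
      (tendsto_id.atTop_mul_const' he0)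
  · refine hC1.mono fun k hk => ?_
    obtain ⟨h12, h13⟩ := hk
    rw [h12] at h13
    exact h13

end FU
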